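import Pool.Agent.Helper10.W1.StA

set_option autoImplicit false

/-!
# Near multiples of `q`: proof of `stAlt`
-/

namespace Pool.Agent.Helper10.W1

open Finset
open scoped Pointwise

/-- a change between `a` and `b` -/
private theorem alt_change (f : ℕ → Prop) (a : ℕ) : ∀ n : ℕ, (f a ↔ ¬ f (a + n)) →
    ∃ m : ℕ, a ≤ m ∧ m < a + n ∧ (f m ↔ ¬ f (m + 1)) := by
  intro n
  induction n with
  | zero =>
    intro h
    simp only [Nat.add_zero] at h
    exfalso
    tauto
  | succ n ih =>
    intro h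
    by_cases h1 : (f a ↔ ¬ f (a + n))
    · obtain ⟨m, hm1, hm2, hm3⟩ := ih h1
      exact ⟨m, hm1, by omega, hm3⟩
    · refine ⟨a + n, by omega, by omega, ?_⟩
      have h' : (f a ↔ ¬ f (a + n + 1)) := h
      tauto

private theorem alt_change' (f : ℕ → Prop) (a b : ℕ) (hab : a < b) (h : f a ↔ ¬ f b) :
    ∃ m : ℕ, a ≤ m ∧ m < b ∧ (f m ↔ ¬ f (m + 1)) := by
  obtain ⟨n, rfl⟩ := Nat.exists_eq_add_of_lt hab
  exact alt_change f a (n + 1) h

open Classical in
/-- the end point belonging to a change at `m` -/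
private noncomputable def altE {p : ℕ} (S : Finset (ZMod p)) (r : ZMod p) (m : ℕ) : ZMod p :=
  if (m : ZMod p) * r ∈ S then (m : ZMod p) * r else -(((m + 1 : ℕ) : ZMod p) * r)

private theorem altE_mem {p : ℕ} (S : Finset (ZMod p)) (r : ZMod p) (m : ℕ) (hS : Sym S)
    (h : (m : ZMod p) * r ∈ S ↔ ¬ ((m + 1 : ℕ) : ZMod p) * r ∈ S) : altE S r m ∈ re r S := by
  unfold altE re
  rw [mem_filter]
  by_cases h1 : (m : ZMod p) * r ∈ S
  · rw [if_pos h1]
    refine ⟨h1, ?_⟩
    have h2 := h.1 h1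
    have h3 : (m : ZMod p) * r + r = ((m + 1 : ℕ) : ZMod p) * r := by
      push_cast; ring
    rw [h3]
    exact h2
  · rw [if_neg h1]
    have h2 : ((m + 1 : ℕ) : ZMod p) * r ∈ S := by
      by_contra h3
      exact h1 (h.2 h3)
    refine ⟨hS _ h2, ?_⟩
    intro h4
    have h5 := hS _ h4
    have h6 : -(-(((m + 1 : ℕ) : ZMod p) * r) + r) = (m : ZMod p) * r := by
      push_cast; ring
    rw [h6] at h5
    exact h1 h5

private theorem altE_ne {p : ℕ} [Fact p.Prime] (S : Finset (ZMod p)) (r : ZMod p) (hr : r ≠ 0)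
    (m m' : ℕ) (h : m < m') (h' : m + m' + 1 < p) : altE S r m ≠ altE S r m' := by
  have e1 : ∀ a b : ℕ, a < p → b < p → (a : ZMod p) * r = (b : ZMod p) * r → a = b := by
    intro a b ha hb hab
    have h1 := mul_right_cancel₀ hr hab
    have h2 := (ZMod.natCast_eq_natCast_iff' a b p).1 h1
    rwa [Nat.mod_eq_of_lt ha, Nat.mod_eq_of_lt hb] at h2
  have e2 : ∀ a b : ℕ, 0 < a + b → a + b < p → (a : ZMod p) * r = -((b : ZMod p) * r) → False := by
    intro a b h0 hab h1
    have h2 : ((a + b : ℕ) : ZMod p) * r = 0 := by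
      push_cast
      rw [add_mul, h1]
      ring
    have h3 := (mul_eq_zero.1 h2).resolve_right hr
    rw [ZMod.natCast_eq_zero_iff] at h3
    exact absurd (Nat.le_of_dvd h0 h3) (by omega)
  unfold altE
  by_cases h1 : (m : ZMod p) * r ∈ S
  · by_cases h2 : (m' : ZMod p) * r ∈ S
    · rw [if_pos h1, if_pos h2]
      intro h3
      have := e1 m m' (by omega) (by omega) h3
      omega
    · rw [if_pos h1, if_neg h2]
      intro h3
      exact e2 m (m' + 1) (by omega) (by omega) h3
  · by_cases h2 : (m' : ZMod p) * r ∈ S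
    · rw [if_neg h1, if_pos h2]
      intro h3
      exact e2 m' (m + 1) (by omega) (by omega) h3.symm
    · rw [if_neg h1, if_neg h2]
      intro h3
      have := e1 (m + 1) (m' + 1) (by omega) (by omega) (neg_injective h3)
      omega

theorem thAlt : stAlt := by
  intro p _ S r m0 m1 m2 m3 hS hr h01 h12 h23 hp c0 c1 c2
  obtain ⟨a, ha1, ha2, ha3⟩ := alt_change' (fun n : ℕ => (n : ZMod p) * r ∈ S) m0 m1 h01 c0
  obtain ⟨b, hb1, hb2, hb3⟩ := alt_change' (fun n : ℕ => (n : ZMod p) * r ∈ S) m1 m2 h12 c1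
  obtain ⟨c, hc1, hc2, hc3⟩ := alt_change' (fun n : ℕ => (n : ZMod p) * r ∈ S) m2 m3 h23 c2
  have ea := altE_mem S r a hS ha3
  have eb := altE_mem S r b hS hb3
  have ec := altE_mem S r c hS hc3
  have nab := altE_ne S r hr a b (by omega) (by omega)
  have nac := altE_ne S r hr a c (by omega) (by omega)
  have nbc := altE_ne S r hr b c (by omega) (by omega)
  have h3 : ({altE S r a, altE S r b, altE S r c} : Finset (ZMod p)).card = 3 :=
    card_eq_three.2 ⟨_, _, _, nab, nac, nbc, rfl⟩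
  rw [← h3]
  apply card_le_card
  intro x hx
  simp only [mem_insert, mem_singleton] at hx
  rcases hx with rfl | rfl | rfl
  · exact ea
  · exact eb
  · exact ec

end Pool.Agent.Helper10.W1
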