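import Pool.Agent.Helper10.W1.StA

set_option autoImplicit false

/-!
# Near multiples of `q`: module Arc
-/

namespace Pool.Agent.Helper10.W1

open Finset
open scoped Pointwise

theorem thArc (hEnds : stEnds) : stArc := by
  intro p _ S d e hd
  have key : ∀ (n : ℕ) (S : Finset (ZMod p)) (e : ZMod p), S.card = n → S ≠ univ → e ∈ S →
      (∀ z ∈ re d S, z = e) → S = (range S.card).image (fun j : ℕ => e - (j : ZMod p) * d) := by
    intro n
    induction n with
    | zero =>
      intro S e hS _ he
      rw [card_eq_zero] at hS
      rw [hS] at he
      exact absurd he (notMem_empty e)
    | succ n ih =>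
      intro S e hS hne he hre
      have hc : (S.erase e).card = n := by rw [card_erase_of_mem he, hS]; rfl
      have hins : S = insert e (S.erase e) := (insert_erase he).symm
      have himg : insert e ((range n).image (fun j : ℕ => (e - d) - (j : ZMod p) * d)) =
          (range (n + 1)).image (fun j : ℕ => e - (j : ZMod p) * d) := by
        ext x
        simp only [mem_insert, mem_image, mem_range]
        constructor
        · rintro (rfl | ⟨j, hj, rfl⟩)
          · exact ⟨0, Nat.succ_pos n, by simp⟩
          · exact ⟨j + 1, by omega, by push_cast; ring⟩
        · rintro ⟨j, hj, rfl⟩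
          rcases Nat.eq_zero_or_pos j with h0 | h0
          · left
            rw [h0]
            simp
          · right
            refine ⟨j - 1, by omega, ?_⟩
            have h1 : ((j - 1 : ℕ) : ZMod p) = (j : ZMod p) - 1 := by
              rw [Nat.cast_sub h0, Nat.cast_one]
            rw [h1]
            ring
      rcases (S.erase e).eq_empty_or_nonempty with h0 | h0
      · have hn : n = 0 := by rw [← hc, h0, card_empty]
        rw [hS, hn]
        conv_lhs => rw [hins, h0]
        simp
      · have hne' : S.erase e ≠ univ := by
          intro h
          have : e ∈ S.erase e := by rw [h]; exact mem_univ e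
          exact notMem_erase e S this
        have hre' : ∀ z ∈ re d (S.erase e), z = e - d := by
          intro z hz
          simp only [re, mem_filter, mem_erase] at hz
          by_contra hne2
          have hzd : z + d ≠ e := fun h => hne2 (by rw [← h]; ring)
          have hzS : z + d ∉ S := fun h => hz.2 ⟨hzd, h⟩
          have hzr : z ∈ re d S := by
            simp only [re, mem_filter]
            exact ⟨hz.1.2, hzS⟩
          exact hz.1.1 (hre z hzr)
        obtain ⟨z, hz⟩ := (hEnds p (S.erase e) ∅ ∅ d).1 hd h0 hne'
        have hzS : z ∈ S.erase e := by
          simp only [re, mem_filter] at hz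
          exact hz.1
        have hed : e - d ∈ S.erase e := by
          rw [← hre' z hz]
          exact hzS
        have h1 := ih (S.erase e) (e - d) hc hne' hed hre'
        rw [hc] at h1
        rw [hS, ← himg, ← h1]
        exact hins
  exact fun hne he hre => key S.card S e rfl hne he hre

end Pool.Agent.Helper10.W1
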