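import Pool.Agent.Helper10.W1.StA

set_option autoImplicit false

/-!
# Module ARCK
-/

namespace Pool.Agent.Helper10.W1

open Finset
open scoped Pointwise

theorem thArcK (hArc : stArc) (hEnds : stEnds) : stArcK := by
  intro p _ S A B r hp hS hA hB h0 hr hne hcard ⟨a, haA, haS⟩ ⟨b, hbB, hbS⟩
  obtain ⟨e, he⟩ := (hEnds p S S S r).1 hr ⟨0, h0⟩ hne
  have huniq : ∀ z ∈ re r S, z = e := fun z hz => card_le_one.mp hcard z hz e he
  have heS : e ∈ S ∧ e + r ∉ S := by simpa [re] using he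
  have hSim := hArc p S r e hr hne heS.1 huniq
  have h0' := h0
  rw [hSim] at h0'
  obtain ⟨j0, hj0, h0e⟩ := mem_image.mp h0'
  rw [mem_range] at hj0
  have hee : e = (j0 : ZMod p) * r := by linear_combination h0e
  have mem : ∀ j : ℕ, j < S.card → ((j0 : ZMod p) - j) * r ∈ S := by
    intro j hj
    have h1 : e - (j : ZMod p) * r ∈ (range S.card).image (fun j : ℕ => e - (j : ZMod p) * r) :=
      mem_image.mpr ⟨j, mem_range.mpr hj, rfl⟩
    rw [← hSim] at h1
    have h2 : ((j0 : ZMod p) - j) * r = e - (j : ZMod p) * r := by rw [hee]; ring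
    rw [h2]; exact h1
  have hn : S.card ≤ 2 * j0 + 1 := by
    by_contra hcon
    have h1 := mem (2 * j0 + 1) (by omega)
    have h2 := hS _ h1
    apply heS.2
    have h3 : e + r = -(((j0 : ZMod p) - ((2 * j0 + 1 : ℕ) : ZMod p)) * r) := by
      rw [hee]; push_cast; ring
    rw [h3]; exact h2
  have pos : ∀ m : ℕ, m ≤ j0 → (m : ZMod p) * r ∈ S := by
    intro m hm
    have h1 := mem (j0 - m) (by omega)
    have h2 : ((j0 : ZMod p) - ((j0 - m : ℕ) : ZMod p)) * r = (m : ZMod p) * r := by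
      rw [Nat.cast_sub hm]; ring
    rw [h2] at h1; exact h1
  have up : ∀ z ∈ S, ∃ m : ℕ, m ≤ j0 ∧ (z = (m : ZMod p) * r ∨ z = -((m : ZMod p) * r)) := by
    intro z hz
    rw [hSim] at hz
    obtain ⟨j, hj, hjz⟩ := mem_image.mp hz
    rw [mem_range] at hj
    rcases le_total j j0 with h | h
    · refine ⟨j0 - j, by omega, Or.inl ?_⟩
      rw [← hjz, hee, Nat.cast_sub h]; ring
    · refine ⟨j - j0, by omega, Or.inr ?_⟩
      rw [← hjz, hee, Nat.cast_sub h]; ring
  obtain ⟨m1, hm1, ha⟩ := up a haS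
  obtain ⟨m2, hm2, hb⟩ := up b hbS
  have hA1 : (m1 : ZMod p) * r ∈ A := by
    rcases ha with h | h
    · rw [← h]; exact haA
    · have := hA a haA; rw [h, neg_neg] at this; exact this
  have hB1 : -((m2 : ZMod p) * r) ∈ B := by
    rcases hb with h | h
    · have := hB b hbB; rw [h] at this; exact this
    · rw [← h]; exact hbB
  rcases le_total m1 m2 with h | h
  · refine ⟨_, hA1, _, hB1, ((m2 - m1 : ℕ) : ZMod p) * r, pos _ (by omega), ?_⟩
    rw [Nat.cast_sub h]; ring
  · refine ⟨_, hA1, _, hB1, -(((m1 - m2 : ℕ) : ZMod p) * r), hS _ (pos _ (by omega)), ?_⟩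
    rw [Nat.cast_sub h]; ring

end Pool.Agent.Helper10.W1
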