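import Pool.Agent.Helper10.W1.StB

set_option autoImplicit false

namespace Pool.Agent.Helper10.W1

open Finset

theorem arr_shift {p : ℕ} [NeZero p] {M : Type*} [AddCommMonoid M] (f : ZMod p → M) (c : ZMod p) :
    ∑ z, f (z + c) = ∑ z, f z :=
  Fintype.sum_equiv (Equiv.addRight c) _ _ (fun z => by simp)

/-- first moment -/
theorem arr_mom {p : ℕ} [NeZero p] (c : ZMod p) (u : ZMod p → ℤ) :
    ∑ z, z * ((sg c u z : ℤ) : ZMod p) = 2 * c * ∑ z, ((u z : ℤ) : ZMod p) := by
  have h1 : ∑ z, z * ((u (z - c) : ℤ) : ZMod p) = ∑ z, (z + c) * ((u z : ℤ) : ZMod p) := by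
    rw [← arr_shift (fun z => z * ((u (z - c) : ℤ) : ZMod p)) c]
    refine sum_congr rfl fun z _ => ?_
    simp
  have h2 : ∑ z, z * ((u (z + c) : ℤ) : ZMod p) = ∑ z, (z - c) * ((u z : ℤ) : ZMod p) := by
    rw [← arr_shift (fun z => (z - c) * ((u z : ℤ) : ZMod p)) c]
    refine sum_congr rfl fun z _ => ?_
    simp
  simp only [sg, Int.cast_sub, mul_sub, sum_sub_distrib]
  rw [h1, h2, ← sum_sub_distrib, mul_sum]
  refine sum_congr rfl fun z _ => ?_
  ring

theorem thArcRel : stArcRel := by
  intro p _ S η hp hsym hne huniv hη hre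
  have h2 : (2 : ZMod p) ≠ 0 := by
    intro h
    have h1 : ((2 : ℕ) : ZMod p) = 0 := by exact_mod_cast h
    rw [ZMod.natCast_eq_zero_iff] at h1
    exact absurd (Nat.le_of_dvd (by norm_num) h1) (by omega)
  have h2η : (2 * η : ZMod p) ≠ 0 := mul_ne_zero h2 hη
  -- there is a right end point
  have hex : (re (2 * η) S).Nonempty := by
    by_contra hcon
    rw [not_nonempty_iff_eq_empty, re, filter_eq_empty_iff] at hcon
    obtain ⟨s, hs⟩ := hne
    have hall : ∀ n : ℕ, s + (n : ZMod p) * (2 * η) ∈ S := by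
      intro n
      induction n with
      | zero => simpa using hs
      | succ n ih =>
        have h3 := hcon ih
        push Not at h3
        have h4 : s + ((n + 1 : ℕ) : ZMod p) * (2 * η) = s + (n : ZMod p) * (2 * η) + 2 * η := by
          push_cast; ring
        rw [h4]
        exact h3
    apply huniv
    rw [eq_univ_iff_forall]
    intro z
    have h5 := hall ((z - s) * (2 * η)⁻¹).val
    rw [ZMod.natCast_val, ZMod.cast_id, mul_assoc, inv_mul_cancel₀ h2η, mul_one] at h5
    simpa using h5
  obtain ⟨e, he⟩ := hex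
  have huniq : ∀ z ∈ re (2 * η) S, z = e := fun z hz => card_le_one.mp hre z hz e he
  have heS : e ∈ S ∧ e + 2 * η ∉ S := by
    simpa [re] using he
  have hsym' : ∀ z, -z ∈ S → z ∈ S := fun z hz => by simpa using hsym _ hz
  -- the pointwise identity
  have hpt : ∀ z, sg η (chi S) z = sg (e + η) dl z := by
    intro z
    have hA : (z - η ∈ S ∧ z + η ∉ S) ↔ z = e + η := by
      constructor
      · rintro ⟨h3, h4⟩
        have h5 : z - η ∈ re (2 * η) S := by
          rw [re, mem_filter]
          refine ⟨h3, ?_⟩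
          rwa [show z - η + 2 * η = z + η by ring]
        rw [← huniq _ h5]
        ring
      · rintro rfl
        refine ⟨by simpa using heS.1, ?_⟩
        rw [show e + η + η = e + 2 * η by ring]
        exact heS.2
    have hB : (z - η ∉ S ∧ z + η ∈ S) ↔ z = -(e + η) := by
      constructor
      · rintro ⟨h3, h4⟩
        have h5 : -(z + η) ∈ re (2 * η) S := by
          rw [re, mem_filter]
          refine ⟨hsym _ h4, fun h6 => h3 (hsym' _ ?_)⟩
          rwa [show -(z + η) + 2 * η = -(z - η) by ring] at h6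
        have h6 := huniq _ h5
        rw [← h6]
        ring
      · rintro rfl
        constructor
        · intro h3
          apply heS.2
          apply hsym'
          rwa [show -(e + η) - η = -(e + 2 * η) by ring] at h3
        · rw [show -(e + η) + η = -e by ring]
          exact hsym _ heS.1
    have hC : dl (z - (e + η)) = if z = e + η then 1 else 0 := by
      simp only [dl, sub_eq_zero]
    have hD : dl (z + (e + η)) = if z = -(e + η) then 1 else 0 := by
      simp only [dl, ← eq_neg_iff_add_eq_zero]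
    simp only [sg, hC, hD, chi]
    by_cases h3 : z - η ∈ S <;> by_cases h4 : z + η ∈ S
    · have h5 : ¬ z = e + η := fun h => (hA.mpr h).2 h4
      have h6 : ¬ z = -(e + η) := fun h => (hB.mpr h).1 h3
      rw [if_pos h3, if_pos h4, if_neg h5, if_neg h6]; norm_num
    · have h5 : z = e + η := hA.mp ⟨h3, h4⟩
      have h6 : ¬ z = -(e + η) := fun h => (hB.mpr h).1 h3
      rw [if_pos h3, if_neg h4, if_pos h5, if_neg h6]
    · have h5 : ¬ z = e + η := fun h => h3 (hA.mpr h).1
      have h6 : z = -(e + η) := hB.mp ⟨h3, h4⟩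
      rw [if_neg h3, if_pos h4, if_neg h5, if_pos h6]
    · have h5 : ¬ z = e + η := fun h => h3 (hA.mpr h).1
      have h6 : ¬ z = -(e + η) := fun h => h4 (hB.mpr h).2
      rw [if_neg h3, if_neg h4, if_neg h5, if_neg h6]
  -- the first moment
  have hm1 := arr_mom η (chi S)
  have hm2 := arr_mom (e + η) (dl (p := p))
  have h7 : ∑ z, z * ((sg η (chi S) z : ℤ) : ZMod p) =
      ∑ z, z * ((sg (e + η) dl z : ℤ) : ZMod p) := sum_congr rfl fun z _ => by rw [hpt z]
  have h8 : ∑ z, ((chi S z : ℤ) : ZMod p) = (S.card : ZMod p) := by simp [chi]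
  have h9 : ∑ z : ZMod p, ((dl z : ℤ) : ZMod p) = 1 := by simp [dl]
  rw [hm1, hm2, h8, h9] at h7
  have h10 : (S.card : ZMod p) * η = e + η := by
    apply mul_left_cancel₀ h2
    linear_combination h7
  intro z
  rw [h10]
  exact hpt z

end Pool.Agent.Helper10.W1
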