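import Pool.Agent.Helper10.W1.StB

set_option autoImplicit false

namespace Pool.Agent.Helper10.W1

open Finset

/-- shift a sum over `ZMod p` -/
theorem bas_shift {p : ℕ} [NeZero p] {M : Type*} [AddCommMonoid M] (f : ZMod p → M) (c : ZMod p) :
    ∑ z, f (z + c) = ∑ z, f z :=
  Fintype.sum_equiv (Equiv.addRight c) _ _ (fun z => by simp)

theorem bas_L {p : ℕ} [NeZero p] (φ : ZMod p → ZMod p) (c : ZMod p) (u : ZMod p → ℤ) :
    ∑ z, φ z * ((sg c u z : ℤ) : ZMod p) = ∑ z, (φ (z + c) - φ (z - c)) * ((u z : ℤ) : ZMod p) := by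
  have h1 : ∑ z, φ z * ((u (z - c) : ℤ) : ZMod p) = ∑ z, φ (z + c) * ((u z : ℤ) : ZMod p) := by
    rw [← bas_shift (fun z => φ z * ((u (z - c) : ℤ) : ZMod p)) c]
    refine sum_congr rfl fun z _ => ?_
    simp
  have h2 : ∑ z, φ z * ((u (z + c) : ℤ) : ZMod p) = ∑ z, φ (z - c) * ((u z : ℤ) : ZMod p) := by
    rw [← bas_shift (fun z => φ (z - c) * ((u z : ℤ) : ZMod p)) c]
    refine sum_congr rfl fun z _ => ?_
    simp
  simp only [sg, Int.cast_sub, mul_sub, sum_sub_distrib, sub_mul]
  rw [h1, h2]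

theorem bas_inv {p : ℕ} [Fact p.Prime] {M : Type*} (w : ZMod p → M) (d : ZMod p) (hd : d ≠ 0)
    (h : ∀ z, w (z + d) = w z) (z : ZMod p) : w z = w 0 := by
  have h2 : ∀ n : ℕ, w ((n : ZMod p) * d) = w 0 := by
    intro n
    induction n with
    | zero => simp
    | succ n ih =>
      have : ((n + 1 : ℕ) : ZMod p) * d = (n : ZMod p) * d + d := by push_cast; ring
      rw [this, h, ih]
  have h3 := h2 (z * d⁻¹).val
  rw [ZMod.natCast_val, ZMod.cast_id] at h3
  rwa [mul_assoc, inv_mul_cancel₀ hd, mul_one] at h3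

theorem bas_two {p : ℕ} [Fact p.Prime] (hp : 3 ≤ p) : (2 : ZMod p) ≠ 0 := by
  intro h
  have h1 : ((2 : ℕ) : ZMod p) = 0 := by exact_mod_cast h
  rw [ZMod.natCast_eq_zero_iff] at h1
  exact absurd (Nat.le_of_dvd (by norm_num) h1) (by omega)

theorem bas_chi {p : ℕ} [NeZero p] (S : Finset (ZMod p)) :
    ∑ z, ((chi S z : ℤ) : ZMod p) = (S.card : ZMod p) := by
  simp [chi]

theorem bas_dl {p : ℕ} [NeZero p] : ∑ z : ZMod p, ((dl z : ℤ) : ZMod p) = 1 := by
  simp [dl]

theorem bas_sum {p : ℕ} [NeZero p] (c : ZMod p) (u : ZMod p → ℤ) : ∑ z, sg c u z = 0 := by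
  simp only [sg, sum_sub_distrib]
  rw [bas_shift u c]
  have := bas_shift u (-c)
  simp only [← sub_eq_add_neg] at this
  rw [this, sub_self]

theorem bas_mom {p : ℕ} [NeZero p] (c d : ZMod p) (u : ZMod p → ℤ) :
    ∑ z, z ^ 2 * ((sg c (sg d u) z : ℤ) : ZMod p) = 8 * c * d * ∑ z, ((u z : ℤ) : ZMod p) := by
  rw [bas_L (fun z => z ^ 2)]
  have h1 : ∑ z, ((z + c) ^ 2 - (z - c) ^ 2) * ((sg d u z : ℤ) : ZMod p) =
      ∑ z, (4 * c * z) * ((sg d u z : ℤ) : ZMod p) := by
    refine sum_congr rfl fun z _ => ?_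
    ring
  rw [h1, bas_L (fun z => 4 * c * z), mul_sum]
  refine sum_congr rfl fun z _ => ?_
  ring

theorem thBasics : stBasics := by
  intro p _ c d a b u v S ε hp
  refine ⟨?_, ?_, ?_, bas_sum c u⟩
  · intro z
    simp only [sg]
    rw [show z - c - d = z - d - c by ring, show z - c + d = z + d - c by ring,
      show z + c - d = z - d + c by ring, show z + c + d = z + d + c by ring]
    ring
  · intro h
    have h1 := bas_mom c d (chi S)
    have h2 := bas_mom a b (dl (p := p))
    rw [bas_chi] at h1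
    rw [bas_dl] at h2
    have h3 : ∑ z, z ^ 2 * ((sg c (sg d (chi S)) z : ℤ) : ZMod p) =
        (ε : ZMod p) * ∑ z, z ^ 2 * ((sg a (sg b dl) z : ℤ) : ZMod p) := by
      rw [mul_sum]
      refine sum_congr rfl fun z _ => ?_
      rw [h z]
      push_cast
      ring
    rw [h1, h2] at h3
    have h8 : (8 : ZMod p) ≠ 0 := by
      have := bas_two (p := p) hp
      have h8' : (8 : ZMod p) = 2 ^ 3 := by norm_num
      rw [h8']
      exact pow_ne_zero 3 this
    apply mul_left_cancel₀ h8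
    linear_combination h3
  · intro hc h hs z
    have h2 : (2 * c : ZMod p) ≠ 0 := mul_ne_zero (bas_two hp) hc
    have hw : ∀ z, (fun z => u z - v z) (z + 2 * c) = (fun z => u z - v z) z := by
      intro z
      have h3 := h (z + c)
      simp only [sg] at h3
      rw [show z + c - c = z by ring, show z + c + c = z + 2 * c by ring] at h3
      simp only
      linarith
    have h4 : ∀ z, u z - v z = u 0 - v 0 := bas_inv (fun z => u z - v z) (2 * c) h2 hw
    have h5 : ∑ z, (u z - v z) = 0 := by rw [sum_sub_distrib, hs, sub_self]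
    rw [sum_congr rfl (fun z _ => h4 z), sum_const, card_univ, ZMod.card] at h5
    have h6 : u 0 - v 0 = 0 := by
      rw [nsmul_eq_mul] at h5
      rcases mul_eq_zero.mp h5 with h5 | h5
      · exfalso
        have : p = 0 := by exact_mod_cast h5
        omega
      · exact h5
    have := h4 z
    rw [h6] at this
    linarith

end Pool.Agent.Helper10.W1
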