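import Pool.Agent.Helper10.W1.StD

set_option autoImplicit false

/-!
# Module BULK
-/

namespace Pool.Agent.Helper10.W1

open Finset

private theorem blk_mm (p q : ℕ) (hq : 0 < q) (j : ℕ) (hj : j < p) (ρ i : ℤ) (h0 : 0 ≤ ρ)
    (h1 : ρ < q) : Pool.Agent.Helper55.FT.mm p q i (j * q + ρ) =
      ∑ l ∈ range (j + 1), if ((j : ZMod p) * q + (ρ : ZMod p) - (i : ZMod p)) = (l : ZMod p) * q
        then 1 else 0 := by
  unfold Pool.Agent.Helper55.FT.mm
  have hsub : range (j + 1) ⊆ range p := by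
    intro l hl
    rw [mem_range] at *
    omega
  rw [← sum_subset hsub]
  · refine sum_congr rfl fun l hl => ?_
    rw [mem_range] at hl
    have h2 : (l : ℤ) * q ≤ j * q + ρ := by
      have : (l : ℤ) ≤ j := by exact_mod_cast Nat.lt_succ_iff.1 hl
      nlinarith
    have h3 : ((p : ℤ) ∣ (j : ℤ) * q + ρ - i - l * q) ↔
        ((j : ZMod p) * q + (ρ : ZMod p) - (i : ZMod p)) = (l : ZMod p) * q := by
      rw [← ZMod.intCast_zmod_eq_zero_iff_dvd]
      push_cast
      rw [sub_eq_zero]
    simp only [h2, h3, true_and]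
  · intro l hl hl2
    rw [mem_range] at hl hl2
    rw [if_neg]
    rintro ⟨h2, -⟩
    have h3 : (j : ℤ) + 1 ≤ l := by
      have : j + 1 ≤ l := by omega
      exact_mod_cast this
    have h4 : (0 : ℤ) < q := by exact_mod_cast hq
    nlinarith

private theorem blk_HH (p : ℕ) (x y z : ZMod p) (m : ℕ) :
    (∑ j ∈ range (m + 1), ∑ l ∈ range (j + 1),
      if ((j : ZMod p) - l) * x + (l : ZMod p) * y = z then (1 : ℤ) else 0) = HH x y m z := by
  unfold HH
  rw [← Finset.sum_range_diag_flip (m + 1) (fun i j' : ℕ =>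
    if (i : ZMod p) * x + (j' : ZMod p) * y = z then (1 : ℤ) else 0)]
  refine sum_congr rfl fun j hj => ?_
  rw [← Finset.sum_range_reflect]
  refine sum_congr rfl fun l hl => ?_
  rw [mem_range] at hl
  have h1 : ((j + 1 - 1 - l : ℕ) : ZMod p) = (j : ZMod p) - l := by
    rw [Nat.add_sub_cancel, Nat.cast_sub (by omega)]
  have h2 : ((j - l : ℕ) : ZMod p) = (j : ZMod p) - l := by
    rw [Nat.cast_sub (by omega)]
  rw [h1, h2, sub_sub_cancel]

private theorem blk_main (p q α v κ m : ℕ) [Fact p.Prime] (hq : 0 < q)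
    (hvq : (p - 1) * v + p ≤ q) (hm : m < p) (hκ : (p - 1) * v ≤ κ) (hκq : κ < q)
    (hα : (α : ZMod p) ≠ 0) (w : ℤ) (x y : ZMod p)
    (hx : x = -((α * q + v : ℕ) : ZMod p) / (α : ZMod p))
    (hy : y = -(v : ZMod p) / (α : ZMod p)) :
    ∑ e ∈ range p, Pool.Agent.Helper55.FT.bv p q (((m + 1) * q : ℕ) - 1 : ℤ)
      (κ - e * ((α * q + v : ℕ) : ℤ) - w * q) =
      HH x y m ((κ : ZMod p) + w * v / α) - HH x y m ((κ : ZMod p) + w * v / α - 1) := by
  have hp0 : 0 < p := (Fact.out : p.Prime).pos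
  haveI : NeZero p := ⟨hp0.ne'⟩
  set z : ZMod p := (κ : ZMod p) + w * v / α with hz
  set F : ℕ → ℤ := fun j => if j ≤ m then
    ((∑ l ∈ range (j + 1), if ((j : ZMod p) - l) * x + (l : ZMod p) * y = z then (1 : ℤ) else 0) -
    ∑ l ∈ range (j + 1), if ((j : ZMod p) - l) * x + (l : ZMod p) * y = z - 1 then (1 : ℤ) else 0)
    else 0 with hF
  -- value of one term
  have hterm : ∀ e < p, Pool.Agent.Helper55.FT.bv p q (((m + 1) * q : ℕ) - 1 : ℤ)
      (κ - e * ((α * q + v : ℕ) : ℤ) - w * q) =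
      F (-(e : ZMod p) * α - w).val := by
    intro e he
    obtain ⟨j, hj⟩ : ∃ j, j = (-(e : ZMod p) * α - w).val := ⟨_, rfl⟩
    have hjp : j < p := by rw [hj]; exact ZMod.val_lt _
    have hjz : (j : ZMod p) = -(e : ZMod p) * α - w := by rw [hj]; exact ZMod.natCast_zmod_val _
    rw [← hj]
    have hev : e * v ≤ κ := by
      have : e * v ≤ (p - 1) * v := Nat.mul_le_mul_right _ (by omega)
      omega
    obtain ⟨s, hs⟩ : (p : ℤ) ∣ (e : ℤ) * α + w + j := by
      rw [← ZMod.intCast_zmod_eq_zero_iff_dvd]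
      push_cast
      rw [hjz]; ring
    have hρ0 : (0 : ℤ) ≤ (κ : ℤ) - e * v := by
      have : ((e * v : ℕ) : ℤ) ≤ κ := by exact_mod_cast hev
      push_cast at this; linarith
    have hρ1 : (κ : ℤ) - e * v < q := by
      have h1 : (κ : ℤ) < q := by exact_mod_cast hκq
      have h2 : (0 : ℤ) ≤ (e : ℤ) * v := by positivity
      linarith
    have hqz : (0 : ℤ) < q := by exact_mod_cast hq
    have hmod : ((κ : ℤ) - e * ((α * q + v : ℕ) : ℤ) - w * q) % ((p : ℤ) * q) =
        j * q + (κ - e * v) := by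
      have h1 : (κ : ℤ) - e * ((α * q + v : ℕ) : ℤ) - w * q =
          (j * q + (κ - e * v)) + (p : ℤ) * q * (-s) := by
        have : (p : ℤ) * q * (-s) = -(q * (p * s)) := by ring
        rw [this, ← hs]
        push_cast
        ring
      rw [h1, Int.add_mul_emod_self_left]
      refine Int.emod_eq_of_lt ?_ ?_
      · have : (0 : ℤ) ≤ j * q := by positivity
        linarith
      · have h2 : (j : ℤ) + 1 ≤ p := by exact_mod_cast hjp
        nlinarith
    unfold Pool.Agent.Helper55.FT.bv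
    rw [hmod]
    have hle : ((j : ℤ) * q + (κ - e * v) ≤ ((m + 1) * q : ℕ) - 1) ↔ j ≤ m := by
      constructor
      · intro h
        by_contra hc
        have h2 : (m : ℤ) + 1 ≤ j := by
          have : m + 1 ≤ j := by omega
          exact_mod_cast this
        push_cast at h
        nlinarith
      · intro h
        have h2 : (j : ℤ) ≤ m := by exact_mod_cast h
        push_cast
        nlinarith
    simp only [hle, hF]
    by_cases hjm : j ≤ m
    · rw [if_pos hjm, if_pos hjm]
      unfold Pool.Agent.Helper55.FT.av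
      rw [blk_mm p q hq j hjp _ 0 hρ0 hρ1, blk_mm p q hq j hjp _ 1 hρ0 hρ1]
      have hev2 : (e : ZMod p) = -((j : ZMod p) + w) / α := by
        rw [hjz]; field_simp; ring
      have key : ∀ (l : ℕ), (j : ZMod p) * q + (((κ : ℤ) - e * v : ℤ) : ZMod p) - (l : ZMod p) * q
          = z - (((j : ZMod p) - l) * x + (l : ZMod p) * y) := by
        intro l
        rw [hz, hx, hy]
        push_cast
        rw [hev2]
        field_simp
        ring
      congr 1
      · refine sum_congr rfl fun l _ => ?_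
        have : ((j : ZMod p) * q + (((κ : ℤ) - e * v : ℤ) : ZMod p) - ((0 : ℤ) : ZMod p) =
            (l : ZMod p) * q) ↔ (((j : ZMod p) - l) * x + (l : ZMod p) * y = z) := by
          rw [← sub_eq_zero]
          have h1 : (j : ZMod p) * q + (((κ : ℤ) - e * v : ℤ) : ZMod p) - ((0 : ℤ) : ZMod p) -
              (l : ZMod p) * q = z - (((j : ZMod p) - l) * x + (l : ZMod p) * y) := by
            rw [← key l]; push_cast; ring
          rw [h1, sub_eq_zero]
          exact eq_comm
        simp only [this]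
      · refine sum_congr rfl fun l _ => ?_
        have : ((j : ZMod p) * q + (((κ : ℤ) - e * v : ℤ) : ZMod p) - ((1 : ℤ) : ZMod p) =
            (l : ZMod p) * q) ↔ (((j : ZMod p) - l) * x + (l : ZMod p) * y = z - 1) := by
          rw [← sub_eq_zero]
          have h1 : (j : ZMod p) * q + (((κ : ℤ) - e * v : ℤ) : ZMod p) - ((1 : ℤ) : ZMod p) -
              (l : ZMod p) * q = z - 1 - (((j : ZMod p) - l) * x + (l : ZMod p) * y) := by
            have := key l
            push_cast at this ⊢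
            linear_combination this
          rw [h1, sub_eq_zero]
          exact eq_comm
        simp only [this]
    · rw [if_neg hjm, if_neg hjm]
  rw [sum_congr rfl (fun e he => hterm e (mem_range.1 he))]
  -- reindex
  have hre : ∑ e ∈ range p, F (-(e : ZMod p) * α - w).val = ∑ j ∈ range p, F j := by
    refine sum_nbij' (fun e => (-(e : ZMod p) * α - w).val)
      (fun j => (-((j : ZMod p) + w) / α).val) ?_ ?_ ?_ ?_ ?_
    · intro e _; exact mem_range.2 (ZMod.val_lt _)
    · intro e _; exact mem_range.2 (ZMod.val_lt _)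
    · intro e he
      rw [ZMod.natCast_zmod_val]
      have : -(-(e : ZMod p) * α - w + w) / α = (e : ZMod p) := by field_simp; ring
      rw [this]
      exact ZMod.val_cast_of_lt (mem_range.1 he)
    · intro j hj
      rw [ZMod.natCast_zmod_val]
      have : -(-((j : ZMod p) + w) / α) * α - w = (j : ZMod p) := by field_simp; ring
      rw [this]
      exact ZMod.val_cast_of_lt (mem_range.1 hj)
    · intro e _; rfl
  rw [hre]
  have hsub : range (m + 1) ⊆ range p := by
    intro l hl
    rw [mem_range] at *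
    omega
  rw [← sum_subset hsub (fun j _ hj => by
    rw [mem_range] at hj
    simp only [hF]
    rw [if_neg (by omega)])]
  rw [← blk_HH p x y z m, ← blk_HH p x y (z - 1) m, ← sum_sub_distrib]
  refine sum_congr rfl fun j hj => ?_
  rw [mem_range] at hj
  simp only [hF]
  rw [if_pos (by omega)]

theorem thBulk : stBulk := by
  intro p q α v κ m _ hq hv hvq hm hκ hκq hα
  unfold Pool.Agent.Helper55.FT.G EE
  rw [sum_sub_distrib]
  have h1 := blk_main p q α v κ m hq hvq hm hκ hκq hα 0 _ _ rfl rfl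
  have h2 := blk_main p q α v κ m hq hvq hm hκ hκq hα ((α * q + v : ℕ) : ℤ) _ _ rfl rfl
  have e1 : ∑ e ∈ range p, Pool.Agent.Helper55.FT.bv p q (((m + 1) * q : ℕ) - 1 : ℤ)
      ((κ : ℤ) - e * ((α * q + v : ℕ) : ℤ)) =
      ∑ e ∈ range p, Pool.Agent.Helper55.FT.bv p q (((m + 1) * q : ℕ) - 1 : ℤ)
      (κ - e * ((α * q + v : ℕ) : ℤ) - 0 * q) := by
    refine sum_congr rfl fun e _ => ?_
    rw [zero_mul, sub_zero]
  have e2 : ∑ e ∈ range p, Pool.Agent.Helper55.FT.bv p q (((m + 1) * q : ℕ) - 1 : ℤ)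
      ((κ : ℤ) - e * ((α * q + v : ℕ) : ℤ) - q * ((α * q + v : ℕ) : ℤ)) =
      ∑ e ∈ range p, Pool.Agent.Helper55.FT.bv p q (((m + 1) * q : ℕ) - 1 : ℤ)
      (κ - e * ((α * q + v : ℕ) : ℤ) - ((α * q + v : ℕ) : ℤ) * q) := by
    refine sum_congr rfl fun e _ => ?_
    rw [mul_comm (q : ℤ)]
  rw [e1, e2, h1, h2]
  have e3 : (κ : ZMod p) + ((0 : ℤ) : ZMod p) * v / α = κ := by simp
  have e4 : (κ : ZMod p) + (((α * q + v : ℕ) : ℤ) : ZMod p) * v / α =
      κ - -(((α * q + v : ℕ) : ZMod p) * (v : ZMod p)) / (α : ZMod p) := by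
    rw [Int.cast_natCast]; ring
  rw [e3, e4]
  have e5 : (κ : ZMod p) - 1 - -(((α * q + v : ℕ) : ZMod p) * (v : ZMod p)) / (α : ZMod p) =
      κ - -(((α * q + v : ℕ) : ZMod p) * (v : ZMod p)) / (α : ZMod p) - 1 := by ring
  rw [e5]
  ring

end Pool.Agent.Helper10.W1
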