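import Pool.Agent.Helper10.W1.StA

set_option autoImplicit false

/-!
# Counting a symmetric set along the multiples of `r`
-/

namespace Pool.Agent.Helper10.W1

open Finset
open scoped Pointwise

namespace MCardSym

theorem cast_eq {p : ℕ} {a b : ℕ} (ha : a < p) (hb : b < p) (h : (a : ZMod p) = (b : ZMod p)) :
    a = b := by
  have h1 := (ZMod.natCast_eq_natCast_iff a b p).1 h
  exact Nat.ModEq.eq_of_lt_of_lt h1 ha hb

end MCardSym

theorem thCardSym : stCardSym := by
  intro p hp S r h3 hS hr
  classical
  have hpp : p.Prime := hp.out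
  have hodd : p % 2 = 1 := by
    rcases hpp.eq_two_or_odd with h | h
    · omega
    · exact h
  set F : Finset ℕ := (range ((p + 1) / 2)).filter (fun n : ℕ => 1 ≤ n ∧ (n : ZMod p) * r ∈ S)
    with hF
  have memF : ∀ n : ℕ, n ∈ F ↔ n < (p + 1) / 2 ∧ 1 ≤ n ∧ (n : ZMod p) * r ∈ S := by
    intro n
    rw [hF, mem_filter, mem_range]
  have hne : ∀ n : ℕ, 1 ≤ n → n < p → (n : ZMod p) * r ≠ 0 := by
    intro n h1 h2 h0
    rcases mul_eq_zero.1 h0 with h | h
    · have : n = 0 := MCardSym.cast_eq h2 (by omega) (by simpa using h)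
      omega
    · exact hr h
  have hinj1 : Set.InjOn (fun n : ℕ => (n : ZMod p) * r) (F : Set ℕ) := by
    intro a ha b hb hab
    have ha' := (memF a).1 ha
    have hb' := (memF b).1 hb
    have := mul_right_cancel₀ hr hab
    exact MCardSym.cast_eq (by omega) (by omega) this
  have hinj2 : Set.InjOn (fun n : ℕ => -((n : ZMod p) * r)) (F : Set ℕ) := by
    intro a ha b hb hab
    have : (a : ZMod p) * r = (b : ZMod p) * r := neg_injective hab
    exact hinj1 ha hb this
  have hdisj : Disjoint (F.image (fun n : ℕ => (n : ZMod p) * r))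
      (F.image (fun n : ℕ => -((n : ZMod p) * r))) := by
    rw [Finset.disjoint_left]
    intro z hz1 hz2
    obtain ⟨a, ha, rfl⟩ := mem_image.1 hz1
    obtain ⟨b, hb, hab⟩ := mem_image.1 hz2
    have ha' := (memF a).1 ha
    have hb' := (memF b).1 hb
    have h0 : ((a + b : ℕ) : ZMod p) * r = 0 := by
      push_cast
      have hab' : -((b : ZMod p) * r) = (a : ZMod p) * r := hab
      rw [add_mul, ← hab']
      ring
    exact hne (a + b) (by omega) (by omega) h0
  have hset : S.erase 0 = F.image (fun n : ℕ => (n : ZMod p) * r) ∪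
      F.image (fun n : ℕ => -((n : ZMod p) * r)) := by
    ext z
    rw [mem_erase, mem_union, mem_image, mem_image]
    constructor
    · rintro ⟨hz0, hzS⟩
      have hv : ((z / r).val : ZMod p) = z / r := ZMod.natCast_zmod_val _
      have hvlt : (z / r).val < p := ZMod.val_lt _
      have hmul : ((z / r).val : ZMod p) * r = z := by
        rw [hv, div_mul_cancel₀ _ hr]
      have hvne : (z / r).val ≠ 0 := by
        intro h
        rw [h] at hmul
        apply hz0
        rw [← hmul]
        simp
      by_cases hlt : (z / r).val < (p + 1) / 2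
      · left
        exact ⟨(z / r).val, (memF _).2 ⟨hlt, by omega, by rw [hmul]; exact hzS⟩, hmul⟩
      · right
        have hcast : ((p - (z / r).val : ℕ) : ZMod p) * r = -z := by
          rw [Nat.cast_sub hvlt.le, ZMod.natCast_self, zero_sub, neg_mul, hmul]
        refine ⟨p - (z / r).val, (memF _).2 ⟨by omega, by omega, ?_⟩, ?_⟩
        · rw [hcast]
          exact hS z hzS
        · show -(((p - (z / r).val : ℕ) : ZMod p) * r) = z
          rw [hcast, neg_neg]
    · rintro (⟨n, hn, rfl⟩ | ⟨n, hn, rfl⟩)
      · have hn' := (memF n).1 hn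
        exact ⟨hne n hn'.2.1 (by omega), hn'.2.2⟩
      · have hn' := (memF n).1 hn
        exact ⟨neg_ne_zero.2 (hne n hn'.2.1 (by omega)), hS _ hn'.2.2⟩
  have hcard : (S.erase 0).card = 2 * F.card := by
    rw [hset, card_union_of_disjoint hdisj, card_image_of_injOn hinj1, card_image_of_injOn hinj2]
    ring
  by_cases h0 : (0 : ZMod p) ∈ S
  · rw [if_pos h0, ← hcard, card_erase_of_mem h0]
    have : 0 < S.card := card_pos.2 ⟨0, h0⟩
    omega
  · rw [if_neg h0, ← hcard, erase_eq_of_notMem h0]
    ring

end Pool.Agent.Helper10.W1
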