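import Pool.Agent.Helper10.W1.Defs

set_option autoImplicit false

/-!
# Near multiples of `q`: statements, part B (signed product relations)

`sg c u` is the product of `u` with `X ^ c - X ^ (-c)`.  For a function `φ` on `ZMod p` and
`L φ u = ∑ z, φ z * (u z : ZMod p)` one has
`L φ (sg c u) = L (fun z => φ (z + c) - φ (z - c)) u` and `L φ dl = φ 0`.
-/

namespace Pool.Agent.Helper10.W1

open Finset
open scoped Pointwise

/-- MODULE UTHREE.  Apply `L φ` with `φ z = z ^ 3, z ^ 5, z ^ 7` to both sides: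
`L (z ^ 3) = 48 a b c`, `L (z ^ 5) = 160 a b c (a² + b² + c²)`,
`L (z ^ 7) = 8 a b c (42 e1² + 56 e2)`, `e1 = a² + b² + c²`, `e2 = a² b² + a² c² + b² c²` (each is one
`ring` identity for the iterated difference at `0`).  So `a b c = ε x y z`, then `e1`, `e2` agree and
`(a b c)² = (x y z)²` (`p ≥ 11`, so `2, 3, 5, 7` are units). -/
def stU3 : Prop := ∀ (p : ℕ) [Fact p.Prime] (a b c x y w : ZMod p) (ε : ℤ), 11 ≤ p →
  (ε = 1 ∨ ε = -1) → a ≠ 0 → b ≠ 0 → c ≠ 0 →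
  (∀ z, sg a (sg b (sg c dl)) z = ε * sg x (sg y (sg w dl)) z) →
  a ^ 2 + b ^ 2 + c ^ 2 = x ^ 2 + y ^ 2 + w ^ 2 ∧
  a ^ 2 * b ^ 2 + a ^ 2 * c ^ 2 + b ^ 2 * c ^ 2 = x ^ 2 * y ^ 2 + x ^ 2 * w ^ 2 + y ^ 2 * w ^ 2 ∧
  a ^ 2 * b ^ 2 * c ^ 2 = x ^ 2 * y ^ 2 * w ^ 2

/-- MODULE UFOUR.  As `stU3` with `φ z = z ^ 4, z ^ 6, z ^ 8, z ^ 10`; with the elementary symmetric
functions `e1, e2, e3` of the squares: `L (z ^ 4) = 384 a b c d`, `L (z ^ 6) = 1920 a b c d e1`,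
`L (z ^ 8) = 16 a b c d (336 e1² + 448 e2)` and
`L (z ^ 10) = 16 a b c d (720 p3 + 5040 (e1 e2 - 3 e3) + 16800 e3)`,
`p3 = e1³ - 3 e1 e2 + 3 e3`: the coefficient of `e3` is `16 * 3840`. -/
def stU4 : Prop := ∀ (p : ℕ) [Fact p.Prime] (a b c d x y w v : ZMod p) (ε : ℤ), 11 ≤ p →
  (ε = 1 ∨ ε = -1) → a ≠ 0 → b ≠ 0 → c ≠ 0 → d ≠ 0 →
  (∀ z, sg a (sg b (sg c (sg d dl))) z = ε * sg x (sg y (sg w (sg v dl))) z) →
  a ^ 2 + b ^ 2 + c ^ 2 + d ^ 2 = x ^ 2 + y ^ 2 + w ^ 2 + v ^ 2 ∧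
  a ^ 2 * b ^ 2 + a ^ 2 * c ^ 2 + a ^ 2 * d ^ 2 + b ^ 2 * c ^ 2 + b ^ 2 * d ^ 2 + c ^ 2 * d ^ 2 =
    x ^ 2 * y ^ 2 + x ^ 2 * w ^ 2 + x ^ 2 * v ^ 2 + y ^ 2 * w ^ 2 + y ^ 2 * v ^ 2 + w ^ 2 * v ^ 2 ∧
  a ^ 2 * b ^ 2 * c ^ 2 + a ^ 2 * b ^ 2 * d ^ 2 + a ^ 2 * c ^ 2 * d ^ 2 + b ^ 2 * c ^ 2 * d ^ 2 =
    x ^ 2 * y ^ 2 * w ^ 2 + x ^ 2 * y ^ 2 * v ^ 2 + x ^ 2 * w ^ 2 * v ^ 2 + y ^ 2 * w ^ 2 * v ^ 2 ∧
  a ^ 2 * b ^ 2 * c ^ 2 * d ^ 2 = x ^ 2 * y ^ 2 * w ^ 2 * v ^ 2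

/-- MODULE BASICS.  (1) `sg` commutes and is linear; (2) sizes: `L φ` with `φ z = z ^ 2` gives
`L φ (sg u (sg v w)) = 8 u v L 1 w`.  (3) cancellation: if `sg c u = sg c v` then `u - v` is invariant
under the translation by `2 c ≠ 0`, so constant, so `0` when the sums agree. -/
def stBasics : Prop := ∀ (p : ℕ) [Fact p.Prime] (c d a b : ZMod p) (u v : ZMod p → ℤ)
    (S : Finset (ZMod p)) (ε : ℤ), 3 ≤ p →
  (∀ z, sg c (sg d u) z = sg d (sg c u) z) ∧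
  ((∀ z, sg c (sg d (chi S)) z = ε * sg a (sg b dl) z) →
    c * d * (S.card : ZMod p) = (ε : ZMod p) * a * b) ∧
  (c ≠ 0 → (∀ z, sg c u z = sg c v z) → (∑ z, u z = ∑ z, v z) → ∀ z, u z = v z) ∧
  (∑ z, sg c u z = 0)

/-- MODULE ARCREL.  Let `e ∈ re (2 η) S` be the only right end point (`S` is symmetric, so `- e` is the only
left end point).  `chi S (z - η) - chi S (z + η)` is `1` iff `z - η` is a right end point and `-1` iff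
`z + η` is a left end point: it equals `sg (e + η) dl z`.  The first moment (`∑ z, z * sg η u z = 2 η ∑ u`)
gives `2 (e + η) = 2 η #S`. -/
def stArcRel : Prop := ∀ (p : ℕ) [Fact p.Prime] (S : Finset (ZMod p)) (η : ZMod p), 3 ≤ p →
  Sym S → S.Nonempty → S ≠ univ → η ≠ 0 → (re (2 * η) S).card ≤ 1 →
  ∀ z, sg η (chi S) z = sg ((S.card : ZMod p) * η) dl z

/-- MODULE RELARC.  If `z ∈ re (2 η) S` then `sg η (chi S) (z + η) = 1`, so `z + η` is determined (`c` if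
`ε = 1`, `- c` if `ε = -1`).  Second part (with `hArc : stArc` allowed as a hypothesis): `S` is then
`{e - 2 j η : j < n}` with `- e = e - 2 (n - 1) η`, so `e = (n - 1) η`; if `n` is even, `j = (n - 2) / 2`
gives `η ∈ S`; if `0 ∈ S` then `n` is odd, and `η ∈ S` would give `η = (n - 1 - 2 j) η`,
`p ∣ n - 2 - 2 j`, impossible as `n - 2 - 2 j` is odd and `|n - 2 - 2 j| ≤ n < p`.  (Direct proofs from the
relation are equally welcome.) -/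
def stRelArc : Prop := ∀ (p : ℕ) [Fact p.Prime] (S : Finset (ZMod p)) (η c : ZMod p) (ε : ℤ), 3 ≤ p →
  (ε = 1 ∨ ε = -1) → c ≠ 0 → (∀ z, sg η (chi S) z = ε * sg c dl z) →
  (re (2 * η) S).card ≤ 1

/-- MODULE ARCMID, see RELARC.  Assume `hArc : stArc` (and `hEnds : stEnds` if useful). -/
def stArcMid : Prop := ∀ (p : ℕ) [Fact p.Prime] (S : Finset (ZMod p)) (η : ZMod p), 3 ≤ p →
  Sym S → S.Nonempty → S ≠ univ → η ≠ 0 → (re (2 * η) S).card ≤ 1 →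
  (S.card % 2 = 0 → η ∈ S) ∧ (0 ∈ S → η ∉ S)

/-- MODULE IONE (structure in case (i); assume `hPair, hEnds, hGrow, hSkel, hFrag, hArcRel`).
`S1 + S3` is symmetric and does not contain `0` (disjointness), so its cardinality is even
(`hCard : stCardSym` may be assumed); `#S1` is even (`0 ∉ S1`), `#S3` is odd, and `#(S1 + S3) ≤ p - #S2 = #S1 + #S3`
(`S1 + S3` misses `S2`), so `#(S1 + S3) ≤ #S1 + #S3 - 1 ≤ p - 3`.  `stFrag` with `t = 1` for `S3`, `X = S1`: there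
is `d ≠ 0`, `#(re d S3) ≤ 1`; `d = 2 η`.  `stSkel`: `S3 = S' + {0, d}`, `#S' ≥ #S3 - 1`; `stGrow`:
`#S1 + #(re d S1) + #S3 - 2 ≤ #S1 + #S3 - 1`, so `#(re d S1) ≤ 1`.  `Y = S1 + S3` has `#(re d Y) ≤ 1` (`stEnds` (2))
and its complement `Z` too (`stEnds` (4)); `Z` is symmetric, contains `0` and `S2`, and Cauchy-Davenport gives
`#Z ≤ #S2 + 1`, so `Z = insert 0 S2` (`0 ∉ S2` by parity or since `S2 ∩ S1`... in the hypotheses).
`stArcRel` for `S1`, `S3`, `Z` and `chi S2 = chi Z - dl`. -/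
def stI1 : Prop := ∀ (p : ℕ) [Fact p.Prime] (S1 S2 S3 : Finset (ZMod p)), 11 ≤ p →
  Sym S1 → Sym S2 → Sym S3 → 2 ≤ S1.card → 2 ≤ S2.card → 2 ≤ S3.card →
  S1.card + S2.card + S3.card = p → (∀ a ∈ S1, ∀ b ∈ S2, ∀ s ∈ S3, a + b + s ≠ 0) →
  (0 : ZMod p) ∉ S1 → (0 : ZMod p) ∉ S2 → (0 : ZMod p) ∈ S3 → Disjoint S1 S3 →
  ∃ η : ZMod p, η ≠ 0 ∧ (∀ z, sg η (chi S1) z = sg ((S1.card : ZMod p) * η) dl z) ∧
    (∀ z, sg η (chi S3) z = sg ((S3.card : ZMod p) * η) dl z) ∧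
    (∀ z, sg η (chi S2) z = sg (((S2.card : ZMod p) + 1) * η) dl z - sg η dl z)

/-- MODULE ITWO (algebra in case (i); a statement about elements of the field `ZMod p` only).
`N1, N3` are the cardinalities, `N2 = 2 k`.  `hs`: the sizes.  `e1 e2 e3` (for `S1`): the elementary symmetric
functions of `(x1 x2)², (x1 x3)², (N1 η)²` and of `(x1 a)², (x1 b)², η²` agree; the same for `S3`; for `S2`
the four squares `(x2 x3)², (x2 x1)², (k η)², (2 (k + 1) η)²` and `(x2 a)², (x2 b)², η², ((k + 1) η)²`.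
Proof.  Write `λ = ε a b / (x1 x2 x3)`, so `N1 = λ x1`, `2 k = λ x2`, `N3 = λ x3` in `ZMod p`; none of
`N1 = N3`, `2 k = N3`, `x1 = x2` holds in `ZMod p` (parities and `N1 + 2 k + N3 = p`; hypothesis).
`S1`: plugging `T = η²` in the cubic gives `η² = (x1 x3)²` (1a) or `η² = (x1 x2)²` (1b) (`N1² ≠ 1`).
`S3`: `η² = (x3 x2)²` (3a) or `η² = (x3 x1)²` (3b) (`N3² ≠ 1`).
(1a), (3a): `x1² = x2²`, so `x1 = x2` (excluded) or `x1 = - x2`, `x3 = 0`.  (1b), (3b): `x2² = x3²`,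
`x2 = x3` gives `2 k = N3` (excluded), `x2 = - x3` gives `x1 = 0`.  (1b), (3a): `x1² = x3²`, in the same way.
(1a), (3b): then `{a², b²} = {x2², N1² x3²}` (remove `η² = (x1 x3)²` from both multisets of `S1`), that is
`a² + b² = x2² + N1² x3²` and `a² b² = x2² N1² x3²`.  In the quartic for `S2` put `T = (2 (k + 1) η)²`:
one of the four: it is `η²` (then `4 (k + 1)² = 1`, `(2 k + 1) (2 k + 3) = 0`, excluded as
`2 k + 3 < p`), or `((k + 1) η)²` (then `3 (k + 1)² = 0`), or `x2² a²` or `x2² b²`, so it is `x2⁴` or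
`x2² N1² x3² = 4 k² η²` (as `x2 λ = 2 k`, `N1 = λ x1`; then `(k + 1)² = k²`, `2 k + 1 = 0`, excluded).  So
`4 (k + 1)² η² = x2⁴`.  Cancel it: the cubics with roots `(x2 x3)², (x2 x1)², (k η)²` and
`4 k² η², η², (k + 1)² η²` agree; `T = (k η)²` gives `k² = 4 k²` or `k² = 1` or `k² = (k + 1)²`, so `k² = 1`,
so `k = 1` (`k = -1` is excluded by the size).  Then the remaining quadratics with roots
`(x2 x3)², (x2 x1)²` and `4 η², 4 η²` agree, so `(x2 x3)² = 4 η² = 4 (x1 x3)²`, `x2² = 4 x1²`,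
and `x2 λ = 2`, `x1 λ = N1` give `N1² = 1`, a contradiction. -/
def stI2 : Prop := ∀ (p : ℕ) [Fact p.Prime] (x1 x2 x3 a b η : ZMod p) (ε : ℤ) (N1 k N3 : ℕ), 11 ≤ p →
  (ε = 1 ∨ ε = -1) → x1 ≠ 0 → x2 ≠ 0 → x3 ≠ 0 → a ≠ 0 → b ≠ 0 → η ≠ 0 → x1 + x2 + x3 = 0 → x1 ≠ x2 →
  2 ≤ N1 → N1 % 2 = 0 → 1 ≤ k → 3 ≤ N3 → N3 % 2 = 1 → N1 + 2 * k + N3 = p →
  x2 * x3 * (N1 : ZMod p) = (ε : ZMod p) * a * b →
  x1 * x3 * (2 * (k : ZMod p)) = (ε : ZMod p) * a * b →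
  x1 * x2 * (N3 : ZMod p) = (ε : ZMod p) * a * b →
  (∀ T : ZMod p, (T - (x1 * x2) ^ 2) * (T - (x1 * x3) ^ 2) * (T - (N1 * η) ^ 2) =
    (T - (x1 * a) ^ 2) * (T - (x1 * b) ^ 2) * (T - η ^ 2)) →
  (∀ T : ZMod p, (T - (x3 * x1) ^ 2) * (T - (x3 * x2) ^ 2) * (T - (N3 * η) ^ 2) =
    (T - (x3 * a) ^ 2) * (T - (x3 * b) ^ 2) * (T - η ^ 2)) →
  (∀ T : ZMod p, (T - (x2 * x3) ^ 2) * (T - (x2 * x1) ^ 2) * (T - (k * η) ^ 2) *
      (T - (2 * (k + 1) * η) ^ 2) =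
    (T - (x2 * a) ^ 2) * (T - (x2 * b) ^ 2) * (T - η ^ 2) * (T - ((k + 1) * η) ^ 2)) → False

/-- MODULE CASEONE (assume `hI1, hI2, hU3, hU4, hBasics`, `hCard : stCardSym`).  Take `η` from `stI1`.
`x1 ≠ x2`: otherwise `r1` and `r2` give `sg _ (sg _ (chi S1)) = sg _ (sg _ (chi S2))`, the sums of `chi S1`
and `chi S2` agree by the sizes (`stBasics` (2): the cardinalities agree mod `p`), so `S1 = S2` (cancel
twice), but `S1 ∩ S2 = ∅` as `0 ∈ S3`.  Apply `sg η` to `r1`: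
`sg (x1 x2) (sg (x1 x3) (sg (N1 η) dl)) = ε sg (x1 a) (sg (x1 b) (sg η dl))`, and `stU3` gives the cubic for
`S1`; the same for `S3`.  For `S2`, `#S2 = 2 k`: with `sg ((k + 1) η) (sg ((2 k + 1) η) dl - sg η dl) =
sg (k η) (sg (2 (k + 1) η) dl)` (an identity of signed sums of eight unit masses) apply
`sg η` and `sg ((k + 1) η)` to `r2` and use `stU4`. -/
def stCaseOne : Prop := ∀ (p : ℕ) [Fact p.Prime] (x1 x2 x3 a b : ZMod p) (ε : ℤ)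
  (S1 S2 S3 : Finset (ZMod p)), 11 ≤ p → Tr p x1 x2 x3 a b ε S1 S2 S3 →
  (0 : ZMod p) ∉ S1 → (0 : ZMod p) ∉ S2 → (0 : ZMod p) ∈ S3 → Disjoint S1 S3 → False

/-- MODULE CASETWO (assume `hU3, hBasics, hRelArc, hArcMid`).  `S1 = {s, - s}`, `s ≠ 0`, and
`sg s (chi S1) = sg (2 s) dl`.  Apply `sg s` to `r1` and use `stU3` for
`(x1 x2)², (x1 x3)², (2 s)²` and `(x1 a)², (x1 b)², s²`: `s² = (x1 x2)²` or `s² = (x1 x3)²` (not `4 s²`).
(A) `s² = (x1 x2)²`: then `{a², b²} = {x3², 4 x2²}`: say (exchange `a`, `b`) `a = ± x3`, `b = ± 2 x2`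
(from `a² + b² = x3² + 4 x2²`, `a² b² = 4 x2² x3²`: `(a² - x3²) (a² - 4 x2²) = 0`).  `r2` becomes
`sg (x2 x3) (sg (x2 x1) (chi S2)) = ± sg (x2 x3) (sg (2 x2²) dl)`; cancel: `sg (x1 x2) (chi S2) = ± sg (2 x2²) dl`
and `stRelArc`, `stArcMid` (`#S2` is even: `0 ∉ S2` and `hCard : stCardSym`) give `x1 x2 ∈ S2`; but
`x1 x2 = ± s ∈ S1` and `0 ∈ S3`: contradiction with `free`.
(B) `s² = (x1 x3)²`: `{a², b²} = {x2², 4 x3²}`, `r3` gives `sg (x1 x3) (chi S3) = ± sg (2 x3²) dl`, so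
`x1 x3 ∉ S3` (`stArcMid`), so `± s ∉ S3`, so `S1` and `S3` are disjoint: contradiction.
(`sg (-c) u = - sg c u`.) -/
def stCaseTwo : Prop := ∀ (p : ℕ) [Fact p.Prime] (x1 x2 x3 a b : ZMod p) (ε : ℤ)
  (S1 S2 S3 : Finset (ZMod p)), 11 ≤ p → Tr p x1 x2 x3 a b ε S1 S2 S3 →
  (0 : ZMod p) ∉ S1 → (0 : ZMod p) ∉ S2 → (0 : ZMod p) ∈ S3 → ¬ Disjoint S1 S3 → S1.card = 2 → False

/-- MODULE TRIO (assume `hCaseOne, hCaseTwo, hK : stK, hCard : stCardSym`).  By parity (`stCardSym`), an odd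
number of the three sets contains `0`; not all three (`0 + 0 + 0 = 0`), so exactly one; the hypotheses are
symmetric under permutations of the indices (`Tr` for the permuted data; `sg` commutes), so let it be `S3`.  If
`S1 ∩ S3 = ∅` or `S2 ∩ S3 = ∅` use `stCaseOne` (the second case with `1, 2` exchanged), otherwise if `#S1 = 2` or
`#S2 = 2` use `stCaseTwo`, otherwise `#S1, #S2 ≥ 4` and `stK` applies. -/
def stTrio : Prop := ∀ (p : ℕ) [Fact p.Prime] (x1 x2 x3 a b : ZMod p) (ε : ℤ)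
  (S1 S2 S3 : Finset (ZMod p)), 11 ≤ p → Tr p x1 x2 x3 a b ε S1 S2 S3 → False

end Pool.Agent.Helper10.W1
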