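import Pool.Agent.Helper10.W1.StA
import Pool.Agent.Helper10.W1.StB

set_option autoImplicit false

/-!
# Near multiples of `q`: module CASEONE
-/

namespace Pool.Agent.Helper10.W1

open Finset
open scoped Pointwise

namespace CaseOne

variable {p : ℕ}

theorem sg_comm (c d : ZMod p) (u : ZMod p → ℤ) : sg c (sg d u) = sg d (sg c u) := by
  funext z
  simp only [sg]
  have e1 : z - c - d = z - d - c := by ring
  have e2 : z - c + d = z + d - c := by ring
  have e3 : z + c - d = z - d + c := by ring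
  have e4 : z + c + d = z + d + c := by ring
  rw [e1, e2, e3, e4]
  ring

theorem sg_smul (c : ZMod p) (ε : ℤ) (u : ZMod p → ℤ) :
    sg c (fun z => ε * u z) = fun z => ε * sg c u z := by
  funext z
  simp only [sg]
  ring

theorem sg_in (c d e : ZMod p) (u : ZMod p → ℤ) :
    sg e (sg c (sg d u)) = sg c (sg d (sg e u)) := by
  rw [sg_comm e c, sg_comm e d]

/-- apply `sg e` inside -/
theorem push (c d f g e : ZMod p) (u v : ZMod p → ℤ) (ε : ℤ)
    (h : ∀ z, sg c (sg d u) z = ε * sg f (sg g v) z) (z : ZMod p) :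
    sg c (sg d (sg e u)) z = ε * sg f (sg g (sg e v)) z := by
  have h1 : sg c (sg d u) = fun z => ε * sg f (sg g v) z := funext h
  have h2 := congrArg (sg e) h1
  rw [sg_smul, sg_in c d e u, sg_in f g e v] at h2
  exact congrFun h2 z

theorem eight (k : ℕ) (η : ZMod p) :
    sg (((k : ZMod p) + 1) * η) (fun z => sg ((2 * (k : ZMod p) + 1) * η) dl z - sg η dl z) =
      sg ((k : ZMod p) * η) (sg (2 * ((k : ZMod p) + 1) * η) dl) := by
  funext z
  simp only [sg]
  have a1 : z - ((k : ZMod p) + 1) * η - (2 * (k : ZMod p) + 1) * η = z - (3 * k + 2) * η := by ring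
  have a2 : z - ((k : ZMod p) + 1) * η + (2 * (k : ZMod p) + 1) * η = z + k * η := by ring
  have a3 : z - ((k : ZMod p) + 1) * η - η = z - (k + 2) * η := by ring
  have a4 : z - ((k : ZMod p) + 1) * η + η = z - k * η := by ring
  have a5 : z + ((k : ZMod p) + 1) * η - (2 * (k : ZMod p) + 1) * η = z - k * η := by ring
  have a6 : z + ((k : ZMod p) + 1) * η + (2 * (k : ZMod p) + 1) * η = z + (3 * k + 2) * η := by ring
  have a7 : z + ((k : ZMod p) + 1) * η - η = z + k * η := by ring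
  have a8 : z + ((k : ZMod p) + 1) * η + η = z + (k + 2) * η := by ring
  have b1 : z - (k : ZMod p) * η - 2 * ((k : ZMod p) + 1) * η = z - (3 * k + 2) * η := by ring
  have b2 : z - (k : ZMod p) * η + 2 * ((k : ZMod p) + 1) * η = z + (k + 2) * η := by ring
  have b3 : z + (k : ZMod p) * η - 2 * ((k : ZMod p) + 1) * η = z - (k + 2) * η := by ring
  have b4 : z + (k : ZMod p) * η + 2 * ((k : ZMod p) + 1) * η = z + (3 * k + 2) * η := by ring
  rw [a1, a2, a3, a4, a5, a6, a7, a8, b1, b2, b3, b4]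
  ring

theorem natCast_ne [Fact p.Prime] (n : ℕ) (h1 : 0 < n) (h2 : n < p) : (n : ZMod p) ≠ 0 := by
  intro h
  rw [ZMod.natCast_eq_zero_iff] at h
  exact absurd (Nat.le_of_dvd h1 h) (by omega)

theorem sum_chi [Fact p.Prime] (S : Finset (ZMod p)) : ∑ z, chi S z = (S.card : ℤ) := by
  unfold chi
  rw [Finset.sum_ite_mem, Finset.univ_inter, Finset.sum_const, nsmul_eq_mul, mul_one]

theorem chi_inj (S T : Finset (ZMod p)) (h : ∀ z, chi S z = chi T z) : S = T := by
  ext z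
  have h1 := h z
  unfold chi at h1
  by_cases h2 : z ∈ S
  · by_cases h3 : z ∈ T
    · exact ⟨fun _ => h3, fun _ => h2⟩
    · rw [if_pos h2, if_neg h3] at h1; omega
  · by_cases h3 : z ∈ T
    · rw [if_neg h2, if_pos h3] at h1; omega
    · exact ⟨fun h => absurd h h2, fun h => absurd h h3⟩

end CaseOne

theorem thCaseOne (hI1 : stI1) (hI2 : stI2) (hU3 : stU3) (hU4 : stU4) (hBasics : stBasics)
    (hCard : stCardSym) : stCaseOne := by
  intro p _ x1 x2 x3 a b ε S1 S2 S3 hp T h01 h02 h03 hdis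
  obtain ⟨η, hη, q1, q3, q2⟩ := hI1 p S1 S2 S3 hp T.sym1 T.sym2 T.sym3 T.c1 T.c2 T.c3 T.sum T.free
    h01 h02 h03 hdis
  have hx1 := T.h1
  have hx2 := T.h2
  have hx3 := T.h3
  have hsum := T.sum
  have hc1 := T.c1
  have hc2 := T.c2
  have hc3 := T.c3
  -- parities
  have hN1 := hCard p S1 1 (by omega) T.sym1 one_ne_zero
  have hN2 := hCard p S2 1 (by omega) T.sym2 one_ne_zero
  have hN3 := hCard p S3 1 (by omega) T.sym3 one_ne_zero
  rw [if_neg h01, zero_add] at hN1
  rw [if_neg h02, zero_add] at hN2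
  rw [if_pos h03] at hN3
  obtain ⟨k1, hk1⟩ : ∃ k1 : ℕ, S1.card = 2 * k1 := ⟨_, hN1⟩
  obtain ⟨k, hk⟩ : ∃ k : ℕ, S2.card = 2 * k := ⟨_, hN2⟩
  obtain ⟨k3, hk3⟩ : ∃ k3 : ℕ, S3.card = 1 + 2 * k3 := ⟨_, hN3⟩
  clear hN1 hN2 hN3
  -- sizes
  have s1 : x2 * x3 * (S1.card : ZMod p) = (ε : ZMod p) * a * b := by
    have h := (hBasics p (x1 * x2) (x1 * x3) (x1 * a) (x1 * b) dl dl S1 ε (by omega)).2.1 T.r1
    apply mul_left_cancel₀ (mul_ne_zero hx1 hx1)
    linear_combination h
  have s2 : x1 * x3 * (S2.card : ZMod p) = (ε : ZMod p) * a * b := by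
    have h := (hBasics p (x2 * x3) (x2 * x1) (x2 * a) (x2 * b) dl dl S2 ε (by omega)).2.1 T.r2
    apply mul_left_cancel₀ (mul_ne_zero hx2 hx2)
    linear_combination h
  have s3 : x1 * x2 * (S3.card : ZMod p) = (ε : ZMod p) * a * b := by
    have h := (hBasics p (x3 * x1) (x3 * x2) (x3 * a) (x3 * b) dl dl S3 ε (by omega)).2.1 T.r3
    apply mul_left_cancel₀ (mul_ne_zero hx3 hx3)
    linear_combination h
  -- `x1 ≠ x2`
  have hx12 : x1 ≠ x2 := by
    intro hx
    have hcc : (S1.card : ZMod p) = (S2.card : ZMod p) := by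
      apply mul_left_cancel₀ (mul_ne_zero hx2 hx3)
      rw [s1, ← s2, hx]
    have hcard : S1.card = S2.card := by
      have := congrArg ZMod.val hcc
      rwa [ZMod.val_cast_of_lt (by omega), ZMod.val_cast_of_lt (by omega)] at this
    have r1 := T.r1
    have r2 := T.r2
    rw [← hx] at r2
    rw [← hx] at r1
    have hB := hBasics p (x1 * x1) (x1 * x3) 0 0 (sg (x1 * x3) (chi S1)) (sg (x1 * x3) (chi S2)) S1 ε
      (by omega)
    have hB2 := hBasics p (x1 * x3) (x1 * x3) 0 0 (chi S1) (chi S2) S1 ε (by omega)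
    have hB3 := hBasics p (x1 * x3) (x1 * x3) 0 0 (chi S2) (chi S2) S1 ε (by omega)
    have st1 : ∀ z, sg (x1 * x1) (sg (x1 * x3) (chi S1)) z =
        sg (x1 * x1) (sg (x1 * x3) (chi S2)) z := by
      intro z
      rw [r1 z, ← r2 z, CaseOne.sg_comm (x1 * x1) (x1 * x3)]
    have st2 := hB.2.2.1 (mul_ne_zero hx1 hx1) st1 (by rw [hB2.2.2.2, hB3.2.2.2])
    have st3 := hB2.2.2.1 (mul_ne_zero hx1 hx3) st2 (by
      rw [CaseOne.sum_chi, CaseOne.sum_chi, hcard])
    have hS : S1 = S2 := CaseOne.chi_inj S1 S2 st3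
    obtain ⟨z, hz⟩ : S1.Nonempty := Finset.card_pos.mp (by omega)
    have hz2 : -z ∈ S2 := by
      rw [← hS]
      exact T.sym1 z hz
    exact T.free z hz (-z) hz2 0 h03 (by ring)
  -- cubics
  have n1 : ((S1.card : ℕ) : ZMod p) ≠ 0 := CaseOne.natCast_ne _ (by omega) (by omega)
  have n3 : ((S3.card : ℕ) : ZMod p) ≠ 0 := CaseOne.natCast_ne _ (by omega) (by omega)
  have nk : ((k : ℕ) : ZMod p) ≠ 0 := CaseOne.natCast_ne _ (by omega) (by omega)
  have nk2 : (2 * ((k : ZMod p) + 1)) ≠ 0 := by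
    have := CaseOne.natCast_ne (p := p) (2 * (k + 1)) (by omega) (by omega)
    push_cast at this
    exact this
  have u1 := hU3 p (x1 * x2) (x1 * x3) ((S1.card : ZMod p) * η) (x1 * a) (x1 * b) η ε hp T.hε
    (mul_ne_zero hx1 hx2) (mul_ne_zero hx1 hx3) (mul_ne_zero n1 hη) (by
      intro z
      have h := CaseOne.push (x1 * x2) (x1 * x3) (x1 * a) (x1 * b) η (chi S1) dl ε T.r1 z
      rw [show sg η (chi S1) = sg ((S1.card : ZMod p) * η) dl from funext q1] at h
      exact h)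
  have u3 := hU3 p (x3 * x1) (x3 * x2) ((S3.card : ZMod p) * η) (x3 * a) (x3 * b) η ε hp T.hε
    (mul_ne_zero hx3 hx1) (mul_ne_zero hx3 hx2) (mul_ne_zero n3 hη) (by
      intro z
      have h := CaseOne.push (x3 * x1) (x3 * x2) (x3 * a) (x3 * b) η (chi S3) dl ε T.r3 z
      rw [show sg η (chi S3) = sg ((S3.card : ZMod p) * η) dl from funext q3] at h
      exact h)
  have u2 := hU4 p (x2 * x3) (x2 * x1) ((k : ZMod p) * η) (2 * ((k : ZMod p) + 1) * η)
    (x2 * a) (x2 * b) η (((k : ZMod p) + 1) * η) ε hp T.hε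
    (mul_ne_zero hx2 hx3) (mul_ne_zero hx2 hx1) (mul_ne_zero nk hη) (mul_ne_zero nk2 hη) (by
      intro z
      have h := CaseOne.push (x2 * x3) (x2 * x1) (x2 * a) (x2 * b) η (chi S2) dl ε T.r2
      have h' := CaseOne.push (x2 * x3) (x2 * x1) (x2 * a) (x2 * b) (((k : ZMod p) + 1) * η)
        (sg η (chi S2)) (sg η dl) ε h z
      rw [show sg η (chi S2) = fun z => sg ((2 * (k : ZMod p) + 1) * η) dl z - sg η dl z from by
        funext z
        rw [q2 z, hk]
        push_cast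
        rfl, CaseOne.eight, CaseOne.sg_comm (((k : ZMod p) + 1) * η) η] at h'
      exact h')
  refine hI2 p x1 x2 x3 a b η ε S1.card k S3.card hp T.hε hx1 hx2 hx3 T.ha T.hb hη T.hx hx12
    hc1 (by omega) (by omega) (by omega) (by omega) (by omega) s1 ?_ s3 ?_ ?_ ?_
  · rw [hk] at s2
    push_cast at s2
    exact s2
  · intro Z
    linear_combination (-(Z ^ 2)) * u1.1 + Z * u1.2.1 - u1.2.2
  · intro Z
    linear_combination (-(Z ^ 2)) * u3.1 + Z * u3.2.1 - u3.2.2
  · intro Z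
    linear_combination (-(Z ^ 3)) * u2.1 + Z ^ 2 * u2.2.1 - Z * u2.2.2.1 + u2.2.2.2

end Pool.Agent.Helper10.W1
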