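import Pool.Agent.Helper10.W1.Defs

set_option autoImplicit false

/-!
# Near multiples of `q`: statements, part A (additive combinatorics in `ZMod p`)

`ZMod.cauchy_davenport` is the Cauchy-Davenport theorem of Mathlib
(`min p (#s + #t - 1) ≤ #(s + t)`).  `P = (p - 1) / 2` in the written proofs.
-/

namespace Pool.Agent.Helper10.W1

open Finset
open scoped Pointwise

/-- MODULE PAIR.  `S + {0, d}` is the disjoint union of `S` and of the translate by `d` of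
`re d S`. -/
def stPair : Prop := ∀ (p : ℕ) [Fact p.Prime] (S : Finset (ZMod p)) (d : ZMod p),
  (S + {0, d}).card = S.card + (re d S).card ∧ (sk d S).card + (re d S).card = S.card ∧
  (re (-d) S).card = (re d S).card

/-- MODULE ENDS (easy facts on right end points).
(1) `d ≠ 0`, `S` nonempty and not everything: otherwise `S + d ⊆ S`, so `z + n d ∈ S` for every
natural `n`, and every element of `ZMod p` has this form (`n = ((w - z) / d).val`).
(2) if `x + y + d ∉ X + Y` then `x + d ∉ X` and `y + d ∉ Y`; so two right end points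
`x + y`, `x' + y'` of `X + Y` coincide when `re d X` and `re d Y` have at most one element.
(3) clear.  (4) `z` is a right end point of `Sᶜ` iff `z + d ∈ S`, `z ∉ S`, iff `-(z + d)` is a right
end point of `S` (`S` symmetric): `z ↦ -(z + d)` is a bijection. -/
def stEnds : Prop := ∀ (p : ℕ) [Fact p.Prime] (S X Y : Finset (ZMod p)) (d : ZMod p),
  (d ≠ 0 → S.Nonempty → S ≠ univ → (re d S).Nonempty) ∧
  ((re d X).card ≤ 1 → (re d Y).card ≤ 1 → (re d (X + Y)).card ≤ 1) ∧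
  (re d (X ∪ Y)).card ≤ (re d X).card + (re d Y).card ∧
  (Sym S → (re d Sᶜ).card = (re d S).card)

/-- MODULE ARC.  A set with at most one right end point is an arithmetic progression.  Induction on
`S.card`: `S.erase e` has its right end points in `{e - d}` (if `z ∈ S`, `z ≠ e` and `z + d` is not in
`S.erase e` then `z + d = e`), is not everything, and is either empty or contains `e - d` (its right
end points are not an empty set, see (1) of `stEnds`, which you may prove again or assume). -/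
def stArc : Prop := ∀ (p : ℕ) [Fact p.Prime] (S : Finset (ZMod p)) (d e : ZMod p),
  d ≠ 0 → S ≠ univ → e ∈ S → (∀ z ∈ re d S, z = e) →
  S = (range S.card).image (fun j : ℕ => e - (j : ZMod p) * d)

/-- MODULE GROW (assume `hPair : stPair`).  If `Y` is the sumset of `{0, d}` and `Y'` then
`X + Y = (X + {0, d}) + Y'` and Cauchy-Davenport with `card_add_pair` gives the bound. -/
def stGrow : Prop := ∀ (p : ℕ) [Fact p.Prime] (X Y Y' : Finset (ZMod p)) (d : ZMod p),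
  X.Nonempty → Y'.Nonempty → Y = Y' + {0, d} →
  min p (X.card + (re d X).card + Y'.card - 1) ≤ (X + Y).card

/-- MODULE SKELETON.  If every point `z` of `Y` has `z + d ∈ Y` or `z - d ∈ Y` then
`Y = sk d Y + {0, d}`.  If `re d Y` has at most one point, `d ≠ 0`, `Y ≠ univ` and `2 ≤ #Y`, this
is the case (assume `hEnds : stEnds` or `hArc : stArc`: if `z - d ∉ Y` for the unique right end point
`z` then `Y.erase z` has no right end point, so it is empty). -/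
def stSkel : Prop := ∀ (p : ℕ) [Fact p.Prime] (Y : Finset (ZMod p)) (d : ZMod p),
  ((∀ z ∈ Y, z + d ∈ Y ∨ z - d ∈ Y) → Y = sk d Y + {0, d}) ∧
  (d ≠ 0 → Y ≠ univ → 2 ≤ Y.card → (re d Y).card ≤ 1 → Y = sk d Y + {0, d})

/-- MODULE FRAG (symmetric fragment lemma; assume `hPair : stPair`).
Call `M` admissible if `2 ≤ #M` and `#(M + S) + 2 ≤ p`, and let `κ(M) = #(M + S) - #M ≥ 0`.  Choose an
admissible `M` with `κ(M)` minimal `= κ` and, among these, `#M` minimal (minimise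
`κ(M) * (p + 1) + #M`).  Then `κ ≤ κ(X) ≤ #S + t - 2`.
(a) Duality: `M' = (M + S)ᶜ` has `#M' ≥ 2`; `M' - S` misses `M`, and `- S` is a translate of
`S` (`c - S = S`), so `#(M' + S) ≤ p - #M`; hence `M'` is admissible with `κ(M') ≤ κ`, so `κ(M') = κ` and
`#M ≤ #M' = p - #M - κ`: `2 #M + κ ≤ p`.
(b) Let `m1 ≠ m2` in `M` and `N = {m1 + m2 - m : m ∈ M}`.  `N + S` is the image of `M + S` by
`w ↦ m1 + m2 + c - w`, so `N` is admissible, `#N = #M`, `κ(N) = κ`, and `m1, m2 ∈ M ∩ N`.  If `N ≠ M`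
then `M ∩ N` is admissible and smaller than `M`, so `κ(M ∩ N) ≥ κ + 1`; submodularity
`#((M ∩ N) + S) + #((M ∪ N) + S) ≤ #(M + S) + #(N + S)` gives `κ(M ∪ N) ≤ κ - 1`, and
`#((M ∪ N) + S) ≤ 2 #M - 2 + κ - 1 ≤ p - 3` by (a): `M ∪ N` is admissible, contradiction.  So `N = M`.
(c) If `#M ≥ 3`, take three different points: `m1 + m2 - M = M = m1 + m3 - M`, so `M` is invariant
under the translation by `m2 - m3 ≠ 0`, so `M = univ`, contradiction.  So `M = {m1, m2}` and with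
`r = m2 - m1`, `#(M + S) = #(S + {0, r}) = #S + #(re r S)`, so `#(re r S) = κ + 2 - #S ≤ t`. -/
def stFrag : Prop := ∀ (p : ℕ) [Fact p.Prime] (S X : Finset (ZMod p)) (c : ZMod p) (t : ℕ),
  S.Nonempty → (∀ z ∈ S, c - z ∈ S) → 2 ≤ X.card → (X + S).card + 2 ≤ p →
  (X + S).card + 2 ≤ X.card + S.card + t → ∃ r : ZMod p, r ≠ 0 ∧ (re r S).card ≤ t

/-- MODULE CARDSYM.  Pair `n r` with `- n r`, `1 ≤ n ≤ P` (every `z ≠ 0` is `± n r` for exactly one such
`n` and one sign). -/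
def stCardSym : Prop := ∀ (p : ℕ) [Fact p.Prime] (S : Finset (ZMod p)) (r : ZMod p),
  3 ≤ p → Sym S → r ≠ 0 → S.card = (if (0 : ZMod p) ∈ S then 1 else 0) +
    2 * ((range ((p + 1) / 2)).filter (fun n : ℕ => 1 ≤ n ∧ (n : ZMod p) * r ∈ S)).card

/-- MODULE ALT.  Between `m_i` and `m_{i+1}` there is a change: `m_i ≤ m < m_{i+1}` with exactly one of
`m r`, `(m + 1) r` in `S`.  If `m r ∈ S`, it is a right end point; otherwise `-(m + 1) r` is one.  The three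
end points are different: `m r = m' r` needs `m = m'`, and `m r = -(m' + 1) r` needs
`p ∣ m + m' + 1`, but `0 < m + m' + 1 < 2 m3 < p`. -/
def stAlt : Prop := ∀ (p : ℕ) [Fact p.Prime] (S : Finset (ZMod p)) (r : ZMod p) (m0 m1 m2 m3 : ℕ),
  Sym S → r ≠ 0 → m0 < m1 → m1 < m2 → m2 < m3 → 2 * m3 < p →
  ((m0 : ZMod p) * r ∈ S ↔ (m1 : ZMod p) * r ∉ S) →
  ((m1 : ZMod p) * r ∈ S ↔ (m2 : ZMod p) * r ∉ S) →
  ((m2 : ZMod p) * r ∈ S ↔ (m3 : ZMod p) * r ∉ S) → 3 ≤ (re r S).card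

/-- MODULE SHAPES (assume `hAlt : stAlt`, `hCard : stCardSym`).  Some `n ≤ P` has `n r ∉ S`; let `i + 1` be
the least such `n` and `k` the largest one.  If the form is wrong there is `i + 1 < n2 < k` with
`n2 r ∈ S`: the four points `0, i + 1, n2, k` alternate, contradicting `stAlt`.  The cardinality is
`stCardSym`. -/
def stShapeS : Prop := ∀ (p : ℕ) [Fact p.Prime] (S : Finset (ZMod p)) (r : ZMod p),
  3 ≤ p → Sym S → r ≠ 0 → (0 : ZMod p) ∈ S → S ≠ univ → (re r S).card ≤ 2 →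
  ∃ i k : ℕ, i < k ∧ 2 * k < p ∧
    (∀ n : ℕ, 2 * n < p → ((n : ZMod p) * r ∈ S ↔ n ≤ i ∨ k < n)) ∧
    S.card + 2 * k = 2 * i + p

/-- MODULE SHAPEA (assume `hAlt : stAlt`, `hCard : stCardSym`).  Let `s` be the least and `t` the largest
`n ≤ P` with `n r ∈ A`.  If some `s < n < t` has `n r ∉ A` then `0, s, n, t` alternate. -/
def stShapeA : Prop := ∀ (p : ℕ) [Fact p.Prime] (A : Finset (ZMod p)) (r : ZMod p),
  3 ≤ p → Sym A → r ≠ 0 → (0 : ZMod p) ∉ A → A.Nonempty → (re r A).card ≤ 2 →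
  ∃ s t : ℕ, 1 ≤ s ∧ s ≤ t ∧ 2 * t < p ∧
    (∀ n : ℕ, 2 * n < p → ((n : ZMod p) * r ∈ A ↔ s ≤ n ∧ n ≤ t)) ∧
    A.card + 2 * s = 2 * t + 2

/-- MODULE ARCK (assume `hArc : stArc`).  Let `e` be the right end point (`stEnds`) and
`S = {e - j r : j < n}`, `n = #S < p`.  Write `0 = e - j0 r`; then `- e ∈ S` has the form `e - j r` and
`-e = e - 2 j0 r`; as the map `z ↦ -z` reverses the progression, `n = 2 j0 + 1` (if `j < n` then
`-(e - j r) = e - (2 j0 - j) r ∈ S`, so `(2 j0 - j) mod p < n` for all `j < n`; take `j = 0` and `j = n - 1`).  So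
`S = {m r : |m| ≤ j0}`.  Take `a = m1 r ∈ A ∩ S`, `b = m2 r ∈ B ∩ S`; replacing them by their negatives we may
assume `0 ≤ m1 ≤ j0`, `-j0 ≤ m2 ≤ 0`.  Then `|m1 + m2| ≤ j0` and `s = -(m1 + m2) r ∈ S`. -/
def stArcK : Prop := ∀ (p : ℕ) [Fact p.Prime] (S A B : Finset (ZMod p)) (r : ZMod p),
  3 ≤ p → Sym S → Sym A → Sym B → (0 : ZMod p) ∈ S → r ≠ 0 → S ≠ univ → (re r S).card ≤ 1 →
  (∃ a ∈ A, a ∈ S) → (∃ b ∈ B, b ∈ S) → ∃ a ∈ A, ∃ b ∈ B, ∃ s ∈ S, a + b + s = 0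

/-- MODULE SHIFT (assume `hArc : stArc`, `hEnds : stEnds`).  `J = {e - j d : j < n}`, `τ = t d` with
`0 ≤ t < p`.  If `3 ≤ t ≤ p - 3`, three points of `J` are moved out of `J` by `τ` (so `re τ J` has three
points): if `n + t ≤ p` the points `e, e - d, e - 2 d` (`e - j d + t d = e - (p + j - t) d` with
`n ≤ p + j - t < p` for `j = 0, 1, 2`); if `n + t > p`, the points `e - (t - 1 - j) d`, `j = 0, 1, 2`, that is
`e - (t - 1) d + τ = e + d` and so on: note `t - 1 < n`? if `t ≤ n` use `e - (t - 1) d, e - (t - 2) d,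
e - (t - 3) d`, whose images are `e + d, e + 2 d, e + 3 d`, not in `J` as `n + 3 ≤ p`; if `t > n` and
`n + t > p`: images of `e, e - d, e - 2 d` are `e - (p - t) d, ...` which may be in `J`; use instead that
`#(re τ J) = #(re (-τ) J)` and `-τ = (p - t) d` with `p - t < n`, and apply the case `t ≤ n` to `p - t`
(`3 ≤ p - t`).  So in all cases: either `t ≤ n` or `p - t ≤ n` or `n < t`, `n < p - t`; in the last case all
the points `e, e - d, e - 2 d` are moved out. -/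
def stShift : Prop := ∀ (p : ℕ) [Fact p.Prime] (J : Finset (ZMod p)) (d τ : ZMod p),
  d ≠ 0 → (re d J).card ≤ 1 → 3 ≤ J.card → J.card + 3 ≤ p → (re τ J).card ≤ 2 →
  τ = 0 ∨ τ = d ∨ τ = -d ∨ τ = 2 * d ∨ τ = -(2 * d)

/-- MODULE UTWOA (case `1 ≤ i` of the bound of end points of `A`; assume `hPair`, `hGrow`, `hSkel`,
`hFrag`, `hShift`, `hArc`, `hEnds`).  `S` is as in `stShapeS` with `1 ≤ i` and `k r ∉ S`, `k < P`.  Every
`z ∈ S` has `z + r ∈ S` or `z - r ∈ S` (`i ≥ 1`, and for the outer block `k < |n| ≤ P`: `P r` and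
`(P + 1) r = - P r` are neighbours), so `S = S1 + {0, r}` with `S1 = sk r S`, `#S1 = #S - #(re r S) = #S - 2`
(`#(re r S) = 2` by `hmin`).  `A + S` misses `B` (symmetric), so `#(A + S) ≤ p - #B = #A + #S`.
`stGrow` gives `#A + #(re r A) + #S - 3 ≤ #(A + S)` (the minimum is not `p`), so `#(re r A) ≤ 3`.  Suppose it is
`3` and put `X = A + {0, r}`, `#X = #A + 3`, `A + S = X + S1`, `#(X + S1) ≤ #X + #S1 - 1`.  `S1` is
symmetric: `z ∈ S1` implies `- r - z ∈ S1`.  `stFrag` with `t = 1` gives `ρ ≠ 0` with `#(re ρ S1) ≤ 1`.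
`#S1 ≥ 3` (`#S ≥ 2 i + 1 + 2 ≥ 5`), `#S1 + 3 ≤ p`; `z ∈ re r S1` implies `z + r ∈ re r S`, so
`#(re r S1) ≤ 2`, and `stShift` gives `r = ± ρ` or `r = ± 2 ρ`.
If `r = ± ρ` then `#(re r S1) ≤ 1` (`stPair`, third part) and `z ∈ re r S` implies `z - r ∈ re r S1`: so
`#(re r S) ≤ 1`, contradicting `hmin`.  If `r = 2 ρ`: `S1 = {e - j ρ : j < n}`, `n ≥ 3`, so
`S = S1 + {0, 2 ρ} = {e + 2 ρ - j ρ : j < n + 2}` has `re ρ S ⊆ {e + 2 ρ}`, contradicting `hmin`.  If `r = - 2 ρ`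
then `S = {e - j ρ : j < n + 2}`, the same contradiction. -/
def stU2a : Prop := ∀ (p : ℕ) [Fact p.Prime] (A B S : Finset (ZMod p)) (r : ZMod p) (i k : ℕ),
  KH p A B S → r ≠ 0 → (∀ ρ : ZMod p, ρ ≠ 0 → 2 ≤ (re ρ S).card) → (re r S).card ≤ 2 →
  i < k → 2 * k + 1 < p → (∀ n : ℕ, 2 * n < p → ((n : ZMod p) * r ∈ S ↔ n ≤ i ∨ k < n)) →
  S.card + 2 * k = 2 * i + p → 1 ≤ i → (re r A).card ≤ 2

/-- MODULE UTWOB (case `i = 0`; assume `hPair`, `hEnds`, `hGrow`, `hSkel`, `hFrag`).  Here `S = {0} ∪ T`,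
`T = S.erase 0`, `#T = #S - 1 = p - 1 - 2 k`.  If `k = P - 1` (`#T = 2`), `S = {-ρ, 0, ρ}` with `ρ = P r ≠ 0` and
`2 ρ = - r`, `re ρ S ⊆ {ρ}`, contradicting `hmin` (in detail: `-ρ + ρ = 0 ∈ S`, `0 + ρ ∈ S`).  Otherwise
`#T ≥ 4`.  `re r T ⊆ {-(k + 1) r}` (`z = n r ∈ T`, `k < n < P` gives `z + r ∈ T`; `z = P r` gives
`z + r = - P r ∈ T`; `z = - n r`, `n > k + 1` gives `z + r ∈ T`), so `#(re r T) ≤ 1`, and by `stSkel`
`T = T1 + {0, r}`, `T1 = sk r T`, `#T1 ≥ #T - 1 ≥ 3`, `#(re r T1) ≤ 1`.  Suppose `#(re r A) ≥ 3`.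
`A + T ⊆ A + S`, `#(A + S) ≤ #A + #S` (as `A + S` misses `B`), and `stGrow` for `A, T, T1` gives
`#(A + T) ≥ #A + 3 + #T1 - 1 ≥ #A + #S`.  So `A + T = A + S`, `#(A + S) = #A + #S`, `#(re r A) = 3`,
`#T1 = #T - 1`.  With `X = A + {0, r}`: `X + T1 = A + S` and `#(X + T1) = #X + #T1 - 1`.  `T1 = T2 + {0, r}`
(`stSkel`, `#T1 ≥ 3`), `#T2 ≥ #T1 - 1`, `stGrow` for `X, T1, T2`: `#X + #(re r X) + #T2 - 1 ≤ #X + #T1 - 1`, so
`#(re r X) ≤ 1`, so `#(re r (A + S)) ≤ 1` (`stEnds` (2)).  `B = (A + S)ᶜ` (contained, same cardinality), so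
`#(re r B) ≤ 1` (`stEnds` (4), `A + S` is symmetric).  Next `#(B + S) ≤ #B + #S` (misses `A`) and
`#(B + S) ≥ #B + #S`, otherwise `stFrag` with `t = 1` for `X = B` contradicts `hmin`.  So
`A = (B + S)ᶜ`, and `B + S = B ∪ (B + T)`, hence `#(re r A) = #(re r (B + S)) ≤ 1 + 1 = 2`, a contradiction. -/
def stU2b : Prop := ∀ (p : ℕ) [Fact p.Prime] (A B S : Finset (ZMod p)) (r : ZMod p) (k : ℕ),
  KH p A B S → r ≠ 0 → (∀ ρ : ZMod p, ρ ≠ 0 → 2 ≤ (re ρ S).card) → (re r S).card ≤ 2 →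
  0 < k → 2 * k + 1 < p → (∀ n : ℕ, 2 * n < p → ((n : ZMod p) * r ∈ S ↔ n ≤ 0 ∨ k < n)) →
  S.card + 2 * k = p → (re r A).card ≤ 2

/-- MODULE TWOINT (pure arithmetic of natural numbers).  `u s t` is the interval `[s, t]` of `A`, `s' t'` that of
`B` (with `t < s'`), `S` is `n ≤ i` or `k < n`, `k < P`.  `s' - t ∉ S` gives `s' - t ≥ i + 1`, so
`t' - s ≥ i + 1 + (t - s) + (t' - s') = k - 1` by the cardinalities.  If `t + t' ≤ P` then `t + t' ≤ k`
(it is not in `S`), so `t + t' ≤ t' - s + 1`, `s + t ≤ 1`, impossible.  If `s + s' ≥ P + 1` then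
`p - s - s' ≤ k` so `p - s - s' ≤ t' - s + 1`, `s' + t' ≥ p - 1`, so `s' = t' = P`, impossible.  Otherwise
`s + s' ≤ P < t + t'` and some `α ∈ [s, t]`, `β ∈ [s', t']` have `α + β = P`, which is in `S`. -/
def stTwoInt : Prop := ∀ p i k s t s' t' : ℕ, p % 2 = 1 → i < k → 2 * k + 1 < p → 1 ≤ s → s < t →
  2 * t < p → t < s' → s' < t' → 2 * t' < p →
  (2 * t + 2 - 2 * s) + (2 * t' + 2 - 2 * s') + (2 * i + p - 2 * k) = p →
  (∀ α β : ℕ, s ≤ α → α ≤ t → s' ≤ β → β ≤ t' → ¬ (β - α ≤ i ∨ k < β - α)) →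
  (∀ α β : ℕ, s ≤ α → α ≤ t → s' ≤ β → β ≤ t' → 2 * (α + β) < p → ¬ (α + β ≤ i ∨ k < α + β)) →
  (∀ α β : ℕ, s ≤ α → α ≤ t → s' ≤ β → β ≤ t' → p < 2 * (α + β) →
    ¬ (p - (α + β) ≤ i ∨ k < p - (α + β))) → False

/-- MODULE K (assume `hFrag, hShapeS, hShapeA, hArcK, hU2a, hU2b, hTwoInt`).  `A + S` misses `B` (if
`a + s = b` then `a + (-b) + s = 0`), so `#(A + S) ≤ p - #B = #A + #S` and `#(A + S) + 2 ≤ p`: `stFrag` with `t = 2`
gives `r ≠ 0`, `#(re r S) ≤ 2`.  If some `ρ ≠ 0` has `#(re ρ S) ≤ 1`, `stArcK` contradicts `free`.  Otherwise take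
`i, k` from `stShapeS`.  If `k = P`, that is `2 k + 1 = p`, then `S = {n r : |n| ≤ i}` and
`re r S ⊆ {i r}`, contradiction.  So `2 k + 1 < p` and `stU2a` or `stU2b` (`i ≥ 1` or `i = 0`) give
`#(re r A) ≤ 2`, and the same for `B` (the hypotheses are symmetric in `A` and `B`).  Take `s, t` and
`s', t'` from `stShapeA`; `#A, #B ≥ 4` gives `s < t`, `s' < t'`.  `A ∩ B = ∅` (`0 ∈ S`, `B` symmetric), so
`t < s'` or `t' < s`; apply `stTwoInt` (in the second case with `A` and `B` exchanged).  The three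
conditions are `free` for `a = ∓ α r`, `b = ± β r`. -/
def stK : Prop := ∀ (p : ℕ) [Fact p.Prime] (A B S : Finset (ZMod p)), 3 ≤ p → KH p A B S → False

end Pool.Agent.Helper10.W1
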