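import Pool.Agent.Helper10.W1.StB
import Pool.Agent.Helper10.W1.StA

set_option autoImplicit false

/-!
# Near multiples of `q`: module CASETWO
-/

namespace Pool.Agent.Helper10.W1

open Finset
open scoped Pointwise

private lemma sg_comm_Two {p : ℕ} (c d : ZMod p) (u : ZMod p → ℤ) :
    sg c (sg d u) = sg d (sg c u) := by
  funext z
  show u (z - c - d) - u (z - c + d) - (u (z + c - d) - u (z + c + d)) =
    u (z - d - c) - u (z - d + c) - (u (z + d - c) - u (z + d + c))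
  rw [show z - c - d = z - d - c by ring, show z - c + d = z + d - c by ring,
    show z + c - d = z - d + c by ring, show z + c + d = z + d + c by ring]
  ring

private lemma sg_mul_Two {p : ℕ} (c : ZMod p) (ε : ℤ) (u : ZMod p → ℤ) :
    sg c (fun z => ε * u z) = fun z => ε * sg c u z := by
  funext z
  show ε * u (z - c) - ε * u (z + c) = ε * (u (z - c) - u (z + c))
  ring

private lemma sg_neg_Two {p : ℕ} (c : ZMod p) (u : ZMod p → ℤ) (z : ZMod p) :
    sg (-c) u z = -sg c u z := by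
  show u (z - -c) - u (z + -c) = -(u (z - c) - u (z + c))
  rw [show z - -c = z + c by ring, show z + -c = z - c by ring]
  ring

private lemma sg_neg_in_Two {p : ℕ} (c d : ZMod p) (u : ZMod p → ℤ) (z : ZMod p) :
    sg c (sg (-d) u) z = -sg c (sg d u) z := by
  rw [sg_comm_Two, sg_neg_Two, sg_comm_Two]

/-- the right hand sides -/
private lemma rhs_Two {p : ℕ} [Fact p.Prime] {v u0 a b : ZMod p} {ε : ℤ} (hε : ε = 1 ∨ ε = -1)
    (h : (a ^ 2 = u0 ^ 2 ∧ b ^ 2 = (2 * v) ^ 2) ∨ (b ^ 2 = u0 ^ 2 ∧ a ^ 2 = (2 * v) ^ 2)) :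
    ∃ ε' : ℤ, (ε' = 1 ∨ ε' = -1) ∧
      ∀ z, ε * sg (v * a) (sg (v * b) dl) z = ε' * sg (v * u0) (sg (2 * v ^ 2) dl) z := by
  have key : ∀ a b : ZMod p, a ^ 2 = u0 ^ 2 → b ^ 2 = (2 * v) ^ 2 →
      ∃ ε' : ℤ, (ε' = 1 ∨ ε' = -1) ∧
      ∀ z, ε * sg (v * a) (sg (v * b) dl) z = ε' * sg (v * u0) (sg (2 * v ^ 2) dl) z := by
    intro a b ha hb
    have e2 : v * (2 * v) = 2 * v ^ 2 := by ring
    have e3 : v * -(2 * v) = -(2 * v ^ 2) := by ring
    have e4 : v * -u0 = -(v * u0) := by ring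
    have hε' : -ε = 1 ∨ -ε = -1 := by omega
    rcases sq_eq_sq_iff_eq_or_eq_neg.1 ha with rfl | rfl <;>
      rcases sq_eq_sq_iff_eq_or_eq_neg.1 hb with rfl | rfl
    · exact ⟨ε, hε, fun z => by rw [e2]⟩
    · exact ⟨-ε, hε', fun z => by rw [e3, sg_neg_in_Two]; ring⟩
    · exact ⟨-ε, hε', fun z => by rw [e2, e4, sg_neg_Two]; ring⟩
    · exact ⟨ε, hε, fun z => by rw [e3, e4, sg_neg_Two, sg_neg_in_Two]; ring⟩
  rcases h with ⟨ha, hb⟩ | ⟨hb, ha⟩
  · exact key a b ha hb
  · obtain ⟨ε', h1, h2⟩ := key b a hb ha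
    refine ⟨ε', h1, fun z => ?_⟩
    rw [← h2 z, sg_comm_Two]

/-- the roots -/
private lemma roots_Two {p : ℕ} [Fact p.Prime] {a b u v : ZMod p}
    (h1 : a ^ 2 + b ^ 2 = u ^ 2 + 4 * v ^ 2) (h2 : a ^ 2 * b ^ 2 = 4 * v ^ 2 * u ^ 2) :
    (a ^ 2 = u ^ 2 ∧ b ^ 2 = (2 * v) ^ 2) ∨ (b ^ 2 = u ^ 2 ∧ a ^ 2 = (2 * v) ^ 2) := by
  have h3 : (a ^ 2 - u ^ 2) * (a ^ 2 - 4 * v ^ 2) = 0 := by
    linear_combination a ^ 2 * h1 - h2
  rcases mul_eq_zero.1 h3 with h | h
  · left
    have h' : a ^ 2 = u ^ 2 := sub_eq_zero.1 h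
    refine ⟨h', ?_⟩
    linear_combination h1 - h'
  · right
    have h' : a ^ 2 = 4 * v ^ 2 := sub_eq_zero.1 h
    refine ⟨?_, ?_⟩
    · linear_combination h1 - h'
    · linear_combination h'

private lemma even_Two {p : ℕ} [Fact p.Prime] (hCard : stCardSym) (hp : 3 ≤ p) {S : Finset (ZMod p)}
    (hS : Sym S) (h0 : (0 : ZMod p) ∉ S) : S.card % 2 = 0 := by
  have := hCard p S 1 hp hS one_ne_zero
  rw [if_neg h0] at this
  omega

/-- cancellation -/
private lemma cancel_Two {p : ℕ} [Fact p.Prime] (hBasics : stBasics) (hp : 3 ≤ p) {c η d : ZMod p}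
    {ε : ℤ} {S : Finset (ZMod p)} (hc : c ≠ 0)
    (h : ∀ z, sg c (sg η (chi S)) z = ε * sg c (sg d dl) z) :
    ∀ z, sg η (chi S) z = ε * sg d dl z := by
  have hb := fun u v => (hBasics p c η 0 0 u v S ε hp).2.2.1 hc
  have hs := fun (c : ZMod p) u => (hBasics p c η 0 0 u u S ε hp).2.2.2
  refine hb (sg η (chi S)) (fun z => ε * sg d dl z) (fun z => ?_) ?_
  · rw [h z, sg_mul_Two]
  · rw [hs, ← Finset.mul_sum, hs, mul_zero]

theorem thCaseTwo (hU3 : stU3) (hBasics : stBasics) (hRelArc : stRelArc) (hArcMid : stArcMid)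
    (hCard : stCardSym) : stCaseTwo := by
  intro p _ x1 x2 x3 a b ε S1 S2 S3 hp hT h01 h02 h03 hD hc1
  have hp3 : 3 ≤ p := by omega
  -- small numbers are units
  have hunit : ∀ n : ℕ, 0 < n → n < p → ((n : ℕ) : ZMod p) ≠ 0 := by
    intro n hn hnp h
    rw [ZMod.natCast_eq_zero_iff] at h
    exact absurd (Nat.le_of_dvd hn h) (by omega)
  have u2 : (2 : ZMod p) ≠ 0 := by exact_mod_cast hunit 2 (by norm_num) (by omega)
  have u3 : (3 : ZMod p) ≠ 0 := by exact_mod_cast hunit 3 (by norm_num) (by omega)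
  -- the set `S1`
  obtain ⟨s, hs⟩ : S1.Nonempty := by
    rw [← Finset.card_pos]
    omega
  have hs0 : s ≠ 0 := fun h => h01 (h ▸ hs)
  have hss : s ≠ -s := by
    intro h
    have : 2 * s = 0 := by linear_combination h
    rcases mul_eq_zero.1 this with h | h
    · exact u2 h
    · exact hs0 h
  have hS1 : S1 = {s, -s} := by
    symm
    apply Finset.eq_of_subset_of_card_le
    · intro w hw
      rw [Finset.mem_insert, Finset.mem_singleton] at hw
      rcases hw with rfl | rfl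
      · exact hs
      · exact hT.sym1 s hs
    · rw [hc1, Finset.card_pair hss]
  have hchi : sg s (chi S1) = sg (2 * s) dl := by
    have hc : ∀ w, chi S1 w = dl (w - s) + dl (w + s) := by
      intro w
      unfold chi dl
      rw [hS1]
      by_cases h1 : w = s
      · subst h1
        rw [if_pos (by simp), if_pos (by ring), if_neg]
        · ring
        · intro h
          apply hss
          linear_combination h
      · by_cases h2 : w = -s
        · rw [if_pos (by rw [h2]; simp), if_neg (fun h => h1 (by linear_combination h)),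
            if_pos (by rw [h2]; ring)]
          ring
        · rw [if_neg (by rw [Finset.mem_insert, Finset.mem_singleton]; tauto),
            if_neg (fun h => h1 (by linear_combination h)),
            if_neg (fun h => h2 (by linear_combination h))]
          ring
    funext z
    show chi S1 (z - s) - chi S1 (z + s) = dl (z - 2 * s) - dl (z + 2 * s)
    rw [hc, hc, show z - s - s = z - 2 * s by ring, show z - s + s = z by ring,
      show z + s - s = z by ring, show z + s + s = z + 2 * s by ring]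
    ring
  -- the relation for `S1`
  have hrel : ∀ z, sg (x1 * x2) (sg (x1 * x3) (sg (2 * s) dl)) z =
      ε * sg (x1 * a) (sg (x1 * b) (sg s dl)) z := by
    intro z
    have hr : sg (x1 * x2) (sg (x1 * x3) (chi S1)) = fun z => ε * sg (x1 * a) (sg (x1 * b) dl) z :=
      funext hT.r1
    rw [← hchi, sg_comm_Two (x1 * x3) s, sg_comm_Two (x1 * x2) s, hr, sg_mul_Two,
      sg_comm_Two s (x1 * a), sg_comm_Two s (x1 * b)]
  obtain ⟨e1, e2, e3⟩ := hU3 p (x1 * x2) (x1 * x3) (2 * s) (x1 * a) (x1 * b) s ε hp hT.hε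
    (mul_ne_zero hT.h1 hT.h2) (mul_ne_zero hT.h1 hT.h3) (mul_ne_zero u2 hs0) hrel
  have hroot : (s ^ 2 - (x1 * x2) ^ 2) * (s ^ 2 - (x1 * x3) ^ 2) * (-(3 * s ^ 2)) = 0 := by
    linear_combination (-(s ^ 4)) * e1 + s ^ 2 * e2 - e3
  have hs2 : s ^ 2 ≠ 0 := pow_ne_zero 2 hs0
  have hx12 : x1 ^ 2 ≠ 0 := pow_ne_zero 2 hT.h1
  have hroot' : (s ^ 2 - (x1 * x2) ^ 2) * (s ^ 2 - (x1 * x3) ^ 2) = 0 := by
    rcases mul_eq_zero.1 hroot with h | h
    · exact h
    · exact absurd (neg_eq_zero.1 h) (mul_ne_zero u3 hs2)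
  rcases mul_eq_zero.1 hroot' with h | h
  · -- case (A)
    have hsA : s ^ 2 = (x1 * x2) ^ 2 := sub_eq_zero.1 h
    have f1 : a ^ 2 + b ^ 2 = x3 ^ 2 + 4 * x2 ^ 2 := by
      apply mul_left_cancel₀ hx12
      linear_combination (-1 : ZMod p) * e1 + 3 * hsA
    have f2 : a ^ 2 * b ^ 2 = 4 * x2 ^ 2 * x3 ^ 2 := by
      apply mul_left_cancel₀ (mul_ne_zero (mul_ne_zero hx12 hx12) hs2)
      linear_combination (-1 : ZMod p) * e3
    obtain ⟨ε', hε', hr⟩ := rhs_Two (v := x2) (u0 := x3) hT.hε (roots_Two f1 f2)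
    have g1 := cancel_Two hBasics hp3 (c := x2 * x3) (η := x2 * x1) (d := 2 * x2 ^ 2) (ε := ε')
      (S := S2) (mul_ne_zero hT.h2 hT.h3) (fun z => (hT.r2 z).trans (hr z))
    have hc0 : 2 * x2 ^ 2 ≠ 0 := mul_ne_zero u2 (pow_ne_zero 2 hT.h2)
    have g2 := hRelArc p S2 (x2 * x1) (2 * x2 ^ 2) ε' hp3 hε' hc0 g1
    have hne : S2.Nonempty := by
      rw [← Finset.card_pos]
      have := hT.c2
      omega
    have hnu : S2 ≠ univ := fun h => h02 (h ▸ Finset.mem_univ _)
    have g3 := (hArcMid p S2 (x2 * x1) hp3 hT.sym2 hne hnu (mul_ne_zero hT.h2 hT.h1) g2).1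
      (even_Two hCard hp3 hT.sym2 h02)
    have g4 : -s ∈ S2 := by
      rcases sq_eq_sq_iff_eq_or_eq_neg.1 hsA with h | h
      · have := hT.sym2 _ g3
        rw [h, mul_comm x1 x2]
        exact this
      · rw [h, neg_neg, mul_comm x1 x2]
        exact g3
    exact hT.free s hs (-s) g4 0 h03 (by ring)
  · -- case (B)
    have hsB : s ^ 2 = (x1 * x3) ^ 2 := sub_eq_zero.1 h
    have f1 : a ^ 2 + b ^ 2 = x2 ^ 2 + 4 * x3 ^ 2 := by
      apply mul_left_cancel₀ hx12
      linear_combination (-1 : ZMod p) * e1 + 3 * hsB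
    have f2 : a ^ 2 * b ^ 2 = 4 * x3 ^ 2 * x2 ^ 2 := by
      apply mul_left_cancel₀ (mul_ne_zero (mul_ne_zero hx12 hx12) hs2)
      linear_combination (-1 : ZMod p) * e3
    obtain ⟨ε', hε', hr⟩ := rhs_Two (v := x3) (u0 := x2) hT.hε (roots_Two f1 f2)
    have g1 := cancel_Two hBasics hp3 (c := x3 * x2) (η := x3 * x1) (d := 2 * x3 ^ 2) (ε := ε')
      (S := S3) (mul_ne_zero hT.h3 hT.h2) (fun z => by
        rw [sg_comm_Two]
        exact (hT.r3 z).trans (hr z))
    have hc0 : 2 * x3 ^ 2 ≠ 0 := mul_ne_zero u2 (pow_ne_zero 2 hT.h3)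
    have g2 := hRelArc p S3 (x3 * x1) (2 * x3 ^ 2) ε' hp3 hε' hc0 g1
    have hnu : S3 ≠ univ := by
      intro h
      have h1 := hT.sum
      have h2 := hT.c1
      rw [h, Finset.card_univ, ZMod.card] at h1
      omega
    have g3 := (hArcMid p S3 (x3 * x1) hp3 hT.sym3 ⟨0, h03⟩ hnu (mul_ne_zero hT.h3 hT.h1) g2).2 h03
    have g4 : s ∉ S3 := by
      intro hs3
      apply g3
      rcases sq_eq_sq_iff_eq_or_eq_neg.1 hsB with h | h
      · rw [mul_comm x3 x1, ← h]
        exact hs3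
      · have := hT.sym3 _ hs3
        rw [mul_comm x3 x1, ← neg_neg (x1 * x3), ← h]
        exact this
    apply hD
    rw [Finset.disjoint_left]
    intro w hw hw3
    rw [hS1, Finset.mem_insert, Finset.mem_singleton] at hw
    rcases hw with rfl | rfl
    · exact g4 hw3
    · have := hT.sym3 _ hw3
      rw [neg_neg] at this
      exact g4 this

end Pool.Agent.Helper10.W1
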