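import Pool.Agent.Helper10.W1.StD

set_option autoImplicit false

/-!
# Near multiples of `q`: the decomposition of `EE`

Work in the group ring of `ZMod p` over the integers.
-/

namespace Pool.Agent.Helper10.W1

open Finset

namespace Dec

open AddMonoidAlgebra

/-- the group ring element `X ^ c` -/
noncomputable def mX (p : ℕ) (c : ZMod p) : AddMonoidAlgebra ℤ (ZMod p) := AddMonoidAlgebra.single c 1

/-- coefficient -/
noncomputable def cf {p : ℕ} (u : AddMonoidAlgebra ℤ (ZMod p)) (z : ZMod p) : ℤ := u.coeff z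

lemma cf_add {p : ℕ} (u v : AddMonoidAlgebra ℤ (ZMod p)) (z : ZMod p) :
    cf (u + v) z = cf u z + cf v z := by
  simp [cf]

lemma cf_neg {p : ℕ} (u : AddMonoidAlgebra ℤ (ZMod p)) (z : ZMod p) :
    cf (-u) z = - cf u z := by
  simp [cf]

lemma cf_sub {p : ℕ} (u v : AddMonoidAlgebra ℤ (ZMod p)) (z : ZMod p) :
    cf (u - v) z = cf u z - cf v z := by
  simp [cf]

lemma cf_zero {p : ℕ} (z : ZMod p) : cf (0 : AddMonoidAlgebra ℤ (ZMod p)) z = 0 := by
  simp [cf]

lemma cf_sum {p : ℕ} {ι : Type*} (s : Finset ι) (F : ι → AddMonoidAlgebra ℤ (ZMod p)) (z : ZMod p) :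
    cf (∑ i ∈ s, F i) z = ∑ i ∈ s, cf (F i) z := by
  simp [cf]

lemma cf_mul {p : ℕ} (c : ZMod p) (u : AddMonoidAlgebra ℤ (ZMod p)) (z : ZMod p) :
    cf (mX p c * u) z = cf u (z - c) := by
  unfold cf mX
  rw [AddMonoidAlgebra.coeff_single_mul_apply]
  rw [one_mul, neg_add_eq_sub]

lemma cf_mX {p : ℕ} (c z : ZMod p) : cf (mX p c) z = if c = z then 1 else 0 := by
  unfold cf mX
  rw [AddMonoidAlgebra.coeff_single, Finsupp.single_apply]

lemma cf_one {p : ℕ} (z : ZMod p) : cf (1 : AddMonoidAlgebra ℤ (ZMod p)) z = dl z := by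
  have h : (1 : AddMonoidAlgebra ℤ (ZMod p)) = mX p 0 := rfl
  rw [h, cf_mX]
  unfold dl
  by_cases h0 : z = 0
  · simp [h0]
  · simp [h0, Ne.symm h0]

lemma mX_mul {p : ℕ} (c d : ZMod p) : mX p c * mX p d = mX p (c + d) := by
  unfold mX
  rw [AddMonoidAlgebra.single_mul_single, one_mul]

lemma mX_zero {p : ℕ} : mX p 0 = 1 := rfl

lemma mX_pow {p : ℕ} (c : ZMod p) (n : ℕ) : mX p c ^ n = mX p ((n : ZMod p) * c) := by
  induction n with
  | zero => simp [mX_zero]
  | succ n ih =>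
    rw [pow_succ, ih, mX_mul]
    congr 1
    push_cast
    ring

lemma ext_cf {p : ℕ} (u v : AddMonoidAlgebra ℤ (ZMod p)) (h : ∀ z, cf u z = cf v z) : u = v := by
  ext z
  exact h z

lemma mX_cancel {p : ℕ} (c : ZMod p) (u : AddMonoidAlgebra ℤ (ZMod p)) (h : mX p c * u = 0) :
    u = 0 := by
  have h1 : mX p (-c) * (mX p c * u) = 0 := by rw [h, mul_zero]
  rwa [← mul_assoc, mX_mul, neg_add_cancel, mX_zero, one_mul] at h1

/-- annihilated by `1 - X ^ c` implies constant -/
lemma const_of {p : ℕ} [Fact p.Prime] (c : ZMod p) (hc : c ≠ 0) (v : AddMonoidAlgebra ℤ (ZMod p))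
    (h : (1 - mX p c) * v = 0) : ∀ z, cf v z = cf v 0 := by
  have h1 : ∀ z, cf v (z - c) = cf v z := by
    intro z
    have h2 : cf ((1 - mX p c) * v) z = 0 := by rw [h, cf_zero]
    rw [sub_mul, one_mul, cf_sub, cf_mul] at h2
    linarith
  have h3 : ∀ (n : ℕ) (z : ZMod p), cf v (z - (n : ZMod p) * c) = cf v z := by
    intro n
    induction n with
    | zero => intro z; simp
    | succ n ih =>
      intro z
      have e : z - ((n + 1 : ℕ) : ZMod p) * c = (z - (n : ZMod p) * c) - c := by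
        push_cast; ring
      rw [e, h1, ih]
  intro z
  have h4 := h3 (z / c).val z
  rw [ZMod.natCast_zmod_val, div_mul_cancel₀ _ hc, sub_self] at h4
  exact h4.symm

lemma sum_shift {p : ℕ} [Fact p.Prime] (c : ZMod p) (v : AddMonoidAlgebra ℤ (ZMod p)) :
    ∑ z : ZMod p, cf v (z - c) = ∑ z : ZMod p, cf v z := by
  exact Fintype.sum_equiv (Equiv.subRight c) _ _ (fun z => rfl)

/-- cancel a factor `1 - X ^ c` if there is another one -/
lemma cancel_two {p : ℕ} [Fact p.Prime] (c d : ZMod p) (hc : c ≠ 0)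
    (v : AddMonoidAlgebra ℤ (ZMod p)) (h : (1 - mX p c) * ((1 - mX p d) * v) = 0) :
    (1 - mX p d) * v = 0 := by
  have h1 := const_of c hc _ h
  have h2 : ∑ z : ZMod p, cf ((1 - mX p d) * v) z = 0 := by
    have : ∀ z, cf ((1 - mX p d) * v) z = cf v z - cf v (z - d) := by
      intro z
      rw [sub_mul, one_mul, cf_sub, cf_mul]
    simp only [this]
    rw [Finset.sum_sub_distrib, sum_shift, sub_self]
  have h3 : cf ((1 - mX p d) * v) 0 = 0 := by
    rw [Finset.sum_congr rfl (fun z _ => h1 z)] at h2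
    rw [Finset.sum_const, Finset.card_univ, ZMod.card, nsmul_eq_mul] at h2
    rcases mul_eq_zero.mp h2 with h4 | h4
    · exact absurd (by exact_mod_cast h4) (Fact.out : p.Prime).ne_zero
    · exact h4
  apply ext_cf
  intro z
  rw [h1 z, h3, cf_zero]

/-- geometric sum -/
noncomputable def gs (p : ℕ) [Fact p.Prime] (x a : ZMod p) : AddMonoidAlgebra ℤ (ZMod p) :=
  ∑ i ∈ range (a / x).val, mX p x ^ i

lemma gs_mul {p : ℕ} [Fact p.Prime] (x a : ZMod p) (hx : x ≠ 0) :
    (1 - mX p x) * gs p x a = 1 - mX p a := by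
  unfold gs
  rw [mul_neg_geom_sum, mX_pow, ZMod.natCast_zmod_val, div_mul_cancel₀ _ hx]

/-- the complete homogeneous polynomial -/
noncomputable def hp (p : ℕ) (x y : ZMod p) (m : ℕ) : AddMonoidAlgebra ℤ (ZMod p) :=
  ∑ i ∈ range (m + 1), ∑ j ∈ range (m + 1 - i), mX p x ^ i * mX p y ^ j

lemma cf_hp {p : ℕ} (x y : ZMod p) (m : ℕ) (z : ZMod p) : cf (hp p x y m) z = HH x y m z := by
  unfold hp HH
  rw [cf_sum]
  refine Finset.sum_congr rfl (fun i _ => ?_)
  rw [cf_sum]
  refine Finset.sum_congr rfl (fun j _ => ?_)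
  rw [mX_pow, mX_pow, mX_mul, cf_mX]

lemma cf_two {p : ℕ} (x y : ZMod p) (u : AddMonoidAlgebra ℤ (ZMod p)) (z : ZMod p) :
    cf ((1 - mX p x) * (1 - mX p y) * u) z = cf u z - cf u (z - x) - cf u (z - y) + cf u (z - x - y) := by
  have e : (1 - mX p x) * (1 - mX p y) * u =
      u - mX p x * u - mX p y * u + mX p x * (mX p y * u) := by ring
  rw [e, cf_add, cf_sub, cf_sub, cf_mul, cf_mul, cf_mul, cf_mul]

lemma cf_one_two {p : ℕ} (a b : ZMod p) (z : ZMod p) :
    cf ((1 - mX p a) * (1 - mX p b)) z = dl z - dl (z - a) - dl (z - b) + dl (z - a - b) := by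
  have h := cf_two a b 1 z
  rw [mul_one] at h
  rw [h]
  simp only [cf_one]

end Dec

open Dec in
theorem thDec (hRing : stRingId) : stDec := by
  intro p _ x y a b hx hy hxy ha hb
  have hw : y - x ≠ 0 := sub_ne_zero.mpr (Ne.symm hxy)
  set X := mX p x with hX
  set Y := mX p y with hY
  set W := mX p (y - x) with hW
  set A := mX p a with hA
  set B := mX p b with hB
  have hXW : X * W = Y := by
    rw [hX, hW, mX_mul, hY]
    congr 1
    ring
  set f0 := gs p x a * gs p y b with hf0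
  set g0 := -(X * (gs p x a * gs p (y - x) b)) with hg0
  set h0 := Y * (W * (gs p y a * gs p (y - x) b)) with hh0
  have ef : (1 - X) * (1 - Y) * f0 = (1 - A) * (1 - B) := by
    have e1 := gs_mul x a hx
    have e2 := gs_mul y b hy
    calc (1 - X) * (1 - Y) * f0 = ((1 - X) * gs p x a) * ((1 - Y) * gs p y b) := by
          rw [hf0]; ring
      _ = _ := by rw [hX, hY, e1, e2]
  have eg : (1 - X) * (1 - W) * g0 = -(X * ((1 - A) * (1 - B))) := by
    have e1 := gs_mul x a hx
    have e2 := gs_mul (y - x) b hw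
    calc (1 - X) * (1 - W) * g0 = -(X * (((1 - X) * gs p x a) * ((1 - W) * gs p (y - x) b))) := by
          rw [hg0]; ring
      _ = _ := by
          have e3 : (1 - X) * gs p x a = 1 - A := e1
          have e4 : (1 - W) * gs p (y - x) b = 1 - B := e2
          rw [e3, e4]
  have eh : (1 - Y) * (1 - W) * h0 = Y * (W * ((1 - A) * (1 - B))) := by
    have e1 := gs_mul y a hy
    have e2 := gs_mul (y - x) b hw
    calc (1 - Y) * (1 - W) * h0 = Y * (W * (((1 - Y) * gs p y a) * ((1 - W) * gs p (y - x) b))) := by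
          rw [hh0]; ring
      _ = _ := by
          have e3 : (1 - Y) * gs p y a = 1 - A := e1
          have e4 : (1 - W) * gs p (y - x) b = 1 - B := e2
          rw [e3, e4]
  refine ⟨cf f0, cf g0, cf h0, ?_, ?_, ?_, ?_⟩
  · intro m
    set u := (1 - A) * (1 - B) * hp p x y m - f0 - X ^ m * g0 - Y ^ m * h0 with hu
    have hR := hRing (AddMonoidAlgebra ℤ (ZMod p)) X Y m
    have hR' : (1 - X) * (1 - Y) * (X - Y) * hp p x y m =
        (X - Y) - X ^ (m + 2) * (1 - Y) + Y ^ (m + 2) * (1 - X) := hR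
    have key : X * ((1 - X) * ((1 - Y) * ((1 - W) * u))) = 0 := by
      have s1 : X * ((1 - X) * ((1 - Y) * ((1 - W) * u))) =
          (1 - A) * (1 - B) * ((1 - X) * (1 - Y) * (X - X * W) * hp p x y m)
          - (X - X * W) * ((1 - X) * (1 - Y) * f0)
          - X * X ^ m * (1 - Y) * ((1 - X) * (1 - W) * g0)
          - X * Y ^ m * (1 - X) * ((1 - Y) * (1 - W) * h0) := by
        rw [hu]; ring
      rw [s1, ef, eg, eh, hXW, hR']
      have s2 : X * Y ^ m * (1 - X) * (Y * (W * ((1 - A) * (1 - B)))) =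
          (X * W) * Y * Y ^ m * (1 - X) * ((1 - A) * (1 - B)) := by ring
      rw [s2, hXW]
      ring
    have k1 := mX_cancel x _ key
    have k2 : (1 - Y) * ((1 - W) * u) = 0 := cancel_two x y hx _ k1
    have k3 : (1 - W) * u = 0 := cancel_two y (y - x) hy _ k2
    have k4 := const_of (y - x) hw u k3
    refine ⟨cf u 0, fun z => ?_⟩
    have k5 := k4 z
    have k6 : cf u z = EE x y a b m z - cf f0 z - cf g0 (z - m * x) - cf h0 (z - m * y) := by
      rw [hu, cf_sub, cf_sub, cf_sub]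
      rw [hA, hB, cf_two, hX, hY, mX_pow, mX_pow, cf_mul, cf_mul]
      simp only [cf_hp]
      rfl
    linarith
  · intro z
    rw [← cf_two, ← hX, ← hY, ef, hA, hB, cf_one_two]
  · intro z
    rw [← cf_two, ← hX, ← hW, eg, cf_neg, hX, cf_mul, hA, hB, cf_one_two]
  · intro z
    rw [← cf_two, ← hY, ← hW, eh, hY, cf_mul, hW, cf_mul, hA, hB, cf_one_two]

end Pool.Agent.Helper10.W1
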