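import Pool.Agent.Helper10.W1.StD
import Pool.Agent.Helper8.Tern.Comb

set_option autoImplicit false

/-!
# Near multiples of `q`: module DIVBAL
-/

namespace Pool.Agent.Helper10.W1

open Finset
open scoped Pointwise

namespace DivBal

open Pool.Agent.Helper8.Tern

theorem swap_sum (g : ℕ → ℤ) (V M : ℕ) :
    ∑ l ∈ range V, (g l - g (l + M)) = ∑ l ∈ range M, (g l - g (l + V)) := by
  have h1 := Finset.sum_range_add g V M
  have h2 := Finset.sum_range_add g M V
  rw [add_comm M V, h1] at h2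
  rw [sum_sub_distrib, sum_sub_distrib]
  have e1 : ∑ x ∈ range M, g (V + x) = ∑ x ∈ range M, g (x + V) :=
    sum_congr rfl (fun x _ => by rw [add_comm])
  have e2 : ∑ x ∈ range V, g (M + x) = ∑ x ∈ range V, g (x + M) :=
    sum_congr rfl (fun x _ => by rw [add_comm])
  rw [e1, e2] at h2
  linarith

theorem ff_swap {p : ℕ} [Fact p.Prime] (V M L : ℕ) (t y : ZMod p) :
    ff V L t y - ff V L t (y - M * t) = ff M L t y - ff M L t (y - V * t) := by
  unfold ff
  rw [sum_comm (s := range V), sum_comm (s := range V), sum_comm (s := range M),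
    sum_comm (s := range M), ← sum_sub_distrib, ← sum_sub_distrib]
  refine sum_congr rfl fun i _ => ?_
  rw [← sum_sub_distrib, ← sum_sub_distrib]
  have h := swap_sum (fun l => ind ((l : ZMod p) * t + (i : ZMod p)) y) V M
  have e1 : ∀ l N : ℕ, ind ((l : ZMod p) * t + (i : ZMod p)) (y - N * t) =
      ind (((l + N : ℕ) : ZMod p) * t + (i : ZMod p)) y := by
    intro l N
    rw [ind_sub]
    congr 1
    push_cast
    ring
  simp only [e1]
  exact h

theorem GG_eq {p : ℕ} [Fact p.Prime] (V : ℕ) (hV : V < p) (α y : ZMod p) (hα : α ≠ 0) :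
    GG V α⁻¹ y = if (y * α).val < V then 1 else 0 := by
  unfold GG ind
  have h : ∀ l ∈ range V, (if (l : ZMod p) * α⁻¹ = y then (1 : ℤ) else 0) =
      if l = (y * α).val then 1 else 0 := by
    intro l hl
    have hlV : l < p := lt_trans (mem_range.mp hl) hV
    have : ((l : ZMod p) * α⁻¹ = y) ↔ l = (y * α).val := by
      constructor
      · intro h
        rw [← h, inv_mul_cancel_right₀ hα, ZMod.val_cast_of_lt hlV]
      · intro h
        rw [h, ZMod.natCast_zmod_val, mul_inv_cancel_right₀ hα]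
    simp only [this]
  rw [sum_congr rfl h, sum_ite_eq']
  simp only [mem_range]

theorem ff_card {p : ℕ} [Fact p.Prime] (V L : ℕ) (hV : V < p) (hV0 : 0 < V) (hL : 0 < L)
    (α y : ZMod p) (hα : α ≠ 0) :
    ff V L α⁻¹ y = (((range (L - 1 + 1)).filter
      (fun e : ℕ => ((y - e) * α).val ≤ V - 1)).card : ℤ) := by
  unfold ff
  rw [sum_comm, Nat.sub_add_cancel hL, card_filter]
  push_cast
  refine sum_congr rfl fun i _ => ?_
  have h := GG_eq V hV α (y - i) hα
  unfold GG at h
  simp only [ind_sub] at h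
  rw [h]
  have : ((y - (i : ZMod p)) * α).val < V ↔ ((y - (i : ZMod p)) * α).val ≤ V - 1 := by omega
  simp only [this]

end DivBal

theorem thDivBal : stDivBal := by
  intro p α q _ hα hq0 hq1 hq2 hqa1 hqa2
  have hM0 : ((q * α : ℕ) : ZMod p) ≠ 0 := by
    push_cast
    exact mul_ne_zero hq0 hα
  set M : ℕ := ((q * α : ℕ) : ZMod p).val with hM
  have hMc : (M : ZMod p) = ((q * α : ℕ) : ZMod p) := by
    rw [hM, ZMod.natCast_zmod_val]
  set L : ℕ := (((q * α : ℕ) : ZMod p)⁻¹).val with hL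
  have hLc : (L : ZMod p) = ((q * α : ℕ) : ZMod p)⁻¹ := by
    rw [hL, ZMod.natCast_zmod_val]
  have hMt : (M : ZMod p) * (α : ZMod p)⁻¹ = q := by
    rw [hMc]
    push_cast
    rw [mul_inv_cancel_right₀ hα]
  have hL0 : (L : ZMod p) ≠ 0 := by
    rw [hLc]; exact inv_ne_zero hM0
  have hL1 : (L : ZMod p) ≠ 1 := by
    rw [hLc]
    intro h
    exact hqa1 (by
      have h3 := congrArg (fun z => z⁻¹) h
      simp only [inv_inv, inv_one] at h3
      exact h3)
  have hL2 : (L : ZMod p) ≠ -1 := by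
    rw [hLc]
    intro h
    apply hqa2
    have := congrArg (fun z => z⁻¹) h
    simp only [inv_inv] at this
    rw [this]
    rw [inv_neg, inv_one]
  obtain ⟨y, z, hyz⟩ := Pool.Agent.Helper8.Tern.balance M L (α : ZMod p)⁻¹ hL0 hL1 hL2
    (Or.inl (by rw [hMc, hLc, mul_inv_cancel₀ hM0])) (inv_ne_zero hα)
    (by rw [hMt]; exact hq1) (by rw [hMt]; exact hq2)
  set V : ℕ := ((y - z) * (α : ZMod p)).val with hV
  have hVc : (V : ZMod p) = (y - z) * α := by
    rw [hV, ZMod.natCast_zmod_val]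
  have hVlt : V < p := ZMod.val_lt _
  have hLlt : L < p := ZMod.val_lt _
  have hVpos : 0 < V := by
    rcases Nat.eq_zero_or_pos V with h | h
    · exfalso
      have h1 : (y - z) * (α : ZMod p) = 0 := by rw [← hVc, h, Nat.cast_zero]
      rcases mul_eq_zero.mp h1 with h2 | h2
      · rw [sub_eq_zero.mp h2, sub_self] at hyz
        norm_num at hyz
      · exact hα h2
    · exact h
  have hLpos : 0 < L := by
    rcases Nat.eq_zero_or_pos L with h | h
    · exact absurd (by rw [h, Nat.cast_zero]) hL0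
    · exact h
  have hzy : z = y - V * (α : ZMod p)⁻¹ := by
    rw [hVc, mul_inv_cancel_right₀ hα]; ring
  rw [hzy, ← DivBal.ff_swap V M L, DivBal.ff_card V L hVlt hVpos hLpos _ _ hα,
    DivBal.ff_card V L hVlt hVpos hLpos _ _ hα, hMt] at hyz
  refine ⟨(y * (α : ZMod p)).val, L - 1, V - 1, ZMod.val_lt _, by omega, by omega, ?_⟩
  have e1 : ∀ e : ℕ, (((y * (α : ZMod p)).val : ℕ) : ZMod p) - (e : ZMod p) * (α : ZMod p) =
      (y - e) * α := by
    intro e
    rw [ZMod.natCast_zmod_val]; ring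
  have e2 : ∀ e : ℕ, (((y * (α : ZMod p)).val : ℕ) : ZMod p) -
      ((e : ZMod p) + (q : ZMod p)) * (α : ZMod p) = (y - q - e) * α := by
    intro e
    rw [ZMod.natCast_zmod_val]; ring
  simp only [e1, e2]
  exact hyz

end Pool.Agent.Helper10.W1
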