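import Pool.Agent.Helper10.W1.StD

set_option autoImplicit false

/-!
# Module DIVMINUS
-/

namespace Pool.Agent.Helper10.W1

open Finset
open Pool.Agent.Helper55.FT (mm av bv G bv_congr)

/-- the sum `mm` has one term -/
private lemma DM_mm_eq (p q : ℕ) [Fact p.Prime] (hq : (q : ZMod p) ≠ 0) (i z : ℤ) (t : ℕ)
    (ht : t < p) (hz : ((z - i : ℤ) : ZMod p) = (t : ZMod p) * (q : ZMod p)) :
    mm p q i z = if (t : ℤ) * q ≤ z then 1 else 0 := by
  unfold mm
  rw [Finset.sum_eq_single t]
  · have h1 : (p : ℤ) ∣ z - i - t * q := by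
      rw [← ZMod.intCast_zmod_eq_zero_iff_dvd]
      push_cast at hz ⊢
      rw [hz, sub_self]
    simp [h1]
  · intro l hl hlt
    rw [if_neg]
    rintro ⟨_, h2⟩
    apply hlt
    rw [← ZMod.intCast_zmod_eq_zero_iff_dvd] at h2
    push_cast at hz h2
    have h3 : (l : ZMod p) * q = t * q := by
      rw [← hz]
      linear_combination -h2
    have h4 : (l : ZMod p) = t := mul_right_cancel₀ hq h3
    have h5 := congrArg ZMod.val h4
    rwa [ZMod.val_natCast_of_lt (Finset.mem_range.1 hl), ZMod.val_natCast_of_lt ht] at h5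
  · intro h
    exact absurd (Finset.mem_range.2 ht) h

/-- the value of `bv` at `ρ q + (Q - e) v + 1` -/
private lemma DM_bv_val (p q v α Q : ℕ) [Fact p.Prime] (hq0 : 0 < q) (hq : (q : ZMod p) ≠ 0)
    (hv : 1 ≤ v) (hpv : p ∣ v) (hvq : (p - 1) * v < q) (hα : α < p) (hα2 : 2 ≤ α)
    (hαq : (α : ZMod p) * (q : ZMod p) = -1) (hQ : Q + 1 < p)
    (ρ e : ℕ) (hρ : ρ < p) (he : e < p) (y : ℤ)
    (hy : ((p * q : ℕ) : ℤ) ∣ y - ((ρ : ℤ) * q + ((Q : ℤ) - e) * v + 1)) :
    bv p q (((α - 1) * q + 1 : ℕ) : ℤ) y =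
      if e ≤ Q ∧ (ρ + 2 ≤ α ∨ (ρ + 1 = α ∧ e = Q)) then -1 else 0 := by
  have hp : 2 ≤ p := (Fact.out : p.Prime).two_le
  have hv0 : (v : ZMod p) = 0 := (ZMod.natCast_eq_zero_iff _ _).2 hpv
  have hpv' : p ≤ v := Nat.le_of_dvd hv hpv
  have hvp : ∀ d : ℕ, d < p → (d : ℤ) * v < q := by
    intro d hd
    have h1 : d * v ≤ (p - 1) * v := Nat.mul_le_mul_right _ (by omega)
    have h2 : d * v < q := lt_of_le_of_lt h1 hvq
    exact_mod_cast h2
  have hqz : (0 : ℤ) < q := by exact_mod_cast hq0
  have hvz : (2 : ℤ) ≤ v := by exact_mod_cast (hp.trans hpv')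
  have hN : (((α - 1) * q + 1 : ℕ) : ℤ) = ((α : ℤ) - 1) * q + 1 := by
    rw [Nat.cast_add, Nat.cast_mul, Nat.cast_sub (by omega)]
    norm_num
  have hαz : (2 : ℤ) ≤ α := by exact_mod_cast hα2
  have hαp : (α : ℤ) + 1 ≤ p := by exact_mod_cast hα
  -- the two values of `l`
  have key1 : ∀ z : ℤ, ((z : ℤ) : ZMod p) = (ρ : ZMod p) * q + 1 →
      mm p q 1 z = if (ρ : ℤ) * q ≤ z then 1 else 0 := by
    intro z hz
    apply DM_mm_eq p q hq 1 z ρ hρ
    push_cast
    rw [hz]
    ring
  have key0 : ∀ z : ℤ, ((z : ℤ) : ZMod p) = (ρ : ZMod p) * q + 1 →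
      mm p q 0 z = if ((if α ≤ ρ then ρ - α else ρ + p - α : ℕ) : ℤ) * q ≤ z then 1 else 0 := by
    intro z hz
    apply DM_mm_eq p q hq 0 z
    · split_ifs <;> omega
    · rw [sub_zero, hz]
      have h1 : (((if α ≤ ρ then ρ - α else ρ + p - α : ℕ)) : ZMod p) = (ρ : ZMod p) - α := by
        split_ifs with h
        · rw [Nat.cast_sub h]
        · rw [Nat.cast_sub (by omega), Nat.cast_add, ZMod.natCast_self, add_zero]
      rw [h1]
      linear_combination hαq
  rcases le_or_gt e Q with hej | hej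
  · -- first type
    set z : ℤ := (ρ : ℤ) * q + ((Q : ℤ) - e) * v + 1 with hz
    have hd0 : (0 : ℤ) ≤ ((Q : ℤ) - e) * v := by
      apply mul_nonneg
      · have : (e : ℤ) ≤ Q := by exact_mod_cast hej
        linarith
      · linarith
    have hd1 : ((Q : ℤ) - e) * v + 1 < q := by
      have h1 := hvp (Q - e + 1) (by omega)
      rw [Nat.cast_add, Nat.cast_sub hej] at h1
      push_cast at h1
      nlinarith
    have hz0 : 0 ≤ z := by positivity
    have hzlt : z < ((p : ℤ) * q) := by
      have h1 : (ρ : ℤ) + 1 ≤ p := by exact_mod_cast hρ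
      nlinarith
    have hzmod : z % ((p : ℤ) * q) = z := Int.emod_eq_of_lt hz0 hzlt
    rw [bv_congr hy]
    unfold bv
    rw [hzmod]
    have hzc : ((z : ℤ) : ZMod p) = (ρ : ZMod p) * q + 1 := by
      rw [hz]
      push_cast
      rw [hv0, mul_zero, add_zero]
    have hrow : ∀ l : ℕ, (l : ℤ) * q ≤ z ↔ l ≤ ρ := by
      intro l
      constructor
      · intro h
        by_contra hcon
        have h1 : (ρ : ℤ) + 1 ≤ l := by
          have : ρ + 1 ≤ l := by omega
          exact_mod_cast this
        nlinarith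
      · intro h
        have h1 : (l : ℤ) ≤ ρ := by exact_mod_cast h
        nlinarith
    have hNz : z ≤ (((α - 1) * q + 1 : ℕ) : ℤ) ↔ (ρ + 2 ≤ α ∨ (ρ + 1 = α ∧ e = Q)) := by
      rw [hN]
      constructor
      · intro h
        by_contra hcon
        push Not at hcon
        obtain ⟨c1, c2⟩ := hcon
        rcases Nat.eq_or_lt_of_le (show α ≤ ρ + 1 by omega) with h5 | h5
        · have h6 := c2 h5.symm
          have h7 : (1 : ℤ) ≤ (Q : ℤ) - e := by
            have : e + 1 ≤ Q := by omega
            have h8 : (e : ℤ) + 1 ≤ Q := by exact_mod_cast this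
            linarith
          have h8 : (α : ℤ) = ρ + 1 := by exact_mod_cast h5
          rw [h8] at h
          nlinarith
        · have h6 : (α : ℤ) ≤ ρ := by
            have : α ≤ ρ := by omega
            exact_mod_cast this
          nlinarith
      · rintro (h | ⟨h, h'⟩)
        · have h6 : (ρ : ℤ) + 2 ≤ α := by exact_mod_cast h
          nlinarith
        · have h6 : (ρ : ℤ) + 1 = α := by exact_mod_cast h
          rw [hz, h', ← h6]
          nlinarith
    unfold av
    rw [key0 z hzc, key1 z hzc, if_pos ((hrow ρ).2 le_rfl)]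
    have h3 : (((if α ≤ ρ then ρ - α else ρ + p - α : ℕ) : ℤ) * q ≤ z) ↔ α ≤ ρ := by
      rw [hrow]
      split_ifs <;> omega
    by_cases h1 : (ρ + 2 ≤ α ∨ (ρ + 1 = α ∧ e = Q))
    · rw [if_pos (hNz.2 h1), if_neg (fun h => by have := h3.1 h; omega), if_pos ⟨hej, h1⟩]
      norm_num
    · rw [if_neg (fun h => h1 (hNz.1 h)), if_neg (fun h => h1 h.2)]
  · -- second type
    rw [if_neg (fun h => absurd h.1 (by omega))]
    have hd0 : (2 : ℤ) ≤ ((e : ℤ) - Q) * v := by
      have h1 : (1 : ℤ) ≤ (e : ℤ) - Q := by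
        have : (Q : ℤ) + 1 ≤ e := by exact_mod_cast hej
        linarith
      nlinarith
    have hd1 : ((e : ℤ) - Q) * v < q := by
      have h1 := hvp (e - Q) (by omega)
      rwa [Nat.cast_sub hej.le] at h1
    rcases Nat.eq_zero_or_pos ρ with h0 | h0
    · -- row `p - 1`
      set z : ℤ := (p : ℤ) * q - ((e : ℤ) - Q) * v + 1 with hz
      have hz0 : 0 ≤ z := by
        have h1 : (1 : ℤ) ≤ p := by exact_mod_cast (by omega : 1 ≤ p)
        nlinarith
      have hzlt : z < ((p : ℤ) * q) := by linarith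
      have hzmod : z % ((p : ℤ) * q) = z := Int.emod_eq_of_lt hz0 hzlt
      have hyz : ((p * q : ℕ) : ℤ) ∣ y - z := by
        have e1 : y - z = (y - ((ρ : ℤ) * q + ((Q : ℤ) - e) * v + 1)) - ((p * q : ℕ) : ℤ) := by
          rw [hz, h0]
          push_cast
          ring
        rw [e1]
        exact dvd_sub hy dvd_rfl
      rw [bv_congr hyz]
      unfold bv
      rw [hzmod, if_neg]
      rw [hN, hz]
      nlinarith
    · set z : ℤ := (ρ : ℤ) * q - ((e : ℤ) - Q) * v + 1 with hz
      have hρ1 : (1 : ℤ) ≤ ρ := by exact_mod_cast h0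
      have hz0 : 0 ≤ z := by nlinarith
      have hzlt : z < ((p : ℤ) * q) := by
        have h1 : (ρ : ℤ) ≤ p := by exact_mod_cast hρ.le
        nlinarith
      have hzmod : z % ((p : ℤ) * q) = z := Int.emod_eq_of_lt hz0 hzlt
      have hyz : ((p * q : ℕ) : ℤ) ∣ y - z := by
        have e1 : y - z = y - ((ρ : ℤ) * q + ((Q : ℤ) - e) * v + 1) := by
          rw [hz]
          ring
        rw [e1]
        exact hy
      rw [bv_congr hyz]
      unfold bv
      rw [hzmod]
      have hzc : ((z : ℤ) : ZMod p) = (ρ : ZMod p) * q + 1 := by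
        rw [hz]
        push_cast
        rw [hv0, mul_zero, sub_zero]
      have hrow : ∀ l : ℕ, (l : ℤ) * q ≤ z ↔ l < ρ := by
        intro l
        constructor
        · intro h
          by_contra hcon
          have h1 : (ρ : ℤ) ≤ l := by
            have : ρ ≤ l := by omega
            exact_mod_cast this
          nlinarith
        · intro h
          have h1 : (l : ℤ) + 1 ≤ ρ := by exact_mod_cast h
          nlinarith
      by_cases hzN : z ≤ (((α - 1) * q + 1 : ℕ) : ℤ)
      · rw [if_pos hzN]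
        have hρα : ρ < α := by
          by_contra hcon
          have h6 : (α : ℤ) ≤ ρ := by
            have : α ≤ ρ := by omega
            exact_mod_cast this
          rw [hN, hz] at hzN
          nlinarith
        unfold av
        rw [key0 z hzc, key1 z hzc, if_neg (fun h => absurd ((hrow ρ).1 h) (lt_irrefl _))]
        rw [if_neg]
        · rfl
        · rw [hrow]
          split_ifs <;> omega
      · rw [if_neg hzN]

theorem thDivMinus : stDivMinus := by
  intro p q α v _ hq0 hv hpv hvq hα hα2 hαq hqm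
  have hp : 2 ≤ p := (Fact.out : p.Prime).two_le
  have hαq' : (α : ZMod p) * (q : ZMod p) = -1 := by exact_mod_cast hαq
  have hqz : (q : ZMod p) ≠ 0 := by
    intro h
    rw [h, mul_zero] at hαq'
    have h1 : (1 : ZMod p) = 0 := by linear_combination hαq'
    exact one_ne_zero h1
  have hαz : (α : ZMod p) ≠ 0 := by
    intro h
    rw [h, zero_mul] at hαq'
    have h1 : (1 : ZMod p) = 0 := by linear_combination hαq'
    exact one_ne_zero h1
  set Q := q % p with hQdef
  have hQp : Q < p := Nat.mod_lt _ (by omega)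
  have hQc : (Q : ZMod p) = (q : ZMod p) := by
    rw [hQdef, ZMod.natCast_mod]
  have hQ1 : 1 ≤ Q := by
    rcases Nat.eq_zero_or_pos Q with h | h
    · rw [h, Nat.cast_zero] at hQc
      exact absurd hQc.symm hqz
    · exact h
  have hQ2 : Q + 1 < p := by
    by_contra hcon
    have h1 : Q + 1 = p := by omega
    have h2 : ((Q + 1 : ℕ) : ZMod p) = 0 := by rw [h1]; exact ZMod.natCast_self p
    push_cast at h2
    rw [hQc] at h2
    apply hqm
    linear_combination h2
  set x1 : ℕ → ZMod p := fun e => (α : ZMod p) - 2 - (e : ZMod p) * (α : ZMod p) with hx1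
  set r1 : ℕ → ℕ := fun e => (x1 e).val with hr1
  set r2 : ℕ → ℕ := fun e => (x1 e + 1).val with hr2
  have hcast : ∀ (a : ℤ) (r : ℕ), ((a : ℤ) : ZMod p) = (r : ZMod p) → (p : ℤ) ∣ a - r := by
    intro a r h
    rw [← ZMod.intCast_zmod_eq_zero_iff_dvd]
    push_cast
    rw [h, sub_self]
  have hk : (((α - 2) * q + Q * v + 1 : ℕ) : ℤ) = ((α : ℤ) - 2) * q + Q * v + 1 := by
    rw [Nat.cast_add, Nat.cast_add, Nat.cast_mul, Nat.cast_sub hα2]
    push_cast
    ring
  have hA : ∀ e ∈ range p, bv p q (((α - 1) * q + 1 : ℕ) : ℤ)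
      ((((α - 2) * q + Q * v + 1 : ℕ) : ℤ) - e * ((α * q + v : ℕ) : ℤ)) =
      if e ≤ Q ∧ (r1 e + 2 ≤ α ∨ (r1 e + 1 = α ∧ e = Q)) then -1 else 0 := by
    intro e he
    apply DM_bv_val p q v α Q hq0 hqz hv hpv hvq hα hα2 hαq' hQ2 (r1 e) e (ZMod.val_lt _)
      (Finset.mem_range.1 he)
    have h2 : (p : ℤ) ∣ ((α : ℤ) - 2 - e * α) - (r1 e : ℤ) := by
      apply hcast
      rw [hr1]
      push_cast
      rw [ZMod.natCast_zmod_val]
    obtain ⟨k, hk'⟩ := h2
    refine ⟨k, ?_⟩
    rw [hk]
    push_cast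
    linear_combination (q : ℤ) * hk'
  have hB : ∀ e ∈ range p, bv p q (((α - 1) * q + 1 : ℕ) : ℤ)
      ((((α - 2) * q + Q * v + 1 : ℕ) : ℤ) - e * ((α * q + v : ℕ) : ℤ) -
        q * ((α * q + v : ℕ) : ℤ)) =
      if e ≤ Q ∧ (r2 e + 2 ≤ α ∨ (r2 e + 1 = α ∧ e = Q)) then -1 else 0 := by
    intro e he
    apply DM_bv_val p q v α Q hq0 hqz hv hpv hvq hα hα2 hαq' hQ2 (r2 e) e (ZMod.val_lt _)
      (Finset.mem_range.1 he)
    have h2 : (p : ℤ) ∣ ((α : ℤ) - 2 - e * α + 1) - (r2 e : ℤ) := by
      apply hcast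
      rw [hr2]
      push_cast
      rw [ZMod.natCast_zmod_val]
    have h3 : (p : ℤ) ∣ ((α : ℤ) * q + 1) := by
      rw [← ZMod.intCast_zmod_eq_zero_iff_dvd]
      push_cast
      rw [hαq']
      ring
    obtain ⟨k, hk'⟩ := h2
    obtain ⟨w, hw⟩ := hpv
    obtain ⟨u, hu⟩ := h3
    have hw' : (v : ℤ) = p * w := by exact_mod_cast hw
    refine ⟨k - w - u, ?_⟩
    rw [hk]
    push_cast
    linear_combination (q : ℤ) * hk' - (q : ℤ) * hw' - (q : ℤ) * hu
  have hD : ∀ e ∈ range p,
      ((if e ≤ Q ∧ (r1 e + 2 ≤ α ∨ (r1 e + 1 = α ∧ e = Q)) then -1 else 0 : ℤ) -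
        (if e ≤ Q ∧ (r2 e + 2 ≤ α ∨ (r2 e + 1 = α ∧ e = Q)) then -1 else 0 : ℤ)) =
      (if e = 0 then -1 else 0) + (if e = Q then -1 else 0) := by
    intro e he
    have hep := Finset.mem_range.1 he
    rcases lt_trichotomy e Q with h | h | h
    · rw [if_neg (c := e = Q) (by omega), add_zero]
      rcases Nat.eq_zero_or_pos e with h0 | h0
      · subst h0
        have e1 : r1 0 = α - 2 := by
          show (x1 0).val = α - 2
          have : x1 0 = ((α - 2 : ℕ) : ZMod p) := by
            rw [hx1, Nat.cast_sub hα2]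
            push_cast
            ring
          rw [this, ZMod.val_natCast_of_lt (by omega)]
        have e2 : r2 0 = α - 1 := by
          show (x1 0 + 1).val = α - 1
          have : x1 0 + 1 = ((α - 1 : ℕ) : ZMod p) := by
            rw [hx1, Nat.cast_sub (by omega)]
            push_cast
            ring
          rw [this, ZMod.val_natCast_of_lt (by omega)]
        rw [e1, e2, if_pos ⟨h.le, Or.inl (by omega)⟩, if_neg, if_pos rfl]
        · norm_num
        · rintro ⟨_, h5 | ⟨_, h5⟩⟩
          · omega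
          · omega
      · rw [if_neg (c := e = 0) (by omega)]
        have hez : (e : ZMod p) ≠ 0 := by
          rw [Ne, ZMod.natCast_eq_zero_iff]
          intro h5
          have := Nat.le_of_dvd (by omega) h5
          omega
        have n1 : r1 e ≠ α - 2 := by
          intro h5
          have h6 : x1 e = ((α - 2 : ℕ) : ZMod p) := by
            rw [← h5]
            exact (ZMod.natCast_zmod_val _).symm
          rw [hx1, Nat.cast_sub hα2] at h6
          push_cast at h6
          have h7 : (e : ZMod p) * α = 0 := by linear_combination -h6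
          exact mul_ne_zero hez hαz h7
        have n2 : r1 e ≠ p - 1 := by
          intro h5
          have h6 : x1 e = ((p - 1 : ℕ) : ZMod p) := by
            rw [← h5]
            exact (ZMod.natCast_zmod_val _).symm
          rw [hx1, Nat.cast_sub (by omega), ZMod.natCast_self] at h6
          push_cast at h6
          have h7 : (e : ZMod p) = ((Q + 1 : ℕ) : ZMod p) := by
            push_cast
            rw [hQc]
            linear_combination (q : ZMod p) * h6 + ((e : ZMod p) - 1) * hαq'
          have h8 := congrArg ZMod.val h7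
          rw [ZMod.val_natCast_of_lt hep, ZMod.val_natCast_of_lt hQ2] at h8
          omega
        have hlt : r1 e < p := ZMod.val_lt _
        have e2 : r2 e = r1 e + 1 := by
          show (x1 e + 1).val = (x1 e).val + 1
          have h6 : x1 e + 1 = (((x1 e).val + 1 : ℕ) : ZMod p) := by
            push_cast
            rw [ZMod.natCast_zmod_val]
          rw [h6, ZMod.val_natCast_of_lt]
          have : (x1 e).val = r1 e := rfl
          omega
        rw [e2]
        by_cases h5 : r1 e + 2 ≤ α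
        · rw [if_pos ⟨h.le, Or.inl h5⟩, if_pos ⟨h.le, Or.inl (by omega)⟩]
          norm_num
        · rw [if_neg, if_neg]
          · norm_num
          · rintro ⟨_, h6 | ⟨_, h6⟩⟩
            · omega
            · omega
          · rintro ⟨_, h6 | ⟨_, h6⟩⟩
            · omega
            · omega
    · subst h
      rw [if_neg (c := Q = 0) (by omega), if_pos (c := Q = Q) rfl]
      have e1 : r1 Q = α - 1 := by
        show (x1 Q).val = α - 1
        have : x1 Q = ((α - 1 : ℕ) : ZMod p) := by
          rw [hx1, Nat.cast_sub (by omega)]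
          simp only
          rw [hQc]
          push_cast
          linear_combination -hαq'
        rw [this, ZMod.val_natCast_of_lt (by omega)]
      have e2 : r2 Q = α := by
        show (x1 Q + 1).val = α
        have : x1 Q + 1 = ((α : ℕ) : ZMod p) := by
          rw [hx1]
          simp only
          rw [hQc]
          linear_combination -hαq'
        rw [this, ZMod.val_natCast_of_lt hα]
      rw [e1, e2, if_pos ⟨le_rfl, Or.inr ⟨by omega, rfl⟩⟩, if_neg]
      · norm_num
      · rintro ⟨_, h5 | ⟨h5, _⟩⟩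
        · omega
        · omega
    · rw [if_neg (fun h5 => absurd h5.1 (by omega)), if_neg (fun h5 => absurd h5.1 (by omega)),
        if_neg (by omega), if_neg (by omega)]
      norm_num
  unfold G
  have hsum : ∀ e ∈ range p,
      (bv p q (((α - 1) * q + 1 : ℕ) : ℤ)
        ((((α - 2) * q + Q * v + 1 : ℕ) : ℤ) - e * ((α * q + v : ℕ) : ℤ)) -
      bv p q (((α - 1) * q + 1 : ℕ) : ℤ)
        ((((α - 2) * q + Q * v + 1 : ℕ) : ℤ) - e * ((α * q + v : ℕ) : ℤ) -
          q * ((α * q + v : ℕ) : ℤ))) =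
      (if e = 0 then -1 else 0) + (if e = Q then -1 else 0) := by
    intro e he
    rw [hA e he, hB e he, hD e he]
  rw [Finset.sum_congr rfl hsum, Finset.sum_add_distrib, Finset.sum_ite_eq' (range p) 0,
    Finset.sum_ite_eq' (range p) Q, if_pos (Finset.mem_range.2 (by omega)),
    if_pos (Finset.mem_range.2 hQp)]
  norm_num

end Pool.Agent.Helper10.W1
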