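import Pool.Agent.Helper10.W1.StD

set_option autoImplicit false

/-!
# Module DivOne
-/

namespace Pool.Agent.Helper10.W1

open Finset
open Pool.Agent.Helper55.FT (mm av bv G bv_congr)

namespace DivOneAux

theorem mm_row {p q a : ℕ} [hp : Fact p.Prime] (hq : 0 < q) (ha : ((a * q : ℕ) : ZMod p) = 1)
    (R r : ℕ) (hr : r < q) (i : ℤ) :
    mm p q i ((R * q + r : ℕ) : ℤ) =
      if (((R : ZMod p) + ((r : ZMod p) - (i : ZMod p)) * (a : ZMod p)).val ≤ R) then 1 else 0 := by
  unfold mm
  have hq0 : (q : ZMod p) * (a : ZMod p) = 1 := by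
    rw [mul_comm]; exact_mod_cast ha
  set t : ZMod p := (R : ZMod p) + ((r : ZMod p) - (i : ZMod p)) * (a : ZMod p) with ht
  have hterm : ∀ l ∈ range p,
      (if (l : ℤ) * q ≤ ((R * q + r : ℕ) : ℤ) ∧ (p : ℤ) ∣ ((R * q + r : ℕ) : ℤ) - i - l * q
        then (1 : ℤ) else 0) = if t.val = l then (if t.val ≤ R then 1 else 0) else 0 := by
    intro l hl
    rw [mem_range] at hl
    have h1 : (l : ℤ) * q ≤ ((R * q + r : ℕ) : ℤ) ↔ l ≤ R := by
      constructor
      · intro h
        have h' : l * q ≤ R * q + r := by exact_mod_cast h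
        by_contra hc
        have : (R + 1) * q ≤ l * q := Nat.mul_le_mul_right q (by omega)
        have e : (R + 1) * q = R * q + q := by ring
        omega
      · intro h
        have : l * q ≤ R * q := Nat.mul_le_mul_right q h
        have h2 : l * q ≤ R * q + r := by omega
        exact_mod_cast h2
    have h2 : ((p : ℤ) ∣ ((R * q + r : ℕ) : ℤ) - i - l * q) ↔ t.val = l := by
      rw [← ZMod.intCast_zmod_eq_zero_iff_dvd]
      push_cast
      constructor
      · intro h
        have h3 : (l : ZMod p) = t := by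
          have h4 : ((R : ZMod p) * q + r - i - l * q) * a = 0 := by rw [h, zero_mul]
          have h5 : ((R : ZMod p) * q + r - i - l * q) * a
              = R * (q * a) + (r - i) * a - l * (q * a) := by ring
          rw [h5, hq0, mul_one, mul_one] at h4
          exact (sub_eq_zero.1 h4).symm
        rw [← h3, ZMod.val_natCast_of_lt hl]
      · intro h
        have h3 : (l : ZMod p) = t := by rw [← h, ZMod.natCast_zmod_val]
        have h5 : (R : ZMod p) * q + r - i - l * q = 0 := by
          rw [h3, ht]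
          have : (R : ZMod p) * q + r - i - (R + (r - i) * a) * q = (r - i) * (1 - q * a) := by ring
          rw [this, hq0, sub_self, mul_zero]
        exact h5
    by_cases h : t.val = l
    · rw [if_pos h]
      by_cases h' : l ≤ R
      · rw [if_pos ⟨h1.2 h', h2.2 h⟩, if_pos (by omega)]
      · rw [if_neg (fun hh => h' (h1.1 hh.1)), if_neg (by omega)]
    · rw [if_neg h, if_neg (fun hh => h (h2.1 hh.2))]
  rw [sum_congr rfl hterm, sum_ite_eq (range p) t.val, if_pos (mem_range.2 (ZMod.val_lt t))]

theorem bv_row {p q a : ℕ} [hp : Fact p.Prime] (hq : 0 < q) (ha : ((a * q : ℕ) : ZMod p) = 1)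
    (R r : ℕ) (hR : R < p) (hr : r < q) (N y : ℤ) (hy : ((p * q : ℕ) : ℤ) ∣ y - ((R * q + r : ℕ) : ℤ)) :
    bv p q N y = if ((R * q + r : ℕ) : ℤ) ≤ N then
      (if (((R : ZMod p) + (r : ZMod p) * (a : ZMod p)).val ≤ R) then 1 else 0) -
      (if (((R : ZMod p) + ((r : ZMod p) - 1) * (a : ZMod p)).val ≤ R) then 1 else 0) else 0 := by
  rw [bv_congr hy]
  unfold bv av
  have h1 : ((R * q + r : ℕ) : ℤ) % (p * q) = ((R * q + r : ℕ) : ℤ) := by
    rw [Int.emod_eq_of_lt (by positivity)]
    have h2 : (R + 1) * q ≤ p * q := Nat.mul_le_mul_right q (by omega)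
    have e : (R + 1) * q = R * q + q := by ring
    have h3 : R * q + r < p * q := by omega
    exact_mod_cast h3
  rw [h1, mm_row hq ha R r hr 0, mm_row hq ha R r hr 1]
  simp

theorem val_le_pred {p : ℕ} [hp : Fact p.Prime] (s a : ℕ) (hs : s < p) (ha : a < p) (ha1 : 1 ≤ a) :
    (((s : ZMod p) + (a : ZMod p)).val ≤ s ↔ p ≤ s + a) := by
  have h1 : ((s : ZMod p) + (a : ZMod p)).val = (s + a) % p := by
    rw [← Nat.cast_add, ZMod.val_natCast]
  rw [h1]
  constructor
  · intro h
    by_contra hc
    rw [Nat.mod_eq_of_lt (by omega)] at h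
    omega
  · intro h
    rw [Nat.mod_eq_sub_mod h, Nat.mod_eq_of_lt (by omega)]
    omega

end DivOneAux

open DivOneAux

theorem thDivOne : stDivOne := by
  intro p q α v hpf hq hv hpv hvq hα hαq hq1
  have hp2 := hpf.out.two_le
  have hvp : p ≤ v := Nat.le_of_dvd hv hpv
  have hα0 : α ≠ 0 := by
    rintro rfl
    rw [zero_mul, Nat.cast_zero] at hαq
    exact zero_ne_one hαq
  have hα1 : α ≠ 1 := by
    rintro rfl
    rw [one_mul] at hαq
    exact hq1 hαq
  have hα2 : 2 ≤ α := by omega
  have hαq' : (α : ZMod p) * (q : ZMod p) = 1 := by exact_mod_cast hαq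
  have hαz : (α : ZMod p) ≠ 0 := by
    intro h
    rw [h, zero_mul] at hαq'
    exact zero_ne_one hαq'
  have hvz : (v : ZMod p) = 0 := (ZMod.natCast_eq_zero_iff v p).2 hpv
  -- the vanishing difference `q D - q`
  have hqD : ((p * q : ℕ) : ℤ) ∣ (q : ℤ) * ((α * q + v : ℕ) : ℤ) - q := by
    have h1 : (p : ℤ) ∣ ((α * q : ℕ) : ℤ) - 1 := by
      rw [← ZMod.intCast_zmod_eq_zero_iff_dvd]
      push_cast
      rw [hαq', sub_self]
    have h2 : (p : ℤ) ∣ (v : ℤ) := by exact_mod_cast hpv
    have h3 : (p : ℤ) ∣ (((α * q + v : ℕ) : ℤ) - 1) := by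
      have : (((α * q + v : ℕ) : ℤ) - 1) = (((α * q : ℕ) : ℤ) - 1) + v := by push_cast; ring
      rw [this]
      exact dvd_add h1 h2
    obtain ⟨w, hw⟩ := h3
    refine ⟨w, ?_⟩
    have : (q : ℤ) * ((α * q + v : ℕ) : ℤ) - q = q * (((α * q + v : ℕ) : ℤ) - 1) := by ring
    rw [this, hw]
    push_cast
    ring
  set N : ℤ := ((p * q : ℕ) - (α * q + v : ℕ) : ℤ) with hN
  have hvq1 : v < q := by
    have : 1 * v ≤ (p - 1) * v := Nat.mul_le_mul_right v (by omega)
    omega
  -- residues
  have hres : ∀ e : ℕ, 1 ≤ e → e < p → v ≤ e * v ∧ e * v < q := by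
    intro e he1 hep
    have h1 : 1 * v ≤ e * v := Nat.mul_le_mul_right v he1
    have h2 : e * v ≤ (p - 1) * v := Nat.mul_le_mul_right v (by omega)
    omega
  have hrho : ∀ e : ℕ, 1 ≤ e → e < p → ∃ ρ c : ℕ, 1 ≤ ρ ∧ ρ < p ∧ e * α + ρ = p * c ∧
      (ρ : ZMod p) = -((e : ZMod p) * α) := by
    intro e he1 hep
    refine ⟨(-((e : ZMod p) * α)).val, ?_⟩
    have hez : (e : ZMod p) ≠ 0 := by
      rw [Ne, ZMod.natCast_eq_zero_iff]
      intro h
      have := Nat.le_of_dvd (by omega) h
      omega
    have h1 : (((-((e : ZMod p) * α)).val : ℕ) : ZMod p) = -((e : ZMod p) * α) :=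
      ZMod.natCast_zmod_val _
    have h2 : p ∣ e * α + (-((e : ZMod p) * α)).val := by
      rw [← ZMod.natCast_eq_zero_iff]
      push_cast
      rw [h1]
      ring
    obtain ⟨c, hc⟩ := h2
    refine ⟨c, ?_, ZMod.val_lt _, hc, h1⟩
    rw [Nat.one_le_iff_ne_zero, Ne, ZMod.val_eq_zero, neg_eq_zero]
    exact mul_ne_zero hez hαz
  -- the position `N`
  have hpα : ((p * q : ℕ) : ℤ) - ((α * q + v : ℕ) : ℤ) = ((p : ℤ) - α) * q - v := by
    push_cast; ring
  have hN' : N = ((p : ℤ) - α) * q - v := by rw [hN]; push_cast; ring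
  have hqi : (0 : ℤ) < q := by exact_mod_cast hq
  have hvqi : (v : ℤ) < q := by exact_mod_cast hvq1
  have hp_α : (α : ℤ) + 1 ≤ p := by exact_mod_cast hα
  have hα2i : (2 : ℤ) ≤ α := by exact_mod_cast hα2
  have hvpi : (p : ℤ) ≤ v := by exact_mod_cast hvp
  have hp2i : (2 : ℤ) ≤ p := by exact_mod_cast hp2
  -- first family
  have hA : ∀ e ∈ range p, bv p q N (1 - e * ((α * q + v : ℕ) : ℤ)) = if e = 0 then -1 else 0 := by
    intro e he
    rw [mem_range] at he
    rcases Nat.eq_zero_or_pos e with h0 | h0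
    · subst h0
      rw [if_pos rfl]
      rw [bv_row (a := α) hq hαq 0 1 (by omega) (by omega) N _ (by simp)]
      have h1 : ((0 * q + 1 : ℕ) : ℤ) ≤ N := by
        rw [hN']
        push_cast
        nlinarith
      rw [if_pos h1]
      have h2 : ¬ (((0 : ℕ) : ZMod p) + ((1 : ℕ) : ZMod p) * (α : ZMod p)).val ≤ 0 := by
        rw [Nat.le_zero, ZMod.val_eq_zero]
        simpa using hαz
      have h3 : (((0 : ℕ) : ZMod p) + (((1 : ℕ) : ZMod p) - 1) * (α : ZMod p)).val ≤ 0 := by
        rw [Nat.le_zero, ZMod.val_eq_zero]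
        simp
      rw [if_neg h2, if_pos h3]
      norm_num
    · rw [if_neg (by omega)]
      obtain ⟨ρ, c, hρ1, hρp, hc, hρ⟩ := hrho e h0 he
      obtain ⟨hr1, hr2⟩ := hres e h0 he
      have hcast : ((q + 1 - e * v : ℕ) : ℤ) = q + 1 - e * v := by
        rw [Nat.cast_sub (by omega)]; push_cast; ring
      have hcast2 : ((ρ - 1 : ℕ) : ℤ) = ρ - 1 := by
        rw [Nat.cast_sub hρ1]; norm_num
      have hci : (e : ℤ) * α + ρ = p * c := by exact_mod_cast hc
      have hpos : (((ρ - 1) * q + (q + 1 - e * v) : ℕ) : ℤ) = ρ * q + 1 - e * v := by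
        rw [Nat.cast_add, Nat.cast_mul, hcast, hcast2]; ring
      have hdiv : ((p * q : ℕ) : ℤ) ∣ (1 - e * ((α * q + v : ℕ) : ℤ)) -
          (((ρ - 1) * q + (q + 1 - e * v) : ℕ) : ℤ) := by
        refine ⟨-c, ?_⟩
        rw [hpos]
        push_cast
        linear_combination (-(q : ℤ)) * hci
      rw [bv_row (a := α) hq hαq (ρ - 1) (q + 1 - e * v) (by omega) (by omega) N _ hdiv]
      by_cases hle : (((ρ - 1) * q + (q + 1 - e * v) : ℕ) : ℤ) ≤ N
      · rw [if_pos hle]
        rw [hpos, hN'] at hle
        -- `ρ + α < p`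
        have hlt : ρ + α < p := by
          by_contra hcon
          push Not at hcon
          have hevq : (e : ℤ) * v < q := by exact_mod_cast hr2
          have hcon' : (p : ℤ) ≤ ρ + α := by exact_mod_cast hcon
          rcases Nat.eq_or_lt_of_le hcon with h5 | h5
          · -- `ρ = p - α`, so `e = 1`
            have h6 : (e : ZMod p) = 1 := by
              have h7 : (ρ : ZMod p) + α = 0 := by
                have : ((ρ + α : ℕ) : ZMod p) = 0 := by rw [← h5]; simp
                exact_mod_cast this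
              rw [hρ] at h7
              have h8 : (1 - (e : ZMod p)) * α = 0 := by rw [← h7]; ring
              rcases mul_eq_zero.1 h8 with h9 | h9
              · exact (sub_eq_zero.1 h9).symm
              · exact absurd h9 hαz
            have h7 : e = 1 := by
              have h8 := congrArg ZMod.val h6
              rw [ZMod.val_natCast_of_lt he, ZMod.val_one] at h8
              exact h8
            subst h7
            have h9 : (ρ : ℤ) = p - α := by
              have : (p : ℤ) = ρ + α := by exact_mod_cast h5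
              linarith
            rw [h9] at hle
            push_cast at hle
            linarith
          · have h6 : (p : ℤ) + 1 ≤ ρ + α := by exact_mod_cast h5
            nlinarith
        have h1 : ¬ ((((ρ - 1 : ℕ) : ZMod p)) + ((q + 1 - e * v : ℕ) : ZMod p) * (α : ZMod p)).val ≤ ρ - 1 := by
          have e1 : (((ρ - 1 : ℕ) : ZMod p)) + ((q + 1 - e * v : ℕ) : ZMod p) * (α : ZMod p)
              = ((ρ + α : ℕ) : ZMod p) := by
            rw [Nat.cast_sub hρ1, Nat.cast_sub (by omega)]
            push_cast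
            rw [hvz]
            linear_combination hαq'
          rw [e1, ZMod.val_natCast_of_lt hlt]
          omega
        have h2 : ¬ ((((ρ - 1 : ℕ) : ZMod p)) + (((q + 1 - e * v : ℕ) : ZMod p) - 1) * (α : ZMod p)).val ≤ ρ - 1 := by
          have e1 : (((ρ - 1 : ℕ) : ZMod p)) + (((q + 1 - e * v : ℕ) : ZMod p) - 1) * (α : ZMod p)
              = ((ρ : ℕ) : ZMod p) := by
            rw [Nat.cast_sub hρ1, Nat.cast_sub (by omega)]
            push_cast
            rw [hvz]
            linear_combination hαq'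
          rw [e1, ZMod.val_natCast_of_lt hρp]
          omega
        rw [if_neg h1, if_neg h2]
        norm_num
      · rw [if_neg hle]
  -- second family
  set e0 : ℕ := (1 - (q : ZMod p)).val with he0
  have he0p : e0 < p := ZMod.val_lt _
  have he0c : (e0 : ZMod p) = 1 - q := ZMod.natCast_zmod_val _
  have hB : ∀ e ∈ range p, bv p q N (1 - e * ((α * q + v : ℕ) : ℤ) - q * ((α * q + v : ℕ) : ℤ)) =
      if e = e0 then 1 else 0 := by
    intro e he
    rw [mem_range] at he
    rcases Nat.eq_zero_or_pos e with h0 | h0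
    · subst h0
      have h1 : (0 : ℕ) ≠ e0 := by
        intro h
        rw [← h] at he0c
        apply hq1
        rw [Nat.cast_zero] at he0c
        exact (sub_eq_zero.1 he0c.symm).symm
      rw [if_neg h1]
      have hdiv : ((p * q : ℕ) : ℤ) ∣ (1 - ((0 : ℕ) : ℤ) * ((α * q + v : ℕ) : ℤ) - q * ((α * q + v : ℕ) : ℤ)) -
          (((p - 1) * q + 1 : ℕ) : ℤ) := by
        obtain ⟨w, hw⟩ := hqD
        refine ⟨-w - 1, ?_⟩
        have hcast2 : ((p - 1 : ℕ) : ℤ) = p - 1 := by
          rw [Nat.cast_sub (by omega)]; norm_num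
        have hpos : (((p - 1) * q + 1 : ℕ) : ℤ) = (p - 1) * q + 1 := by
          rw [Nat.cast_add, Nat.cast_mul, hcast2]; norm_num
        rw [hpos]
        push_cast at hw ⊢
        linear_combination (-1 : ℤ) * hw
      rw [bv_row (a := α) hq hαq (p - 1) 1 (by omega) (by omega) N _ hdiv]
      rw [if_neg]
      have hcast2 : ((p - 1 : ℕ) : ℤ) = p - 1 := by
        rw [Nat.cast_sub (by omega)]; norm_num
      rw [Nat.cast_add, Nat.cast_mul, hcast2, hN']
      push_cast
      nlinarith
    · obtain ⟨ρ, c, hρ1, hρp, hc, hρ⟩ := hrho e h0 he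
      obtain ⟨hr1, hr2⟩ := hres e h0 he
      have hevq : (e : ℤ) * v < q := by exact_mod_cast hr2
      have hcast : ((q + 1 - e * v : ℕ) : ℤ) = q + 1 - e * v := by
        rw [Nat.cast_sub (by omega)]; push_cast; ring
      have hci : (e : ℤ) * α + ρ = p * c := by exact_mod_cast hc
      have hρi : (ρ : ℤ) + 1 ≤ p := by exact_mod_cast hρp
      -- `e = e0` iff `ρ + α = p + 1`
      have hkey : e = e0 ↔ ρ + α = p + 1 := by
        constructor
        · intro h
          have h1 : ((ρ + α : ℕ) : ZMod p) = 1 := by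
            push_cast
            rw [hρ, h, he0c]
            linear_combination hαq'
          have h2 : ((ρ + α : ℕ) : ZMod p) = ((1 : ℕ) : ZMod p) := by rw [h1]; simp
          rw [ZMod.natCast_eq_natCast_iff'] at h2
          rw [Nat.mod_eq_of_lt (show 1 < p by omega)] at h2
          have h3 : p ≤ ρ + α := by
            by_contra hcc
            rw [Nat.mod_eq_of_lt (by omega)] at h2
            omega
          rw [Nat.mod_eq_sub_mod h3, Nat.mod_eq_of_lt (by omega)] at h2
          omega
        · intro h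
          have h1 : (ρ : ZMod p) + α = 1 := by
            have : ((ρ + α : ℕ) : ZMod p) = 1 := by rw [h]; simp
            exact_mod_cast this
          rw [hρ] at h1
          have h2 : (e : ZMod p) = 1 - q := by
            linear_combination (-(q : ZMod p)) * h1 + (1 - (e : ZMod p)) * hαq'
          have h3 := congrArg ZMod.val h2
          rw [ZMod.val_natCast_of_lt he] at h3
          exact h3
      rcases Nat.eq_or_lt_of_le hρ1 with h1 | h1
      · -- `ρ = 1`
        have h2 : ¬ e = e0 := by
          rw [hkey]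
          omega
        rw [if_neg h2]
        have hdiv : ((p * q : ℕ) : ℤ) ∣ (1 - e * ((α * q + v : ℕ) : ℤ) - q * ((α * q + v : ℕ) : ℤ)) -
            (((p - 1) * q + (q + 1 - e * v) : ℕ) : ℤ) := by
          obtain ⟨w, hw⟩ := hqD
          refine ⟨-w - 1 - c, ?_⟩
          have hcast2 : ((p - 1 : ℕ) : ℤ) = p - 1 := by
            rw [Nat.cast_sub (by omega)]; norm_num
          have hρone : (ρ : ℤ) = 1 := by exact_mod_cast h1.symm
          have hpos : (((p - 1) * q + (q + 1 - e * v) : ℕ) : ℤ) = (p - 1) * q + (q + 1 - e * v) := by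
            rw [Nat.cast_add, Nat.cast_mul, hcast, hcast2]
          rw [hpos]
          rw [hρone] at hci
          push_cast at hw ⊢
          linear_combination (-1 : ℤ) * hw - (q : ℤ) * hci
        rw [bv_row (a := α) hq hαq (p - 1) (q + 1 - e * v) (by omega) (by omega) N _ hdiv]
        rw [if_neg]
        have hcast2 : ((p - 1 : ℕ) : ℤ) = p - 1 := by
          rw [Nat.cast_sub (by omega)]; norm_num
        rw [Nat.cast_add, Nat.cast_mul, hcast, hcast2, hN']
        nlinarith
      · have hρ2 : 2 ≤ ρ := h1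
        have hcast2 : ((ρ - 2 : ℕ) : ℤ) = ρ - 2 := by
          rw [Nat.cast_sub hρ2]; norm_num
        have hpos : (((ρ - 2) * q + (q + 1 - e * v) : ℕ) : ℤ) = (ρ - 1) * q + 1 - e * v := by
          rw [Nat.cast_add, Nat.cast_mul, hcast, hcast2]; ring
        have hdiv : ((p * q : ℕ) : ℤ) ∣ (1 - e * ((α * q + v : ℕ) : ℤ) - q * ((α * q + v : ℕ) : ℤ)) -
            (((ρ - 2) * q + (q + 1 - e * v) : ℕ) : ℤ) := by
          obtain ⟨w, hw⟩ := hqD
          refine ⟨-w - c, ?_⟩
          rw [hpos]
          push_cast at hw ⊢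
          linear_combination (-1 : ℤ) * hw - (q : ℤ) * hci
        rw [bv_row (a := α) hq hαq (ρ - 2) (q + 1 - e * v) (by omega) (by omega) N _ hdiv]
        have h2 : ¬ ((((ρ - 2 : ℕ) : ZMod p)) + (((q + 1 - e * v : ℕ) : ZMod p) - 1) * (α : ZMod p)).val ≤ ρ - 2 := by
          have e1 : (((ρ - 2 : ℕ) : ZMod p)) + (((q + 1 - e * v : ℕ) : ZMod p) - 1) * (α : ZMod p)
              = ((ρ - 1 : ℕ) : ZMod p) := by
            rw [Nat.cast_sub hρ2, Nat.cast_sub hρ1, Nat.cast_sub (by omega)]
            push_cast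
            rw [hvz]
            linear_combination hαq'
          rw [e1, ZMod.val_natCast_of_lt (by omega)]
          omega
        have e2 : (((ρ - 2 : ℕ) : ZMod p)) + ((q + 1 - e * v : ℕ) : ZMod p) * (α : ZMod p)
            = ((ρ - 1 + α : ℕ) : ZMod p) := by
          rw [Nat.cast_sub hρ2, Nat.cast_add, Nat.cast_sub hρ1, Nat.cast_sub (by omega)]
          push_cast
          rw [hvz]
          linear_combination hαq'
        rw [if_neg h2, e2, hpos, hN']
        by_cases h3 : ρ + α = p + 1
        · rw [if_pos (hkey.2 h3)]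
          -- `e ≥ 2`
          have he2 : 2 ≤ e := by
            by_contra hcc
            have h4 : e = 1 := by omega
            subst h4
            have h5 : (q : ZMod p) = 0 := by
              have h6 := hkey.2 h3
              rw [← h6] at he0c
              rw [Nat.cast_one] at he0c
              linear_combination he0c
            rw [h5, mul_zero] at hαq'
            exact zero_ne_one hαq'
          have h4 : (((ρ : ℤ) - 1) * q + 1 - e * v) ≤ ((p : ℤ) - α) * q - v := by
            have h5 : (ρ : ℤ) - 1 = p - α := by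
              have : (ρ : ℤ) + α = p + 1 := by exact_mod_cast h3
              linarith
            rw [h5]
            have h6 : (2 : ℤ) ≤ e := by exact_mod_cast he2
            nlinarith
          rw [if_pos h4]
          have h5 : ρ - 1 + α = p := by omega
          rw [h5, ZMod.natCast_self, ZMod.val_zero, if_pos (Nat.zero_le _)]
          norm_num
        · rw [if_neg (fun h => h3 (hkey.1 h))]
          by_cases h4 : (((ρ : ℤ) - 1) * q + 1 - e * v) ≤ ((p : ℤ) - α) * q - v
          · rw [if_pos h4]
            have h5 : ρ + α ≤ p := by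
              by_contra hcc
              have h6 : (p : ℤ) + 2 ≤ ρ + α := by
                have : p + 2 ≤ ρ + α := by omega
                exact_mod_cast this
              nlinarith
            rw [ZMod.val_natCast_of_lt (by omega), if_neg (by omega)]
            norm_num
          · rw [if_neg h4]
  unfold G
  rw [sum_sub_distrib, sum_congr rfl hA, sum_congr rfl hB]
  rw [sum_ite_eq' (range p) 0, sum_ite_eq' (range p) e0]
  rw [if_pos (mem_range.2 (by omega)), if_pos (mem_range.2 he0p)]
  norm_num

end Pool.Agent.Helper10.W1
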