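import Pool.Agent.Helper10.W1.StA

set_option autoImplicit false

/-!
# Module FRAG: the symmetric fragment lemma
-/

namespace Pool.Agent.Helper10.W1

open Finset
open scoped Pointwise

private lemma transFrag (p : ℕ) [Fact p.Prime] (M : Finset (ZMod p)) (d : ZMod p) (hd : d ≠ 0)
    (hM : M.Nonempty) (h : ∀ m ∈ M, m + d ∈ M) : M = univ := by
  obtain ⟨m, hm⟩ := hM
  have h1 : ∀ n : ℕ, m + (n : ZMod p) * d ∈ M := by
    intro n
    induction n with
    | zero => simpa using hm
    | succ n ih =>
      have := h _ ih
      have e : m + ((n + 1 : ℕ) : ZMod p) * d = m + (n : ZMod p) * d + d := by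
        push_cast
        ring
      rw [e]
      exact this
  refine eq_univ_of_forall fun w => ?_
  have h2 := h1 (((w - m) / d).val)
  rw [ZMod.natCast_zmod_val, div_mul_cancel₀ _ hd] at h2
  simpa using h2

theorem thFrag (hPair : stPair) : stFrag := by
  intro p hp S X c t hS hc hX hXS hXt
  classical
  set Ad : Finset (Finset (ZMod p)) :=
    (univ : Finset (Finset (ZMod p))).filter (fun M => 2 ≤ M.card ∧ (M + S).card + 2 ≤ p) with hAd
  have hXA : X ∈ Ad := by simp [hAd, hX, hXS]
  obtain ⟨M, hMA, hmin⟩ := exists_min_image Ad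
    (fun M => ((M + S).card - M.card) * (p + 1) + M.card) ⟨X, hXA⟩
  have hle : ∀ N : Finset (ZMod p), N.card ≤ (N + S).card := fun N => card_le_card_add_right hS
  have hcp : ∀ N : Finset (ZMod p), N.card ≤ p := fun N => by
    have := card_le_univ N
    rwa [ZMod.card] at this
  have hAd' : ∀ N : Finset (ZMod p), N ∈ Ad ↔ 2 ≤ N.card ∧ (N + S).card + 2 ≤ p := fun N => by
    simp [hAd]
  obtain ⟨hM2, hMp⟩ := (hAd' M).1 hMA
  -- minimality
  have hk : ∀ N ∈ Ad, (M + S).card + N.card ≤ (N + S).card + M.card := by
    intro N hN
    have h1 := hmin N hN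
    have h2 := hle N
    have h3 := hle M
    have h4 := hcp N
    by_contra hcon
    push Not at hcon
    have h5 : (N + S).card - N.card + 1 ≤ (M + S).card - M.card := by omega
    have h6 : ((N + S).card - N.card + 1) * (p + 1) ≤ ((M + S).card - M.card) * (p + 1) :=
      Nat.mul_le_mul_right _ h5
    rw [add_mul] at h6
    omega
  have hk2 : ∀ N ∈ Ad, (N + S).card + M.card = (M + S).card + N.card → M.card ≤ N.card := by
    intro N hN he
    have h1 := hmin N hN
    have h2 := hle N
    have h3 := hle M
    have h5 : (N + S).card - N.card = (M + S).card - M.card := by omega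
    rw [h5] at h1
    omega
  -- (a)
  have hA : M.card + (M + S).card ≤ p := by
    set M' := (M + S)ᶜ with hM'
    have hc1 : M'.card + (M + S).card = p := by
      rw [hM', card_compl_add_card, ZMod.card]
    have hdis : Disjoint (M' + S) (M.image (fun m => c + m)) := by
      rw [disjoint_left]
      intro w hw hw'
      obtain ⟨m', hm', s, hs, rfl⟩ := mem_add.1 hw
      obtain ⟨m, hm, he⟩ := mem_image.1 hw'
      rw [hM', mem_compl] at hm'
      apply hm'
      have : m' = m + (c - s) := by
        have h1 : m' + s - s = c + m - s := by rw [he]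
        rw [add_sub_cancel_right] at h1
        rw [h1]
        ring
      rw [this]
      exact add_mem_add hm (hc s hs)
    have hc2 : (M' + S).card + M.card ≤ p := by
      have h1 : (M.image (fun m => c + m)).card = M.card :=
        card_image_of_injective _ (add_right_injective c)
      rw [← h1, ← card_union_of_disjoint hdis]
      exact hcp _
    have hM'A : M' ∈ Ad := (hAd' M').2 ⟨by omega, by omega⟩
    have h1 := hk M' hM'A
    have h2 := hk2 M' hM'A (by omega)
    omega
  -- (b)
  have hB : ∀ m1 ∈ M, ∀ m2 ∈ M, m1 ≠ m2 → ∀ m ∈ M, m1 + m2 - m ∈ M := by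
    intro m1 h1 m2 h2 hne
    set N := M.image (fun m => m1 + m2 - m) with hN
    have hNc : N.card = M.card := card_image_of_injective _ fun a b h => by
      simpa using h
    have hNS : (N + S).card = (M + S).card := by
      have e : N + S = (M + S).image (fun w => m1 + m2 + c - w) := by
        ext w
        constructor
        · intro hw
          obtain ⟨n, hn, s, hs, rfl⟩ := mem_add.1 hw
          obtain ⟨m, hm, rfl⟩ := mem_image.1 hn
          refine mem_image.2 ⟨m + (c - s), add_mem_add hm (hc s hs), ?_⟩
          ring
        · intro hw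
          obtain ⟨v, hv, rfl⟩ := mem_image.1 hw
          obtain ⟨m, hm, s, hs, rfl⟩ := mem_add.1 hv
          have : m1 + m2 + c - (m + s) = (m1 + m2 - m) + (c - s) := by ring
          rw [this]
          exact add_mem_add (mem_image_of_mem _ hm) (hc s hs)
      rw [e]
      exact card_image_of_injective _ fun a b h => by simpa using h
    have hm1N : m1 ∈ N := mem_image.2 ⟨m2, h2, by ring⟩
    have hm2N : m2 ∈ N := mem_image.2 ⟨m1, h1, by ring⟩
    by_contra hcon
    have hNM : ¬ N ⊆ M := by
      intro hsub
      apply hcon
      intro m hm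
      exact hsub (mem_image_of_mem _ hm)
    have hlt : (M ∩ N).card < M.card := by
      rcases lt_or_eq_of_le (card_le_card (inter_subset_left : M ∩ N ⊆ M)) with h | h
      · exact h
      · exfalso
        have h3 : M ∩ N = M := eq_of_subset_of_card_le inter_subset_left h.ge
        have h4 : M ⊆ N := by rw [← h3]; exact inter_subset_right
        have h5 : M = N := eq_of_subset_of_card_le h4 hNc.le
        exact hNM h5.ge
    have h2le : 2 ≤ (M ∩ N).card := by
      have h3 : ({m1, m2} : Finset (ZMod p)) ⊆ M ∩ N := by
        intro x hx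
        rw [mem_insert, mem_singleton] at hx
        rcases hx with rfl | rfl
        · exact mem_inter.2 ⟨h1, hm1N⟩
        · exact mem_inter.2 ⟨h2, hm2N⟩
      calc 2 = ({m1, m2} : Finset (ZMod p)).card := (card_pair hne).symm
        _ ≤ _ := card_le_card h3
    have hIS : ((M ∩ N) + S).card ≤ (M + S).card :=
      card_le_card (add_subset_add_right inter_subset_left)
    have hIA : M ∩ N ∈ Ad := (hAd' _).2 ⟨h2le, by omega⟩
    have h3 := hk _ hIA
    have h4 : ((M ∩ N) + S).card + M.card ≠ (M + S).card + (M ∩ N).card := fun h => by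
      have := hk2 _ hIA h
      omega
    have hsub : ((M ∩ N) + S).card + ((M ∪ N) + S).card ≤ (M + S).card + (N + S).card := by
      have e1 : (M ∪ N) + S = (M + S) ∪ (N + S) := union_add
      have e2 : (M ∩ N) + S ⊆ (M + S) ∩ (N + S) :=
        subset_inter (add_subset_add_right inter_subset_left)
          (add_subset_add_right inter_subset_right)
      rw [e1]
      have e3 := card_union_add_card_inter (M + S) (N + S)
      have e4 := card_le_card e2
      omega
    have hun := card_union_add_card_inter M N
    have hUA : M ∪ N ∈ Ad := (hAd' _).2 ⟨by omega, by omega⟩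
    have h5 := hk _ hUA
    omega
  -- (c)
  have hcard : M.card = 2 := by
    by_contra hcon
    have h3 : 2 < M.card := by omega
    obtain ⟨m1, h1, m2, h2, m3, h3, h12, h13, h23⟩ := two_lt_card.1 h3
    have hinv : ∀ m ∈ M, m + (m3 - m2) ∈ M := by
      intro m hm
      have h4 := hB m1 h1 m2 h2 h12 m hm
      have h5 := hB m1 h1 m3 h3 h13 _ h4
      have e : m1 + m3 - (m1 + m2 - m) = m + (m3 - m2) := by ring
      rwa [e] at h5
    have h6 := transFrag p M (m3 - m2) (sub_ne_zero.2 h23.symm) ⟨m1, h1⟩ hinv
    have h7 : M.card = p := by rw [h6, card_univ, ZMod.card]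
    have := hle M
    omega
  obtain ⟨m1, m2, hne, hM⟩ := card_eq_two.1 hcard
  refine ⟨m2 - m1, sub_ne_zero.2 hne.symm, ?_⟩
  have hP := (hPair p S (m2 - m1)).1
  have e : (M + S).card = (S + {0, m2 - m1}).card := by
    have e1 : M + S = (S + {0, m2 - m1}).image (fun w => m1 + w) := by
      rw [hM]
      ext w
      constructor
      · intro hw
        obtain ⟨m, hm, s, hs, rfl⟩ := mem_add.1 hw
        rw [mem_insert, mem_singleton] at hm
        rcases hm with rfl | rfl
        · exact mem_image.2 ⟨s + 0, add_mem_add hs (by simp), by ring⟩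
        · exact mem_image.2 ⟨s + (m - m1), add_mem_add hs (by simp), by ring⟩
      · intro hw
        obtain ⟨v, hv, rfl⟩ := mem_image.1 hw
        obtain ⟨s, hs, d, hd, rfl⟩ := mem_add.1 hv
        rw [mem_insert, mem_singleton] at hd
        rcases hd with rfl | rfl
        · exact mem_add.2 ⟨m1, by simp, s, hs, by ring⟩
        · exact mem_add.2 ⟨m2, by simp, s, hs, by ring⟩
    rw [e1]
    exact card_image_of_injective _ (add_right_injective m1)
  have h1 := hk X hXA
  omega

end Pool.Agent.Helper10.W1
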