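import Pool.Agent.Helper10.W1.StA

set_option autoImplicit false

namespace Pool.Agent.Helper10.W1

open Finset
open scoped Pointwise

theorem thGrow (hPair : stPair) : stGrow := by
  intro p _ X Y Y' d hX hY' hY
  have hpair := (hPair p X d).1
  have hne : (X + {0, d}).Nonempty := hX.add ⟨0, by simp⟩
  have h := ZMod.cauchy_davenport (Fact.out : p.Prime) hne hY'
  have hE : X + {0, d} + Y' = X + Y := by
    rw [hY, add_assoc, add_comm ({0, d} : Finset (ZMod p)) Y']
  rw [hE, hpair] at h
  exact h

theorem thSkel (hEnds : stEnds) : stSkel := by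
  intro p _ Y d
  have key : (∀ z ∈ Y, z + d ∈ Y ∨ z - d ∈ Y) → Y = sk d Y + {0, d} := by
    intro h
    ext w
    rw [Finset.mem_add]
    constructor
    · intro hw
      rcases h w hw with h1 | h1
      · exact ⟨w, by simp [sk, hw, h1], 0, by simp, by simp⟩
      · exact ⟨w - d, by simp [sk, hw, h1], d, by simp, by simp⟩
    · rintro ⟨z, hz, e, he, rfl⟩
      simp only [sk, mem_filter] at hz
      simp only [mem_insert, mem_singleton] at he
      rcases he with rfl | rfl
      · simpa using hz.1
      · exact hz.2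
  refine ⟨key, ?_⟩
  intro hd hU hc hr
  apply key
  intro z hz
  by_contra hcon
  push Not at hcon
  obtain ⟨h1, h2⟩ := hcon
  have hzr : z ∈ re d Y := by simp [re, hz, h1]
  have hne : (Y.erase z).Nonempty := by
    rw [← Finset.card_pos, Finset.card_erase_of_mem hz]
    omega
  have hnu : Y.erase z ≠ univ := by
    intro hh
    have : z ∈ Y.erase z := by rw [hh]; exact mem_univ z
    simp at this
  obtain ⟨w, hw⟩ := (hEnds p (Y.erase z) ∅ ∅ d).1 hd hne hnu
  simp only [re, mem_filter, mem_erase, not_and] at hw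
  obtain ⟨⟨hwz, hwY⟩, hw2⟩ := hw
  by_cases h3 : w + d = z
  · apply h2
    rw [← h3]
    simpa using hwY
  · have h4 : w + d ∉ Y := hw2 h3
    have hwr : w ∈ re d Y := by simp [re, hwY, h4]
    exact hwz (Finset.card_le_one.mp hr w hwr z hzr)

end Pool.Agent.Helper10.W1
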