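import Pool.Agent.Helper10.W1.StA
import Pool.Agent.Helper10.W1.StB

set_option autoImplicit false

/-!
# Near multiples of `q`: module IONE
-/

namespace Pool.Agent.Helper10.W1

open Finset
open scoped Pointwise

theorem thI1 (hPair : stPair) (hEnds : stEnds) (_hArc : stArc) (hGrow : stGrow) (hSkel : stSkel)
    (hFrag : stFrag) (hCard : stCardSym) (hArcRel : stArcRel) : stI1 := by
  intro p hprime S1 S2 S3 hp sym1 sym2 sym3 c1 c2 c3 hsum hfree z1 z2 z3 hdisj
  have hodd : p % 2 = 1 := by
    rcases hprime.out.eq_two_or_odd with h2 | h2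
    · omega
    · exact h2
  set Y := S1 + S3 with hY
  have hYmem : ∀ z, z ∈ Y ↔ ∃ a ∈ S1, ∃ s ∈ S3, a + s = z := by
    intro z
    rw [hY, Finset.mem_add]
  have symY : Sym Y := by
    intro z hz
    obtain ⟨a, ha, s, hs, rfl⟩ := (hYmem z).1 hz
    exact (hYmem _).2 ⟨-a, sym1 a ha, -s, sym3 s hs, by ring⟩
  have zY : (0 : ZMod p) ∉ Y := by
    intro h0
    obtain ⟨a, ha, s, hs, h1⟩ := (hYmem 0).1 h0
    have h2 : s = -a := by linear_combination h1
    exact Finset.disjoint_left.1 hdisj (sym1 a ha) (h2 ▸ hs)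
  have hYS2 : ∀ z ∈ Y, z ∉ S2 := by
    intro z hz hz2
    obtain ⟨a, ha, s, hs, rfl⟩ := (hYmem z).1 hz
    apply hfree a ha _ (sym2 _ hz2) s hs
    ring
  have hYcard : Y.card ≤ S1.card + S3.card := by
    have h1 : Y ⊆ S2ᶜ := fun z hz => Finset.mem_compl.2 (hYS2 z hz)
    have h2 := Finset.card_le_card h1
    rw [Finset.card_compl, ZMod.card] at h2
    omega
  have e1 := hCard p S1 1 (by omega) sym1 one_ne_zero
  have e3 := hCard p S3 1 (by omega) sym3 one_ne_zero
  have eY := hCard p Y 1 (by omega) symY one_ne_zero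
  rw [if_neg z1] at e1
  rw [if_pos z3] at e3
  rw [if_neg zY] at eY
  have hYc : Y.card + 1 ≤ S1.card + S3.card := by omega
  obtain ⟨d, hd, hd3⟩ := hFrag p S3 S1 0 1 ⟨0, z3⟩ (fun z hz => by
    rw [zero_sub]; exact sym3 z hz) c1 (by rw [← hY]; omega) (by rw [← hY]; omega)
  have hS3u : S3 ≠ univ := by
    intro h1
    rw [h1, Finset.card_univ, ZMod.card] at hsum
    omega
  have hS1u : S1 ≠ univ := by
    intro h1
    rw [h1, Finset.card_univ, ZMod.card] at hsum
    omega
  have hsk := (hSkel p S3 d).2 hd hS3u c3 hd3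
  have hskc := (hPair p S3 d).2.1
  have hskne : (sk d S3).Nonempty := Finset.card_pos.1 (by omega)
  have hg := hGrow p S1 S3 (sk d S3) d (Finset.card_pos.1 (by omega)) hskne hsk
  have hd1 : (re d S1).card ≤ 1 := by
    rw [← hY] at hg
    rcases le_total p (S1.card + (re d S1).card + (sk d S3).card - 1) with h1 | h1
    · rw [min_eq_left h1] at hg
      omega
    · rw [min_eq_right h1] at hg
      omega
  have hdY : (re d Y).card ≤ 1 := (hEnds p S1 S1 S3 d).2.1 hd1 hd3
  have hdZ : (re d Yᶜ).card ≤ 1 := by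
    rw [(hEnds p Y Y Y d).2.2.2 symY]
    exact hdY
  have symZ : Sym Yᶜ := by
    intro z hz
    rw [Finset.mem_compl] at hz ⊢
    intro h1
    apply hz
    have := symY _ h1
    rwa [neg_neg] at this
  have hCD := ZMod.cauchy_davenport hprime.out (s := S1) (t := S3) (Finset.card_pos.1 (by omega))
    (Finset.card_pos.1 (by omega))
  rw [← hY] at hCD
  have hYl : S1.card + S3.card - 1 ≤ Y.card := by
    rcases le_total p (S1.card + S3.card - 1) with h1 | h1
    · rw [min_eq_left h1] at hCD
      omega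
    · rw [min_eq_right h1] at hCD
      omega
  have hZc : Yᶜ.card = p - Y.card := by rw [Finset.card_compl, ZMod.card]
  have hZ : insert 0 S2 = Yᶜ := by
    apply Finset.eq_of_subset_of_card_le
    · intro z hz
      rw [Finset.mem_insert] at hz
      rw [Finset.mem_compl]
      rcases hz with rfl | hz
      · exact zY
      · exact fun h1 => hYS2 z h1 hz
    · rw [Finset.card_insert_of_notMem z2, hZc]
      omega
  have hZcard : Yᶜ.card = S2.card + 1 := by rw [← hZ, Finset.card_insert_of_notMem z2]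
  have htwo : (2 : ZMod p) ≠ 0 := by
    intro h2
    have h3 : ((2 : ℕ) : ZMod p) = 0 := by exact_mod_cast h2
    rw [ZMod.natCast_eq_zero_iff] at h3
    have := Nat.le_of_dvd (by norm_num) h3
    omega
  have hdη : 2 * (d / 2) = d := by field_simp
  have hη : d / 2 ≠ 0 := div_ne_zero hd htwo
  have hYne : Yᶜ.Nonempty := Finset.card_pos.1 (by omega)
  have hYu : Yᶜ ≠ univ := by
    intro h1
    rw [h1, Finset.card_univ, ZMod.card] at hZcard
    omega
  refine ⟨d / 2, hη, ?_, ?_, ?_⟩
  · exact hArcRel p S1 (d / 2) (by omega) sym1 (Finset.card_pos.1 (by omega)) hS1u hη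
      (by rw [hdη]; exact hd1)
  · exact hArcRel p S3 (d / 2) (by omega) sym3 (Finset.card_pos.1 (by omega)) hS3u hη
      (by rw [hdη]; exact hd3)
  · intro z
    have h1 := hArcRel p Yᶜ (d / 2) (by omega) symZ hYne hYu hη (by rw [hdη]; exact hdZ) z
    rw [hZcard] at h1
    push_cast at h1
    rw [← h1]
    have h2 : ∀ w : ZMod p, chi Yᶜ w = chi S2 w + dl w := by
      intro w
      unfold chi dl
      rw [← hZ]
      by_cases h3 : w = 0
      · subst h3
        rw [if_pos (Finset.mem_insert_self _ _), if_neg z2, if_pos rfl]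
        ring
      · rw [if_neg h3, add_zero]
        by_cases h4 : w ∈ S2
        · rw [if_pos h4, if_pos (Finset.mem_insert_of_mem h4)]
        · rw [if_neg h4, if_neg]
          rw [Finset.mem_insert]
          tauto
    unfold sg
    rw [h2, h2]
    ring

end Pool.Agent.Helper10.W1
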