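import Pool.Agent.Helper10.W1.StB

/-! Project W1, module I2 -/

set_option autoImplicit false

namespace Pool.Agent.Helper10.W1

open Finset
open scoped Pointwise

theorem I2_nz {p n : ℕ} [Fact p.Prime] (h0 : 0 < n) (h1 : n < p) : (n : ZMod p) ≠ 0 := by
  intro h
  rw [ZMod.natCast_eq_zero_iff] at h
  have := Nat.le_of_dvd h0 h
  omega

theorem I2_ne {p m n : ℕ} [Fact p.Prime] (hm : m < p) (hn : n < p) (h : m ≠ n) :
    (m : ZMod p) ≠ n := by
  intro h2
  rw [ZMod.natCast_eq_natCast_iff', Nat.mod_eq_of_lt hm, Nat.mod_eq_of_lt hn] at h2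
  exact h h2

theorem I2_cubic {F : Type} [Field F] (h2 : (2 : F) ≠ 0) {A B C D E G : F}
    (h : ∀ T : F, (T - A) * (T - B) * (T - C) = (T - D) * (T - E) * (T - G)) :
    A + B + C = D + E + G := by
  have e1 := h 1
  have e2 := h (-1)
  have e0 := h 0
  have : 2 * (A + B + C) = 2 * (D + E + G) := by linear_combination 2 * e0 - e1 - e2
  exact mul_left_cancel₀ h2 this

theorem I2_quartic {F : Type} [Field F] (h2 : (2 : F) ≠ 0) (h3 : (3 : F) ≠ 0)
    {A B C R A' B' C' : F}
    (h : ∀ T : F, (T - A) * (T - B) * (T - C) * (T - R) =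
      (T - A') * (T - B') * (T - C') * (T - R)) :
    A + B + C = A' + B' + C' ∧ A * B + A * C + B * C = A' * B' + A' * C' + B' * C' ∧
      A * B * C = A' * B' * C' := by
  have e0 := h 0
  have e1 := h 1
  have e2 := h (-1)
  have e3 := h 2
  have h4 : (6 : F) ≠ 0 := by
    have : (6 : F) = 2 * 3 := by norm_num
    rw [this]
    exact mul_ne_zero h2 h3
  -- e1 of the quartics
  have k1 : 6 * (A + B + C) = 6 * (A' + B' + C') := by
    linear_combination e2 - e3 + 3 * e1 - 3 * e0
  have k1' : A + B + C = A' + B' + C' := mul_left_cancel₀ h4 k1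
  have k2 : 2 * (A * B + A * C + B * C) = 2 * (A' * B' + A' * C' + B' * C') := by
    linear_combination e1 + e2 - 2 * e0 - 2 * R * k1'
  have k2' := mul_left_cancel₀ h2 k2
  have k3 : 2 * (A * B * C) = 2 * (A' * B' * C') := by
    linear_combination e2 - e1 - 2 * k1' - 2 * R * k2'
  exact ⟨k1', k2', mul_left_cancel₀ h2 k3⟩

theorem I2_sq {F : Type} [Field F] {u v : F} (h : u ^ 2 = v ^ 2) : u = v ∨ u = -v :=
  sq_eq_sq_iff_eq_or_eq_neg.1 h

theorem thI2 : stI2 := by
  intro p _ x1 x2 x3 a b η ε N1 k N3 hp hε h1 h2 h3 ha hb hη hs h12 hN1 hN1e hk hN3 hN3o hN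
    s1 s2 s3 C1 C3 C2
  have two : (2 : ZMod p) ≠ 0 := by
    have := I2_nz (p := p) (n := 2) (by norm_num) (by omega)
    exact_mod_cast this
  have three : (3 : ZMod p) ≠ 0 := by
    have := I2_nz (p := p) (n := 3) (by norm_num) (by omega)
    exact_mod_cast this
  -- ratios
  have r12 : x2 * (N1 : ZMod p) = 2 * k * x1 := by
    apply mul_left_cancel₀ h3
    linear_combination s1 - s2
  have r13 : x3 * (N1 : ZMod p) = N3 * x1 := by
    apply mul_left_cancel₀ h2
    linear_combination s1 - s3
  have r23 : x3 * (2 * (k : ZMod p)) = N3 * x2 := by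
    apply mul_left_cancel₀ h1
    linear_combination s2 - s3
  -- nonvanishing
  have hN1' : (N1 : ZMod p) ^ 2 ≠ 1 := by
    intro h
    have h5 : ((N1 : ZMod p) - 1) * (N1 + 1) = 0 := by linear_combination h
    rcases mul_eq_zero.1 h5 with h6 | h6
    · have := I2_ne (p := p) (m := N1) (n := 1) (by omega) (by omega) (by omega)
      apply this
      push_cast
      linear_combination h6
    · have := I2_nz (p := p) (n := N1 + 1) (by omega) (by omega)
      apply this
      push_cast
      exact h6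
  have hN3' : (N3 : ZMod p) ^ 2 ≠ 1 := by
    intro h
    have h5 : ((N3 : ZMod p) - 1) * (N3 + 1) = 0 := by linear_combination h
    rcases mul_eq_zero.1 h5 with h6 | h6
    · have := I2_ne (p := p) (m := N3) (n := 1) (by omega) (by omega) (by omega)
      apply this
      push_cast
      linear_combination h6
    · have := I2_nz (p := p) (n := N3 + 1) (by omega) (by omega)
      apply this
      push_cast
      exact h6
  have hη2 : η ^ 2 ≠ 0 := pow_ne_zero 2 hη
  -- the roots `η²`
  have hA : η ^ 2 = (x1 * x3) ^ 2 ∨ η ^ 2 = (x1 * x2) ^ 2 := by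
    have h5 := C1 (η ^ 2)
    rw [sub_self, mul_zero] at h5
    rcases mul_eq_zero.1 h5 with h6 | h6
    · rcases mul_eq_zero.1 h6 with h7 | h7
      · right; exact sub_eq_zero.1 h7
      · left; exact sub_eq_zero.1 h7
    · exfalso
      have h7 : η ^ 2 * (1 - (N1 : ZMod p) ^ 2) = 0 := by linear_combination h6
      rcases mul_eq_zero.1 h7 with h8 | h8
      · exact hη2 h8
      · exact hN1' (sub_eq_zero.1 h8).symm
  have hB : η ^ 2 = (x3 * x1) ^ 2 ∨ η ^ 2 = (x3 * x2) ^ 2 := by
    have h5 := C3 (η ^ 2)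
    rw [sub_self, mul_zero] at h5
    rcases mul_eq_zero.1 h5 with h6 | h6
    · rcases mul_eq_zero.1 h6 with h7 | h7
      · left; exact sub_eq_zero.1 h7
      · right; exact sub_eq_zero.1 h7
    · exfalso
      have h7 : η ^ 2 * (1 - (N3 : ZMod p) ^ 2) = 0 := by linear_combination h6
      rcases mul_eq_zero.1 h7 with h8 | h8
      · exact hη2 h8
      · exact hN3' (sub_eq_zero.1 h8).symm
  have hx2 : x2 ^ 2 ≠ 0 := pow_ne_zero 2 h2
  have hx1 : x1 ^ 2 ≠ 0 := pow_ne_zero 2 h1
  have hx3 : x3 ^ 2 ≠ 0 := pow_ne_zero 2 h3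
  rcases hA with hA | hA
  · rcases hB with hB | hB
    · -- the main case
      have ε2 : (ε : ZMod p) ^ 2 = 1 := by
        rcases hε with h | h <;> rw [h] <;> norm_num
      have m1 : a ^ 2 * b ^ 2 = x2 ^ 2 * (N1 : ZMod p) ^ 2 * x3 ^ 2 := by
        have h5 : (x2 * x3 * (N1 : ZMod p)) ^ 2 = ((ε : ZMod p) * a * b) ^ 2 := by rw [s1]
        linear_combination (-1) * h5 - a ^ 2 * b ^ 2 * ε2
      have m2 : a ^ 2 + b ^ 2 = x2 ^ 2 + (N1 : ZMod p) ^ 2 * x3 ^ 2 := by
        have h5 := I2_cubic two C1
        apply mul_left_cancel₀ hx1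
        linear_combination (-1) * h5 + ((N1 : ZMod p) ^ 2 - 1) * hA
      have m3 : (a ^ 2 - x2 ^ 2) * (b ^ 2 - x2 ^ 2) = 0 := by
        linear_combination m1 - x2 ^ 2 * m2
      have m4 : ∀ T : ZMod p, (T - (x2 * a) ^ 2) * (T - (x2 * b) ^ 2) =
          (T - x2 ^ 4) * (T - (2 * k * η) ^ 2) := by
        intro T
        linear_combination (-T * x2 ^ 2) * m2 + x2 ^ 4 * m1 +
          (T - x2 ^ 4) * (4 * (k : ZMod p) ^ 2) * hA +
          (T - x2 ^ 4) * (-(x3 ^ 2) * (x2 * N1 + 2 * k * x1)) * r12
      have C2' : ∀ T : ZMod p, (T - (x2 * x3) ^ 2) * (T - (x2 * x1) ^ 2) * (T - (k * η) ^ 2) *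
          (T - (2 * (k + 1) * η) ^ 2) =
          (T - x2 ^ 4) * (T - (2 * k * η) ^ 2) * (T - η ^ 2) * (T - ((k + 1) * η) ^ 2) := by
        intro T
        rw [C2 T, m4 T]
      have n1 : (2 * (k : ZMod p) + 1) ≠ 0 := by
        have := I2_nz (p := p) (n := 2 * k + 1) (by omega) (by omega)
        push_cast at this
        exact this
      have n2 : (2 * (k : ZMod p) + 3) ≠ 0 := by
        have := I2_nz (p := p) (n := 2 * k + 3) (by omega) (by omega)
        push_cast at this
        exact this
      have n3 : ((k : ZMod p) + 1) ≠ 0 := by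
        have := I2_nz (p := p) (n := k + 1) (by omega) (by omega)
        push_cast at this
        exact this
      have n4 : (k : ZMod p) ≠ 0 := I2_nz (p := p) (n := k) (by omega) (by omega)
      have four : (4 : ZMod p) ≠ 0 := by
        have : (4 : ZMod p) = 2 * 2 := by norm_num
        rw [this]
        exact mul_ne_zero two two
      have m5 : (2 * (k + 1) * η) ^ 2 = x2 ^ 4 := by
        have h5 := C2' ((2 * (k + 1) * η) ^ 2)
        rw [sub_self, mul_zero] at h5
        have h6 : ((2 * (k + 1) * η) ^ 2 - x2 ^ 4) * (4 * η ^ 2 * (2 * (k : ZMod p) + 1) *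
            (η ^ 2 * ((2 * (k : ZMod p) + 1) * (2 * k + 3))) *
            (3 * ((k : ZMod p) + 1) ^ 2 * η ^ 2)) = 0 := by
          linear_combination -h5
        rcases mul_eq_zero.1 h6 with h7 | h7
        · exact sub_eq_zero.1 h7
        · exfalso
          exact (mul_ne_zero (mul_ne_zero (mul_ne_zero (mul_ne_zero four hη2) n1)
            (mul_ne_zero hη2 (mul_ne_zero n1 n2))) (mul_ne_zero (mul_ne_zero three
              (pow_ne_zero 2 n3)) hη2)) h7
      obtain ⟨f1, f2, f3⟩ := I2_quartic two three (A := (x2 * x3) ^ 2) (B := (x2 * x1) ^ 2)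
        (C := (k * η) ^ 2) (R := (2 * (k + 1) * η) ^ 2) (A' := (2 * k * η) ^ 2) (B' := η ^ 2)
        (C' := ((k + 1) * η) ^ 2) (fun T => by
          rw [C2' T, ← m5]
          ring)
      have m6 : (3 * (k : ZMod p) ^ 2 * η ^ 2 * η ^ 2 * (2 * k + 1) * η ^ 2) * ((k : ZMod p) ^ 2 - 1)
          = 0 := by
        linear_combination (k * η) ^ 4 * f1 - (k * η) ^ 2 * f2 + f3
      have m7 : (k : ZMod p) ^ 2 - 1 = 0 := by
        rcases mul_eq_zero.1 m6 with h7 | h7
        · exfalso
          exact (mul_ne_zero (mul_ne_zero (mul_ne_zero (mul_ne_zero (mul_ne_zero three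
            (pow_ne_zero 2 n4)) hη2) hη2) n1) hη2) h7
        · exact h7
      have m8 : k = 1 := by
        by_contra hk1
        have h5 : ((k : ZMod p) - 1) * (k + 1) = 0 := by linear_combination m7
        rcases mul_eq_zero.1 h5 with h6 | h6
        · have := I2_ne (p := p) (m := k) (n := 1) (by omega) (by omega) hk1
          apply this
          push_cast
          linear_combination h6
        · exact n3 h6
      subst m8
      push_cast at f1 f3 r12
      have g1 : (x2 * x3) ^ 2 + (x2 * x1) ^ 2 = 8 * η ^ 2 := by linear_combination f1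
      have g3 : (x2 * x3) ^ 2 * (x2 * x1) ^ 2 = 16 * η ^ 4 := by
        apply mul_right_cancel₀ hη2
        linear_combination f3
      have g4 : ((x2 * x3) ^ 2 - 4 * η ^ 2) ^ 2 = 0 := by
        linear_combination (x2 * x3) ^ 2 * g1 - g3
      have g5 : (x2 * x3) ^ 2 - 4 * η ^ 2 = 0 := by
        exact pow_eq_zero_iff (two_ne_zero) |>.1 g4
      have g6 : x2 ^ 2 = 4 * x1 ^ 2 := by
        apply mul_right_cancel₀ hx3
        linear_combination g5 + 4 * hA
      apply hN1'
      apply mul_left_cancel₀ hx2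
      linear_combination (x2 * N1 + 2 * x1) * r12 - g6
    · -- `x1² = x2²`
      have h5 : x1 ^ 2 = x2 ^ 2 := by
        apply mul_right_cancel₀ hx3
        linear_combination hB - hA
      rcases I2_sq h5 with h6 | h6
      · exact h12 h6
      · apply h3
        linear_combination hs - h6
  · rcases hB with hB | hB
    · have h5 : x2 ^ 2 = x3 ^ 2 := by
        apply mul_right_cancel₀ hx1
        linear_combination hB - hA
      rcases I2_sq h5 with h6 | h6
      · have h7 : ((2 * k : ℕ) : ZMod p) ≠ (N3 : ZMod p) :=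
          I2_ne (by omega) (by omega) (by omega)
        apply h7
        push_cast
        apply mul_left_cancel₀ h3
        rw [r23, h6]
        ring
      · apply h1
        linear_combination hs - h6
    · have h5 : x1 ^ 2 = x3 ^ 2 := by
        apply mul_right_cancel₀ hx2
        linear_combination hB - hA
      rcases I2_sq h5 with h6 | h6
      · have h7 : (N1 : ZMod p) ≠ (N3 : ZMod p) := I2_ne (by omega) (by omega) (by omega)
        apply h7
        apply mul_left_cancel₀ h3
        rw [r13, h6]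
        ring
      · apply h2
        linear_combination hs - h6

end Pool.Agent.Helper10.W1
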