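import Pool.Agent.Helper10.W1.StA

set_option autoImplicit false

/-!
# Near multiples of `q`: module K
-/

namespace Pool.Agent.Helper10.W1

open Finset
open scoped Pointwise

private lemma KH_symm {p : ℕ} {A B S : Finset (ZMod p)} (h : KH p A B S) : KH p B A S where
  symA := h.symB
  symB := h.symA
  symS := h.symS
  zA := h.zB
  zB := h.zA
  zS := h.zS
  cA := h.cB
  cB := h.cA
  sum := by have := h.sum; omega
  free := fun a ha b hb s hs h0 => h.free b hb a ha s hs (by rw [← h0]; ring)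
  mA := h.mB
  mB := h.mA

private lemma end_case {p : ℕ} [Fact p.Prime] (S : Finset (ZMod p)) (r : ZMod p) (i k : ℕ)
    (hS : Sym S) (hr : r ≠ 0) (hik : i < k) (hk : 2 * k + 1 = p)
    (hsh : ∀ n : ℕ, 2 * n < p → ((n : ZMod p) * r ∈ S ↔ n ≤ i ∨ k < n)) :
    (re r S).card ≤ 1 := by
  have hsub : re r S ⊆ {(i : ZMod p) * r} := by
    intro z hz
    unfold re at hz
    rw [Finset.mem_filter] at hz
    rw [Finset.mem_singleton]
    set m := (z / r).val with hm
    have hmp : m < p := ZMod.val_lt _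
    have hzm : z = (m : ZMod p) * r := by
      rw [hm, ZMod.natCast_zmod_val, div_mul_cancel₀ _ hr]
    by_cases h2 : 2 * m < p
    · have h3 : m ≤ i := by
        have := (hsh m h2).1 (hzm ▸ hz.1)
        omega
      have h4 : ¬ (m + 1 ≤ i) := by
        intro h5
        apply hz.2
        have h6 := (hsh (m + 1) (by omega)).2 (Or.inl h5)
        rw [hzm]
        have h7 : (m : ZMod p) * r + r = ((m + 1 : ℕ) : ZMod p) * r := by push_cast; ring
        rw [h7]
        exact h6
      rw [hzm, show m = i by omega]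
    · exfalso
      set n := p - m with hn
      have h3 : (n : ZMod p) * r = -z := by
        rw [hn, Nat.cast_sub hmp.le, ZMod.natCast_self, hzm]
        ring
      have h4 : n ≤ i := by
        have h5 := (hsh n (by omega)).1 (h3 ▸ hS z hz.1)
        omega
      apply hz.2
      have h6 := (hsh (n - 1) (by omega)).2 (Or.inl (by omega))
      have h7 := hS _ h6
      have h8 : -(((n - 1 : ℕ) : ZMod p) * r) = z + r := by
        rw [Nat.cast_sub (by omega), Nat.cast_one, sub_mul, h3]
        ring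
      rw [h8] at h7
      exact h7
  exact (Finset.card_le_card hsub).trans (by simp)

private lemma fin_step {p : ℕ} [Fact p.Prime] (hTwoInt : stTwoInt) (A B S : Finset (ZMod p))
    (r : ZMod p) (h : KH p A B S) (i k s t s' t' : ℕ) (hp : p % 2 = 1) (hik : i < k)
    (hk : 2 * k + 1 < p) (hs : 1 ≤ s) (hst : s < t) (ht : 2 * t < p) (hts' : t < s')
    (hst' : s' < t') (ht' : 2 * t' < p)
    (hcard : (2 * t + 2 - 2 * s) + (2 * t' + 2 - 2 * s') + (2 * i + p - 2 * k) = p)
    (hsh : ∀ n : ℕ, 2 * n < p → ((n : ZMod p) * r ∈ S ↔ n ≤ i ∨ k < n))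
    (hA : ∀ n : ℕ, 2 * n < p → ((n : ZMod p) * r ∈ A ↔ s ≤ n ∧ n ≤ t))
    (hB : ∀ n : ℕ, 2 * n < p → ((n : ZMod p) * r ∈ B ↔ s' ≤ n ∧ n ≤ t')) : False := by
  apply hTwoInt p i k s t s' t' hp hik hk hs hst ht hts' hst' ht' hcard
  · intro α β h1 h2 h3 h4 h5
    have hα := (hA α (by omega)).2 ⟨h1, h2⟩
    have hβ := (hB β (by omega)).2 ⟨h3, h4⟩
    have hs := (hsh (β - α) (by omega)).2 h5
    apply h.free _ hα _ (h.symB _ hβ) _ hs
    rw [Nat.cast_sub (by omega)]
    ring
  · intro α β h1 h2 h3 h4 h5 h6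
    have hα := (hA α (by omega)).2 ⟨h1, h2⟩
    have hβ := (hB β (by omega)).2 ⟨h3, h4⟩
    have hs := (hsh (α + β) h5).2 h6
    apply h.free _ (h.symA _ hα) _ (h.symB _ hβ) _ hs
    push_cast
    ring
  · intro α β h1 h2 h3 h4 h5 h6
    have hα := (hA α (by omega)).2 ⟨h1, h2⟩
    have hβ := (hB β (by omega)).2 ⟨h3, h4⟩
    have hs := (hsh (p - (α + β)) (by omega)).2 h6
    apply h.free _ hα _ hβ _ hs
    rw [Nat.cast_sub (by omega), ZMod.natCast_self]
    push_cast
    ring

theorem thK (hFrag : stFrag) (hShapeS : stShapeS) (hShapeA : stShapeA) (hArcK : stArcK)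
    (hU2a : stU2a) (hU2b : stU2b) (hTwoInt : stTwoInt) : stK := by
  intro p hprime A B S hp h
  have hodd : p % 2 = 1 := by
    rcases hprime.out.eq_two_or_odd with h2 | h2
    · omega
    · exact h2
  have hcA := h.cA
  have hcB := h.cB
  have hsum := h.sum
  have hSuniv : S ≠ univ := by
    intro h1
    rw [h1, Finset.card_univ, ZMod.card] at hsum
    omega
  have hAuniv : A.Nonempty := Finset.card_pos.1 (by omega)
  have hBne : B.Nonempty := Finset.card_pos.1 (by omega)
  have hAS : (A + S).card ≤ A.card + S.card := by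
    have h1 : A + S ⊆ Bᶜ := by
      intro z hz
      rw [Finset.mem_compl]
      intro hzB
      rw [Finset.mem_add] at hz
      obtain ⟨a, ha, s, hs, rfl⟩ := hz
      apply h.free a ha _ (h.symB _ hzB) s hs
      ring
    have h2 := Finset.card_le_card h1
    rw [Finset.card_compl, ZMod.card] at h2
    omega
  obtain ⟨r, hr, hre⟩ := hFrag p S A 0 2 ⟨0, h.zS⟩ (fun z hz => by
    rw [zero_sub]; exact h.symS z hz) (by omega) (by omega) (by omega)
  by_cases hex : ∃ ρ : ZMod p, ρ ≠ 0 ∧ (re ρ S).card ≤ 1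
  · obtain ⟨ρ, hρ, hρ1⟩ := hex
    obtain ⟨a, ha, b, hb, s, hs, h0⟩ := hArcK p S A B ρ hp h.symS h.symA h.symB h.zS hρ hSuniv
      hρ1 h.mA h.mB
    exact h.free a ha b hb s hs h0
  · have hmin : ∀ ρ : ZMod p, ρ ≠ 0 → 2 ≤ (re ρ S).card := by
      intro ρ hρ
      by_contra hlt
      exact hex ⟨ρ, hρ, by omega⟩
    obtain ⟨i, k, hik, hk, hsh, hcardS⟩ := hShapeS p S r hp h.symS hr h.zS hSuniv hre
    have hk' : 2 * k + 1 < p := by
      by_contra hlt
      have h1 := end_case S r i k h.symS hr hik (by omega) hsh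
      have h2 := hmin r hr
      omega
    have hreA : (re r A).card ≤ 2 := by
      rcases Nat.eq_zero_or_pos i with hi | hi
      · subst hi
        exact hU2b p A B S r k h hr hmin hre hik hk' hsh (by omega)
      · exact hU2a p A B S r i k h hr hmin hre hik hk' hsh hcardS hi
    have hreB : (re r B).card ≤ 2 := by
      rcases Nat.eq_zero_or_pos i with hi | hi
      · subst hi
        exact hU2b p B A S r k (KH_symm h) hr hmin hre hik hk' hsh (by omega)
      · exact hU2a p B A S r i k (KH_symm h) hr hmin hre hik hk' hsh hcardS hi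
    obtain ⟨s, t, hs1, hst, ht, hA, hcardA⟩ := hShapeA p A r hp h.symA hr h.zA hAuniv hreA
    obtain ⟨s', t', hs1', hst', ht', hB, hcardB⟩ := hShapeA p B r hp h.symB hr h.zB hBne hreB
    have hdisj : ∀ n : ℕ, 2 * n < p → ¬ ((s ≤ n ∧ n ≤ t) ∧ (s' ≤ n ∧ n ≤ t')) := by
      rintro n hn ⟨h1, h2⟩
      have h3 := (hA n hn).2 h1
      have h4 := (hB n hn).2 h2
      apply h.free _ h3 _ (h.symB _ h4) 0 h.zS
      ring
    have hlt : t < s' ∨ t' < s := by
      by_contra hcon
      push Not at hcon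
      rcases le_total s s' with h1 | h1
      · exact hdisj s' (by omega) ⟨⟨h1, hcon.1⟩, ⟨le_rfl, hst'⟩⟩
      · exact hdisj s (by omega) ⟨⟨le_rfl, hst⟩, ⟨h1, hcon.2⟩⟩
    rcases hlt with h1 | h1
    · exact fin_step hTwoInt A B S r h i k s t s' t' hodd hik hk' hs1 (by omega) ht h1
        (by omega) ht' (by omega) hsh hA hB
    · exact fin_step hTwoInt B A S r (KH_symm h) i k s' t' s t hodd hik hk' hs1' (by omega) ht'
        h1 (by omega) ht (by omega) hsh hB hA

end Pool.Agent.Helper10.W1
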