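import Pool.Agent.Helper10.W1.StA

set_option autoImplicit false

/-!
# Near multiples of `q`: modules PAIR and ENDS
-/

namespace Pool.Agent.Helper10.W1

open Finset
open scoped Pointwise

private theorem mem_re {p : ℕ} {d z : ZMod p} {S : Finset (ZMod p)} :
    z ∈ re d S ↔ z ∈ S ∧ z + d ∉ S := mem_filter

private theorem mem_sk {p : ℕ} {d z : ZMod p} {S : Finset (ZMod p)} :
    z ∈ sk d S ↔ z ∈ S ∧ z + d ∈ S := mem_filter

private theorem sk_add_re {p : ℕ} (d : ZMod p) (S : Finset (ZMod p)) :
    (sk d S).card + (re d S).card = S.card :=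
  card_filter_add_card_filter_not (s := S) (fun z => z + d ∈ S)

private theorem sk_neg {p : ℕ} (d : ZMod p) (S : Finset (ZMod p)) :
    (sk (-d) S).card = (sk d S).card := by
  refine card_nbij' (fun z => z - d) (fun z => z + d) ?_ ?_ ?_ ?_
  · intro z hz
    rw [mem_coe, mem_sk] at hz ⊢
    rw [sub_add_cancel]
    rw [← sub_eq_add_neg] at hz
    exact ⟨hz.2, hz.1⟩
  · intro z hz
    rw [mem_coe, mem_sk] at hz ⊢
    rw [add_neg_cancel_right]
    exact ⟨hz.2, hz.1⟩
  · intro z _
    exact sub_add_cancel z d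
  · intro z _
    exact add_sub_cancel_right z d

theorem thPair : stPair := by
  intro p _ S d
  refine ⟨?_, sk_add_re d S, ?_⟩
  · have h1 : S + {0, d} = S ∪ (re d S).image (fun z => z + d) := by
      ext w
      rw [mem_add, mem_union, mem_image]
      constructor
      · rintro ⟨s, hs, t, ht, rfl⟩
        rw [mem_insert, mem_singleton] at ht
        rcases ht with rfl | rfl
        · left
          rwa [add_zero]
        · by_cases h : s + t ∈ S
          · exact Or.inl h
          · exact Or.inr ⟨s, mem_re.2 ⟨hs, h⟩, rfl⟩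
      · rintro (h | ⟨s, hs, rfl⟩)
        · exact ⟨w, h, 0, by simp, add_zero w⟩
        · exact ⟨s, (mem_re.1 hs).1, d, by simp, rfl⟩
    rw [h1, card_union_of_disjoint, card_image_of_injective _ (add_left_injective d)]
    rw [disjoint_left]
    intro w hw hw'
    rw [mem_image] at hw'
    obtain ⟨s, hs, rfl⟩ := hw'
    exact (mem_re.1 hs).2 hw
  · have h1 := sk_add_re d S
    have h2 := sk_add_re (-d) S
    have h3 := sk_neg d S
    omega

theorem thEnds : stEnds := by
  intro p _ S X Y d
  refine ⟨?_, ?_, ?_, ?_⟩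
  · intro hd hS hne
    by_contra hcon
    rw [not_nonempty_iff_eq_empty] at hcon
    refine hne (eq_univ_iff_forall.2 fun w => ?_)
    obtain ⟨z, hz⟩ := hS
    have h1 : ∀ y ∈ S, y + d ∈ S := by
      intro y hy
      by_contra h
      have h2 : y ∈ re d S := mem_re.2 ⟨hy, h⟩
      rw [hcon] at h2
      exact notMem_empty _ h2
    have h2 : ∀ n : ℕ, z + (n : ZMod p) * d ∈ S := by
      intro n
      induction n with
      | zero => rwa [Nat.cast_zero, zero_mul, add_zero]
      | succ n ih =>
        have := h1 _ ih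
        rwa [add_assoc, ← add_one_mul, ← Nat.cast_succ] at this
    have h3 := h2 ((w - z) / d).val
    rwa [ZMod.natCast_zmod_val, div_mul_cancel₀ _ hd, add_sub_cancel] at h3
  · intro hX hY
    rw [card_le_one] at hX hY ⊢
    have key : ∀ a ∈ re d (X + Y), ∃ x ∈ re d X, ∃ y ∈ re d Y, x + y = a := by
      intro a ha
      obtain ⟨h1, h2⟩ := mem_re.1 ha
      obtain ⟨x, hx, y, hy, rfl⟩ := mem_add.1 h1
      refine ⟨x, mem_re.2 ⟨hx, fun h => h2 ?_⟩, y, mem_re.2 ⟨hy, fun h => h2 ?_⟩, rfl⟩
      · rw [add_right_comm]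
        exact add_mem_add h hy
      · rw [add_assoc]
        exact add_mem_add hx h
    intro a ha b hb
    obtain ⟨x, hx, y, hy, rfl⟩ := key a ha
    obtain ⟨x', hx', y', hy', rfl⟩ := key b hb
    rw [hX x hx x' hx', hY y hy y' hy']
  · refine (card_le_card ?_).trans (card_union_le _ _)
    intro z hz
    obtain ⟨h1, h2⟩ := mem_re.1 hz
    rw [mem_union, not_or] at h2
    rw [mem_union]
    rcases mem_union.1 h1 with h | h
    · exact Or.inl (mem_re.2 ⟨h, h2.1⟩)
    · exact Or.inr (mem_re.2 ⟨h, h2.2⟩)
  · intro hS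
    refine card_nbij' (fun z => -(z + d)) (fun z => -(z + d)) ?_ ?_ ?_ ?_
    · intro z hz
      rw [mem_coe, mem_re, mem_compl, mem_compl, not_not] at hz
      rw [mem_coe, mem_re]
      refine ⟨hS _ hz.2, fun h => hz.1 ?_⟩
      have h1 := hS _ h
      have h2 : -(-(z + d) + d) = z := by ring
      rwa [h2] at h1
    · intro z hz
      rw [mem_coe, mem_re] at hz
      rw [mem_coe, mem_re, mem_compl, mem_compl, not_not]
      refine ⟨fun h => hz.2 ?_, ?_⟩
      · have h1 := hS _ h
        rwa [neg_neg] at h1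
      · have h2 : -(z + d) + d = -z := by ring
        rw [h2]
        exact hS _ hz.1
    · intro z _
      show -(-(z + d) + d) = z
      ring
    · intro z _
      show -(-(z + d) + d) = z
      ring

end Pool.Agent.Helper10.W1
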