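import Pool.Agent.Helper10.W1.StA
import Pool.Agent.Helper10.W1.StB

set_option autoImplicit false

/-!
# Module RELARC
-/

namespace Pool.Agent.Helper10.W1

open Finset
open scoped Pointwise

theorem thRelArc : stRelArc := by
  intro p _ S η c ε _ hε _ h
  rw [Finset.card_le_one]
  have key : ∀ z ∈ re (2 * η) S, z = (ε : ZMod p) * c - η := by
    intro z hz
    unfold re at hz
    rw [mem_filter] at hz
    have h1 := h (z + η)
    have h2 : sg η (chi S) (z + η) = 1 := by
      unfold sg chi
      rw [add_sub_cancel_right, if_pos hz.1, if_neg (by rw [add_assoc, ← two_mul]; exact hz.2)]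
      norm_num
    rw [h2] at h1
    unfold sg dl at h1
    rcases hε with rfl | rfl
    · by_cases hc : z + η - c = 0
      · push_cast
        linear_combination hc
      · exfalso
        rw [if_neg hc] at h1
        split_ifs at h1 <;> omega
    · by_cases hc : z + η + c = 0
      · push_cast
        linear_combination hc
      · exfalso
        rw [if_neg hc] at h1
        split_ifs at h1 <;> omega
  intro a ha b hb
  rw [key a ha, key b hb]

theorem thArcMid (hArc : stArc) (hEnds : stEnds) : stArcMid := by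
  intro p hp S η hp3 hS hne hnu hη hre
  have hp' : p.Prime := hp.out
  have h2 : (2 : ZMod p) ≠ 0 := by
    intro h0
    have h1 : ((2 : ℕ) : ZMod p) = 0 := by exact_mod_cast h0
    rw [ZMod.natCast_eq_zero_iff] at h1
    have := Nat.le_of_dvd (by norm_num) h1
    omega
  have hd : (2 * η) ≠ 0 := mul_ne_zero h2 hη
  obtain ⟨e, he⟩ := (hEnds p S ∅ ∅ (2 * η)).1 hd hne hnu
  have huniq : ∀ z ∈ re (2 * η) S, z = e := fun z hz => Finset.card_le_one.1 hre z hz e he
  have heS : e ∈ S := (mem_filter.1 he).1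
  have hform := hArc p S (2 * η) e hd hnu heS huniq
  set n := S.card with hn
  have hnp : n < p := by
    have h3 : n ≤ p := by
      have := Finset.card_le_univ S
      rwa [ZMod.card] at this
    rcases h3.lt_or_eq with h4 | h4
    · exact h4
    · exfalso
      apply hnu
      rw [← Finset.card_eq_iff_eq_univ, ZMod.card, ← hn, h4]
  have hn0 : 0 < n := Finset.card_pos.2 hne
  have hmem : ∀ z, z ∈ S ↔ ∃ j < n, e - (j : ZMod p) * (2 * η) = z := by
    intro z
    constructor
    · intro hz
      rw [hform, mem_image] at hz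
      obtain ⟨j, hj, hz⟩ := hz
      exact ⟨j, mem_range.1 hj, hz⟩
    · rintro ⟨j, hj, hz⟩
      rw [hform, mem_image]
      exact ⟨j, mem_range.2 hj, hz⟩
  -- the left end point
  have hleft : -(e - ((n - 1 : ℕ) : ZMod p) * (2 * η)) ∈ re (2 * η) S := by
    unfold re
    rw [mem_filter]
    refine ⟨hS _ ((hmem _).2 ⟨n - 1, by omega, rfl⟩), ?_⟩
    intro h3
    have h4 := hS _ h3
    obtain ⟨j, hj, hj2⟩ := (hmem _).1 h4
    have h5 : (((n : ℤ) - (j : ℤ) : ℤ) : ZMod p) * (2 * η) = 0 := by
      have h6 : ((n - 1 : ℕ) : ZMod p) = (n : ZMod p) - 1 := by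
        rw [Nat.cast_sub (by omega), Nat.cast_one]
      rw [h6] at hj2
      push_cast
      linear_combination hj2
    rcases mul_eq_zero.1 h5 with h6 | h6
    · rw [ZMod.intCast_zmod_eq_zero_iff_dvd] at h6
      have h7 := Int.le_of_dvd (by omega) h6
      omega
    · exact hd h6
  have h2e : e = ((n : ZMod p) - 1) * η := by
    have h3 := huniq _ hleft
    have h6 : ((n - 1 : ℕ) : ZMod p) = (n : ZMod p) - 1 := by
      rw [Nat.cast_sub (by omega), Nat.cast_one]
    rw [h6] at h3
    have h4 : 2 * (e - ((n : ZMod p) - 1) * η) = 0 := by linear_combination -h3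
    rcases mul_eq_zero.1 h4 with h5 | h5
    · exact absurd h5 h2
    · exact sub_eq_zero.1 h5
  constructor
  · intro hev
    refine (hmem _).2 ⟨n / 2 - 1, by omega, ?_⟩
    have h6 : ((n / 2 - 1 : ℕ) : ZMod p) * 2 = (n : ZMod p) - 2 := by
      have h7 : (n / 2 - 1) * 2 + 2 = n := by omega
      have h8 : (((n / 2 - 1) * 2 + 2 : ℕ) : ZMod p) = (n : ZMod p) := by rw [h7]
      rw [Nat.cast_add, Nat.cast_mul] at h8
      push_cast at h8 ⊢
      linear_combination h8
    rw [h2e]
    linear_combination (-η) * h6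
  · intro h0 hηS
    obtain ⟨j, hj, hj0⟩ := (hmem _).1 h0
    obtain ⟨i, hi, hiη⟩ := (hmem _).1 hηS
    rw [h2e] at hj0 hiη
    have e1 : (((n : ℤ) - 1 - 2 * (j : ℤ) : ℤ) : ZMod p) * η = 0 := by
      push_cast
      linear_combination hj0
    have e2 : (((n : ℤ) - 2 - 2 * (i : ℤ) : ℤ) : ZMod p) * η = 0 := by
      push_cast
      linear_combination hiη
    have k1 := (mul_eq_zero.1 e1).resolve_right hη
    have k2 := (mul_eq_zero.1 e2).resolve_right hη
    rw [ZMod.intCast_zmod_eq_zero_iff_dvd] at k1 k2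
    have l1 : (n : ℤ) - 1 - 2 * (j : ℤ) = 0 := by
      apply Int.eq_zero_of_abs_lt_dvd k1
      rw [abs_lt]; constructor <;> omega
    have l2 : (n : ℤ) - 2 - 2 * (i : ℤ) = 0 := by
      apply Int.eq_zero_of_abs_lt_dvd k2
      rw [abs_lt]; constructor <;> omega
    omega

end Pool.Agent.Helper10.W1
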