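import Pool.Agent.Helper10.W1.StD

/-! Project W1, modules RingId and Vanish -/

set_option autoImplicit false

namespace Pool.Agent.Helper10.W1

open Finset
open scoped Pointwise

theorem thRingId : stRingId := by
  intro R _ X Y m
  induction m with
  | zero => simp; ring
  | succ m ih =>
    have hG := geom_sum₂_mul X Y (m + 1 + 1)
    have hS : ∑ i ∈ range (m + 1 + 1), ∑ j ∈ range (m + 1 + 1 - i), X ^ i * Y ^ j =
        (∑ i ∈ range (m + 1), ∑ j ∈ range (m + 1 - i), X ^ i * Y ^ j) +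
          ∑ i ∈ range (m + 1 + 1), X ^ i * Y ^ (m + 1 + 1 - 1 - i) := by
      rw [sum_range_succ, sum_range_succ (fun i => X ^ i * Y ^ (m + 1 + 1 - 1 - i)), ← add_assoc,
        ← sum_add_distrib]
      congr 1
      · refine sum_congr rfl fun i hi => ?_
        rw [mem_range] at hi
        have e : m + 1 + 1 - i = (m + 1 - i) + 1 := by omega
        rw [e, sum_range_succ]
        simp
      · simp
    rw [hS]
    linear_combination ih + (1 - X) * (1 - Y) * hG

/-- the unit mass at `c` -/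
noncomputable def vE {p : ℕ} (c : ZMod p) : AddMonoidAlgebra ℤ (ZMod p) :=
  AddMonoidAlgebra.single c 1

theorem vE_mul {p : ℕ} (c d : ZMod p) : vE c * vE d = vE (c + d) := by
  unfold vE
  rw [AddMonoidAlgebra.single_mul_single, one_mul]

theorem vE_zero {p : ℕ} : vE (0 : ZMod p) = 1 := rfl

theorem vE_coeff {p : ℕ} (c : ZMod p) (u : AddMonoidAlgebra ℤ (ZMod p)) (z : ZMod p) :
    (vE c * u).coeff z = u.coeff (z - c) := by
  unfold vE
  rw [AddMonoidAlgebra.coeff_single_mul_apply, one_mul]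
  congr 1
  ring

theorem vE_pow {p : ℕ} (c : ZMod p) (n : ℕ) : vE c ^ n = vE ((n : ZMod p) * c) := by
  induction n with
  | zero => simp [vE_zero]
  | succ n ih =>
    rw [pow_succ, ih, vE_mul]
    congr 1
    push_cast
    ring

theorem vE_D {p : ℕ} (c : ZMod p) (u : AddMonoidAlgebra ℤ (ZMod p)) (z : ZMod p) :
    ((1 - vE c) * u).coeff z = u.coeff z - u.coeff (z - c) := by
  rw [sub_mul, one_mul, ← vE_coeff]
  rfl

theorem vE_const {p : ℕ} [Fact p.Prime] {c : ZMod p} (hc : c ≠ 0)
    {u : AddMonoidAlgebra ℤ (ZMod p)} (h : (1 - vE c) * u = 0) (z w : ZMod p) :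
    u.coeff z = u.coeff w := by
  have h1 : ∀ z, u.coeff z = u.coeff (z - c) := by
    intro z
    have h2 := vE_D c u z
    rw [h] at h2
    have h3 : (0 : AddMonoidAlgebra ℤ (ZMod p)).coeff z = 0 := rfl
    rw [h3] at h2
    linarith
  have h2 : ∀ (n : ℕ), u.coeff z = u.coeff (z - n * c) := by
    intro n
    induction n with
    | zero => simp
    | succ n ih =>
      rw [ih, h1 (z - n * c)]
      congr 1
      push_cast
      ring
  have h3 := h2 ((z - w) / c).val
  rw [h3]
  congr 1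
  rw [ZMod.natCast_zmod_val, div_mul_cancel₀ _ hc]
  ring

theorem vE_sum {p : ℕ} [Fact p.Prime] (c : ZMod p) (u : AddMonoidAlgebra ℤ (ZMod p)) :
    ∑ z, u.coeff (z - c) = ∑ z, u.coeff z :=
  Equiv.sum_comp (Equiv.subRight c) fun z => u.coeff z

theorem vE_cancel {p : ℕ} [Fact p.Prime] {c d : ZMod p} (hc : c ≠ 0)
    {v : AddMonoidAlgebra ℤ (ZMod p)} (h : (1 - vE c) * ((1 - vE d) * v) = 0) :
    (1 - vE d) * v = 0 := by
  have h1 := vE_const hc h
  have h2 : ∑ z, ((1 - vE d) * v).coeff z = 0 := by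
    have : ∀ z, ((1 - vE d) * v).coeff z = v.coeff z - v.coeff (z - d) := vE_D d v
    simp_rw [this]
    rw [sum_sub_distrib, vE_sum, sub_self]
  have h3 : ∀ z, ((1 - vE d) * v).coeff z = 0 := by
    intro z
    have h4 : ∑ w : ZMod p, ((1 - vE d) * v).coeff w =
        ∑ _w : ZMod p, ((1 - vE d) * v).coeff z := sum_congr rfl fun w _ => h1 w z
    rw [h4, sum_const, nsmul_eq_mul, card_univ, ZMod.card] at h2
    rcases mul_eq_zero.1 h2 with h5 | h5
    · exfalso
      have := (Fact.out : p.Prime).ne_zero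
      apply this
      exact_mod_cast h5
    · exact h5
  ext z
  exact h3 z

theorem vE_HH {p : ℕ} (x y : ZMod p) (m : ℕ) (z : ZMod p) :
    (∑ i ∈ range (m + 1), ∑ j ∈ range (m + 1 - i), vE x ^ i * vE y ^ j).coeff z = HH x y m z := by
  unfold HH
  rw [AddMonoidAlgebra.coeff_sum, Finsupp.finsetSum_apply]
  refine sum_congr rfl fun i _ => ?_
  rw [AddMonoidAlgebra.coeff_sum, Finsupp.finsetSum_apply]
  refine sum_congr rfl fun j _ => ?_
  rw [vE_pow, vE_pow, vE_mul]
  unfold vE
  exact Finsupp.single_apply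

theorem vE_HHconst (hRing : stRingId) {p : ℕ} [Fact p.Prime] {x y : ZMod p} (hx : x ≠ 0)
    (hy : y ≠ 0) (hxy : x ≠ y) {m : ℕ} (hm : m + 2 = p ∨ m + 2 = p + 1) (z w : ZMod p) :
    HH x y m z = HH x y m w := by
  rw [← vE_HH, ← vE_HH]
  have h1 := hRing _ (vE x) (vE y) m
  set H := ∑ i ∈ range (m + 1), ∑ j ∈ range (m + 1 - i), vE x ^ i * vE y ^ j with hH
  have hp1 : ∀ c : ZMod p, vE c ^ p = 1 := by
    intro c
    rw [vE_pow, CharP.cast_eq_zero, zero_mul, vE_zero]
  have h2 : (1 - vE x) * (1 - vE y) * (vE x - vE y) * H = 0 := by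
    rw [h1]
    rcases hm with hm | hm
    · rw [hm, hp1, hp1]
      ring
    · rw [hm, pow_succ, pow_succ, hp1, hp1]
      ring
  have h3 : vE x - vE y = vE x * (1 - vE (y - x)) := by
    rw [mul_sub, mul_one, vE_mul]
    congr 2
    ring
  have h4 : vE (-x) * vE x = 1 := by
    rw [vE_mul, neg_add_cancel, vE_zero]
  have h5 : (1 - vE x) * ((1 - vE y) * ((1 - vE (y - x)) * H)) = 0 := by
    have h6 : vE (-x) * ((1 - vE x) * (1 - vE y) * (vE x - vE y) * H) = 0 := by
      rw [h2, mul_zero]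
    rw [h3] at h6
    linear_combination h6 - (1 - vE x) * (1 - vE y) * (1 - vE (y - x)) * H * h4
  have h6 := vE_cancel hx h5
  have h7 := vE_cancel hy h6
  exact vE_const (sub_ne_zero.2 (Ne.symm hxy)) h7 z w

theorem thVanish (hRing : stRingId) : stVanish := by
  intro p _ x y a b hx hy hxy
  have hp := (Fact.out : p.Prime).two_le
  refine ⟨?_, ?_, ?_⟩
  · intro z
    have h := vE_HHconst hRing hx hy hxy (m := p - 1) (by omega)
    unfold EE
    rw [h z 0, h (z - a) 0, h (z - b) 0, h (z - a - b) 0]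
    ring
  · intro z
    have h := vE_HHconst hRing hx hy hxy (m := p - 2) (by omega)
    unfold EE
    rw [h z 0, h (z - a) 0, h (z - b) 0, h (z - a - b) 0]
    ring
  · intro m
    unfold EE
    have e : ∀ c : ZMod p, ∑ z, HH x y m (z - c) = ∑ z, HH x y m z := fun c =>
      Equiv.sum_comp (Equiv.subRight c) fun z => HH x y m z
    have e2 : ∑ z, HH x y m (z - a - b) = ∑ z, HH x y m z := by
      rw [← e (a + b)]
      refine sum_congr rfl fun z _ => ?_
      congr 1
      ring
    rw [sum_add_distrib, sum_sub_distrib, sum_sub_distrib, e, e, e2]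
    ring

end Pool.Agent.Helper10.W1
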