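import Pool.Agent.Helper10.W1.StA

set_option autoImplicit false

namespace Pool.Agent.Helper10.W1

open Finset
open scoped Pointwise

theorem thShapeA (hAlt : stAlt) (hCard : stCardSym) : stShapeA := by
  classical
  intro p _ A r h3 hS hr h0 hne hre
  have hpp : p.Prime := Fact.out
  have hodd : p % 2 = 1 := by
    rcases hpp.eq_two_or_odd with h | h
    · omega
    · exact h
  obtain ⟨P, hP⟩ : ∃ P, p = 2 * P + 1 := ⟨p / 2, by omega⟩
  set N : Finset ℕ := (range p).filter (fun n : ℕ => 2 * n < p ∧ (n : ZMod p) * r ∈ A) with hN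
  have hNm : ∀ n : ℕ, 2 * n < p → (n ∈ N ↔ (n : ZMod p) * r ∈ A) := by
    intro n hn
    rw [hN, mem_filter, mem_range]
    constructor
    · exact fun h => h.2.2
    · exact fun h => ⟨by omega, hn, h⟩
  have hNne : N.Nonempty := by
    obtain ⟨z, hz⟩ := hne
    set m : ℕ := (z / r).val with hm
    have hmp : m < p := ZMod.val_lt _
    have hmr : (m : ZMod p) * r = z := by
      rw [hm, ZMod.natCast_zmod_val, div_mul_cancel₀ z hr]
    by_cases h : 2 * m < p
    · exact ⟨m, (hNm m h).2 (by rw [hmr]; exact hz)⟩
    · refine ⟨p - m, (hNm (p - m) (by omega)).2 ?_⟩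
      have h5 : ((p - m : ℕ) : ZMod p) * r = -z := by
        rw [Nat.cast_sub hmp.le, ZMod.natCast_self, zero_sub, neg_mul, hmr]
      rw [h5]
      exact hS z hz
  set s : ℕ := N.min' hNne with hs
  set t : ℕ := N.max' hNne with ht
  have hsN : s ∈ N := N.min'_mem hNne
  have htN : t ∈ N := N.max'_mem hNne
  have htp : 2 * t < p := (mem_filter.1 htN).2.1
  have htA : (t : ZMod p) * r ∈ A := (mem_filter.1 htN).2.2
  have hsp : 2 * s < p := (mem_filter.1 hsN).2.1
  have hsA : (s : ZMod p) * r ∈ A := (mem_filter.1 hsN).2.2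
  have hst : s ≤ t := N.min'_le t htN
  have h0A : ((0 : ℕ) : ZMod p) * r ∉ A := by
    rw [Nat.cast_zero, zero_mul]
    exact h0
  have hs1 : 1 ≤ s := by
    rcases Nat.eq_zero_or_pos s with h | h
    · exfalso
      rw [h] at hsA
      exact h0A hsA
    · exact h
  have hform : ∀ n : ℕ, 2 * n < p → ((n : ZMod p) * r ∈ A ↔ s ≤ n ∧ n ≤ t) := by
    intro n hn
    constructor
    · intro h
      have h4 := (hNm n hn).2 h
      exact ⟨N.min'_le n h4, N.le_max' n h4⟩
    · rintro ⟨h4, h5⟩
      by_contra h
      have h6 : n ≠ s := by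
        intro h7
        exact h (h7 ▸ hsA)
      have h7 : n ≠ t := by
        intro h8
        exact h (h8 ▸ htA)
      have h8 := hAlt p A r 0 s n t hS hr (by omega) (by omega) (by omega) htp
        (by
          constructor
          · exact fun h => absurd h h0A
          · exact fun h => absurd hsA h)
        (by
          constructor
          · exact fun _ => h
          · exact fun _ => hsA)
        (by
          constructor
          · exact fun h' => absurd h' h
          · exact fun h' => absurd htA h')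
      omega
  refine ⟨s, t, hs1, hst, htp, hform, ?_⟩
  have hc := hCard p A r h3 hS hr
  rw [if_neg h0] at hc
  have hset : (range ((p + 1) / 2)).filter (fun n : ℕ => 1 ≤ n ∧ (n : ZMod p) * r ∈ A) =
      Icc s t := by
    ext n
    rw [mem_filter, mem_range, mem_Icc]
    constructor
    · rintro ⟨h4, h5, h6⟩
      exact (hform n (by omega)).1 h6
    · rintro ⟨h4, h5⟩
      have h6 : 2 * n < p := by omega
      exact ⟨by omega, by omega, (hform n h6).2 ⟨h4, h5⟩⟩
  rw [hset, Nat.card_Icc] at hc
  omega

end Pool.Agent.Helper10.W1
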