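import Pool.Agent.Helper10.W1.StA

set_option autoImplicit false

namespace Pool.Agent.Helper10.W1

open Finset
open scoped Pointwise

theorem thShapeS (hAlt : stAlt) (hCard : stCardSym) : stShapeS := by
  classical
  intro p _ S r h3 hS hr h0 hne hre
  have hpp : p.Prime := Fact.out
  have hodd : p % 2 = 1 := by
    rcases hpp.eq_two_or_odd with h | h
    · omega
    · exact h
  obtain ⟨P, hP⟩ : ∃ P, p = 2 * P + 1 := ⟨p / 2, by omega⟩
  set N : Finset ℕ := (range p).filter (fun n : ℕ => 2 * n < p ∧ (n : ZMod p) * r ∉ S) with hN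
  have hNm : ∀ n : ℕ, 2 * n < p → (n ∈ N ↔ (n : ZMod p) * r ∉ S) := by
    intro n hn
    rw [hN, mem_filter, mem_range]
    constructor
    · exact fun h => h.2.2
    · exact fun h => ⟨by omega, hn, h⟩
  have hNne : N.Nonempty := by
    obtain ⟨z, hz⟩ : ∃ z, z ∉ S := by
      by_contra h
      push Not at h
      exact hne (eq_univ_iff_forall.2 h)
    set m : ℕ := (z / r).val with hm
    have hmp : m < p := ZMod.val_lt _
    have hmr : (m : ZMod p) * r = z := by
      rw [hm, ZMod.natCast_zmod_val, div_mul_cancel₀ z hr]
    by_cases h : 2 * m < p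
    · exact ⟨m, (hNm m h).2 (by rw [hmr]; exact hz)⟩
    · refine ⟨p - m, (hNm (p - m) (by omega)).2 ?_⟩
      intro h4
      apply hz
      have h5 : ((p - m : ℕ) : ZMod p) * r = -z := by
        rw [Nat.cast_sub hmp.le, ZMod.natCast_self, zero_sub, neg_mul, hmr]
      rw [h5] at h4
      have := hS _ h4
      rwa [neg_neg] at this
  set n0 : ℕ := N.min' hNne with hn0
  set k : ℕ := N.max' hNne with hk
  have hn0N : n0 ∈ N := N.min'_mem hNne
  have hkN : k ∈ N := N.max'_mem hNne
  have hkp : 2 * k < p := (mem_filter.1 hkN).2.1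
  have hkS : (k : ZMod p) * r ∉ S := (mem_filter.1 hkN).2.2
  have hn0p : 2 * n0 < p := (mem_filter.1 hn0N).2.1
  have hn0S : (n0 : ZMod p) * r ∉ S := (mem_filter.1 hn0N).2.2
  have hn0k : n0 ≤ k := N.min'_le k hkN
  have hn01 : 1 ≤ n0 := by
    rcases Nat.eq_zero_or_pos n0 with h | h
    · exfalso
      apply hn0S
      rw [h, Nat.cast_zero, zero_mul]
      exact h0
    · exact h
  have hform : ∀ n : ℕ, 2 * n < p → ((n : ZMod p) * r ∈ S ↔ n ≤ n0 - 1 ∨ k < n) := by
    intro n hn
    constructor
    · intro h
      by_contra hcon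
      push Not at hcon
      have h4 : n ≠ n0 := by
        intro h5
        exact hn0S (h5 ▸ h)
      have h5 : n ≠ k := by
        intro h5
        exact hkS (h5 ▸ h)
      have h6 := hAlt p S r 0 n0 n k hS hr (by omega) (by omega) (by omega) hkp
        (by
          constructor
          · exact fun _ => hn0S
          · intro _
            rw [Nat.cast_zero, zero_mul]
            exact h0)
        (by
          constructor
          · exact fun h => absurd h hn0S
          · exact fun h' => absurd h h')
        (by
          constructor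
          · exact fun _ => hkS
          · exact fun _ => h)
      omega
    · intro h
      by_contra hcon
      have h4 := (hNm n hn).2 hcon
      have h5 := N.min'_le n h4
      have h6 := N.le_max' n h4
      rcases h with h | h <;> omega
  refine ⟨n0 - 1, k, by omega, hkp, hform, ?_⟩
  have hc := hCard p S r h3 hS hr
  rw [if_pos h0] at hc
  have hset : (range ((p + 1) / 2)).filter (fun n : ℕ => 1 ≤ n ∧ (n : ZMod p) * r ∈ S) =
      Icc 1 (n0 - 1) ∪ Icc (k + 1) P := by
    ext n
    rw [mem_filter, mem_range, mem_union, mem_Icc, mem_Icc]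
    constructor
    · rintro ⟨h4, h5, h6⟩
      have h7 := (hform n (by omega)).1 h6
      omega
    · intro h4
      have h5 : 2 * n < p := by omega
      exact ⟨by omega, by omega, (hform n h5).2 (by omega)⟩
  rw [hset, card_union_of_disjoint, Nat.card_Icc, Nat.card_Icc] at hc
  · omega
  · rw [disjoint_left]
    intro n h4 h5
    rw [mem_Icc] at h4 h5
    omega

end Pool.Agent.Helper10.W1
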