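import Pool.Agent.Helper10.W1.StA

set_option autoImplicit false

/-!
# Near multiples of `q`: module SHIFT
-/

namespace Pool.Agent.Helper10.W1

open Finset
open scoped Pointwise

private lemma idx_inj {p : ℕ} [Fact p.Prime] {d e : ZMod p} (hd : d ≠ 0) {i j : ℕ} (hi : i < p)
    (hj : j < p) (h : e - (i : ZMod p) * d = e - (j : ZMod p) * d) : i = j := by
  have h1 : (i : ZMod p) * d = (j : ZMod p) * d := by
    have := congrArg (fun z => e - z) h
    simpa using this
  have h2 := mul_right_cancel₀ hd h1
  have h3 := (ZMod.natCast_eq_natCast_iff' i j p).1 h2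
  rwa [Nat.mod_eq_of_lt hi, Nat.mod_eq_of_lt hj] at h3

private lemma three {p : ℕ} [Fact p.Prime] (J : Finset (ZMod p)) (d e τ : ZMod p) (hd : d ≠ 0)
    (a : ℕ) (ha : a + 2 < p)
    (h : ∀ i < 3, e - ((a + i : ℕ) : ZMod p) * d ∈ J ∧ e - ((a + i : ℕ) : ZMod p) * d + τ ∉ J) :
    3 ≤ (re τ J).card := by
  have h1 : ((range 3).image fun i : ℕ => e - ((a + i : ℕ) : ZMod p) * d) ⊆ re τ J := by
    intro z hz
    rw [Finset.mem_image] at hz
    obtain ⟨i, hi, rfl⟩ := hz
    rw [Finset.mem_range] at hi
    unfold re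
    rw [Finset.mem_filter]
    exact h i hi
  have h2 : ((range 3).image fun i : ℕ => e - ((a + i : ℕ) : ZMod p) * d).card = 3 := by
    rw [Finset.card_image_of_injOn, Finset.card_range]
    intro i hi j hj hij
    rw [Finset.mem_coe, Finset.mem_range] at hi hj
    have := idx_inj hd (i := a + i) (j := a + j) (by omega) (by omega) hij
    omega
  rw [← h2]
  exact Finset.card_le_card h1

private lemma core {p : ℕ} [Fact p.Prime] (J : Finset (ZMod p)) (d e : ZMod p) (hd : d ≠ 0)
    (hmem : ∀ j < p, (e - (j : ZMod p) * d ∈ J ↔ j < J.card)) (hn : J.card + 3 ≤ p) (t : ℕ)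
    (ht : 3 ≤ t) (htn : t ≤ J.card) : 3 ≤ (re ((t : ZMod p) * d) J).card := by
  apply three J d e _ hd (t - 3) (by omega)
  intro i hi
  constructor
  · rw [hmem _ (by omega)]
    omega
  · have h1 : e - ((t - 3 + i : ℕ) : ZMod p) * d + (t : ZMod p) * d =
        e - ((p - 3 + i : ℕ) : ZMod p) * d := by
      have h2 : ((p - 3 + i : ℕ) : ZMod p) = ((t - 3 + i : ℕ) : ZMod p) - (t : ZMod p) := by
        rw [eq_sub_iff_add_eq, ← Nat.cast_add, ZMod.natCast_eq_natCast_iff']
        rw [show p - 3 + i + t = t - 3 + i + p by omega, Nat.add_mod_right]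
      rw [h2]
      ring
    rw [h1, hmem _ (by omega)]
    omega

theorem thShift (hArc : stArc) (hEnds : stEnds) (hPair : stPair) : stShift := by
  intro p hp J d τ hd hre hJ3 hJp hτ
  have hne : J.Nonempty := Finset.card_pos.1 (by omega)
  have huniv : J ≠ univ := by
    intro h
    rw [h, Finset.card_univ, ZMod.card] at hJp
    omega
  obtain ⟨e, he⟩ := (hEnds p J J J d).1 hd hne huniv
  have heJ : e ∈ J := (Finset.mem_filter.1 he).1
  have hJ := hArc p J d e hd huniv heJ (fun z hz => Finset.card_le_one.1 hre z hz e he)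
  have hmem : ∀ j < p, (e - (j : ZMod p) * d ∈ J ↔ j < J.card) := by
    intro j hj
    constructor
    · intro h
      rw [hJ, Finset.mem_image] at h
      obtain ⟨i, hi, hij⟩ := h
      rw [Finset.mem_range] at hi
      have := idx_inj hd (by omega) hj hij
      omega
    · intro h
      rw [hJ, Finset.mem_image]
      exact ⟨j, Finset.mem_range.2 h, rfl⟩
  by_contra hcon
  push Not at hcon
  obtain ⟨c0, c1, c2, c3, c4⟩ := hcon
  set t := (τ / d).val with ht
  have htp : t < p := ZMod.val_lt _
  have hτt : τ = (t : ZMod p) * d := by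
    rw [ht, ZMod.natCast_zmod_val, div_mul_cancel₀ _ hd]
  have hnegt : -τ = ((p - t : ℕ) : ZMod p) * d := by
    rw [hτt, Nat.cast_sub htp.le, ZMod.natCast_self]
    ring
  have ht3 : 3 ≤ t := by
    by_contra hlt
    have : t = 0 ∨ t = 1 ∨ t = 2 := by omega
    rcases this with h | h | h
    · apply c0; rw [hτt, h]; simp
    · apply c1; rw [hτt, h]; simp
    · apply c3; rw [hτt, h]; simp
  have htp3 : t + 3 ≤ p := by
    by_contra hlt
    have : p - t = 1 ∨ p - t = 2 := by omega
    rcases this with h | h
    · apply c2; rw [← neg_neg τ, hnegt, h]; simp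
    · apply c4; rw [← neg_neg τ, hnegt, h]; simp
  by_cases h1 : t ≤ J.card
  · have := core J d e hd hmem hJp t ht3 h1
    rw [← hτt] at this
    omega
  · by_cases h2 : p - t ≤ J.card
    · have := core J d e hd hmem hJp (p - t) (by omega) h2
      rw [← hnegt, (hPair p J τ).2.2] at this
      omega
    · have : 3 ≤ (re τ J).card := by
        apply three J d e _ hd 0 (by omega)
        intro i hi
        constructor
        · rw [hmem _ (by omega)]
          omega
        · have h3 : e - ((0 + i : ℕ) : ZMod p) * d + τ = e - ((p - t + i : ℕ) : ZMod p) * d := by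
            rw [hτt, Nat.cast_add (p - t) i, Nat.cast_sub htp.le, ZMod.natCast_self]
            push_cast
            ring
          rw [h3, hmem _ (by omega)]
          omega
      omega

end Pool.Agent.Helper10.W1
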