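import Pool.Agent.Helper10.W1.StD

set_option autoImplicit false

/-!
# Near multiples of `q`: module SMALLP
-/

namespace Pool.Agent.Helper10.W1

open Finset
open scoped Pointwise

namespace SmallP

theorem HH_scale {p : ℕ} [Fact p.Prime] (c x y : ZMod p) (hc : c ≠ 0) (m : ℕ) (z : ZMod p) :
    HH (c * x) (c * y) m (c * z) = HH x y m z := by
  unfold HH
  refine Finset.sum_congr rfl (fun i _ => Finset.sum_congr rfl (fun j _ => ?_))
  have h : ((i : ZMod p) * (c * x) + (j : ZMod p) * (c * y) = c * z) ↔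
      ((i : ZMod p) * x + (j : ZMod p) * y = z) := by
    constructor
    · intro h
      apply mul_left_cancel₀ hc
      rw [← h]; ring
    · intro h
      rw [← h]; ring
  simp only [h]

theorem EE_scale {p : ℕ} [Fact p.Prime] (c x y a b : ZMod p) (hc : c ≠ 0) (m : ℕ) (z : ZMod p) :
    EE (c * x) (c * y) (c * a) (c * b) m (c * z) = EE x y a b m z := by
  unfold EE
  have e1 : c * z - c * a = c * (z - a) := by ring
  have e2 : c * z - c * b = c * (z - b) := by ring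
  have e3 : c * (z - a) - c * b = c * (z - a - b) := by ring
  rw [e1, e2, e3, HH_scale c x y hc, HH_scale c x y hc, HH_scale c x y hc, HH_scale c x y hc]

/-- reduction to `x = 1` -/
theorem red {p : ℕ} [Fact p.Prime]
    (h : ∀ y a b : ZMod p, y ≠ 0 → y ≠ 1 → a ≠ 0 → b ≠ 0 →
      ∃ m : Fin p, ∃ z : ZMod p, 2 ≤ |EE 1 y a b m z|) (x y a b : ZMod p) (hx : x ≠ 0)
    (hy : y ≠ 0) (hxy : x ≠ y) (ha : a ≠ 0) (hb : b ≠ 0) :
    ∃ (m : ℕ) (z : ZMod p), m < p ∧ 2 ≤ |EE x y a b m z| := by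
  obtain ⟨m, z, hz⟩ := h (x⁻¹ * y) (x⁻¹ * a) (x⁻¹ * b) (mul_ne_zero (inv_ne_zero hx) hy)
    (fun hh => hxy (by
      have := congrArg (fun t => x * t) hh
      simp only [mul_one] at this
      rw [mul_inv_cancel_left₀ hx] at this
      exact this.symm))
    (mul_ne_zero (inv_ne_zero hx) ha) (mul_ne_zero (inv_ne_zero hx) hb)
  refine ⟨m, x * z, m.2, ?_⟩
  have e := EE_scale x 1 (x⁻¹ * y) (x⁻¹ * a) (x⁻¹ * b) hx m z
  rw [mul_one, mul_inv_cancel_left₀ hx, mul_inv_cancel_left₀ hx, mul_inv_cancel_left₀ hx] at e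
  rw [e]
  exact hz

theorem p3 : ∀ y a b : ZMod 3, y ≠ 0 → y ≠ 1 → a ≠ 0 → b ≠ 0 →
      ∃ m : Fin 3, ∃ z : ZMod 3, 2 ≤ |EE 1 y a b m z| := by
  decide +kernel

theorem p5 : ∀ y a b : ZMod 5, y ≠ 0 → y ≠ 1 → a ≠ 0 → b ≠ 0 →
      ∃ m : Fin 5, ∃ z : ZMod 5, 2 ≤ |EE 1 y a b m z| := by
  decide +kernel

theorem p7 : ∀ y a b : ZMod 7, y ≠ 0 → y ≠ 1 → a ≠ 0 → b ≠ 0 →
      ∃ m : Fin 7, ∃ z : ZMod 7, 2 ≤ |EE 1 y a b m z| := by
  decide +kernel

end SmallP

theorem thSmallP : stSmallP := by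
  intro p hp x y a b hx hy hxy ha hb
  rcases hp with rfl | rfl | rfl
  · haveI : Fact (Nat.Prime 3) := ⟨by norm_num⟩
    exact SmallP.red SmallP.p3 x y a b hx hy hxy ha hb
  · haveI : Fact (Nat.Prime 5) := ⟨by norm_num⟩
    exact SmallP.red SmallP.p5 x y a b hx hy hxy ha hb
  · haveI : Fact (Nat.Prime 7) := ⟨by norm_num⟩
    exact SmallP.red SmallP.p7 x y a b hx hy hxy ha hb

end Pool.Agent.Helper10.W1
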