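import Pool.Agent.Helper10.W1.StA
import Pool.Agent.Helper10.W1.StB

/-! Project W1, module Trio -/

set_option autoImplicit false

namespace Pool.Agent.Helper10.W1

open Finset
open scoped Pointwise

theorem Trio_comm {p : ℕ} (c d : ZMod p) (u : ZMod p → ℤ) (z : ZMod p) :
    sg c (sg d u) z = sg d (sg c u) z := by
  unfold sg
  rw [show z - c - d = z - d - c by ring, show z - c + d = z + d - c by ring,
    show z + c - d = z - d + c by ring, show z + c + d = z + d + c by ring]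
  ring

theorem Trio_rot {p : ℕ} {x1 x2 x3 a b : ZMod p} {ε : ℤ} {S1 S2 S3 : Finset (ZMod p)}
    (h : Tr p x1 x2 x3 a b ε S1 S2 S3) : Tr p x2 x3 x1 a b ε S2 S3 S1 where
  h1 := h.h2
  h2 := h.h3
  h3 := h.h1
  ha := h.ha
  hb := h.hb
  hx := by linear_combination h.hx
  hε := h.hε
  sym1 := h.sym2
  sym2 := h.sym3
  sym3 := h.sym1
  c1 := h.c2
  c2 := h.c3
  c3 := h.c1
  sum := by have := h.sum; omega
  free := by
    intro u hu v hv w hw h0
    exact h.free w hw u hu v hv (by linear_combination h0)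
  r1 := h.r2
  r2 := h.r3
  r3 := h.r1

theorem Trio_swap {p : ℕ} {x1 x2 x3 a b : ZMod p} {ε : ℤ} {S1 S2 S3 : Finset (ZMod p)}
    (h : Tr p x1 x2 x3 a b ε S1 S2 S3) : Tr p x2 x1 x3 a b ε S2 S1 S3 where
  h1 := h.h2
  h2 := h.h1
  h3 := h.h3
  ha := h.ha
  hb := h.hb
  hx := by linear_combination h.hx
  hε := h.hε
  sym1 := h.sym2
  sym2 := h.sym1
  sym3 := h.sym3
  c1 := h.c2
  c2 := h.c1
  c3 := h.c3
  sum := by have := h.sum; omega
  free := by
    intro u hu v hv w hw h0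
    exact h.free v hv u hu w hw (by linear_combination h0)
  r1 := fun z => by rw [Trio_comm]; exact h.r2 z
  r2 := fun z => by rw [Trio_comm]; exact h.r1 z
  r3 := fun z => by rw [Trio_comm]; exact h.r3 z

theorem Trio_main (hCaseOne : stCaseOne) (hCaseTwo : stCaseTwo) (hK : stK) (hCard : stCardSym)
    {p : ℕ} [Fact p.Prime] {x1 x2 x3 a b : ZMod p} {ε : ℤ} {S1 S2 S3 : Finset (ZMod p)}
    (hp : 11 ≤ p) (h : Tr p x1 x2 x3 a b ε S1 S2 S3) (h1 : (0 : ZMod p) ∉ S1)
    (h2 : (0 : ZMod p) ∉ S2) (h3 : (0 : ZMod p) ∈ S3) : False := by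
  by_cases d1 : Disjoint S1 S3
  · exact hCaseOne p x1 x2 x3 a b ε S1 S2 S3 hp h h1 h2 h3 d1
  by_cases d2 : Disjoint S2 S3
  · exact hCaseOne p x2 x1 x3 a b ε S2 S1 S3 hp (Trio_swap h) h2 h1 h3 d2
  by_cases e1 : S1.card = 2
  · exact hCaseTwo p x1 x2 x3 a b ε S1 S2 S3 hp h h1 h2 h3 d1 e1
  by_cases e2 : S2.card = 2
  · exact hCaseTwo p x2 x1 x3 a b ε S2 S1 S3 hp (Trio_swap h) h2 h1 h3 d2 e2
  have k1 := hCard p S1 1 (by omega) h.sym1 one_ne_zero
  have k2 := hCard p S2 1 (by omega) h.sym2 one_ne_zero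
  rw [if_neg h1] at k1
  rw [if_neg h2] at k2
  have c1 := h.c1
  have c2 := h.c2
  rw [not_disjoint_iff] at d1 d2
  exact hK p S1 S2 S3 (by omega)
    ⟨h.sym1, h.sym2, h.sym3, h1, h2, h3, by omega, by omega, h.sum, h.free, d1, d2⟩

theorem thTrio (hCaseOne : stCaseOne) (hCaseTwo : stCaseTwo) (hK : stK) (hCard : stCardSym) :
    stTrio := by
  intro p _ x1 x2 x3 a b ε S1 S2 S3 hp h
  have hpo : p % 2 = 1 := by
    rcases (Fact.out : p.Prime).eq_two_or_odd with h | h <;> omega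
  have k1 := hCard p S1 1 (by omega) h.sym1 one_ne_zero
  have k2 := hCard p S2 1 (by omega) h.sym2 one_ne_zero
  have k3 := hCard p S3 1 (by omega) h.sym3 one_ne_zero
  have hs := h.sum
  have main := @Trio_main hCaseOne hCaseTwo hK hCard p _
  by_cases h1 : (0 : ZMod p) ∈ S1
  · by_cases h2 : (0 : ZMod p) ∈ S2
    · by_cases h3 : (0 : ZMod p) ∈ S3
      · exact h.free 0 h1 0 h2 0 h3 (by ring)
      · rw [if_pos h1] at k1
        rw [if_pos h2] at k2
        rw [if_neg h3] at k3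
        omega
    · by_cases h3 : (0 : ZMod p) ∈ S3
      · rw [if_pos h1] at k1
        rw [if_neg h2] at k2
        rw [if_pos h3] at k3
        omega
      · exact main hp (Trio_rot h) h2 h3 h1
  · by_cases h2 : (0 : ZMod p) ∈ S2
    · by_cases h3 : (0 : ZMod p) ∈ S3
      · rw [if_neg h1] at k1
        rw [if_pos h2] at k2
        rw [if_pos h3] at k3
        omega
      · exact main hp (Trio_rot (Trio_rot h)) h3 h1 h2
    · by_cases h3 : (0 : ZMod p) ∈ S3
      · exact main hp h h1 h2 h3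
      · rw [if_neg h1] at k1
        rw [if_neg h2] at k2
        rw [if_neg h3] at k3
        omega

end Pool.Agent.Helper10.W1
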