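import Pool.Agent.Helper10.W1.StA

set_option autoImplicit false

/-!
# Near multiples of `q`: module TWOINT
-/

namespace Pool.Agent.Helper10.W1

theorem thTwoInt : stTwoInt := by
  intro p i k s t s' t' hp hik hk hs hst ht hts' hst' ht' hcard h1 h2 h3
  have a1 := h1 t s' hst.le le_rfl le_rfl hst'.le
  have a2 := h1 s t' le_rfl hst.le hst'.le le_rfl
  have a3 := h2 t t' hst.le le_rfl hst'.le le_rfl
  have a4 := h3 s s' le_rfl hst.le le_rfl hst'.le
  by_cases hA : 2 * (t + t') < p
  · have := a3 hA
    omega
  · by_cases hB : p < 2 * (s + s')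
    · have := a4 hB
      omega
    · by_cases hC : (p - 1) / 2 ≤ s + t'
      · have a5 := h2 s ((p - 1) / 2 - s) le_rfl hst.le (by omega) (by omega) (by omega)
        omega
      · have a5 := h2 ((p - 1) / 2 - t') t' (by omega) (by omega) hst'.le le_rfl (by omega)
        omega

end Pool.Agent.Helper10.W1
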