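import Pool.Agent.Helper10.W1.StA

set_option autoImplicit false

/-!
# Near multiples of `q`: module UTWOA
-/

namespace Pool.Agent.Helper10.W1

open Finset
open scoped Pointwise

private theorem neg_iff_U2a {p : ℕ} {S : Finset (ZMod p)} (hS : Sym S) (z : ZMod p) :
    -z ∈ S ↔ z ∈ S := by
  constructor
  · intro h
    have := hS _ h
    rwa [neg_neg] at this
  · intro h
    exact hS _ h

private theorem pos_nbr_U2a {p : ℕ} [Fact p.Prime] {S : Finset (ZMod p)} {r : ZMod p} {i k : ℕ}
    (hS : Sym S) (hodd : p % 2 = 1) (hp5 : 5 < p)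
    (hsh : ∀ n : ℕ, 2 * n < p → ((n : ZMod p) * r ∈ S ↔ n ≤ i ∨ k < n)) (hi : 1 ≤ i)
    (n : ℕ) (hn : 2 * n < p) (hz : (n : ZMod p) * r ∈ S) :
    (n : ZMod p) * r + r ∈ S ∨ (n : ZMod p) * r - r ∈ S := by
  rcases (hsh n hn).1 hz with h | h
  · rcases Nat.eq_zero_or_pos n with h0 | h0
    · left
      subst h0
      have := (hsh 1 (by omega)).2 (Or.inl hi)
      simpa using this
    · right
      obtain ⟨m, rfl⟩ : ∃ m, n = m + 1 := ⟨n - 1, by omega⟩
      have := (hsh m (by omega)).2 (Or.inl (by omega))
      have he : ((m + 1 : ℕ) : ZMod p) * r - r = (m : ZMod p) * r := by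
        push_cast
        ring
      rw [he]
      exact this
  · left
    by_cases h2 : 2 * (n + 1) < p
    · have := (hsh (n + 1) h2).2 (Or.inr (by omega))
      have he : ((n + 1 : ℕ) : ZMod p) * r = (n : ZMod p) * r + r := by
        push_cast
        ring
      rw [← he]
      exact this
    · have h3 : 2 * n + 1 = p := by omega
      have h4 : ((2 * n + 1 : ℕ) : ZMod p) = 0 := by
        rw [h3]
        simp
      have h5 : (2 * (n : ZMod p) + 1) = 0 := by
        have := h4
        push_cast at this
        exact this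
      have he : (n : ZMod p) * r + r = -((n : ZMod p) * r) := by
        have h6 : (2 * (n : ZMod p) + 1) * r = 0 := by rw [h5, zero_mul]
        have h7 : (n : ZMod p) * r + r + (n : ZMod p) * r = 0 := by
          rw [← h6]
          ring
        exact eq_neg_of_add_eq_zero_left h7
      rw [he]
      exact hS _ hz

private theorem nbr_U2a {p : ℕ} [Fact p.Prime] {S : Finset (ZMod p)} {r : ZMod p} {i k : ℕ}
    (hS : Sym S) (hodd : p % 2 = 1) (hp5 : 5 < p) (hr : r ≠ 0)
    (hsh : ∀ n : ℕ, 2 * n < p → ((n : ZMod p) * r ∈ S ↔ n ≤ i ∨ k < n)) (hi : 1 ≤ i)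
    (z : ZMod p) (hz : z ∈ S) : z + r ∈ S ∨ z - r ∈ S := by
  have hval : (((z / r).val : ℕ) : ZMod p) * r = z := by
    rw [ZMod.natCast_zmod_val]
    field_simp
  have hlt : (z / r).val < p := ZMod.val_lt _
  by_cases h : 2 * (z / r).val < p
  · have := pos_nbr_U2a hS hodd hp5 hsh hi (z / r).val h (by rw [hval]; exact hz)
    rw [hval] at this
    exact this
  · have h1 : ((p - (z / r).val : ℕ) : ZMod p) * r = -z := by
      rw [Nat.cast_sub hlt.le]
      rw [sub_mul, hval]
      simp
    have := pos_nbr_U2a hS hodd hp5 hsh hi (p - (z / r).val) (by omega)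
      (by rw [h1]; exact hS _ hz)
    rw [h1] at this
    rcases this with h2 | h2
    · right
      have := hS _ h2
      have he : -(-z + r) = z - r := by ring
      rwa [he] at this
    · left
      have := hS _ h2
      have he : -(-z - r) = z + r := by ring
      rwa [he] at this

private theorem mem_pair_U2a {p : ℕ} {Y : Finset (ZMod p)} {r z : ZMod p} :
    z ∈ Y + {0, r} ↔ z ∈ Y ∨ ∃ s ∈ Y, z = s + r := by
  rw [mem_add]
  constructor
  · rintro ⟨y, hy, w, hw, rfl⟩
    rw [mem_insert, mem_singleton] at hw
    rcases hw with rfl | rfl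
    · left
      simpa using hy
    · right
      exact ⟨y, hy, rfl⟩
  · rintro (h | ⟨s, hs, rfl⟩)
    · exact ⟨z, h, 0, by simp, by simp⟩
    · exact ⟨s, hs, r, by simp, rfl⟩

private theorem card_le_one_U2a {p : ℕ} {Y : Finset (ZMod p)} {e : ZMod p} (h : ∀ z ∈ Y, z = e) :
    Y.card ≤ 1 := by
  rw [card_le_one]
  intro a ha b hb
  rw [h a ha, h b hb]

theorem thU2a (hPair : stPair) (hEnds : stEnds) (hArc : stArc) (hGrow : stGrow) (hSkel : stSkel)
    (hFrag : stFrag) (hShift : stShift) : stU2a := by
  intro p _ A B S r i k hK hr hmin hre hik hk hsh hcard hi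
  have hpp : p.Prime := Fact.out
  have hp5 : 5 < p := by omega
  have hodd : p % 2 = 1 := by
    rcases hpp.eq_two_or_odd with h | h
    · omega
    · exact h
  obtain ⟨symA, symB, symS, zA, zB, zS, cA, cB, hsum, hfree, -, -⟩ := hK
  have hre2 : (re r S).card = 2 := le_antisymm hre (hmin r hr)
  have hS : S = sk r S + {0, r} := (hSkel p S r).1 (nbr_U2a symS hodd hp5 hr hsh hi)
  set S1 := sk r S with hS1
  have hS1c : S1.card + 2 = S.card := by
    have := (hPair p S r).2.1
    rw [hre2] at this
    exact this
  have hS5 : 5 ≤ S.card := by omega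
  have hS1ne : S1.Nonempty := by
    rw [← card_pos]
    omega
  have hAne : A.Nonempty := by
    rw [← card_pos]
    omega
  -- the sumset `A + S` misses `B`
  have hdisj : Disjoint (A + S) B := by
    rw [disjoint_left]
    intro b hb hbB
    rw [mem_add] at hb
    obtain ⟨a, ha, s, hs, hab⟩ := hb
    apply hfree a ha (-b) (symB b hbB) s hs
    rw [← hab]
    ring
  have hAS : (A + S).card + B.card ≤ p := by
    rw [← card_union_of_disjoint hdisj]
    have := card_le_univ ((A + S) ∪ B)
    rwa [ZMod.card] at this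
  have hg := hGrow p A S S1 r hAne hS1ne hS
  have hre3 : (re r A).card ≤ 3 := by
    rcases le_total p (A.card + (re r A).card + S1.card - 1) with h | h
    · rw [min_eq_left h] at hg
      omega
    · rw [min_eq_right h] at hg
      omega
  by_contra hcon
  have hre3' : (re r A).card = 3 := by omega
  have hX : (A + {0, r}).card = A.card + 3 := by
    have := (hPair p A r).1
    rw [hre3'] at this
    exact this
  have hXS : A + {0, r} + S1 = A + S := by
    conv_rhs => rw [hS]
    rw [add_assoc, add_comm {0, r} S1]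
  have hsymS1 : ∀ z ∈ S1, -r - z ∈ S1 := by
    intro z hz
    rw [hS1, sk, mem_filter] at hz ⊢
    constructor
    · have := symS _ hz.2
      have he : -(z + r) = -r - z := by ring
      rwa [he] at this
    · have := symS _ hz.1
      have he : -r - z + r = -z := by ring
      rwa [he]
  obtain ⟨ρ, hρ, hρ1⟩ := hFrag p S1 (A + {0, r}) (-r) 1 hS1ne hsymS1 (by omega)
    (by rw [hXS]; omega) (by rw [hXS]; omega)
  have hreS1 : (re r S1).card ≤ 2 := by
    rw [← hre2]
    apply card_le_card_of_injOn (fun z => z + r)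
    · intro z hz
      have hz' : z ∈ re r S1 := hz
      rw [re, mem_filter] at hz'
      obtain ⟨h1, h2⟩ := hz'
      rw [hS1, sk, mem_filter] at h1 h2
      show z + r ∈ re r S
      rw [re, mem_filter]
      refine ⟨h1.2, fun h3 => h2 ⟨h1.2, h3⟩⟩
    · intro a _ b _ hab
      exact add_right_cancel hab
  have hS1sub : ∀ z ∈ S1, z ∈ S := by
    intro z hz
    rw [hS1, sk, mem_filter] at hz
    exact hz.1
  have hS1add : ∀ z ∈ S1, z + r ∈ S := by
    intro z hz
    rw [hS1, sk, mem_filter] at hz
    exact hz.2
  have hSmem : ∀ z ∈ S, z ∈ S1 ∨ ∃ s ∈ S1, z = s + r := by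
    intro z hz
    rw [hS, mem_pair_U2a] at hz
    exact hz
  -- the case `#(re r S1) ≤ 1`
  have hone : (re r S1).card ≤ 1 → False := by
    intro h
    have : (re r S).card ≤ (re r S1).card := by
      apply card_le_card_of_injOn (fun z => z - r)
      · intro z hz
        have hz' : z ∈ re r S := hz
        rw [re, mem_filter] at hz'
        obtain ⟨h1, h2⟩ := hz'
        show z - r ∈ re r S1
        rcases hSmem z h1 with h3 | ⟨s, hs, h3⟩
        · exact absurd (hS1add z h3) h2
        · have he : z - r = s := by rw [h3]; ring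
          rw [he, re, mem_filter]
          refine ⟨hs, ?_⟩
          rw [← h3]
          intro h4
          exact h2 (hS1add z h4)
      · intro a _ b _ hab
        exact sub_left_injective hab
    omega
  -- the arithmetic progression
  have hS1univ : S1 ≠ univ := by
    intro h
    have := congrArg Finset.card h
    rw [card_univ, ZMod.card] at this
    omega
  obtain ⟨e, he⟩ := (hEnds p S1 S1 S1 ρ).1 hρ hS1ne hS1univ
  have heS1 : e ∈ S1 := by
    rw [re, mem_filter] at he
    exact he.1
  have hall : ∀ z ∈ re ρ S1, z = e := by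
    intro z hz
    exact (card_le_one.1 hρ1) z hz e he
  have hprog := hArc p S1 ρ e hρ hS1univ heS1 hall
  set n := S1.card with hn
  have hmemS1 : ∀ z, z ∈ S1 ↔ ∃ j : ℕ, j < n ∧ z = e - (j : ZMod p) * ρ := by
    intro z
    constructor
    · intro h
      rw [hprog, mem_image] at h
      obtain ⟨j, hj, h⟩ := h
      exact ⟨j, mem_range.1 hj, h.symm⟩
    · rintro ⟨j, hj, rfl⟩
      rw [hprog]
      exact mem_image.2 ⟨j, mem_range.2 hj, rfl⟩
  rcases hShift p S1 ρ r hρ hρ1 (by omega) (by omega) hreS1 with h | h | h | h | h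
  · exact hr h
  · exact hone (by rw [h]; exact hρ1)
  · exact hone (by rw [h, (hPair p S1 ρ).2.2]; exact hρ1)
  · -- `r = 2 ρ`
    have h1 : (re ρ S).card ≤ 1 := by
      apply card_le_one_U2a (e := e + 2 * ρ)
      intro z hz
      rw [re, mem_filter] at hz
      obtain ⟨hz1, hz2⟩ := hz
      rcases hSmem z hz1 with h3 | ⟨s, hs, h3⟩
      · exfalso
        obtain ⟨j, hj, hz3⟩ := (hmemS1 z).1 h3
        apply hz2
        rcases Nat.eq_zero_or_pos j with h0 | h0
        · have : z + ρ = (e - ((1 : ℕ) : ZMod p) * ρ) + r := by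
            rw [hz3, h0, h]
            push_cast
            ring
          rw [this]
          exact hS1add _ ((hmemS1 _).2 ⟨1, by omega, rfl⟩)
        · obtain ⟨m, rfl⟩ : ∃ m, j = m + 1 := ⟨j - 1, by omega⟩
          have : z + ρ = e - (m : ZMod p) * ρ := by
            rw [hz3]
            push_cast
            ring
          rw [this]
          exact hS1sub _ ((hmemS1 _).2 ⟨m, by omega, rfl⟩)
      · obtain ⟨j, hj, hz3⟩ := (hmemS1 s).1 hs
        rcases Nat.eq_zero_or_pos j with h0 | h0
        · rw [h3, hz3, h0, h]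
          push_cast
          ring
        · exfalso
          apply hz2
          obtain ⟨m, rfl⟩ : ∃ m, j = m + 1 := ⟨j - 1, by omega⟩
          have : z + ρ = (e - (m : ZMod p) * ρ) + r := by
            rw [h3, hz3]
            push_cast
            ring
          rw [this]
          exact hS1add _ ((hmemS1 _).2 ⟨m, by omega, rfl⟩)
    have := hmin ρ hρ
    omega
  · -- `r = - 2 ρ`
    have h1 : (re ρ S).card ≤ 1 := by
      apply card_le_one_U2a (e := e)
      intro z hz
      rw [re, mem_filter] at hz
      obtain ⟨hz1, hz2⟩ := hz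
      rcases hSmem z hz1 with h3 | ⟨s, hs, h3⟩
      · obtain ⟨j, hj, hz3⟩ := (hmemS1 z).1 h3
        rcases Nat.eq_zero_or_pos j with h0 | h0
        · rw [hz3, h0]
          push_cast
          ring
        · exfalso
          apply hz2
          obtain ⟨m, rfl⟩ : ∃ m, j = m + 1 := ⟨j - 1, by omega⟩
          have : z + ρ = e - (m : ZMod p) * ρ := by
            rw [hz3]
            push_cast
            ring
          rw [this]
          exact hS1sub _ ((hmemS1 _).2 ⟨m, by omega, rfl⟩)
      · exfalso
        obtain ⟨j, hj, hz3⟩ := (hmemS1 s).1 hs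
        apply hz2
        rcases Nat.eq_zero_or_pos j with h0 | h0
        · have : z + ρ = e - ((1 : ℕ) : ZMod p) * ρ := by
            rw [h3, hz3, h0, h]
            push_cast
            ring
          rw [this]
          exact hS1sub _ ((hmemS1 _).2 ⟨1, by omega, rfl⟩)
        · obtain ⟨m, rfl⟩ : ∃ m, j = m + 1 := ⟨j - 1, by omega⟩
          have : z + ρ = (e - (m : ZMod p) * ρ) + r := by
            rw [h3, hz3]
            push_cast
            ring
          rw [this]
          exact hS1add _ ((hmemS1 _).2 ⟨m, by omega, rfl⟩)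
    have := hmin ρ hρ
    omega

end Pool.Agent.Helper10.W1
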