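import Pool.Agent.Helper10.W1.StA

set_option autoImplicit false

/-!
# Module UTWOB
-/

namespace Pool.Agent.Helper10.W1

open Finset
open scoped Pointwise

theorem exists_nat_U2b {p : ℕ} [Fact p.Prime] (hodd : p % 2 = 1) {r : ZMod p} (hr : r ≠ 0)
    {z : ZMod p} (hz : z ≠ 0) :
    ∃ n : ℕ, 1 ≤ n ∧ 2 * n < p ∧ (z = (n : ZMod p) * r ∨ z = -((n : ZMod p) * r)) := by
  have hp : 0 < p := (Fact.out : p.Prime).pos
  set m := (z / r).val with hm
  have hmlt : m < p := ZMod.val_lt _
  have hzm : (m : ZMod p) * r = z := by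
    rw [hm, ZMod.natCast_zmod_val, div_mul_cancel₀ _ hr]
  have hm0 : m ≠ 0 := by
    intro h0
    rw [h0] at hzm
    apply hz
    rw [← hzm]
    simp
  rcases Nat.lt_or_ge (2 * m) p with h | h
  · exact ⟨m, by omega, h, Or.inl hzm.symm⟩
  · refine ⟨p - m, by omega, by omega, Or.inr ?_⟩
    rw [Nat.cast_sub hmlt.le, ZMod.natCast_self, ← hzm]
    ring

theorem sym_add_U2b {p : ℕ} {X Y : Finset (ZMod p)} (hX : Sym X) (hY : Sym Y) : Sym (X + Y) := by
  intro z hz
  rw [Finset.mem_add] at hz ⊢
  obtain ⟨x, hx, y, hy, rfl⟩ := hz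
  exact ⟨-x, hX x hx, -y, hY y hy, by ring⟩

theorem thU2b (hPair : stPair) (hEnds : stEnds) (hArc : stArc) (hGrow : stGrow) (hSkel : stSkel)
    (hFrag : stFrag) : stU2b := by
  have _ := hArc
  intro p hp A B S r k hK hr hmin hrS hk hkp hdesc hcard
  have hp' : p.Prime := hp.out
  have hcA := hK.cA
  have hcB := hK.cB
  have hsum := hK.sum
  have hodd : p % 2 = 1 := by
    rcases hp'.eq_two_or_odd with h | h
    · omega
    · exact h
  have hS0 : (0 : ZMod p) ∈ S := hK.zS
  have hSne : S.Nonempty := ⟨0, hS0⟩
  -- membership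
  have hmemS : ∀ n : ℕ, 2 * n < p → 0 < n → ((n : ZMod p) * r ∈ S ↔ k < n) := by
    intro n hn hn0
    rw [hdesc n hn]
    constructor
    · rintro (h | h)
      · omega
      · exact h
    · exact fun h => Or.inr h
  have hne0 : ∀ n : ℕ, 0 < n → n < p → (n : ZMod p) * r ≠ 0 := by
    intro n hn hnp h0
    rcases mul_eq_zero.1 h0 with h1 | h1
    · rw [ZMod.natCast_eq_zero_iff] at h1
      have := Nat.le_of_dvd hn h1
      omega
    · exact hr h1
  by_contra hcon
  have hA3 : 3 ≤ (re r A).card := by omega
  set T := S.erase 0 with hT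
  have hTcard : T.card + 1 = S.card := Finset.card_erase_add_one hS0
  have hTS : ∀ z, z ∈ T ↔ z ≠ 0 ∧ z ∈ S := fun z => Finset.mem_erase
  have hTsym : Sym T := by
    intro z hz
    rw [hTS] at hz ⊢
    exact ⟨neg_ne_zero.2 hz.1, hK.symS z hz.2⟩
  -- form of the elements of `T`
  have hTform : ∀ z ∈ T, ∃ n : ℕ, k < n ∧ 2 * n < p ∧
      (z = (n : ZMod p) * r ∨ z = -((n : ZMod p) * r)) := by
    intro z hz
    rw [hTS] at hz
    obtain ⟨n, hn1, hn2, hn3⟩ := exists_nat_U2b hodd hr hz.1
    refine ⟨n, ?_, hn2, hn3⟩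
    rw [← hmemS n hn2 hn1]
    rcases hn3 with h | h
    · rw [← h]; exact hz.2
    · have := hK.symS z hz.2
      rw [h, neg_neg] at this
      exact this
  by_cases hk3 : 2 * k + 3 = p
  · -- three points
    set ρ : ZMod p := ((k + 1 : ℕ) : ZMod p) * r with hρ
    have hρ0 : ρ ≠ 0 := hne0 (k + 1) (by omega) (by omega)
    have hρS : ρ ∈ S := (hmemS (k + 1) (by omega) (by omega)).2 (by omega)
    have h2 := hmin ρ hρ0
    have h3 : (re ρ S).card ≤ 1 := by
      rw [Finset.card_le_one]
      have key : ∀ z ∈ re ρ S, z = ρ := by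
        intro z hz
        unfold re at hz
        rw [mem_filter] at hz
        by_cases hz0 : z = 0
        · exfalso
          apply hz.2
          rw [hz0, zero_add]
          exact hρS
        · obtain ⟨n, hn1, hn2, hn3⟩ := hTform z ((hTS z).2 ⟨hz0, hz.1⟩)
          have hn : n = k + 1 := by omega
          rw [hn] at hn3
          rcases hn3 with h | h
          · exact h
          · exfalso
            apply hz.2
            rw [h, ← hρ, neg_add_cancel]
            exact hS0
      intro a ha b hb
      rw [key a ha, key b hb]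
    omega
  have hk5 : 2 * k + 5 ≤ p := by omega
  have hT4 : 4 ≤ T.card := by omega
  -- the right end points of `T`
  have hreT : ∀ z ∈ re r T, z = -(((k + 1 : ℕ) : ZMod p) * r) := by
    intro z hz
    unfold re at hz
    rw [mem_filter] at hz
    obtain ⟨n, hn1, hn2, hn3⟩ := hTform z hz.1
    rcases hn3 with h | h
    · exfalso
      apply hz.2
      rcases Nat.lt_or_ge (2 * (n + 1)) p with h4 | h4
      · rw [hTS]
        have e : z + r = ((n + 1 : ℕ) : ZMod p) * r := by
          rw [h]; push_cast; ring
        rw [e]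
        exact ⟨hne0 _ (by omega) (by omega), (hmemS _ h4 (by omega)).2 (by omega)⟩
      · have h5 : 2 * n + 1 = p := by omega
        have e : z + r = -z := by
          have h6 : ((2 * n + 1 : ℕ) : ZMod p) = 0 := by rw [h5]; exact ZMod.natCast_self p
          push_cast at h6
          rw [h]
          linear_combination r * h6
        rw [e]
        exact hTsym z hz.1
    · by_cases h4 : k < n - 1
      · exfalso
        apply hz.2
        rw [hTS]
        have e : z + r = -(((n - 1 : ℕ) : ZMod p) * r) := by
          rw [h, Nat.cast_sub (by omega)]; push_cast; ring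
        rw [e]
        exact ⟨neg_ne_zero.2 (hne0 _ (by omega) (by omega)),
          hK.symS _ ((hmemS _ (by omega) (by omega)).2 h4)⟩
      · have : n = k + 1 := by omega
        rw [h, this]
  have hreT1 : (re r T).card ≤ 1 := by
    rw [Finset.card_le_one]
    intro a ha b hb
    rw [hreT a ha, hreT b hb]
  have hTnu : T ≠ univ := by
    intro h
    have : (0 : ZMod p) ∈ T := by rw [h]; exact mem_univ _
    rw [hTS] at this
    exact this.1 rfl
  set T1 := sk r T with hT1
  have hTT1 : T = T1 + {0, r} := (hSkel p T r).2 hr hTnu (by omega) hreT1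
  have hT1card : T1.card + (re r T).card = T.card := (hPair p T r).2.1
  have hT1sub : T1 ⊆ T := Finset.filter_subset _ _
  have hT1nu : T1 ≠ univ := by
    intro h
    exact hTnu (Finset.eq_univ_of_forall fun z => hT1sub (by rw [h]; exact mem_univ z))
  have hreT1' : (re r T1).card ≤ 1 := by
    rw [Finset.card_le_one]
    have key : ∀ z ∈ re r T1, z + r = -(((k + 1 : ℕ) : ZMod p) * r) := by
      intro z hz
      unfold re at hz
      rw [mem_filter, hT1] at hz
      unfold sk at hz
      rw [mem_filter] at hz
      apply hreT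
      unfold re
      rw [mem_filter]
      refine ⟨hz.1.2, fun h => hz.2 ?_⟩
      rw [mem_filter]
      exact ⟨hz.1.2, h⟩
    intro a ha b hb
    exact add_right_cancel ((key a ha).trans (key b hb).symm)
  -- sumsets
  have hAne : A.Nonempty := Finset.card_pos.1 (by omega)
  have hBne : B.Nonempty := Finset.card_pos.1 (by omega)
  have hT1ne : T1.Nonempty := Finset.card_pos.1 (by omega)
  have hASB : Disjoint (A + S) B := by
    rw [Finset.disjoint_left]
    intro z hz hzB
    obtain ⟨a, ha, s, hs, rfl⟩ := Finset.mem_add.1 hz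
    exact hK.free a ha (-(a + s)) (hK.symB _ hzB) s hs (by ring)
  have hBSA : Disjoint (B + S) A := by
    rw [Finset.disjoint_left]
    intro z hz hzA
    obtain ⟨b, hb, s, hs, rfl⟩ := Finset.mem_add.1 hz
    exact hK.free (-(b + s)) (hK.symA _ hzA) b hb s hs (by ring)
  have hcardAS : (A + S).card + B.card ≤ p := by
    rw [← Finset.card_union_of_disjoint hASB]
    have := Finset.card_le_univ (A + S ∪ B)
    rwa [ZMod.card] at this
  have hcardBS : (B + S).card + A.card ≤ p := by
    rw [← Finset.card_union_of_disjoint hBSA]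
    have := Finset.card_le_univ (B + S ∪ A)
    rwa [ZMod.card] at this
  have hATsub : A + T ⊆ A + S := Finset.add_subset_add_left (Finset.erase_subset _ _)
  have hATle := Finset.card_le_card hATsub
  have hg1 := hGrow p A T T1 r hAne hT1ne hTT1
  have hg1' : A.card + (re r A).card + T1.card - 1 ≤ (A + T).card := by
    rcases min_le_iff.1 hg1 with h | h
    · omega
    · exact h
  have hATeq : A + T = A + S := Finset.eq_of_subset_of_card_le hATsub (by omega)
  have hATc : (A + T).card = (A + S).card := by rw [hATeq]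
  have hcAS : (A + S).card = A.card + S.card := by omega
  have hreA : (re r A).card = 3 := by omega
  have hT1c : T1.card + 1 = T.card := by omega
  set X := A + {0, r} with hX
  have hXcard : X.card = A.card + (re r A).card := (hPair p A r).1
  have hXT1 : X + T1 = A + S := by
    rw [← hATeq, hX, hTT1, add_assoc, add_comm ({0, r} : Finset (ZMod p)) T1]
  have hXT1c : (X + T1).card = A.card + S.card := by rw [hXT1, hcAS]
  have hXne : X.Nonempty := Finset.card_pos.1 (by omega)
  set T2 := sk r T1 with hT2
  have hT1T2 : T1 = T2 + {0, r} := (hSkel p T1 r).2 hr hT1nu (by omega) hreT1'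
  have hT2card : T2.card + (re r T1).card = T1.card := (hPair p T1 r).2.1
  have hT2ne : T2.Nonempty := Finset.card_pos.1 (by omega)
  have hg2 := hGrow p X T1 T2 r hXne hT2ne hT1T2
  have hreX : (re r X).card ≤ 1 := by
    rcases min_le_iff.1 hg2 with h | h
    · omega
    · omega
  have hreAS : (re r (A + S)).card ≤ 1 := by
    rw [← hXT1]
    exact (hEnds p X X T1 r).2.1 hreX hreT1'
  have hASsym : Sym (A + S) := sym_add_U2b hK.symA hK.symS
  have hBSsym : Sym (B + S) := sym_add_U2b hK.symB hK.symS
  have hBc : B = (A + S)ᶜ := by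
    apply Finset.eq_of_subset_of_card_le
    · intro z hz
      rw [Finset.mem_compl]
      intro hz'
      exact (Finset.disjoint_left.1 hASB) hz' hz
    · rw [Finset.card_compl, ZMod.card]
      omega
  have hreB : (re r B).card ≤ 1 := by
    rw [hBc, (hEnds p (A + S) X X r).2.2.2 hASsym]
    exact hreAS
  have hBSge : B.card + S.card ≤ (B + S).card := by
    by_contra hlt
    push Not at hlt
    obtain ⟨ρ, hρ0, hρ1⟩ := hFrag p S B 0 1 hSne (fun z hz => by
      rw [zero_sub]; exact hK.symS z hz) (by omega) (by omega) (by omega)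
    have := hmin ρ hρ0
    omega
  have hAc : A = (B + S)ᶜ := by
    apply Finset.eq_of_subset_of_card_le
    · intro z hz
      rw [Finset.mem_compl]
      intro hz'
      exact (Finset.disjoint_left.1 hBSA) hz' hz
    · rw [Finset.card_compl, ZMod.card]
      omega
  have hBSun : B + S = B ∪ (B + T) := by
    ext z
    rw [Finset.mem_union, Finset.mem_add, Finset.mem_add]
    constructor
    · rintro ⟨b, hb, s, hs, rfl⟩
      by_cases h0 : s = 0
      · left
        rw [h0, add_zero]
        exact hb
      · right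
        exact ⟨b, hb, s, (hTS s).2 ⟨h0, hs⟩, rfl⟩
    · rintro (h | ⟨b, hb, s, hs, rfl⟩)
      · exact ⟨z, h, 0, hS0, add_zero z⟩
      · exact ⟨b, hb, s, ((hTS s).1 hs).2, rfl⟩
  have hreA' : (re r A).card = (re r (B + S)).card := by
    conv_lhs => rw [hAc]
    exact (hEnds p (B + S) X X r).2.2.2 hBSsym
  have h1 := (hEnds p S B (B + T) r).2.2.1
  have h2 := (hEnds p S B T r).2.1 hreB hreT1
  rw [← hBSun] at h1
  omega

end Pool.Agent.Helper10.W1
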