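import Pool.Agent.Helper10.W1.StB

set_option autoImplicit false

/-!
# Modules UTHREE and UFOUR
-/

namespace Pool.Agent.Helper10.W1

open Finset
open scoped Pointwise

/-- the pairing -/
def LU34 {p : ℕ} [Fact p.Prime] (φ : ZMod p → ZMod p) (u : ZMod p → ℤ) : ZMod p :=
  ∑ z, φ z * (u z : ZMod p)

theorem LU34_sg {p : ℕ} [Fact p.Prime] (φ : ZMod p → ZMod p) (c : ZMod p) (u : ZMod p → ℤ) :
    LU34 φ (sg c u) = LU34 (fun z => φ (z + c) - φ (z - c)) u := by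
  unfold LU34 sg
  have h1 : ∑ z, φ z * (u (z - c) : ZMod p) = ∑ z, φ (z + c) * (u z : ZMod p) := by
    refine Fintype.sum_equiv (Equiv.subRight c) _ _ fun z => ?_
    simp
  have h2 : ∑ z, φ z * (u (z + c) : ZMod p) = ∑ z, φ (z - c) * (u z : ZMod p) := by
    refine Fintype.sum_equiv (Equiv.addRight c) _ _ fun z => ?_
    simp
  simp only [Int.cast_sub, mul_sub, sub_mul, Finset.sum_sub_distrib]
  rw [h1, h2]

theorem LU34_dl {p : ℕ} [Fact p.Prime] (φ : ZMod p → ZMod p) : LU34 φ dl = φ 0 := by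
  unfold LU34 dl
  rw [Finset.sum_eq_single 0]
  · simp
  · intro b _ hb
    simp [hb]
  · intro h
    exact absurd (mem_univ _) h

theorem LU34_eq {p : ℕ} [Fact p.Prime] (φ : ZMod p → ZMod p) (u v : ZMod p → ℤ) (ε : ℤ)
    (h : ∀ z, u z = ε * v z) : LU34 φ u = (ε : ZMod p) * LU34 φ v := by
  unfold LU34
  rw [Finset.mul_sum]
  refine Finset.sum_congr rfl fun z _ => ?_
  rw [h z]
  push_cast
  ring

theorem ne_U34 {p : ℕ} [Fact p.Prime] (hp : 11 ≤ p) (k : ℕ) (hk : 0 < k) (hk' : k ≤ 10) :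
    (k : ZMod p) ≠ 0 := by
  intro h
  rw [ZMod.natCast_eq_zero_iff] at h
  have := Nat.le_of_dvd hk h
  omega

theorem thU3 : stU3 := by
  intro p _ a b c x y w ε hp hε ha hb hc h
  have h2 : (2 : ZMod p) ≠ 0 := by exact_mod_cast ne_U34 hp 2 (by norm_num) (by norm_num)
  have h3 : (3 : ZMod p) ≠ 0 := by exact_mod_cast ne_U34 hp 3 (by norm_num) (by norm_num)
  have h5 : (5 : ZMod p) ≠ 0 := by exact_mod_cast ne_U34 hp 5 (by norm_num) (by norm_num)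
  have h7 : (7 : ZMod p) ≠ 0 := by exact_mod_cast ne_U34 hp 7 (by norm_num) (by norm_num)
  have k3 := LU34_eq (fun z => z ^ 3) _ _ ε h
  have k5 := LU34_eq (fun z => z ^ 5) _ _ ε h
  have k7 := LU34_eq (fun z => z ^ 7) _ _ ε h
  simp only [LU34_sg, LU34_dl] at k3 k5 k7
  set E : ZMod p := (ε : ZMod p) with hE
  have hE2 : E ^ 2 = 1 := by
    rcases hε with rfl | rfl <;> simp [hE]
  have m3 : a * b * c = E * (x * y * w) := by
    have : (2 : ZMod p) ^ 4 * 3 * (a * b * c - E * (x * y * w)) = 0 := by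
      linear_combination k3
    have h48 : (2 : ZMod p) ^ 4 * 3 ≠ 0 := mul_ne_zero (pow_ne_zero _ h2) h3
    exact sub_eq_zero.1 ((mul_eq_zero.1 this).resolve_left h48)
  have habc : a * b * c ≠ 0 := mul_ne_zero (mul_ne_zero ha hb) hc
  have m5 : a ^ 2 + b ^ 2 + c ^ 2 = x ^ 2 + y ^ 2 + w ^ 2 := by
    have : (2 : ZMod p) ^ 5 * 5 * (a * b * c) *
        (a ^ 2 + b ^ 2 + c ^ 2 - (x ^ 2 + y ^ 2 + w ^ 2)) = 0 := by
      linear_combination k5 - 160 * (x ^ 2 + y ^ 2 + w ^ 2) * m3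
    have hn : (2 : ZMod p) ^ 5 * 5 * (a * b * c) ≠ 0 :=
      mul_ne_zero (mul_ne_zero (pow_ne_zero _ h2) h5) habc
    exact sub_eq_zero.1 ((mul_eq_zero.1 this).resolve_left hn)
  have m7 : a ^ 2 * b ^ 2 + a ^ 2 * c ^ 2 + b ^ 2 * c ^ 2 =
      x ^ 2 * y ^ 2 + x ^ 2 * w ^ 2 + y ^ 2 * w ^ 2 := by
    have : (2 : ZMod p) ^ 6 * 7 * (a * b * c) *
        (a ^ 2 * b ^ 2 + a ^ 2 * c ^ 2 + b ^ 2 * c ^ 2 -
          (x ^ 2 * y ^ 2 + x ^ 2 * w ^ 2 + y ^ 2 * w ^ 2)) = 0 := by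
      linear_combination k7 - (8 * (42 * (x ^ 2 + y ^ 2 + w ^ 2) ^ 2 +
        56 * (x ^ 2 * y ^ 2 + x ^ 2 * w ^ 2 + y ^ 2 * w ^ 2))) * m3 -
        336 * (a * b * c) * (a ^ 2 + b ^ 2 + c ^ 2 + (x ^ 2 + y ^ 2 + w ^ 2)) * m5
    have hn : (2 : ZMod p) ^ 6 * 7 * (a * b * c) ≠ 0 :=
      mul_ne_zero (mul_ne_zero (pow_ne_zero _ h2) h7) habc
    exact sub_eq_zero.1 ((mul_eq_zero.1 this).resolve_left hn)
  refine ⟨m5, m7, ?_⟩
  calc a ^ 2 * b ^ 2 * c ^ 2 = (a * b * c) ^ 2 := by ring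
    _ = E ^ 2 * (x ^ 2 * y ^ 2 * w ^ 2) := by rw [m3]; ring
    _ = x ^ 2 * y ^ 2 * w ^ 2 := by rw [hE2, one_mul]

/-- moments -/
def MU34 {p : ℕ} [Fact p.Prime] (m : ℕ) (u : ZMod p → ℤ) : ZMod p := LU34 (fun z => z ^ m) u

theorem MU34_1 {p : ℕ} [Fact p.Prime] (c : ZMod p) (u : ZMod p → ℤ) :
    MU34 1 (sg c u) = 2 * c ^ 1 * MU34 0 u := by
  unfold MU34
  rw [LU34_sg]
  unfold LU34
  simp only [Finset.mul_sum, ← Finset.sum_add_distrib]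
  exact Finset.sum_congr rfl fun z _ => by ring

theorem MU34_2 {p : ℕ} [Fact p.Prime] (c : ZMod p) (u : ZMod p → ℤ) :
    MU34 2 (sg c u) = 4 * c ^ 1 * MU34 1 u := by
  unfold MU34
  rw [LU34_sg]
  unfold LU34
  simp only [Finset.mul_sum, ← Finset.sum_add_distrib]
  exact Finset.sum_congr rfl fun z _ => by ring

theorem MU34_3 {p : ℕ} [Fact p.Prime] (c : ZMod p) (u : ZMod p → ℤ) :
    MU34 3 (sg c u) = 6 * c ^ 1 * MU34 2 u + 2 * c ^ 3 * MU34 0 u := by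
  unfold MU34
  rw [LU34_sg]
  unfold LU34
  simp only [Finset.mul_sum, ← Finset.sum_add_distrib]
  exact Finset.sum_congr rfl fun z _ => by ring

theorem MU34_4 {p : ℕ} [Fact p.Prime] (c : ZMod p) (u : ZMod p → ℤ) :
    MU34 4 (sg c u) = 8 * c ^ 1 * MU34 3 u + 8 * c ^ 3 * MU34 1 u := by
  unfold MU34
  rw [LU34_sg]
  unfold LU34
  simp only [Finset.mul_sum, ← Finset.sum_add_distrib]
  exact Finset.sum_congr rfl fun z _ => by ring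

theorem MU34_5 {p : ℕ} [Fact p.Prime] (c : ZMod p) (u : ZMod p → ℤ) :
    MU34 5 (sg c u) = 10 * c ^ 1 * MU34 4 u + 20 * c ^ 3 * MU34 2 u + 2 * c ^ 5 * MU34 0 u := by
  unfold MU34
  rw [LU34_sg]
  unfold LU34
  simp only [Finset.mul_sum, ← Finset.sum_add_distrib]
  exact Finset.sum_congr rfl fun z _ => by ring

theorem MU34_6 {p : ℕ} [Fact p.Prime] (c : ZMod p) (u : ZMod p → ℤ) :
    MU34 6 (sg c u) = 12 * c ^ 1 * MU34 5 u + 40 * c ^ 3 * MU34 3 u + 12 * c ^ 5 * MU34 1 u := by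
  unfold MU34
  rw [LU34_sg]
  unfold LU34
  simp only [Finset.mul_sum, ← Finset.sum_add_distrib]
  exact Finset.sum_congr rfl fun z _ => by ring

theorem MU34_7 {p : ℕ} [Fact p.Prime] (c : ZMod p) (u : ZMod p → ℤ) :
    MU34 7 (sg c u) = 14 * c ^ 1 * MU34 6 u + 70 * c ^ 3 * MU34 4 u + 42 * c ^ 5 * MU34 2 u + 2 * c ^ 7 * MU34 0 u := by
  unfold MU34
  rw [LU34_sg]
  unfold LU34
  simp only [Finset.mul_sum, ← Finset.sum_add_distrib]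
  exact Finset.sum_congr rfl fun z _ => by ring

theorem MU34_8 {p : ℕ} [Fact p.Prime] (c : ZMod p) (u : ZMod p → ℤ) :
    MU34 8 (sg c u) = 16 * c ^ 1 * MU34 7 u + 112 * c ^ 3 * MU34 5 u + 112 * c ^ 5 * MU34 3 u + 16 * c ^ 7 * MU34 1 u := by
  unfold MU34
  rw [LU34_sg]
  unfold LU34
  simp only [Finset.mul_sum, ← Finset.sum_add_distrib]
  exact Finset.sum_congr rfl fun z _ => by ring

theorem MU34_9 {p : ℕ} [Fact p.Prime] (c : ZMod p) (u : ZMod p → ℤ) :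
    MU34 9 (sg c u) = 18 * c ^ 1 * MU34 8 u + 168 * c ^ 3 * MU34 6 u + 252 * c ^ 5 * MU34 4 u + 72 * c ^ 7 * MU34 2 u + 2 * c ^ 9 * MU34 0 u := by
  unfold MU34
  rw [LU34_sg]
  unfold LU34
  simp only [Finset.mul_sum, ← Finset.sum_add_distrib]
  exact Finset.sum_congr rfl fun z _ => by ring

theorem MU34_10 {p : ℕ} [Fact p.Prime] (c : ZMod p) (u : ZMod p → ℤ) :
    MU34 10 (sg c u) = 20 * c ^ 1 * MU34 9 u + 240 * c ^ 3 * MU34 7 u + 504 * c ^ 5 * MU34 5 u + 240 * c ^ 7 * MU34 3 u + 20 * c ^ 9 * MU34 1 u := by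
  unfold MU34
  rw [LU34_sg]
  unfold LU34
  simp only [Finset.mul_sum, ← Finset.sum_add_distrib]
  exact Finset.sum_congr rfl fun z _ => by ring

theorem MU34_dl {p : ℕ} [Fact p.Prime] (m : ℕ) (hm : m ≠ 0) : MU34 (p := p) m dl = 0 := by
  unfold MU34
  rw [LU34_dl]
  exact zero_pow hm

theorem MU34_dl0 {p : ℕ} [Fact p.Prime] : MU34 (p := p) 0 dl = 1 := by
  unfold MU34
  rw [LU34_dl]
  exact pow_zero _

/-- the moments of a product of two differences -/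
theorem MU34_two {p : ℕ} [Fact p.Prime] (c d : ZMod p) :
    MU34 0 (sg c (sg d dl)) = 0 ∧ MU34 2 (sg c (sg d dl)) = 8 * (c * d) ∧
    MU34 4 (sg c (sg d dl)) = 16 * (c * d) * (c ^ 2 + d ^ 2) ∧
    MU34 6 (sg c (sg d dl)) = 8 * (c * d) * (3 * c ^ 4 + 10 * c ^ 2 * d ^ 2 + 3 * d ^ 4) ∧
    MU34 8 (sg c (sg d dl)) =
      32 * (c * d) * (c ^ 6 + 7 * c ^ 4 * d ^ 2 + 7 * c ^ 2 * d ^ 4 + d ^ 6) := by
  have h0 : ∀ (c : ZMod p) (u : ZMod p → ℤ), MU34 0 (sg c u) = 0 := by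
    intro c u
    unfold MU34
    rw [LU34_sg]
    unfold LU34
    simp
  refine ⟨h0 _ _, ?_, ?_, ?_, ?_⟩
  · simp only [MU34_2, MU34_1, MU34_dl0, h0, MU34_dl _ (show (1 : ℕ) ≠ 0 by norm_num)]
    ring
  · simp only [MU34_4, MU34_3, MU34_1, MU34_dl0, MU34_dl _ (show (2 : ℕ) ≠ 0 by norm_num)]
    ring
  · simp only [MU34_6, MU34_5, MU34_3, MU34_1, MU34_dl0, MU34_dl _ (show (2 : ℕ) ≠ 0 by norm_num),
      MU34_dl _ (show (4 : ℕ) ≠ 0 by norm_num)]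
    ring
  · simp only [MU34_8, MU34_7, MU34_5, MU34_3, MU34_1, MU34_dl0,
      MU34_dl _ (show (2 : ℕ) ≠ 0 by norm_num), MU34_dl _ (show (4 : ℕ) ≠ 0 by norm_num),
      MU34_dl _ (show (6 : ℕ) ≠ 0 by norm_num)]
    ring

theorem thU4 : stU4 := by
  intro p _ a b c d x y w v ε hp hε ha hb hc hd h
  have h2 : (2 : ZMod p) ≠ 0 := by exact_mod_cast ne_U34 hp 2 (by norm_num) (by norm_num)
  have h3 : (3 : ZMod p) ≠ 0 := by exact_mod_cast ne_U34 hp 3 (by norm_num) (by norm_num)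
  have h5 : (5 : ZMod p) ≠ 0 := by exact_mod_cast ne_U34 hp 5 (by norm_num) (by norm_num)
  have h7 : (7 : ZMod p) ≠ 0 := by exact_mod_cast ne_U34 hp 7 (by norm_num) (by norm_num)
  have k4 : MU34 4 _ = (ε : ZMod p) * MU34 4 _ := LU34_eq (fun z => z ^ 4) _ _ ε h
  have k6 : MU34 6 _ = (ε : ZMod p) * MU34 6 _ := LU34_eq (fun z => z ^ 6) _ _ ε h
  have k8 : MU34 8 _ = (ε : ZMod p) * MU34 8 _ := LU34_eq (fun z => z ^ 8) _ _ ε h
  have k10 : MU34 10 _ = (ε : ZMod p) * MU34 10 _ := LU34_eq (fun z => z ^ 10) _ _ ε h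
  obtain ⟨o0, o2, o4, o6, o8⟩ := MU34_two c d
  obtain ⟨q0, q2, q4, q6, q8⟩ := MU34_two w v
  rw [MU34_4, MU34_4, MU34_3, MU34_3, MU34_1, MU34_1, o0, o2, q0, q2] at k4
  rw [MU34_6, MU34_6, MU34_5, MU34_5, MU34_3, MU34_3, MU34_1, MU34_1, o0, o2, o4, q0, q2, q4] at k6
  rw [MU34_8, MU34_8, MU34_7, MU34_7, MU34_5, MU34_5, MU34_3, MU34_3, MU34_1, MU34_1, o0, o2, o4,
    o6, q0, q2, q4, q6] at k8
  rw [MU34_10, MU34_10, MU34_9, MU34_9, MU34_7, MU34_7, MU34_5, MU34_5, MU34_3, MU34_3, MU34_1,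
    MU34_1, o0, o2, o4, o6, o8, q0, q2, q4, q6, q8] at k10
  set E : ZMod p := (ε : ZMod p) with hE
  have hE2 : E ^ 2 = 1 := by
    rcases hε with rfl | rfl <;> simp [hE]
  -- elementary symmetric functions
  obtain ⟨e1, he1⟩ : ∃ t, t = a ^ 2 + b ^ 2 + c ^ 2 + d ^ 2 := ⟨_, rfl⟩
  obtain ⟨f1, hf1⟩ : ∃ t, t = x ^ 2 + y ^ 2 + w ^ 2 + v ^ 2 := ⟨_, rfl⟩
  obtain ⟨e2, he2⟩ : ∃ t, t = a ^ 2 * b ^ 2 + a ^ 2 * c ^ 2 + a ^ 2 * d ^ 2 + b ^ 2 * c ^ 2 +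
    b ^ 2 * d ^ 2 + c ^ 2 * d ^ 2 := ⟨_, rfl⟩
  obtain ⟨f2, hf2⟩ : ∃ t, t = x ^ 2 * y ^ 2 + x ^ 2 * w ^ 2 + x ^ 2 * v ^ 2 + y ^ 2 * w ^ 2 +
    y ^ 2 * v ^ 2 + w ^ 2 * v ^ 2 := ⟨_, rfl⟩
  obtain ⟨e3, he3⟩ : ∃ t, t = a ^ 2 * b ^ 2 * c ^ 2 + a ^ 2 * b ^ 2 * d ^ 2 +
    a ^ 2 * c ^ 2 * d ^ 2 + b ^ 2 * c ^ 2 * d ^ 2 := ⟨_, rfl⟩
  obtain ⟨f3, hf3⟩ : ∃ t, t = x ^ 2 * y ^ 2 * w ^ 2 + x ^ 2 * y ^ 2 * v ^ 2 +
    x ^ 2 * w ^ 2 * v ^ 2 + y ^ 2 * w ^ 2 * v ^ 2 := ⟨_, rfl⟩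
  have l4 : 384 * (a * b * c * d) = E * (384 * (x * y * w * v)) := by
    linear_combination k4
  have l6 : 1920 * (a * b * c * d) * e1 = E * (1920 * (x * y * w * v) * f1) := by
    rw [he1, hf1]
    linear_combination k6
  have l8 : 16 * (a * b * c * d) * (336 * e1 ^ 2 + 448 * e2) =
      E * (16 * (x * y * w * v) * (336 * f1 ^ 2 + 448 * f2)) := by
    rw [he1, hf1, he2, hf2]
    linear_combination k8
  have l10 : 16 * (a * b * c * d) * (720 * (e1 ^ 3 - 3 * e1 * e2 + 3 * e3) +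
        5040 * (e1 * e2 - 3 * e3) + 16800 * e3) =
      E * (16 * (x * y * w * v) * (720 * (f1 ^ 3 - 3 * f1 * f2 + 3 * f3) +
        5040 * (f1 * f2 - 3 * f3) + 16800 * f3)) := by
    rw [he1, hf1, he2, hf2, he3, hf3]
    linear_combination k10
  have m4 : a * b * c * d = E * (x * y * w * v) := by
    have : (2 : ZMod p) ^ 7 * 3 * (a * b * c * d - E * (x * y * w * v)) = 0 := by
      linear_combination l4
    have hn : (2 : ZMod p) ^ 7 * 3 ≠ 0 := mul_ne_zero (pow_ne_zero _ h2) h3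
    exact sub_eq_zero.1 ((mul_eq_zero.1 this).resolve_left hn)
  have habcd : a * b * c * d ≠ 0 := mul_ne_zero (mul_ne_zero (mul_ne_zero ha hb) hc) hd
  obtain ⟨Q, hQ⟩ : ∃ t, t = a * b * c * d := ⟨_, rfl⟩
  rw [← hQ] at l6 l8 l10 m4 habcd
  obtain ⟨R, hR⟩ : ∃ t, t = x * y * w * v := ⟨_, rfl⟩
  rw [← hR] at l6 l8 l10 m4
  have m6 : e1 = f1 := by
    have : (2 : ZMod p) ^ 7 * 3 * 5 * Q * (e1 - f1) = 0 := by
      linear_combination l6 - 1920 * f1 * m4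
    have hn : (2 : ZMod p) ^ 7 * 3 * 5 * Q ≠ 0 :=
      mul_ne_zero (mul_ne_zero (mul_ne_zero (pow_ne_zero _ h2) h3) h5) habcd
    exact sub_eq_zero.1 ((mul_eq_zero.1 this).resolve_left hn)
  subst m6
  have m8 : e2 = f2 := by
    have : (2 : ZMod p) ^ 10 * 7 * Q * (e2 - f2) = 0 := by
      linear_combination l8 - 16 * (336 * e1 ^ 2 + 448 * f2) * m4
    have hn : (2 : ZMod p) ^ 10 * 7 * Q ≠ 0 :=
      mul_ne_zero (mul_ne_zero (pow_ne_zero _ h2) h7) habcd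
    exact sub_eq_zero.1 ((mul_eq_zero.1 this).resolve_left hn)
  subst m8
  have m10 : e3 = f3 := by
    have : (2 : ZMod p) ^ 12 * 3 * 5 * Q * (e3 - f3) = 0 := by
      linear_combination l10 - 16 * (720 * (e1 ^ 3 - 3 * e1 * e2 + 3 * f3) +
        5040 * (e1 * e2 - 3 * f3) + 16800 * f3) * m4
    have hn : (2 : ZMod p) ^ 12 * 3 * 5 * Q ≠ 0 :=
      mul_ne_zero (mul_ne_zero (mul_ne_zero (pow_ne_zero _ h2) h3) h5) habcd
    exact sub_eq_zero.1 ((mul_eq_zero.1 this).resolve_left hn)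
  refine ⟨he1.symm.trans hf1, he2.symm.trans hf2, ?_, ?_⟩
  · rw [← he3, ← hf3, m10]
  · calc a ^ 2 * b ^ 2 * c ^ 2 * d ^ 2 = Q ^ 2 := by rw [hQ]; ring
      _ = E ^ 2 * (x ^ 2 * y ^ 2 * w ^ 2 * v ^ 2) := by rw [m4, hR]; ring
      _ = x ^ 2 * y ^ 2 * w ^ 2 * v ^ 2 := by rw [hE2, one_mul]

end Pool.Agent.Helper10.W1
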