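import Pool.Agent.Helper10.W1.StD
import Pool.Agent.Helper10.W1.StB

set_option autoImplicit false

/-!
# Near multiples of `q`: MODULE WALL
-/

namespace Pool.Agent.Helper10.W1

open Finset
open scoped Pointwise

/-- scaled translate -/
def tS51 {p : ℕ} (c t : ZMod p) (A : Finset (ZMod p)) : Finset (ZMod p) :=
  A.image (fun w => c * (w - t))

theorem mem_tS51 {p : ℕ} [Fact p.Prime] {c t : ZMod p} (hc : c ≠ 0) (A : Finset (ZMod p))
    (v : ZMod p) : c * v ∈ tS51 c t A ↔ v + t ∈ A := by
  unfold tS51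
  rw [mem_image]
  constructor
  · rintro ⟨w, hw, h⟩
    have h2 : w - t = v := mul_left_cancel₀ hc h
    rw [← h2]
    simpa using hw
  · intro h
    exact ⟨v + t, h, by ring⟩

theorem card_tS51 {p : ℕ} [Fact p.Prime] {c t : ZMod p} (hc : c ≠ 0) (A : Finset (ZMod p)) :
    (tS51 c t A).card = A.card := by
  unfold tS51
  apply card_image_of_injective
  intro u v h
  have h2 : u - t = v - t := mul_left_cancel₀ hc h
  simpa using h2

theorem exists_tS51 {p : ℕ} [Fact p.Prime] {c : ZMod p} (hc : c ≠ 0) (z : ZMod p) :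
    ∃ v, z = c * v := ⟨z / c, by field_simp⟩

theorem chi_tS51 {p : ℕ} [Fact p.Prime] {c t : ZMod p} (hc : c ≠ 0) (A : Finset (ZMod p))
    (v : ZMod p) : chi (tS51 c t A) (c * v) = chi A (v + t) := by
  unfold chi
  simp only [mem_tS51 hc]

theorem dl_tS51 {p : ℕ} [Fact p.Prime] {c : ZMod p} (hc : c ≠ 0) (v : ZMod p) :
    dl (c * v) = dl v := by
  unfold dl
  simp only [mul_eq_zero, hc, false_or]

theorem rel_tS51 {p : ℕ} [Fact p.Prime] {c t : ZMod p} (hc : c ≠ 0) (A : Finset (ZMod p))
    (d e a b : ZMod p) (ε : ℤ)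
    (h : ∀ w, chi A (w + t - d - e) - chi A (w + t - d + e) - chi A (w + t + d - e) +
      chi A (w + t + d + e) =
      ε * (dl (w - a - b) - dl (w - a + b) - dl (w + a - b) + dl (w + a + b))) :
    ∀ z, sg (c * d) (sg (c * e) (chi (tS51 c t A))) z = ε * sg (c * a) (sg (c * b) dl) z := by
  intro z
  obtain ⟨w, rfl⟩ := exists_tS51 hc z
  have hw := h w
  unfold sg
  have e1 : c * w - c * d - c * e = c * (w - d - e) := by ring
  have e2 : c * w - c * d + c * e = c * (w - d + e) := by ring
  have e3 : c * w + c * d - c * e = c * (w + d - e) := by ring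
  have e4 : c * w + c * d + c * e = c * (w + d + e) := by ring
  have f1 : c * w - c * a - c * b = c * (w - a - b) := by ring
  have f2 : c * w - c * a + c * b = c * (w - a + b) := by ring
  have f3 : c * w + c * a - c * b = c * (w + a - b) := by ring
  have f4 : c * w + c * a + c * b = c * (w + a + b) := by ring
  rw [e1, e2, e3, e4, f1, f2, f3, f4]
  simp only [chi_tS51 hc, dl_tS51 hc]
  have g1 : w - d - e + t = w + t - d - e := by ring
  have g2 : w - d + e + t = w + t - d + e := by ring
  have g3 : w + d - e + t = w + t + d - e := by ring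
  have g4 : w + d + e + t = w + t + d + e := by ring
  rw [g1, g2, g3, g4]
  linarith

theorem sym_tS51 {p : ℕ} [Fact p.Prime] {c t : ZMod p} (hc : c ≠ 0) (A : Finset (ZMod p))
    (h : ∀ z, chi A (2 * t - z) = chi A z) : Sym (tS51 c t A) := by
  intro z hz
  obtain ⟨v, rfl⟩ := exists_tS51 hc z
  rw [mem_tS51 hc] at hz
  have e : -(c * v) = c * (-v) := by ring
  rw [e, mem_tS51 hc]
  have h1 := h (v + t)
  have e2 : 2 * t - (v + t) = -v + t := by ring
  rw [e2] at h1
  unfold chi at h1
  rw [if_pos hz] at h1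
  by_contra hcon
  rw [if_neg hcon] at h1
  exact absurd h1 (by norm_num)

/-- the core: one of the two sign cases -/
theorem core51 (hUniqSym : stUniqSym) (hTrio : stTrio) (p : ℕ) [Fact p.Prime]
    (x y a b : ZMod p) (h11 : 11 ≤ p) (hx : x ≠ 0) (hy : y ≠ 0) (hxy : x ≠ y) (ha : a ≠ 0)
    (hb : b ≠ 0) (A B C : Finset (ZMod p)) (σ : ℤ) (hσ : σ = 1 ∨ σ = -1)
    (cA : 2 ≤ A.card) (cB : 2 ≤ B.card) (cC : 2 ≤ C.card) (hsum : A.card + B.card + C.card = p)
    (hA : ∀ z, chi A z - chi A (z - x) - chi A (z - y) + chi A (z - x - y) =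
      σ * (dl z - dl (z - a) - dl (z - b) + dl (z - a - b)))
    (hB : ∀ z, chi B z - chi B (z - x) - chi B (z - (y - x)) + chi B (z - x - (y - x)) =
      σ * (-(dl (z - x) - dl (z - x - a) - dl (z - x - b) + dl (z - x - a - b))))
    (hC : ∀ z, chi C z - chi C (z - y) - chi C (z - (y - x)) + chi C (z - y - (y - x)) =
      σ * (dl (z - y - (y - x)) - dl (z - y - (y - x) - a) - dl (z - y - (y - x) - b) +
        dl (z - y - (y - x) - a - b)))
    (hfree : ∀ m z : ZMod p, z ∈ A → z - m * x ∈ B → z - m * y ∈ C → False) : False := by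
  have h2 : (2 : ZMod p) ≠ 0 := by
    intro h
    have h3 : ((2 : ℕ) : ZMod p) = 0 := by exact_mod_cast h
    rw [ZMod.natCast_eq_zero_iff] at h3
    have := Nat.le_of_dvd (by norm_num) h3
    omega
  have hyx : y - x ≠ 0 := sub_ne_zero.mpr (Ne.symm hxy)
  obtain ⟨α, hα⟩ : ∃ α : ZMod p, 2 * α = a + b - x - y := ⟨(a + b - x - y) / 2, by field_simp⟩
  obtain ⟨β, hβ⟩ : ∃ β : ZMod p, 2 * β = a + b + 2 * x - y :=
    ⟨(a + b + 2 * x - y) / 2, by field_simp⟩
  obtain ⟨γ, hγ⟩ : ∃ γ : ZMod p, 2 * γ = a + b + 2 * y - x :=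
    ⟨(a + b + 2 * y - x) / 2, by field_simp⟩
  obtain ⟨X, hX⟩ : ∃ X : ZMod p, x = 2 * X := ⟨x / 2, by field_simp⟩
  obtain ⟨Y, hY⟩ : ∃ Y : ZMod p, y = 2 * Y := ⟨y / 2, by field_simp⟩
  obtain ⟨a', ha'⟩ : ∃ a' : ZMod p, a = 2 * a' := ⟨a / 2, by field_simp⟩
  obtain ⟨b', hb'⟩ : ∃ b' : ZMod p, b = 2 * b' := ⟨b / 2, by field_simp⟩
  have hα' : α = a' + b' - X - Y := by
    apply mul_left_cancel₀ h2
    rw [hα, ha', hb', hX, hY]; ring
  have hβ' : β = a' + b' + 2 * X - Y := by
    apply mul_left_cancel₀ h2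
    rw [hβ, ha', hb', hX, hY]; ring
  have hγ' : γ = a' + b' + 2 * Y - X := by
    apply mul_left_cancel₀ h2
    rw [hγ, ha', hb', hX, hY]; ring
  have hX0 : X ≠ 0 := by
    rintro rfl
    exact hx (by rw [hX]; ring)
  have hY0 : Y ≠ 0 := by
    rintro rfl
    exact hy (by rw [hY]; ring)
  have ha0 : a' ≠ 0 := by
    rintro rfl
    exact ha (by rw [ha']; ring)
  have hb0 : b' ≠ 0 := by
    rintro rfl
    exact hb (by rw [hb']; ring)
  have h1 : Y - X ≠ 0 := by
    intro h
    apply hyx
    rw [hX, hY]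
    calc 2 * Y - 2 * X = 2 * (Y - X) := by ring
      _ = 0 := by rw [h]; ring
  have hnY : -Y ≠ 0 := neg_ne_zero.mpr hY0
  -- symmetry
  have sA : ∀ z, chi A (2 * α - z) = chi A z := by
    intro z
    have h := hUniqSym p (chi A) x y a b 0 σ hx hy (by
      intro z
      rw [hA z]
      simp only [sub_zero]) z
    have e : 2 * (0 : ZMod p) + a + b - x - y - z = 2 * α - z := by rw [hα]; ring
    rw [e] at h
    exact h
  have sB : ∀ z, chi B (2 * β - z) = chi B z := by
    intro z
    have h := hUniqSym p (chi B) x (y - x) a b x (-σ) hx hyx (by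
      intro z
      rw [hB z]
      ring) z
    have e : 2 * x + a + b - x - (y - x) - z = 2 * β - z := by rw [hβ]; ring
    rw [e] at h
    exact h
  have sC : ∀ z, chi C (2 * γ - z) = chi C z := by
    intro z
    have h := hUniqSym p (chi C) y (y - x) a b (y + (y - x)) σ hy hyx (by
      intro z
      rw [hC z]
      simp only [sub_sub, add_assoc]) z
    have e : 2 * (y + (y - x)) + a + b - y - (y - x) - z = 2 * γ - z := by rw [hγ]; ring
    rw [e] at h
    exact h
  refine hTrio p (Y - X) (-Y) X a' b' (-σ) (tS51 (Y - X) α A) (tS51 (-Y) β B) (tS51 X γ C) h11 ?_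
  refine ⟨h1, hnY, hX0, ha0, hb0, by ring, ?_, sym_tS51 h1 A sA, sym_tS51 hnY B sB,
    sym_tS51 hX0 C sC, ?_, ?_, ?_, ?_, ?_, ?_, ?_, ?_⟩
  · rcases hσ with rfl | rfl
    · right; rfl
    · left; norm_num
  · rw [card_tS51 h1]; exact cA
  · rw [card_tS51 hnY]; exact cB
  · rw [card_tS51 hX0]; exact cC
  · rw [card_tS51 h1, card_tS51 hnY, card_tS51 hX0]; exact hsum
  · intro s1 hs1 s2 hs2 s3 hs3 h0
    obtain ⟨u, rfl⟩ := exists_tS51 h1 s1
    obtain ⟨v, rfl⟩ := exists_tS51 hnY s2
    obtain ⟨w, rfl⟩ := exists_tS51 hX0 s3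
    rw [mem_tS51 h1] at hs1
    rw [mem_tS51 hnY] at hs2
    rw [mem_tS51 hX0] at hs3
    have k1 : (u + α - (v + β)) / x * x = u + α - (v + β) := by field_simp
    have k2 : (u + α - (v + β)) / x * y = u + α - (w + γ) := by
      rw [div_mul_eq_mul_div, div_eq_iff hx]
      rw [hα', hβ', hγ', hX, hY]
      linear_combination 2 * h0
    apply hfree ((u + α - (v + β)) / x) (u + α) hs1
    · rw [k1]
      have : u + α - (u + α - (v + β)) = v + β := by ring
      rw [this]; exact hs2
    · rw [k2]
      have : u + α - (u + α - (w + γ)) = w + γ := by ring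
      rw [this]; exact hs3
  · apply rel_tS51 h1
    intro w
    have h := hA (w + a' + b')
    have e1 : w + α - -Y - X = w + a' + b' - x := by rw [hα', hX]; ring
    have e2 : w + α - -Y + X = w + a' + b' := by rw [hα']; ring
    have e3 : w + α + -Y - X = w + a' + b' - x - y := by rw [hα', hX, hY]; ring
    have e4 : w + α + -Y + X = w + a' + b' - y := by rw [hα', hY]; ring
    have f1 : w + a' + b' - a - b = w - a' - b' := by rw [ha', hb']; ring
    have f2 : w + a' + b' - a = w - a' + b' := by rw [ha']; ring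
    have f3 : w + a' + b' - b = w + a' - b' := by rw [hb']; ring
    rw [e1, e2, e3, e4]
    rw [f1, f2, f3] at h
    linarith
  · apply rel_tS51 hnY
    intro w
    have h := hB (w + a' + b' + x)
    have e1 : w + β - X - (Y - X) = w + a' + b' + x - x - (y - x) := by rw [hβ', hX, hY]; ring
    have e2 : w + β - X + (Y - X) = w + a' + b' + x - x := by rw [hβ', hX]; ring
    have e3 : w + β + X - (Y - X) = w + a' + b' + x - (y - x) := by rw [hβ', hX, hY]; ring
    have e4 : w + β + X + (Y - X) = w + a' + b' + x := by rw [hβ', hX]; ring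
    have f1 : w + a' + b' + x - x - a - b = w - a' - b' := by rw [ha', hb']; ring
    have f2 : w + a' + b' + x - x - a = w - a' + b' := by rw [ha']; ring
    have f3 : w + a' + b' + x - x - b = w + a' - b' := by rw [hb']; ring
    have f4 : w + a' + b' + x - x = w + a' + b' := by ring
    rw [e1, e2, e3, e4]
    rw [f1, f2, f3] at h
    have h' : dl (w + a' + b' + x - x) = dl (w + a' + b') := by rw [f4]
    rw [h'] at h
    linarith
  · apply rel_tS51 hX0
    intro w
    have h := hC (w + a' + b' + y + (y - x))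
    have e1 : w + γ - (Y - X) - -Y = w + a' + b' + y + (y - x) - (y - x) := by
      rw [hγ', hY]; ring
    have e2 : w + γ - (Y - X) + -Y = w + a' + b' + y + (y - x) - y - (y - x) := by
      rw [hγ']; ring
    have e3 : w + γ + (Y - X) - -Y = w + a' + b' + y + (y - x) := by rw [hγ', hX, hY]; ring
    have e4 : w + γ + (Y - X) + -Y = w + a' + b' + y + (y - x) - y := by
      rw [hγ', hX, hY]; ring
    have f1 : w + a' + b' + y + (y - x) - y - (y - x) - a - b = w - a' - b' := by
      rw [ha', hb']; ring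
    have f2 : w + a' + b' + y + (y - x) - y - (y - x) - a = w - a' + b' := by rw [ha']; ring
    have f3 : w + a' + b' + y + (y - x) - y - (y - x) - b = w + a' - b' := by rw [hb']; ring
    have f4 : w + a' + b' + y + (y - x) - y - (y - x) = w + a' + b' := by ring
    rw [e1, e2, e3, e4]
    rw [f1, f2, f3] at h
    have h' : dl (w + a' + b' + y + (y - x) - y - (y - x)) = dl (w + a' + b') := by rw [f4]
    rw [h'] at h
    linarith

theorem sumRange51 (p : ℕ) [Fact p.Prime] (G : ZMod p → ℤ) :
    ∑ m ∈ range p, G (m : ZMod p) = ∑ w : ZMod p, G w := by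
  refine Finset.sum_bij' (fun m _ => (m : ZMod p)) (fun w _ => w.val) ?_ ?_ ?_ ?_ ?_
  · intro m _
    exact mem_univ _
  · intro w _
    exact mem_range.mpr (ZMod.val_lt w)
  · intro m hm
    exact ZMod.val_cast_of_lt (mem_range.mp hm)
  · intro w _
    exact ZMod.natCast_zmod_val w
  · intro m _
    rfl

theorem sumShift51 (p : ℕ) [Fact p.Prime] (G : ZMod p → ℤ) (z c : ZMod p) (hc : c ≠ 0) :
    ∑ m ∈ range p, G (z + (m : ZMod p) * c) = ∑ w : ZMod p, G w := by
  rw [sumRange51 p (fun w => G (z + w * c))]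
  exact Equiv.sum_comp ((Equiv.mulRight₀ c hc).trans (Equiv.addLeft z)) G

theorem level51 (p : ℕ) (hp : 2 ≤ p) (E : ℕ → ℤ) (h1 : ∀ m < p, |E m| ≤ 1)
    (h2 : E (p - 1) = 0) (h3 : E (p - 2) = 0) : |∑ m ∈ range p, E m| ≤ (p : ℤ) - 2 := by
  obtain ⟨n, rfl⟩ : ∃ n, p = n + 2 := ⟨p - 2, by omega⟩
  rw [sum_range_succ, sum_range_succ]
  have e1 : n + 2 - 1 = n + 1 := by omega
  have e2 : n + 2 - 2 = n := by omega
  rw [e1] at h2
  rw [e2] at h3
  rw [h2, h3, add_zero, add_zero]
  calc |∑ m ∈ range n, E m| ≤ ∑ m ∈ range n, |E m| := abs_sum_le_sum_abs _ _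
    _ ≤ ∑ m ∈ range n, (1 : ℤ) := sum_le_sum (fun m hm => h1 m (by
        have := mem_range.mp hm
        omega))
    _ = (n : ℤ) := by simp
    _ = ((n + 2 : ℕ) : ℤ) - 2 := by push_cast; ring

theorem chiCompl51 {p : ℕ} [Fact p.Prime] (S : Finset (ZMod p)) (z : ZMod p) :
    chi (univ \ S) z = 1 - chi S z := by
  unfold chi
  by_cases h : z ∈ S
  · rw [if_pos h, if_neg (by simp [h])]; norm_num
  · rw [if_neg h, if_pos (by simp [h])]; norm_num

theorem sumChi51 {p : ℕ} [Fact p.Prime] (S : Finset (ZMod p)) (c : ZMod p) :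
    ∑ z, chi S (z - c) = (S.card : ℤ) := by
  have h := Equiv.sum_comp (Equiv.subRight c) (fun z => chi S z)
  have h' : ∑ z, chi S (z - c) = ∑ z, chi S z := by
    rw [← h]
    rfl
  rw [h']
  unfold chi
  simp

theorem thWall (hDec : stDec) (hVanish : stVanish) (hUniqSym : stUniqSym) (hTwoVal : stTwoVal)
    (hTrio : stTrio) : stWall := by
  intro p _ x y a b h11 hx hy hxy ha hb
  by_contra hcon
  push Not at hcon
  have hE : ∀ m < p, ∀ z, |EE x y a b m z| ≤ 1 := by
    intro m hm z
    have := hcon m z hm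
    omega
  have hyx : y - x ≠ 0 := sub_ne_zero.mpr (Ne.symm hxy)
  have hxy' : x - y ≠ 0 := sub_ne_zero.mpr hxy
  obtain ⟨f, g, h, hm, hf, hg, hh⟩ := hDec p x y a b hx hy hxy ha hb
  choose cc hcc using hm
  obtain ⟨v1, v2, v3⟩ := hVanish p x y a b hx hy hxy
  have hnx : -x ≠ 0 := neg_ne_zero.mpr hx
  have hny : -y ≠ 0 := neg_ne_zero.mpr hy
  have hna : -a ≠ 0 := neg_ne_zero.mpr ha
  have hnb : -b ≠ 0 := neg_ne_zero.mpr hb
  -- the sum of dl's at zero is positive
  have hdl : (1 : ℤ) ≤ dl (0 : ZMod p) - dl (-a) - dl (-b) + dl (-a - b) := by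
    unfold dl
    rw [if_pos rfl, if_neg hna, if_neg hnb]
    split_ifs <;> norm_num
  -- f
  obtain ⟨A, c1, A1, A2, hfA⟩ := hTwoVal p f (fun z => ∑ m ∈ range p, EE x y a b m z)
    (∑ w, g w + ∑ w, h w + ∑ m ∈ range p, cc m) (by omega) (by
      intro z
      show ∑ m ∈ range p, EE x y a b m z = _
      rw [sum_congr rfl (fun m _ => hcc m z)]
      rw [sum_add_distrib, sum_add_distrib, sum_add_distrib, sum_const, card_range, nsmul_eq_mul]
      have e1 : ∑ m ∈ range p, g (z - (m : ZMod p) * x) = ∑ w, g w := by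
        rw [← sumShift51 p g z (-x) hnx]
        exact sum_congr rfl (fun m _ => by ring_nf)
      have e2 : ∑ m ∈ range p, h (z - (m : ZMod p) * y) = ∑ w, h w := by
        rw [← sumShift51 p h z (-y) hny]
        exact sum_congr rfl (fun m _ => by ring_nf)
      rw [e1, e2]
      ring) (by
      intro z
      exact level51 p (by omega) _ (fun m hm => hE m hm z) (v1 z) (v2 z)) (by
      rw [sum_comm]
      exact sum_eq_zero (fun m _ => v3 m)) (by
      by_contra hc
      push Not at hc
      have h0 := hf 0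
      rw [hc 0 (0 - x), hc (0 - x) (0 - y), hc (0 - y) (0 - x - y)] at h0
      simp only [zero_sub] at h0
      linarith)
  -- g
  obtain ⟨B, c2, B1, B2, hgB⟩ := hTwoVal p g
    (fun z => ∑ m ∈ range p, EE x y a b m (z + (m : ZMod p) * x))
    (∑ w, f w + ∑ w, h w + ∑ m ∈ range p, cc m) (by omega) (by
      intro z
      show ∑ m ∈ range p, EE x y a b m (z + (m : ZMod p) * x) = _
      rw [sum_congr rfl (fun m _ => hcc m (z + (m : ZMod p) * x))]
      rw [sum_add_distrib, sum_add_distrib, sum_add_distrib]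
      have e1 : ∑ m ∈ range p, f (z + (m : ZMod p) * x) = ∑ w, f w := sumShift51 p f z x hx
      have e2 : ∑ m ∈ range p, h (z + (m : ZMod p) * x - (m : ZMod p) * y) = ∑ w, h w := by
        rw [← sumShift51 p h z (x - y) hxy']
        exact sum_congr rfl (fun m _ => by ring_nf)
      have e3 : ∑ m ∈ range p, g (z + (m : ZMod p) * x - (m : ZMod p) * x) = p * g z := by
        rw [sum_congr rfl (fun m _ => by rw [add_sub_cancel_right])]
        rw [sum_const, card_range, nsmul_eq_mul]
      rw [e1, e2, e3]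
      ring) (by
      intro z
      exact level51 p (by omega) _ (fun m hm => hE m hm _) (v1 _) (v2 _)) (by
      rw [sum_comm]
      apply sum_eq_zero
      intro m _
      rw [← v3 m]
      exact Equiv.sum_comp (Equiv.addRight ((m : ZMod p) * x)) (fun z => EE x y a b m z)) (by
      by_contra hc
      push Not at hc
      have h0 := hg x
      have hc' : ∀ z, g z = g 0 := fun z => hc z 0
      rw [hc' x, hc' (x - x), hc' (x - (y - x)), hc' (x - x - (y - x))] at h0
      simp only [sub_self, zero_sub] at h0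
      linarith)
  -- h
  obtain ⟨C, c3, C1, C2, hhC⟩ := hTwoVal p h
    (fun z => ∑ m ∈ range p, EE x y a b m (z + (m : ZMod p) * y))
    (∑ w, f w + ∑ w, g w + ∑ m ∈ range p, cc m) (by omega) (by
      intro z
      show ∑ m ∈ range p, EE x y a b m (z + (m : ZMod p) * y) = _
      rw [sum_congr rfl (fun m _ => hcc m (z + (m : ZMod p) * y))]
      rw [sum_add_distrib, sum_add_distrib, sum_add_distrib]
      have e1 : ∑ m ∈ range p, f (z + (m : ZMod p) * y) = ∑ w, f w := sumShift51 p f z y hy
      have e2 : ∑ m ∈ range p, g (z + (m : ZMod p) * y - (m : ZMod p) * x) = ∑ w, g w := by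
        rw [← sumShift51 p g z (y - x) hyx]
        exact sum_congr rfl (fun m _ => by ring_nf)
      have e3 : ∑ m ∈ range p, h (z + (m : ZMod p) * y - (m : ZMod p) * y) = p * h z := by
        rw [sum_congr rfl (fun m _ => by rw [add_sub_cancel_right])]
        rw [sum_const, card_range, nsmul_eq_mul]
      rw [e1, e2, e3]
      ring) (by
      intro z
      exact level51 p (by omega) _ (fun m hm => hE m hm _) (v1 _) (v2 _)) (by
      rw [sum_comm]
      apply sum_eq_zero
      intro m _
      rw [← v3 m]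
      exact Equiv.sum_comp (Equiv.addRight ((m : ZMod p) * y)) (fun z => EE x y a b m z)) (by
      by_contra hc
      push Not at hc
      have h0 := hh (y + (y - x))
      have hc' : ∀ z, h z = h 0 := fun z => hc z 0
      have e0 : y + (y - x) - y - (y - x) = 0 := by ring
      rw [e0] at h0
      rw [hc' (y + (y - x)), hc' (y + (y - x) - y), hc' (y + (y - x) - (y - x))] at h0
      simp only [zero_sub] at h0
      linarith)
  -- the formula for EE
  have hEE : ∀ m z, EE x y a b m z = chi A z + chi B (z - (m : ZMod p) * x) +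
      chi C (z - (m : ZMod p) * y) + (c1 + c2 + c3 + cc m) := by
    intro m z
    rw [hcc m z, hfA, hgB, hhC]
    ring
  have hp0 : (0 : ℤ) < p := by
    have : 0 < p := by omega
    exact_mod_cast this
  have hS : ∀ m, (A.card : ℤ) + B.card + C.card + p * (c1 + c2 + c3 + cc m) = 0 := by
    intro m
    have h0 := v3 m
    rw [sum_congr rfl (fun z _ => hEE m z)] at h0
    rw [sum_add_distrib, sum_add_distrib, sum_add_distrib, sum_const, card_univ, ZMod.card,
      nsmul_eq_mul, sumChi51, sumChi51] at h0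
    have e : ∑ z, chi A z = (A.card : ℤ) := by
      have := sumChi51 A 0
      simpa using this
    rw [e] at h0
    exact h0
  set K : ℤ := -(c1 + c2 + c3 + cc 0) with hK
  have hKm : ∀ m, c1 + c2 + c3 + cc m = -K := by
    intro m
    have h0 := hS m
    have h1 := hS 0
    have h2 : (p : ℤ) * (c1 + c2 + c3 + cc m) = p * (c1 + c2 + c3 + cc 0) := by linarith
    have h3 := mul_left_cancel₀ (ne_of_gt hp0) h2
    rw [h3, hK]
    ring
  have hKs : (A.card : ℤ) + B.card + C.card = p * K := by
    have h0 := hS 0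
    rw [hKm 0] at h0
    linarith
  have hEE' : ∀ m z, EE x y a b m z = chi A z + chi B (z - (m : ZMod p) * x) +
      chi C (z - (m : ZMod p) * y) - K := by
    intro m z
    rw [hEE m z, hKm m]
    ring
  have hK1 : 1 ≤ K := by
    by_contra hlt
    have h1 : K ≤ 0 := by omega
    have h2 : (p : ℤ) * K ≤ 0 := mul_nonpos_of_nonneg_of_nonpos hp0.le h1
    have h3 : (2 : ℤ) ≤ A.card := by exact_mod_cast A1
    have h4 : (0 : ℤ) ≤ B.card := Int.natCast_nonneg _
    have h5 : (0 : ℤ) ≤ C.card := Int.natCast_nonneg _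
    linarith
  have hK2 : K ≤ 2 := by
    by_contra hlt
    have h1 : 3 ≤ K := by omega
    have h2 : (p : ℤ) * 3 ≤ p * K := mul_le_mul_of_nonneg_left h1 hp0.le
    have h3 : (A.card : ℤ) + 2 ≤ p := by exact_mod_cast A2
    have h4 : (B.card : ℤ) + 2 ≤ p := by exact_mod_cast B2
    have h5 : (C.card : ℤ) + 2 ≤ p := by exact_mod_cast C2
    linarith
  have hKK : K = 1 ∨ K = 2 := by omega
  have rA : ∀ z, chi A z - chi A (z - x) - chi A (z - y) + chi A (z - x - y) =
      (dl z - dl (z - a) - dl (z - b) + dl (z - a - b)) := by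
    intro z
    have h0 := hf z
    simp only [hfA] at h0
    linarith
  have rB : ∀ z, chi B z - chi B (z - x) - chi B (z - (y - x)) + chi B (z - x - (y - x)) =
      (-(dl (z - x) - dl (z - x - a) - dl (z - x - b) + dl (z - x - a - b))) := by
    intro z
    have h0 := hg z
    simp only [hgB] at h0
    linarith
  have rC : ∀ z, chi C z - chi C (z - y) - chi C (z - (y - x)) + chi C (z - y - (y - x)) =
      (dl (z - y - (y - x)) - dl (z - y - (y - x) - a) - dl (z - y - (y - x) - b) +
        dl (z - y - (y - x) - a - b)) := by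
    intro z
    have h0 := hh z
    simp only [hhC] at h0
    linarith
  rcases hKK with h1 | h1
  · rw [h1] at hKs hEE'
    refine core51 hUniqSym hTrio p x y a b h11 hx hy hxy ha hb A B C 1 (Or.inl rfl) A1 B1 C1
      ?_ ?_ ?_ ?_ ?_
    · have : (A.card : ℤ) + B.card + C.card = p := by linarith
      exact_mod_cast this
    · intro z; rw [rA z]; ring
    · intro z; rw [rB z]; ring
    · intro z; rw [rC z]; ring
    · intro m z hz1 hz2 hz3
      have h0 := hE m.val (ZMod.val_lt m) z
      rw [hEE' m.val z, ZMod.natCast_zmod_val] at h0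
      unfold chi at h0
      rw [if_pos hz1, if_pos hz2, if_pos hz3] at h0
      norm_num at h0
  · rw [h1] at hKs hEE'
    have cc1 : ∀ S : Finset (ZMod p), (univ \ S).card + S.card = p := by
      intro S
      have h0 := card_sdiff_add_card_eq_card (subset_univ S)
      rw [h0, card_univ, ZMod.card]
    have qA := cc1 A
    have qB := cc1 B
    have qC := cc1 C
    refine core51 hUniqSym hTrio p x y a b h11 hx hy hxy ha hb (univ \ A) (univ \ B) (univ \ C)
      (-1) (Or.inr rfl) (by omega) (by omega) (by omega) ?_ ?_ ?_ ?_ ?_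
    · have : (A.card : ℤ) + B.card + C.card = p * 2 := hKs
      have h2 : A.card + B.card + C.card = p * 2 := by exact_mod_cast this
      omega
    · intro z
      simp only [chiCompl51]
      have := rA z
      linarith
    · intro z
      simp only [chiCompl51]
      have := rB z
      linarith
    · intro z
      simp only [chiCompl51]
      have := rC z
      linarith
    · intro m z hz1 hz2 hz3
      have h0 := hE m.val (ZMod.val_lt m) z
      rw [hEE' m.val z, ZMod.natCast_zmod_val] at h0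
      simp only [mem_sdiff, mem_univ, true_and] at hz1 hz2 hz3
      unfold chi at h0
      rw [if_neg hz1, if_neg hz2, if_neg hz3] at h0
      norm_num at h0

end Pool.Agent.Helper10.W1
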