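import Pool.Agent.Helper10.W1.Final
import Pool.Agent.Helper10.W1.MAlt
import Pool.Agent.Helper10.W1.MArc
import Pool.Agent.Helper10.W1.MArcK
import Pool.Agent.Helper10.W1.MArcRel
import Pool.Agent.Helper10.W1.MBasics
import Pool.Agent.Helper10.W1.MBulk
import Pool.Agent.Helper10.W1.MCardSym
import Pool.Agent.Helper10.W1.MCaseOne
import Pool.Agent.Helper10.W1.MCaseTwo
import Pool.Agent.Helper10.W1.MDec
import Pool.Agent.Helper10.W1.MDivBal
import Pool.Agent.Helper10.W1.MDivMinus
import Pool.Agent.Helper10.W1.MDivOne
import Pool.Agent.Helper10.W1.MDivZero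
import Pool.Agent.Helper10.W1.MFrag
import Pool.Agent.Helper10.W1.MGrow
import Pool.Agent.Helper10.W1.MI1
import Pool.Agent.Helper10.W1.MI2
import Pool.Agent.Helper10.W1.MK
import Pool.Agent.Helper10.W1.MPair
import Pool.Agent.Helper10.W1.MRelArc
import Pool.Agent.Helper10.W1.MRingId
import Pool.Agent.Helper10.W1.MShapeA
import Pool.Agent.Helper10.W1.MShapeS
import Pool.Agent.Helper10.W1.MShift
import Pool.Agent.Helper10.W1.MSmallP
import Pool.Agent.Helper10.W1.MTrio
import Pool.Agent.Helper10.W1.MTwoInt
import Pool.Agent.Helper10.W1.MTwoVal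
import Pool.Agent.Helper10.W1.MU2a
import Pool.Agent.Helper10.W1.MU2b
import Pool.Agent.Helper10.W1.MU34
import Pool.Agent.Helper10.W1.MWall

set_option autoImplicit false

/-!
# Near multiples of `q`: all modules together
-/

namespace Pool.Agent.Helper10.W1

theorem frag : stFrag := thFrag thPair
theorem arc : stArc := thArc thEnds
theorem grow : stGrow := thGrow thPair
theorem skel : stSkel := thSkel thEnds
theorem shift : stShift := thShift arc thEnds thPair
theorem arcK : stArcK := thArcK arc thEnds
theorem shapeS : stShapeS := thShapeS thAlt thCardSym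
theorem shapeA : stShapeA := thShapeA thAlt thCardSym
theorem u2a : stU2a := thU2a thPair thEnds arc grow skel frag shift
theorem u2b : stU2b := thU2b thPair thEnds arc grow skel frag
theorem kk : stK := thK frag shapeS shapeA arcK u2a u2b thTwoInt
theorem i1 : stI1 := thI1 thPair thEnds arc grow skel frag thCardSym thArcRel
theorem arcMid : stArcMid := thArcMid arc thEnds
theorem caseOne : stCaseOne := thCaseOne i1 thI2 thU3 thU4 thBasics thCardSym
theorem caseTwo : stCaseTwo := thCaseTwo thU3 thBasics thRelArc arcMid thCardSym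
theorem trio : stTrio := thTrio caseOne caseTwo kk thCardSym
theorem dec : stDec := thDec thRingId
theorem vanish : stVanish := thVanish thRingId
theorem wall : stWall := thWall dec vanish thUniqSym thTwoVal trio

end Pool.Agent.Helper10.W1
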