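import Mathlib

set_option autoImplicit false

/-!
# Near multiples of `q`: definitions

Additive combinatorics of symmetric sets in `ZMod p` and signed product relations.
-/

namespace Pool.Agent.Helper10.W1

open Finset
open scoped Pointwise

/-- symmetric sets -/
def Sym {p : ℕ} (S : Finset (ZMod p)) : Prop := ∀ z ∈ S, -z ∈ S

/-- right end points of `S` in the direction `d` -/
def re {p : ℕ} (d : ZMod p) (S : Finset (ZMod p)) : Finset (ZMod p) :=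
  S.filter (fun z => z + d ∉ S)

/-- the points of `S` which are not right end points -/
def sk {p : ℕ} (d : ZMod p) (S : Finset (ZMod p)) : Finset (ZMod p) :=
  S.filter (fun z => z + d ∈ S)

/-- indicator -/
def chi {p : ℕ} (S : Finset (ZMod p)) (z : ZMod p) : ℤ := if z ∈ S then 1 else 0

/-- unit mass at `0` -/
def dl {p : ℕ} (z : ZMod p) : ℤ := if z = 0 then 1 else 0

/-- convolution with `X ^ c - X ^ (- c)` -/
def sg {p : ℕ} (c : ZMod p) (u : ZMod p → ℤ) (z : ZMod p) : ℤ := u (z - c) - u (z + c)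

/-- the situation of Claim K -/
structure KH (p : ℕ) (A B S : Finset (ZMod p)) : Prop where
  symA : Sym A
  symB : Sym B
  symS : Sym S
  zA : (0 : ZMod p) ∉ A
  zB : (0 : ZMod p) ∉ B
  zS : (0 : ZMod p) ∈ S
  cA : 4 ≤ A.card
  cB : 4 ≤ B.card
  sum : A.card + B.card + S.card = p
  free : ∀ a ∈ A, ∀ b ∈ B, ∀ s ∈ S, a + b + s ≠ 0
  mA : ∃ a ∈ A, a ∈ S
  mB : ∃ b ∈ B, b ∈ S

/-- three symmetric sets with product relations -/
structure Tr (p : ℕ) (x1 x2 x3 a b : ZMod p) (ε : ℤ) (S1 S2 S3 : Finset (ZMod p)) : Prop where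
  h1 : x1 ≠ 0
  h2 : x2 ≠ 0
  h3 : x3 ≠ 0
  ha : a ≠ 0
  hb : b ≠ 0
  hx : x1 + x2 + x3 = 0
  hε : ε = 1 ∨ ε = -1
  sym1 : Sym S1
  sym2 : Sym S2
  sym3 : Sym S3
  c1 : 2 ≤ S1.card
  c2 : 2 ≤ S2.card
  c3 : 2 ≤ S3.card
  sum : S1.card + S2.card + S3.card = p
  free : ∀ a ∈ S1, ∀ b ∈ S2, ∀ s ∈ S3, a + b + s ≠ 0
  r1 : ∀ z, sg (x1 * x2) (sg (x1 * x3) (chi S1)) z = ε * sg (x1 * a) (sg (x1 * b) dl) z
  r2 : ∀ z, sg (x2 * x3) (sg (x2 * x1) (chi S2)) z = ε * sg (x2 * a) (sg (x2 * b) dl) z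
  r3 : ∀ z, sg (x3 * x1) (sg (x3 * x2) (chi S3)) z = ε * sg (x3 * a) (sg (x3 * b) dl) z

/-- coefficients of `h_m (1, X ^ x, X ^ y)` -/
def HH {p : ℕ} (x y : ZMod p) (m : ℕ) (z : ZMod p) : ℤ :=
  ∑ i ∈ range (m + 1), ∑ j ∈ range (m + 1 - i), if (i : ZMod p) * x + (j : ZMod p) * y = z then 1 else 0

/-- coefficients of `(1 - X ^ a) (1 - X ^ b) h_m (1, X ^ x, X ^ y)` -/
def EE {p : ℕ} (x y a b : ZMod p) (m : ℕ) (z : ZMod p) : ℤ :=
  HH x y m z - HH x y m (z - a) - HH x y m (z - b) + HH x y m (z - a - b)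

/-- number of `(i, j)`, `i < n`, `j < l`, with `i x + j y = z` -/
def pr {p : ℕ} (x : ZMod p) (n : ℕ) (y : ZMod p) (l : ℕ) (z : ZMod p) : ℤ :=
  ∑ i ∈ range n, ∑ j ∈ range l, if (i : ZMod p) * x + (j : ZMod p) * y = z then 1 else 0

end Pool.Agent.Helper10.W1
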