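import Pool.Agent.Helper10.W1.StD

set_option autoImplicit false

/-!
# Near multiples of `q`: assembly
-/

namespace Pool.Agent.Helper10.W1

open Finset Polynomial
open Pool.Agent.Helper55.FT (G G_le G_neg)

theorem viol_of (hWall : stWall) (hSmallP : stSmallP) (hBulk : stBulk) (hDivZero : stDivZero)
    (hDivBal : stDivBal) (hDivOne : stDivOne) (hDivMinus : stDivMinus)
    {p q α v : ℕ} [hpf : Fact p.Prime] (hp3 : 3 ≤ p) (hq0 : 0 < q) (hα : 1 ≤ α) (hαp : α < p) (hv : 1 ≤ v)
    (hvq : (p - 1) * (v + 1) < q) (hq : (q : ZMod p) ≠ 0)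
    (hD : ((α * q + v : ℕ) : ZMod p) ≠ 0)
    (hex : ¬ (p ∣ v ∧ ((q : ZMod p) = 1 ∨ (q : ZMod p) = -1))) :
    ∃ N k : ℤ, 0 ≤ N ∧ N < p * q ∧ 2 ≤ |G p q ((α * q + v : ℕ) : ℤ) N k| := by
  have hpr : p.Prime := hpf.out
  have hα0 : (α : ZMod p) ≠ 0 := by
    rw [Ne, ZMod.natCast_eq_zero_iff]
    intro h
    have := Nat.le_of_dvd (by omega) h
    omega
  obtain ⟨p', rfl⟩ : ∃ p', p = p' + 1 := ⟨p - 1, by omega⟩
  have hvq1 : p' * v + (p' + 1) ≤ q := by
    have : p' * (v + 1) = p' * v + p' := by ring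
    have h2 : p' + 1 - 1 = p' := by omega
    rw [h2, this] at hvq
    omega
  by_cases hpv : p' + 1 ∣ v
  · -- `p ∣ v`
    have hq1 : (q : ZMod (p' + 1)) ≠ 1 := fun h => hex ⟨hpv, Or.inl h⟩
    have hq2 : (q : ZMod (p' + 1)) ≠ -1 := fun h => hex ⟨hpv, Or.inr h⟩
    have hvq' : (p' + 1 - 1) * v < q := by
      have : p' + 1 - 1 = p' := by omega
      rw [this]; omega
    have hvltq : v < q := by
      have h1 : v ≤ p' * v := Nat.le_mul_of_pos_left v (by omega)
      omega
    have hαq : α * q + v < (p' + 1) * q := by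
      have h1 : (α + 1) * q ≤ (p' + 1) * q := Nat.mul_le_mul_right _ (by omega)
      have h2 : (α + 1) * q = α * q + q := by ring
      omega
    by_cases h1 : ((α * q : ℕ) : ZMod (p' + 1)) = 1
    · refine ⟨(((p' + 1) * q : ℕ) - (α * q + v : ℕ) : ℤ), 1, ?_, ?_, ?_⟩
      · have : ((α * q + v : ℕ) : ℤ) < (((p' + 1) * q : ℕ) : ℤ) := by exact_mod_cast hαq
        omega
      · have h2 : (0 : ℤ) < ((α * q + v : ℕ) : ℤ) := by
          have : 0 < α * q + v := by omega
          exact_mod_cast this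
        have h3 : (((p' + 1) * q : ℕ) : ℤ) = ((p' + 1 : ℕ) : ℤ) * q := by push_cast; ring
        rw [← h3]
        omega
      · rw [hDivOne (p' + 1) q α v hq0 hv hpv hvq' hαp h1 hq1]
        norm_num
    · by_cases h2 : ((α * q : ℕ) : ZMod (p' + 1)) = -1
      · have hα2 : 2 ≤ α := by
          by_contra hlt
          have : α = 1 := by omega
          subst this
          rw [one_mul] at h2
          exact hq2 h2
        refine ⟨(((α - 1) * q + 1 : ℕ) : ℤ), (((α - 2) * q + (q % (p' + 1)) * v + 1 : ℕ) : ℤ),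
          ?_, ?_, ?_⟩
        · positivity
        · have h3 : (α - 1) * q + 1 < (p' + 1) * q := by
            have h4 : (α - 1 + 1) * q ≤ (p' + 1) * q := Nat.mul_le_mul_right _ (by omega)
            have h5 : (α - 1 + 1) * q = (α - 1) * q + q := by ring
            omega
          exact_mod_cast h3
        · rw [hDivMinus (p' + 1) q α v hq0 hv hpv hvq' hαp hα2 h2 hq2]
          norm_num
      · obtain ⟨j0, j, n, hj0, hj, hn, hc⟩ := hDivBal (p' + 1) α q hα0 hq hq1 hq2
          (by rwa [mul_comm]) (by rwa [mul_comm])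
        refine ⟨((n * q + j * v : ℕ) : ℤ), ((j0 * q + j * v : ℕ) : ℤ), by positivity, ?_, ?_⟩
        · have h3 : n * q + j * v < (p' + 1) * q := by
            have h4 : j * v ≤ p' * v := Nat.mul_le_mul_right _ (by omega)
            have h5 : (n + 1) * q ≤ (p' + 1) * q := Nat.mul_le_mul_right _ (by omega)
            have h6 : (n + 1) * q = n * q + q := by ring
            omega
          exact_mod_cast h3
        · rw [hDivZero (p' + 1) q α v j0 j n hq0 hq hv hpv hvq' hα0 hj0 hj hn]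
          exact hc.trans (le_abs_self _)
  · -- `p ∤ v`
    have hv0 : (v : ZMod (p' + 1)) ≠ 0 := by
      rwa [Ne, ZMod.natCast_eq_zero_iff]
    set x : ZMod (p' + 1) := -((α * q + v : ℕ) : ZMod (p' + 1)) / (α : ZMod (p' + 1)) with hx
    set y : ZMod (p' + 1) := -(v : ZMod (p' + 1)) / (α : ZMod (p' + 1)) with hy
    set b : ZMod (p' + 1) := -(((α * q + v : ℕ) : ZMod (p' + 1)) * (v : ZMod (p' + 1))) /
      (α : ZMod (p' + 1)) with hb
    have hx0 : x ≠ 0 := div_ne_zero (neg_ne_zero.2 hD) hα0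
    have hy0 : y ≠ 0 := div_ne_zero (neg_ne_zero.2 hv0) hα0
    have hb0 : b ≠ 0 := div_ne_zero (neg_ne_zero.2 (mul_ne_zero hD hv0)) hα0
    have hxy : x ≠ y := by
      intro h
      rw [hx, hy, div_left_inj' hα0, neg_inj] at h
      push_cast at h
      have : (α : ZMod (p' + 1)) * q = 0 := by linear_combination h
      rcases mul_eq_zero.1 this with h1 | h1
      · exact hα0 h1
      · exact hq h1
    obtain ⟨m, z, hm, hmz⟩ : ∃ (m : ℕ) (z : ZMod (p' + 1)), m < p' + 1 ∧ 2 ≤ |EE x y 1 b m z| := by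
      by_cases h11 : 11 ≤ p' + 1
      · exact hWall (p' + 1) x y 1 b h11 hx0 hy0 hxy one_ne_zero hb0
      · refine hSmallP (p' + 1) ?_ x y 1 b hx0 hy0 hxy one_ne_zero hb0
        have : p' ≤ 9 := by omega
        interval_cases p' <;> first
          | omega
          | (exfalso; revert hpr; decide)
    -- the residue
    set κ : ℕ := p' * v + (z - ((p' * v : ℕ) : ZMod (p' + 1))).val with hκ
    have hval : (z - ((p' * v : ℕ) : ZMod (p' + 1))).val < p' + 1 := ZMod.val_lt _
    have hκz : (κ : ZMod (p' + 1)) = z := by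
      rw [hκ, Nat.cast_add, ZMod.natCast_val, ZMod.cast_id]
      ring
    have hp1 : p' + 1 - 1 = p' := by omega
    have hbulk := hBulk (p' + 1) q α v κ m hq0 hv (by rw [hp1]; exact hvq1) hm
      (by rw [hp1, hκ]; omega) (by rw [hκ]; omega) hα0
    rw [hκz] at hbulk
    refine ⟨(((m + 1) * q : ℕ) - 1 : ℤ), (κ : ℤ), ?_, ?_, ?_⟩
    · have : 0 < (m + 1) * q := by positivity
      have h2 : (0 : ℤ) < (((m + 1) * q : ℕ) : ℤ) := by exact_mod_cast this
      omega
    · have h1 : (m + 1) * q ≤ (p' + 1) * q := Nat.mul_le_mul_right _ (by omega)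
      have h2 : (((m + 1) * q : ℕ) : ℤ) ≤ (((p' + 1) * q : ℕ) : ℤ) := by exact_mod_cast h1
      have h3 : (((p' + 1) * q : ℕ) : ℤ) = ((p' + 1 : ℕ) : ℤ) * q := by push_cast; ring
      rw [← h3]
      omega
    · rw [hbulk]
      exact hmz

theorem near_multiple (hWall : stWall) (hSmallP : stSmallP) (hBulk : stBulk) (hDivZero : stDivZero)
    (hDivBal : stDivBal) (hDivOne : stDivOne) (hDivMinus : stDivMinus)
    {p q r v : ℕ} (hp : p.Prime) (hq : q.Prime) (hr : r.Prime) (hpo : Odd p)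
    (hpq : p < q) (hqr : q < r) (hv : 1 ≤ v) (hvq : (p - 1) * (v + 1) < q)
    (hrv : Int.ModEq (q : ℤ) (r * v) 1 ∨ Int.ModEq (q : ℤ) (r * v) (-1))
    (hflat : ∀ k : ℕ, |(cyclotomic (p * q * r) ℤ).coeff k| ≤ 1) :
    (Int.ModEq ((p * q : ℕ) : ℤ) (r * v) 1 ∨ Int.ModEq ((p * q : ℕ) : ℤ) (r * v) (-1)) ∨
    (p ∣ v ∧ (Int.ModEq (p : ℤ) (q : ℤ) 1 ∨ Int.ModEq (p : ℤ) (q : ℤ) (-1))) := by
  have : Fact p.Prime := ⟨hp⟩
  have hp3 : 3 ≤ p := by
    have h2 := hp.two_le
    rcases hpo with ⟨t, ht⟩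
    omega
  have hM : 0 < p * q := Nat.mul_pos hp.pos hq.pos
  have hMi : (0 : ℤ) < ((p * q : ℕ) : ℤ) := by exact_mod_cast hM
  have hM1 : 1 < p * q := by nlinarith [hp.two_le, hq.two_le]
  have hcop : Nat.Coprime r (p * q) := by
    apply Nat.Coprime.mul_right
    · exact (Nat.coprime_primes hr hp).2 (by omega)
    · exact (Nat.coprime_primes hr hq).2 (by omega)
  have hvltq : v < q := by
    have h1 : (v + 1) ≤ (p - 1) * (v + 1) := Nat.le_mul_of_pos_left _ (by omega)
    omega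
  obtain ⟨ε, hε, hrvε⟩ : ∃ ε : ℤ, (ε = 1 ∨ ε = -1) ∧ (q : ℤ) ∣ (r : ℤ) * v - ε := by
    rcases hrv with h | h
    · exact ⟨1, Or.inl rfl, h.symm.dvd⟩
    · exact ⟨-1, Or.inr rfl, h.symm.dvd⟩
  have hcopZ : IsCoprime (r : ℤ) ((p * q : ℕ) : ℤ) := Nat.isCoprime_iff_coprime.2 hcop
  -- `D`
  obtain ⟨D, hDlt, hDr⟩ : ∃ D : ℕ, D < p * q ∧ ((p * q : ℕ) : ℤ) ∣ (D : ℤ) * r - ε := by
    obtain ⟨u, w, huw⟩ := hcopZ
    refine ⟨((ε * u) % ((p * q : ℕ) : ℤ)).toNat, ?_, ?_⟩
    · have h1 := Int.emod_nonneg (ε * u) hMi.ne'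
      have h2 := Int.emod_lt_of_pos (ε * u) hMi
      omega
    · rw [Int.toNat_of_nonneg (Int.emod_nonneg _ hMi.ne')]
      have h3 := Int.emod_add_mul_ediv (ε * u) ((p * q : ℕ) : ℤ)
      refine ⟨-(ε * w) - (ε * u) / ((p * q : ℕ) : ℤ) * r, ?_⟩
      have h4 : (ε * u) % ((p * q : ℕ) : ℤ) = ε * u - ((p * q : ℕ) : ℤ) * ((ε * u) / ((p * q : ℕ) : ℤ)) := by
        linarith
      rw [h4]
      linear_combination ε * huw
  have hflatG : ∀ N k : ℤ, 0 ≤ N → N < p * q → |G p q D N k| ≤ 1 := by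
    intro N k hN hN1
    rcases hε with h | h
    · subst h
      exact G_le hp hq hr hpq hqr hflat hDr hN hN1
    · subst h
      have h1 : ((p * q : ℕ) : ℤ) ∣ (-(D : ℤ)) * r - 1 := by
        have := hDr.neg_right
        have e1 : -((D : ℤ) * r - -1) = (-(D : ℤ)) * r - 1 := by ring
        rwa [e1] at this
      have h2 := G_neg p q (-(D : ℤ)) N k
      rw [neg_neg] at h2
      rw [h2, abs_neg]
      exact G_le hp hq hr hpq hqr hflat h1 hN hN1
  -- `D = v` modulo `q`
  have hDv : (q : ℤ) ∣ (D : ℤ) - v := by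
    have hqM : (q : ℤ) ∣ ((p * q : ℕ) : ℤ) := by exact_mod_cast dvd_mul_left q p
    have h1 : (q : ℤ) ∣ (r : ℤ) * ((D : ℤ) - v) := by
      have h2 := dvd_sub (hqM.trans hDr) hrvε
      have e1 : (D : ℤ) * r - ε - (r * v - ε) = r * (D - v) := by ring
      rwa [e1] at h2
    have hc : IsCoprime (q : ℤ) (r : ℤ) := by
      apply Nat.isCoprime_iff_coprime.2
      exact (Nat.coprime_primes hq hr).2 (by omega)
    exact hc.dvd_of_dvd_mul_left h1
  obtain ⟨α, hα⟩ : ∃ α : ℕ, D = α * q + v := by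
    have h1 : D % q = v := by
      have h2 : (D : ℤ) % q = v % q := Int.ModEq.symm ((Int.modEq_iff_dvd).2 hDv)
      have h3 : D % q = v % q := by exact_mod_cast h2
      rw [h3, Nat.mod_eq_of_lt hvltq]
    refine ⟨D / q, ?_⟩
    have := Nat.div_add_mod D q
    rw [h1] at this
    linarith
  subst hα
  have hαp : α < p := by
    by_contra hge
    push Not at hge
    have : p * q ≤ α * q := Nat.mul_le_mul_right _ hge
    omega
  rcases Nat.eq_zero_or_pos α with h0 | hα1
  · left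
    subst h0
    rw [zero_mul, zero_add] at hDr
    rcases hε with h | h
    · subst h
      left
      rw [Int.modEq_iff_dvd]
      have := hDr.neg_right
      have e1 : -((v : ℤ) * r - 1) = 1 - (r : ℤ) * v := by ring
      rwa [e1] at this
    · subst h
      right
      rw [Int.modEq_iff_dvd]
      have := hDr.neg_right
      have e1 : -((v : ℤ) * r - -1) = -1 - (r : ℤ) * v := by ring
      rwa [e1] at this
  · right
    by_contra hcon
    have hD0 : ((α * q + v : ℕ) : ZMod p) ≠ 0 := by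
      intro h
      have h1 : (p : ℤ) ∣ ((α * q + v : ℕ) : ℤ) := by
        rw [ZMod.natCast_eq_zero_iff] at h
        exact_mod_cast h
      have hpM : (p : ℤ) ∣ ((p * q : ℕ) : ℤ) := by exact_mod_cast dvd_mul_right p q
      have h2 := dvd_sub (h1.mul_right (r : ℤ)) (hpM.trans hDr)
      have h3 : (p : ℤ) ∣ ε := by simpa using h2
      have h4 : (p : ℤ) ∣ 1 := by
        rcases hε with h | h
        · rwa [h] at h3
        · rw [h, dvd_neg] at h3; exact h3
      have := Int.le_of_dvd one_pos h4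
      omega
    have hq0 : (q : ZMod p) ≠ 0 := by
      rw [Ne, ZMod.natCast_eq_zero_iff]
      intro h
      have := (Nat.prime_dvd_prime_iff_eq hp hq).1 h
      omega
    obtain ⟨N, k, hN, hN1, hv2⟩ := viol_of hWall hSmallP hBulk hDivZero hDivBal hDivOne hDivMinus
      hp3 hq.pos hα1 hαp hv hvq hq0 hD0 (by
        rintro ⟨h1, h2⟩
        apply hcon
        refine ⟨h1, ?_⟩
        rcases h2 with h2 | h2
        · left
          rw [← ZMod.intCast_eq_intCast_iff]
          push_cast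
          exact h2
        · right
          rw [← ZMod.intCast_eq_intCast_iff]
          push_cast
          exact h2)
    have := hflatG N k hN hN1
    omega

end Pool.Agent.Helper10.W1
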