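import Pool.Agent.Helper10.W1.StD

set_option autoImplicit false

/-!
# Module DIVZERO
-/

namespace Pool.Agent.Helper10.W1

open Finset
open Pool.Agent.Helper55.FT (mm av bv G bv_congr)

/-- the sum `mm` has one term -/
private lemma mm_eq (p q : ℕ) [Fact p.Prime] (hq : (q : ZMod p) ≠ 0) (i z : ℤ) (t : ℕ)
    (ht : t < p) (hz : ((z - i : ℤ) : ZMod p) = (t : ZMod p) * (q : ZMod p)) :
    mm p q i z = if (t : ℤ) * q ≤ z then 1 else 0 := by
  unfold mm
  rw [Finset.sum_eq_single t]
  · have h1 : (p : ℤ) ∣ z - i - t * q := by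
      rw [← ZMod.intCast_zmod_eq_zero_iff_dvd]
      push_cast at hz ⊢
      rw [hz, sub_self]
    simp [h1]
  · intro l hl hlt
    rw [if_neg]
    rintro ⟨_, h2⟩
    apply hlt
    rw [← ZMod.intCast_zmod_eq_zero_iff_dvd] at h2
    push_cast at hz h2
    have h3 : (l : ZMod p) * q = t * q := by
      rw [← hz]
      linear_combination -h2
    have h4 : (l : ZMod p) = t := mul_right_cancel₀ hq h3
    have h5 := congrArg ZMod.val h4
    rwa [ZMod.val_natCast_of_lt (Finset.mem_range.1 hl), ZMod.val_natCast_of_lt ht] at h5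
  · intro h
    exact absurd (Finset.mem_range.2 ht) h

private lemma sum_shift (p : ℕ) [Fact p.Prime] (α c : ZMod p) (hα : α ≠ 0) (F : ZMod p → ℤ) :
    ∑ e ∈ range p, F (c - (e : ZMod p) * α) = ∑ z, F z := by
  have h1 : ∑ e ∈ range p, F (c - (e : ZMod p) * α) = ∑ x : ZMod p, F (c - x * α) := by
    refine Finset.sum_nbij' (fun e => (e : ZMod p)) (fun x => x.val) ?_ ?_ ?_ ?_ ?_
    · intro e _
      exact Finset.mem_univ _
    · intro x _
      exact Finset.mem_range.2 (ZMod.val_lt x)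
    · intro e he
      exact ZMod.val_natCast_of_lt (Finset.mem_range.1 he)
    · intro x _
      exact ZMod.natCast_zmod_val x
    · intro e _
      rfl
  rw [h1]
  exact Equiv.sum_comp ((Equiv.mulRight₀ α hα).trans (Equiv.subLeft c)) F

/-- the value of `bv` at `ρ q + (j - e) v` -/
private lemma bv_val (p q v j n : ℕ) [Fact p.Prime] (hq0 : 0 < q) (hq : (q : ZMod p) ≠ 0)
    (hv : 1 ≤ v) (hpv : p ∣ v) (hvq : (p - 1) * v < q) (hj : j + 1 < p) (hn : n + 1 < p)
    (ρ e : ℕ) (hρ : ρ < p) (he : e < p) (y : ℤ)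
    (hy : ((p * q : ℕ) : ℤ) ∣ y - ((ρ : ℤ) * q + ((j : ℤ) - e) * v)) :
    bv p q ((n * q + j * v : ℕ) : ℤ) y =
      (if ρ ≤ n ∧ e ≤ j then 1 else 0) -
        (if ((q : ZMod p)⁻¹).val ≤ ρ ∧ ρ ≤ n then 1 else 0) := by
  have hp : 2 ≤ p := (Fact.out : p.Prime).two_le
  set μ := ((q : ZMod p)⁻¹).val with hμ
  have hμp : μ < p := ZMod.val_lt _
  have hμ1 : 1 ≤ μ := by
    have : μ ≠ 0 := by
      rw [hμ, Ne, ZMod.val_eq_zero]
      exact inv_ne_zero hq
    omega
  have hμq : ((μ : ℕ) : ZMod p) * (q : ZMod p) = 1 := by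
    rw [hμ, ZMod.natCast_zmod_val]
    exact inv_mul_cancel₀ hq
  have hv0 : (v : ZMod p) = 0 := (ZMod.natCast_eq_zero_iff _ _).2 hpv
  have hvp : ∀ d : ℕ, d < p → (d : ℤ) * v < q := by
    intro d hd
    have h1 : d * v ≤ (p - 1) * v := Nat.mul_le_mul_right _ (by omega)
    have h2 : d * v < q := lt_of_le_of_lt h1 hvq
    exact_mod_cast h2
  have hqz : (0 : ℤ) < q := by exact_mod_cast hq0
  have hvz : (1 : ℤ) ≤ v := by exact_mod_cast hv
  have hjv := hvp j (by omega)
  -- the two values of `l`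
  have key0 : ∀ z : ℤ, ((z : ℤ) : ZMod p) = (ρ : ZMod p) * q →
      mm p q 0 z = if (ρ : ℤ) * q ≤ z then 1 else 0 := by
    intro z hz
    exact mm_eq p q hq 0 z ρ hρ (by rw [sub_zero]; exact hz)
  have key1 : ∀ z : ℤ, ((z : ℤ) : ZMod p) = (ρ : ZMod p) * q →
      mm p q 1 z = if ((if μ ≤ ρ then ρ - μ else ρ + p - μ : ℕ) : ℤ) * q ≤ z then 1 else 0 := by
    intro z hz
    apply mm_eq p q hq 1 z
    · split_ifs <;> omega
    · push_cast
      rw [hz]
      have h1 : (((if μ ≤ ρ then ρ - μ else ρ + p - μ : ℕ)) : ZMod p) = (ρ : ZMod p) - μ := by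
        split_ifs with h
        · rw [Nat.cast_sub h]
        · rw [Nat.cast_sub (by omega), Nat.cast_add, ZMod.natCast_self, add_zero]
      rw [show ((if μ ≤ ρ then ((ρ - μ : ℕ) : ZMod p) else ((ρ + p - μ : ℕ) : ZMod p))) =
        (((if μ ≤ ρ then ρ - μ else ρ + p - μ : ℕ)) : ZMod p) by split_ifs <;> rfl, h1]
      linear_combination hμq
  rcases le_or_gt e j with hej | hej
  · -- first type
    set z : ℤ := (ρ : ℤ) * q + ((j : ℤ) - e) * v with hz
    have hd0 : (0 : ℤ) ≤ ((j : ℤ) - e) * v := by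
      apply mul_nonneg
      · have : (e : ℤ) ≤ j := by exact_mod_cast hej
        linarith
      · linarith
    have hd1 : ((j : ℤ) - e) * v < q := by
      have h1 := hvp (j - e) (by omega)
      rwa [Nat.cast_sub hej] at h1
    have hz0 : 0 ≤ z := by positivity
    have hzlt : z < ((p : ℤ) * q) := by
      have h1 : (ρ : ℤ) + 1 ≤ p := by exact_mod_cast hρ
      nlinarith
    have hzmod : z % ((p : ℤ) * q) = z := Int.emod_eq_of_lt hz0 hzlt
    rw [bv_congr hy]
    unfold bv
    rw [hzmod]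
    have hzc : ((z : ℤ) : ZMod p) = (ρ : ZMod p) * q := by
      rw [hz]
      push_cast
      rw [hv0, mul_zero, add_zero]
    have hrow : ∀ l : ℕ, (l : ℤ) * q ≤ z ↔ l ≤ ρ := by
      intro l
      constructor
      · intro h
        by_contra hcon
        have h1 : (ρ : ℤ) + 1 ≤ l := by
          have : ρ + 1 ≤ l := by omega
          exact_mod_cast this
        nlinarith
      · intro h
        have h1 : (l : ℤ) ≤ ρ := by exact_mod_cast h
        nlinarith
    have hN : z ≤ ((n * q + j * v : ℕ) : ℤ) ↔ ρ ≤ n := by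
      push_cast
      constructor
      · intro h
        by_contra hcon
        have h1 : (n : ℤ) + 1 ≤ ρ := by
          have : n + 1 ≤ ρ := by omega
          exact_mod_cast this
        nlinarith
      · intro h
        have h1 : (ρ : ℤ) ≤ n := by exact_mod_cast h
        have h2 : ((j : ℤ) - e) * v ≤ j * v := by
          have : (0 : ℤ) ≤ e := Nat.cast_nonneg e
          nlinarith
        nlinarith
    unfold av
    rw [key0 z hzc, key1 z hzc, if_pos ((hrow ρ).2 le_rfl)]
    have h3 : (((if μ ≤ ρ then ρ - μ else ρ + p - μ : ℕ) : ℤ) * q ≤ z) ↔ μ ≤ ρ := by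
      rw [hrow]
      split_ifs <;> omega
    by_cases h1 : ρ ≤ n <;> by_cases h2 : μ ≤ ρ
    · rw [if_pos (hN.2 h1), if_pos (h3.2 h2), if_pos ⟨h1, hej⟩, if_pos ⟨h2, h1⟩]
    · rw [if_pos (hN.2 h1), if_neg (fun h => h2 (h3.1 h)), if_pos ⟨h1, hej⟩,
        if_neg (fun h => h2 h.1)]
    · rw [if_neg (fun h => h1 (hN.1 h)), if_neg (fun h => h1 h.1), if_neg (fun h => h1 h.2)]
      rfl
    · rw [if_neg (fun h => h1 (hN.1 h)), if_neg (fun h => h1 h.1), if_neg (fun h => h1 h.2)]
      rfl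
  · -- second type
    have hd0 : (1 : ℤ) ≤ ((e : ℤ) - j) * v := by
      have h1 : (1 : ℤ) ≤ (e : ℤ) - j := by
        have : (j : ℤ) + 1 ≤ e := by exact_mod_cast hej
        linarith
      nlinarith
    have hd1 : ((e : ℤ) - j) * v < q := by
      have h1 := hvp (e - j) (by omega)
      rwa [Nat.cast_sub hej.le] at h1
    have hev := hvp e he
    have hpq : ((p : ℤ) - 1) * q + q = p * q := by ring
    have hn' : (n : ℤ) + 1 ≤ p - 1 := by
      have : n + 2 ≤ p := by omega
      have h2 : (n : ℤ) + 2 ≤ p := by exact_mod_cast this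
      linarith
    rcases Nat.eq_zero_or_pos ρ with h0 | h0
    · -- row `p - 1`
      set z : ℤ := (p : ℤ) * q - ((e : ℤ) - j) * v with hz
      have hz0 : 0 ≤ z := by
        have h1 : (1 : ℤ) ≤ p := by exact_mod_cast (by omega : 1 ≤ p)
        nlinarith
      have hzlt : z < ((p : ℤ) * q) := by linarith
      have hzmod : z % ((p : ℤ) * q) = z := Int.emod_eq_of_lt hz0 hzlt
      have hyz : ((p * q : ℕ) : ℤ) ∣ y - z := by
        have e1 : y - z = (y - ((ρ : ℤ) * q + ((j : ℤ) - e) * v)) - ((p * q : ℕ) : ℤ) := by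
          rw [hz, h0]
          push_cast
          ring
        rw [e1]
        exact dvd_sub hy dvd_rfl
      rw [bv_congr hyz]
      unfold bv
      rw [hzmod, if_neg, if_neg (fun h => absurd h.2 (by omega)), if_neg (fun h => by
        have := h.1
        omega)]
      · rfl
      · push_cast
        nlinarith
    · set z : ℤ := (ρ : ℤ) * q - ((e : ℤ) - j) * v with hz
      have hρ1 : (1 : ℤ) ≤ ρ := by exact_mod_cast h0
      have hz0 : 0 ≤ z := by nlinarith
      have hzlt : z < ((p : ℤ) * q) := by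
        have h1 : (ρ : ℤ) ≤ p := by exact_mod_cast hρ.le
        nlinarith
      have hzmod : z % ((p : ℤ) * q) = z := Int.emod_eq_of_lt hz0 hzlt
      have hyz : ((p * q : ℕ) : ℤ) ∣ y - z := by
        have e1 : y - z = y - ((ρ : ℤ) * q + ((j : ℤ) - e) * v) := by
          rw [hz]
          ring
        rw [e1]
        exact hy
      rw [bv_congr hyz]
      unfold bv
      rw [hzmod]
      have hzc : ((z : ℤ) : ZMod p) = (ρ : ZMod p) * q := by
        rw [hz]
        push_cast
        rw [hv0, mul_zero, sub_zero]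
      have hrow : ∀ l : ℕ, (l : ℤ) * q ≤ z ↔ l < ρ := by
        intro l
        constructor
        · intro h
          by_contra hcon
          have h1 : (ρ : ℤ) ≤ l := by
            have : ρ ≤ l := by omega
            exact_mod_cast this
          nlinarith
        · intro h
          have h1 : (l : ℤ) + 1 ≤ ρ := by exact_mod_cast h
          nlinarith
      have hN : z ≤ ((n * q + j * v : ℕ) : ℤ) ↔ ρ ≤ n := by
        push_cast
        constructor
        · intro h
          by_contra hcon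
          have h1 : (n : ℤ) + 1 ≤ ρ := by
            have : n + 1 ≤ ρ := by omega
            exact_mod_cast this
          nlinarith
        · intro h
          have h1 : (ρ : ℤ) ≤ n := by exact_mod_cast h
          have h2 : (0 : ℤ) ≤ j * v := by positivity
          nlinarith
      unfold av
      rw [key0 z hzc, key1 z hzc, if_neg (fun h => absurd ((hrow ρ).1 h) (lt_irrefl _))]
      have h3 : (((if μ ≤ ρ then ρ - μ else ρ + p - μ : ℕ) : ℤ) * q ≤ z) ↔ μ ≤ ρ := by
        rw [hrow]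
        split_ifs <;> omega
      rw [if_neg (c := ρ ≤ n ∧ e ≤ j) (fun h => absurd h.2 (by omega))]
      by_cases h1 : ρ ≤ n <;> by_cases h2 : μ ≤ ρ
      · rw [if_pos (hN.2 h1), if_pos (h3.2 h2), if_pos ⟨h2, h1⟩]
      · rw [if_pos (hN.2 h1), if_neg (fun h => h2 (h3.1 h)), if_neg (fun h => h2 h.1)]
      · rw [if_neg (fun h => h1 (hN.1 h)), if_neg (fun h => h1 h.2)]
        rfl
      · rw [if_neg (fun h => h1 (hN.1 h)), if_neg (fun h => h1 h.2)]
        rfl

theorem thDivZero : stDivZero := by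
  intro p q α v j0 j n _ hq0 hq hv hpv hvq hα hj0 hj hn
  have hp : 2 ≤ p := (Fact.out : p.Prime).two_le
  set μ := ((q : ZMod p)⁻¹).val with hμ
  set r1 : ℕ → ℕ := fun e => ((j0 : ZMod p) - (e : ZMod p) * (α : ZMod p)).val with hr1
  set r2 : ℕ → ℕ := fun e =>
    ((j0 : ZMod p) - ((e : ZMod p) + (q : ZMod p)) * (α : ZMod p)).val with hr2
  have hcast : ∀ (a : ℤ) (r : ℕ), ((a : ℤ) : ZMod p) = (r : ZMod p) → (p : ℤ) ∣ a - r := by
    intro a r h
    rw [← ZMod.intCast_zmod_eq_zero_iff_dvd]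
    push_cast
    rw [h, sub_self]
  have h1 : ∀ e ∈ range p, bv p q ((n * q + j * v : ℕ) : ℤ)
      (((j0 * q + j * v : ℕ) : ℤ) - e * ((α * q + v : ℕ) : ℤ)) =
      (if r1 e ≤ n ∧ e ≤ j then 1 else 0) - (if μ ≤ r1 e ∧ r1 e ≤ n then 1 else 0) := by
    intro e he
    apply bv_val p q v j n hq0 hq hv hpv hvq hj hn (r1 e) e (ZMod.val_lt _)
      (Finset.mem_range.1 he)
    have h2 : (p : ℤ) ∣ ((j0 : ℤ) - e * α) - (r1 e : ℤ) := by
      apply hcast
      rw [hr1]
      push_cast
      rw [ZMod.natCast_zmod_val]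
    obtain ⟨k, hk⟩ := h2
    refine ⟨k, ?_⟩
    push_cast
    linear_combination (q : ℤ) * hk
  have h2 : ∀ e ∈ range p, bv p q ((n * q + j * v : ℕ) : ℤ)
      (((j0 * q + j * v : ℕ) : ℤ) - e * ((α * q + v : ℕ) : ℤ) - q * ((α * q + v : ℕ) : ℤ)) =
      (if r2 e ≤ n ∧ e ≤ j then 1 else 0) - (if μ ≤ r2 e ∧ r2 e ≤ n then 1 else 0) := by
    intro e he
    apply bv_val p q v j n hq0 hq hv hpv hvq hj hn (r2 e) e (ZMod.val_lt _)
      (Finset.mem_range.1 he)
    have h2 : (p : ℤ) ∣ ((j0 : ℤ) - (e + q) * α) - (r2 e : ℤ) := by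
      apply hcast
      rw [hr2]
      push_cast
      rw [ZMod.natCast_zmod_val]
    obtain ⟨k, hk⟩ := h2
    obtain ⟨w, hw⟩ := hpv
    have hw' : (v : ℤ) = p * w := by exact_mod_cast hw
    refine ⟨k - w, ?_⟩
    push_cast
    linear_combination (q : ℤ) * hk - (q : ℤ) * hw'
  have h3 : ∑ e ∈ range p, (if μ ≤ r1 e ∧ r1 e ≤ n then (1 : ℤ) else 0) =
      ∑ z : ZMod p, (if μ ≤ z.val ∧ z.val ≤ n then (1 : ℤ) else 0) :=
    sum_shift p α j0 hα (fun z => if μ ≤ z.val ∧ z.val ≤ n then (1 : ℤ) else 0)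
  have h4 : ∑ e ∈ range p, (if μ ≤ r2 e ∧ r2 e ≤ n then (1 : ℤ) else 0) =
      ∑ z : ZMod p, (if μ ≤ z.val ∧ z.val ≤ n then (1 : ℤ) else 0) := by
    rw [← sum_shift p α ((j0 : ZMod p) - (q : ZMod p) * α) hα
      (fun z => if μ ≤ z.val ∧ z.val ≤ n then (1 : ℤ) else 0)]
    apply Finset.sum_congr rfl
    intro e _
    have e1 : (j0 : ZMod p) - (q : ZMod p) * α - (e : ZMod p) * α =
        (j0 : ZMod p) - ((e : ZMod p) + (q : ZMod p)) * (α : ZMod p) := by ring
    rw [e1]
  have h5 : ∀ r : ℕ → ℕ, ∑ e ∈ range p, (if r e ≤ n ∧ e ≤ j then (1 : ℤ) else 0) =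
      (((range (j + 1)).filter (fun e : ℕ => r e ≤ n)).card : ℤ) := by
    intro r
    rw [Finset.card_filter]
    push_cast
    have hsub : range (j + 1) ⊆ range p := Finset.range_subset_range.2 (by omega)
    rw [← Finset.sum_subset hsub]
    · apply Finset.sum_congr rfl
      intro e he
      have : e ≤ j := by
        have := Finset.mem_range.1 he
        omega
      simp [this]
    · intro e _ he
      rw [if_neg]
      rintro ⟨_, h⟩
      exact he (Finset.mem_range.2 (by omega))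
  unfold G
  rw [Finset.sum_sub_distrib, Finset.sum_congr rfl h1, Finset.sum_congr rfl h2,
    Finset.sum_sub_distrib, Finset.sum_sub_distrib, h3, h4, h5, h5]
  ring

end Pool.Agent.Helper10.W1
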