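import Pool.Agent.Helper10.W1.StD

set_option autoImplicit false

/-!
# Near multiples of `q`: module TWOVAL (and UNIQSYM)
-/

namespace Pool.Agent.Helper10.W1

open Finset
open scoped Pointwise

namespace TwoVal

theorem const_of_shift {p : ℕ} [Fact p.Prime] (v : ZMod p → ℤ) (y : ZMod p) (hy : y ≠ 0)
    (h : ∀ z, v z = v (z - y)) (z : ZMod p) : v z = v 0 := by
  have h1 : ∀ n : ℕ, v ((n : ZMod p) * y) = v 0 := by
    intro n
    induction n with
    | zero => simp
    | succ n ih =>
      rw [h]
      have e : ((n + 1 : ℕ) : ZMod p) * y - y = (n : ZMod p) * y := by push_cast; ring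
      rw [e, ih]
  have h2 := h1 (z / y).val
  rw [ZMod.natCast_zmod_val, div_mul_cancel₀ z hy] at h2
  exact h2

theorem zero_of_shift {p : ℕ} [Fact p.Prime] (v : ZMod p → ℤ) (y : ZMod p) (hy : y ≠ 0)
    (h : ∀ z, v z = v (z - y)) (hs : ∑ z, v z = 0) (z : ZMod p) : v z = 0 := by
  have h1 : ∑ z, v z = ∑ _z : ZMod p, v 0 :=
    Finset.sum_congr rfl (fun z _ => const_of_shift v y hy h z)
  rw [hs, Finset.sum_const, Finset.card_univ, ZMod.card] at h1
  have hp : (p : ℤ) ≠ 0 := by
    exact_mod_cast (Fact.out : p.Prime).ne_zero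
  have h2 : (p : ℤ) * v 0 = 0 := by
    rw [nsmul_eq_mul] at h1
    exact h1.symm
  rw [const_of_shift v y hy h z]
  rcases mul_eq_zero.mp h2 with h3 | h3
  · exact absurd h3 hp
  · exact h3

theorem sum_shift {p : ℕ} [Fact p.Prime] (w : ZMod p → ℤ) (x : ZMod p) :
    ∑ z, w (z - x) = ∑ z, w z :=
  Fintype.sum_equiv (Equiv.subRight x) _ _ (fun _ => rfl)

theorem dl_neg {p : ℕ} (z : ZMod p) : dl (-z) = dl z := by
  unfold dl
  simp only [neg_eq_zero]

end TwoVal

theorem thUniqSym : stUniqSym := by
  intro p _ u x y a b t σ hx hy h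
  set w : ZMod p → ℤ := fun z => u (2 * t + a + b - x - y - z) - u z with hw
  have hD : ∀ z, w z - w (z - x) - w (z - y) + w (z - x - y) = 0 := by
    intro z
    have h1 := h z
    have h2 := h (2 * t + a + b - z)
    have e1 : 2 * t + a + b - z - t = -(z - t - a - b) := by ring
    have e2 : 2 * t + a + b - z - t - a = -(z - t - b) := by ring
    have e3 : 2 * t + a + b - z - t - b = -(z - t - a) := by ring
    have e4 : 2 * t + a + b - z - t - a - b = -(z - t) := by ring
    rw [e4, e3, e2, e1] at h2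
    rw [TwoVal.dl_neg, TwoVal.dl_neg, TwoVal.dl_neg, TwoVal.dl_neg] at h2
    have f1 : 2 * t + a + b - z - x = 2 * t + a + b - x - y - (z - y) := by ring
    have f2 : 2 * t + a + b - z - y = 2 * t + a + b - x - y - (z - x) := by ring
    have f3 : 2 * t + a + b - x - y - (z - x - y) = 2 * t + a + b - z := by ring
    have f4 : 2 * t + a + b - z - x - y = 2 * t + a + b - x - y - z := by ring
    simp only [hw]
    rw [f4, f1, f2] at h2
    rw [f3]
    linarith
  have hws : ∑ z, w z = 0 := by
    simp only [hw]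
    rw [Finset.sum_sub_distrib]
    have : ∑ z, u (2 * t + a + b - x - y - z) = ∑ z, u z :=
      Fintype.sum_equiv (Equiv.subLeft (2 * t + a + b - x - y)) _ _ (fun _ => rfl)
    rw [this, sub_self]
  have hv : ∀ z, w z - w (z - x) = 0 := by
    refine TwoVal.zero_of_shift (fun z => w z - w (z - x)) y hy (fun z => ?_) ?_
    · have := hD z
      have e : z - y - x = z - x - y := by ring
      show w z - w (z - x) = w (z - y) - w (z - y - x)
      rw [e]
      linarith
    · rw [Finset.sum_sub_distrib, TwoVal.sum_shift w x, sub_self]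
  have hz := TwoVal.zero_of_shift w x hx (fun z => by have := hv z; linarith) hws
  intro z
  have := hz z
  simp only [hw] at this
  linarith

theorem thTwoVal : stTwoVal := by
  intro p _ f F C hp hF habs hsum hne
  obtain ⟨z0, -, hz0⟩ := Finset.exists_min_image (Finset.univ : Finset (ZMod p)) f
    Finset.univ_nonempty
  have hmin : ∀ z, f z0 ≤ f z := fun z => hz0 z (Finset.mem_univ z)
  have hp3 : (3 : ℤ) ≤ p := by exact_mod_cast hp
  have hval : ∀ z, f z = f z0 ∨ f z = f z0 + 1 := by
    intro z
    have h1 := hF z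
    have h2 := hF z0
    have h3 := abs_le.mp (habs z)
    have h4 := abs_le.mp (habs z0)
    have h5 := hmin z
    have h6 : (p : ℤ) * (f z - f z0) < p * 2 := by nlinarith
    have h7 : f z - f z0 < 2 := lt_of_mul_lt_mul_left h6 (by linarith)
    omega
  set A : Finset (ZMod p) := Finset.univ.filter (fun z => f z = f z0 + 1) with hA
  have hchi : ∀ z, f z = f z0 + chi A z := by
    intro z
    unfold chi
    by_cases hz : z ∈ A
    · rw [if_pos hz]
      exact (Finset.mem_filter.mp hz).2
    · rw [if_neg hz]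
      rcases hval z with h | h
      · rw [h, add_zero]
      · exact absurd (Finset.mem_filter.mpr ⟨Finset.mem_univ z, h⟩) hz
  have hsumchi : ∑ z, chi A z = (A.card : ℤ) := by
    unfold chi
    rw [Finset.sum_ite_mem, Finset.univ_inter, Finset.sum_const, nsmul_eq_mul, mul_one]
  have hC : (p : ℤ) * (p * f z0 + A.card + C) = 0 := by
    have h1 : ∑ z, F z = ∑ z, ((p : ℤ) * f z0 + C + p * chi A z) := by
      refine Finset.sum_congr rfl (fun z _ => ?_)
      rw [hF z, hchi z]; ring
    rw [hsum, Finset.sum_add_distrib, ← Finset.mul_sum, hsumchi, Finset.sum_const,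
      Finset.card_univ, ZMod.card, nsmul_eq_mul] at h1
    linarith
  have hp0 : (p : ℤ) ≠ 0 := by linarith
  have hC' : (p : ℤ) * f z0 + A.card + C = 0 := by
    rcases mul_eq_zero.mp hC with h | h
    · exact absurd h hp0
    · exact h
  have hAne : A.Nonempty := by
    obtain ⟨z, w, hzw⟩ := hne
    rcases hval z with h | h
    · rcases hval w with h' | h'
      · exact absurd (h.trans h'.symm) hzw
      · exact ⟨w, Finset.mem_filter.mpr ⟨Finset.mem_univ w, h'⟩⟩
    · exact ⟨z, Finset.mem_filter.mpr ⟨Finset.mem_univ z, h⟩⟩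
  refine ⟨A, f z0, ?_, ?_, hchi⟩
  · obtain ⟨z, hz⟩ := hAne
    have h1 := (abs_le.mp (habs z)).2
    have h2 := (Finset.mem_filter.mp hz).2
    rw [hF z, h2] at h1
    have : (2 : ℤ) ≤ A.card := by linarith
    exact_mod_cast this
  · have h1 := (abs_le.mp (habs z0)).1
    rw [hF z0] at h1
    have : (A.card : ℤ) + 2 ≤ p := by linarith
    exact_mod_cast this

end Pool.Agent.Helper10.W1
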