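import Pool.Agent.Helper10.W1.Defs
import Pool.Agent.Helper55.FT.Flat

set_option autoImplicit false

/-!
# Near multiples of `q`: statements, parts D, E, F
-/

namespace Pool.Agent.Helper10.W1

open Finset
open scoped Pointwise

/-- MODULE RINGID.  Identity in a commutative ring, induction on `m`. -/
def stRingId : Prop := ∀ (R : Type) [CommRing R] (X Y : R) (m : ℕ),
  (1 - X) * (1 - Y) * (X - Y) *
    (∑ i ∈ range (m + 1), ∑ j ∈ range (m + 1 - i), X ^ i * Y ^ j) =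
  (X - Y) - X ^ (m + 2) * (1 - Y) + Y ^ (m + 2) * (1 - X)

/-- MODULE DEC (assume `hRing : stRingId`).  Work in the group ring `AddMonoidAlgebra ℤ (ZMod p)`,
`X = single x 1`, `Y`, `W = single (y - x) 1` (so `X W = Y`), `A`, `B`; the coefficient of `single c 1 * u`
at `z` is `u (z - c)`.  With `n = (a / x).val`: `(1 - X) (∑ i < n, X ^ i) = 1 - X ^ n = 1 - A`.
`f = (∑ X ^ i) (∑ Y ^ j)`, `g = - X (∑ X ^ i) (∑ W ^ j)`, `h = Y W (∑ Y ^ i) (∑ W ^ j)` satisfy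
`(1 - X) (1 - Y) f = (1 - A) (1 - B)`, `(1 - X) (1 - W) g = - X (1 - A) (1 - B)`,
`(1 - Y) (1 - W) h = Y W (1 - A) (1 - B)`.  By `stRingId`,
`u = (1 - A) (1 - B) h_m - f - X ^ m g - Y ^ m h` satisfies `X (1 - X) (1 - Y) (1 - W) u = 0`.  If
`(1 - single c 1) v = 0` with `c ≠ 0` then `v` is constant; and if moreover `v = (1 - single d 1) v'`
then its sum is `0`, so `v = 0`.  So `u` is constant.  The second statement is
`(1 - X) (1 - Y) f = (1 - A) (1 - B)` and so on, read on coefficients. -/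
def stDec : Prop := ∀ (p : ℕ) [Fact p.Prime] (x y a b : ZMod p), x ≠ 0 → y ≠ 0 → x ≠ y → a ≠ 0 → b ≠ 0 →
  ∃ f g h : ZMod p → ℤ,
    (∀ m : ℕ, ∃ c : ℤ, ∀ z, EE x y a b m z = f z + g (z - m * x) + h (z - m * y) + c) ∧
    (∀ z, f z - f (z - x) - f (z - y) + f (z - x - y) =
      dl z - dl (z - a) - dl (z - b) + dl (z - a - b)) ∧
    (∀ z, g z - g (z - x) - g (z - (y - x)) + g (z - x - (y - x)) =
      -(dl (z - x) - dl (z - x - a) - dl (z - x - b) + dl (z - x - a - b))) ∧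
    (∀ z, h z - h (z - y) - h (z - (y - x)) + h (z - y - (y - x)) =
      dl (z - y - (y - x)) - dl (z - y - (y - x) - a) - dl (z - y - (y - x) - b) +
        dl (z - y - (y - x) - a - b))

/-- MODULE VANISH (assume `hRing : stRingId`).  `EE` vanishes for `m = p - 1` and `m = p - 2`: in the group
ring, `X ^ p = 1`, so `(1 - X) (1 - Y) (X - Y) h_m = 0`, `h_m` is constant on `ZMod p`. Also
the sum of `EE` over `z` is `0` for every `m`. -/
def stVanish : Prop := ∀ (p : ℕ) [Fact p.Prime] (x y a b : ZMod p), x ≠ 0 → y ≠ 0 → x ≠ y →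
  (∀ z, EE x y a b (p - 1) z = 0) ∧ (∀ z, EE x y a b (p - 2) z = 0) ∧
  (∀ m, ∑ z, EE x y a b m z = 0)

/-- MODULE UNIQSYM.  A function with a palindromic second difference is palindromic: let
`u z - u (z - x) - u (z - y) + u (z - x - y) = σ (dl (z - t) - dl (z - t - a) - dl (z - t - b) + dl (z - t - a - b))`,
then `u' z = u (2 t + a + b - x - y - z)` satisfies the same relation and has the same sum, and two
functions with the same relation differ by a constant (cancel `x`, then `y`). -/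
def stUniqSym : Prop := ∀ (p : ℕ) [Fact p.Prime] (u : ZMod p → ℤ) (x y a b t : ZMod p) (σ : ℤ),
  x ≠ 0 → y ≠ 0 →
  (∀ z, u z - u (z - x) - u (z - y) + u (z - x - y) =
    σ * (dl (z - t) - dl (z - t - a) - dl (z - t - b) + dl (z - t - a - b))) →
  ∀ z, u (2 * t + a + b - x - y - z) = u z

/-- MODULE TWOVAL.  Let `F z = ∑ m < p, E m z`, `|F| ≤ p - 2` (all `|E m z| ≤ 1`, two of the levels vanish).
The sums of the translates of `g` and `h` over `m` are constant, so `F = p f + const`; `∑ F = 0`.  As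
`f` is not constant, with `c = min f` one gets `f ∈ {c, c + 1}`, `A = {f = c + 1}`, and
`F = p - #A` on `A`, `- #A` off `A`, so `2 ≤ #A ≤ p - 2`.  In the same way for `g`
(`∑ E m (z + m x) = p g z + const`) and `h`.  (`f` is not constant: the second difference would be `0`, but
`a, b ≠ 0`; the same for `g`, `h`.)  This statement treats one function. -/
def stTwoVal : Prop := ∀ (p : ℕ) [Fact p.Prime] (f F : ZMod p → ℤ) (C : ℤ), 3 ≤ p →
  (∀ z, F z = p * f z + C) → (∀ z, |F z| ≤ p - 2) → (∑ z, F z = 0) → (∃ z w, f z ≠ f w) →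
  ∃ (A : Finset (ZMod p)) (c : ℤ), 2 ≤ A.card ∧ A.card + 2 ≤ p ∧ ∀ z, f z = c + chi A z

/-- MODULE WALL (assume `hDec, hVanish, hUniqSym, hTwoVal, hTrio : stTrio`, `hBasics` where `stTrio` and
`stBasics` are in `StB`).  Suppose all `|EE x y a b m z| ≤ 1`.  `f = c + chi A`, `g = c' + chi B`,
`h = c'' + chi C` (`stTwoVal`), and the sum over `z` of
`EE m z = chi A z + chi B (z - m x) + chi C (z - m y) - k_m` is `0`, so `k_m = k`,
`#A + #B + #C = k p`, `k ∈ {1, 2}`.  If `k = 1`, no `z` lies in `A`, `B + m x`, `C + m y` (the value would be `2`).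
If `k = 2`, replace `A, B, C` by the complements: `- EE m z = chi A' z + chi B' (z - m x) + chi C' (z - m y) - 1`,
so the same holds, and the relations change sign.  By `stUniqSym` (applied to `f, g, h`):
`A` is symmetric about `α = (a + b - x - y) / 2`, `B` about `β = (a + b + 2 x - y) / 2`, `C` about
`γ = (a + b + 2 y - x) / 2`.  Put `x1 = (y - x) / 2`, `x2 = - y / 2`, `x3 = x / 2`, and
`S1 = x1 (A - α)`, `S2 = x2 (B - β)`, `S3 = x3 (C - γ)`, `a' = a / 2`, `b' = b / 2`: then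
`Tr p x1 x2 x3 a' b' ε S1 S2 S3` with `ε = - 1` (`k = 1`) or `ε = 1` (`k = 2`).
`free`: if `x1 u + x2 v + x3 w = 0` with `u + α ∈ A`, `v + β ∈ B`, `w + γ ∈ C`, let `m = (u - v + α - β) / x`
and `z = u + α`; then `z - m x = v + β` and `z - m y = w + γ`. -/
def stWall : Prop := ∀ (p : ℕ) [Fact p.Prime] (x y a b : ZMod p), 11 ≤ p → x ≠ 0 → y ≠ 0 → x ≠ y →
  a ≠ 0 → b ≠ 0 → ∃ (m : ℕ) (z : ZMod p), m < p ∧ 2 ≤ |EE x y a b m z|

/-- MODULE SMALLP.  `p = 3, 5, 7`: finite computations (`decide +kernel` after reducing to `x = 1` by scaling,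
or any other way: `m = 0` handles `a = ± b`). -/
def stSmallP : Prop := ∀ p : ℕ, (p = 3 ∨ p = 5 ∨ p = 7) → ∀ x y a b : ZMod p, x ≠ 0 → y ≠ 0 → x ≠ y →
  a ≠ 0 → b ≠ 0 → ∃ (m : ℕ) (z : ZMod p), m < p ∧ 2 ≤ |EE x y a b m z|

/-- MODULE BULK.  Let `D = α q + v` with `(p - 1) v + p ≤ q`, `N = (m + 1) q - 1` and `κ` with `(p - 1) v ≤ κ < q`.
For `e < p`, `κ - e D` is congruent modulo `p q` to `j q + κ - e v` with `j = (- e α) mod p`, and
`κ - e D - q D` to `j' q + κ - e v`, `j' = (- e α - D) mod p`.  Both are `≤ N` iff `j ≤ m` (`j' ≤ m`).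
For a position `s = j q + ρ`, `0 ≤ ρ < q`, `av p q s = ∑ l ≤ j, ([l q = s] - [l q = s - 1])` in `ZMod p`.  The
first sum, with `e = - j / α`, is the sum over `l ≤ j ≤ m` of `[l q - j D / α = κ] - [l q - j D / α = κ - 1]`,
and `l q - j D / α = (j - l) x + l y` with `x = - D / α`, `y = - v / α`.  In the second sum `e = - (j' + D) / α`
and `e D + q D = - j' D / α - D v / α`: the same with `κ` replaced by `κ - b`, `b = - D v / α`. -/
def stBulk : Prop := ∀ (p q α v κ m : ℕ) [Fact p.Prime], 0 < q → 1 ≤ v → (p - 1) * v + p ≤ q → m < p →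
  (p - 1) * v ≤ κ → κ < q → (α : ZMod p) ≠ 0 →
  Pool.Agent.Helper55.FT.G p q ((α * q + v : ℕ) : ℤ) (((m + 1) * q : ℕ) - 1 : ℤ) (κ : ℤ) =
    EE (-((α * q + v : ℕ) : ZMod p) / (α : ZMod p)) (-(v : ZMod p) / (α : ZMod p)) 1
      (-(((α * q + v : ℕ) : ZMod p) * (v : ZMod p)) / (α : ZMod p)) m (κ : ZMod p)

/-- MODULE DIVZERO.  `p ∣ v`, `D = α q + v`, `k = j0 q + j v`, `N = n q + j v`.  For `e ≤ j`, `k - e D` reduces to row
`ρ_e = (j0 - e α) mod p`, residue `(j - e) v`; for `e > j` to row `ρ_e - 1` (if `ρ_e ≥ 1`, otherwise row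
`p - 1 > n`), residue `q - (e - j) v > j v`.  The value `av` is `[e ≤ j] - [μ ≤ ρ_e]` with `μ = (1 / q) mod p`, so the
first family gives `∑_{ρ_e ≤ n} ([e ≤ j] - [μ ≤ ρ_e])`.  For the second family the row of `k - e D - q D` is that of
`ρ'_e = (j0 - (e + q) α) mod p` and the value is `[e ≤ j] - [μ ≤ ρ'_e]` for `ρ'_e ≤ n`.  The `μ` parts cancel
(both `e ↦ ρ_e` and `e ↦ ρ'_e` are bijections onto `[0, p)`).  (Checked numerically.) -/
def stDivZero : Prop := ∀ (p q α v j0 j n : ℕ) [Fact p.Prime], 0 < q → (q : ZMod p) ≠ 0 → 1 ≤ v → p ∣ v →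
  (p - 1) * v < q → (α : ZMod p) ≠ 0 → j0 < p → j + 1 < p → n + 1 < p →
  Pool.Agent.Helper55.FT.G p q ((α * q + v : ℕ) : ℤ) ((n * q + j * v : ℕ) : ℤ) ((j0 * q + j * v : ℕ) : ℤ) =
    (((range (j + 1)).filter (fun e : ℕ => ((j0 : ZMod p) - (e : ZMod p) * (α : ZMod p)).val ≤ n)).card : ℤ) -
    (((range (j + 1)).filter (fun e : ℕ => ((j0 : ZMod p) - ((e : ZMod p) + (q : ZMod p)) * (α : ZMod p)).val ≤ n)).card : ℤ)

/-- MODULE DIVBAL (uses `Pool.Agent.Helper8.Tern.balance`, import `Pool.Agent.Helper8.Tern.Comb`).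
Let `t = 1 / α`, `M = (q α).val` (so `M t = q`, `M ≠ 0, ± 1`), `L = (1 / M).val` (`L ≠ 0, ± 1`).  `balance M L t`
(with `V = M`, `e = L`; `V t = q ≠ ± 1`) gives `y, z` with `ff M L t y - ff M L t z ≥ 2`.  Let `V` with
`0 < V < p`, `V t = y - z`.  As `∑_{l < V} δ_{l t} - ∑_{l < V} δ_{(l + M) t} = ∑_{l < M} δ_{l t} -
∑_{l < M} δ_{(l + V) t}`, `ff V L t y - ff V L t (y - q) = ff M L t y - ff M L t (y - V t) ≥ 2`.  Finally
`ff V L t y` is the number of `(l, e)`, `l < V`, `e < L`, with `l t + e = y`, that is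
`l = α y - e α`: it is the number of `e < L` with `(α y - e α).val < V`.  Put `j0 = (α y).val`, `j = L - 1`,
`n = V - 1`. -/
def stDivBal : Prop := ∀ (p α q : ℕ) [Fact p.Prime], (α : ZMod p) ≠ 0 → (q : ZMod p) ≠ 0 →
  (q : ZMod p) ≠ 1 → (q : ZMod p) ≠ -1 → ((q * α : ℕ) : ZMod p) ≠ 1 → ((q * α : ℕ) : ZMod p) ≠ -1 →
  ∃ j0 j n : ℕ, j0 < p ∧ j + 1 < p ∧ n + 1 < p ∧
    2 ≤ (((range (j + 1)).filter (fun e : ℕ => ((j0 : ZMod p) - (e : ZMod p) * (α : ZMod p)).val ≤ n)).card : ℤ) -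
      (((range (j + 1)).filter (fun e : ℕ => ((j0 : ZMod p) - ((e : ZMod p) + (q : ZMod p)) * (α : ZMod p)).val ≤ n)).card : ℤ)

/-- MODULE DIVONE.  `p ∣ v`, `α q = 1` in `ZMod p`, `q ≠ 1`, `1 ≤ α < p` (so `2 ≤ α`), `D = α q + v`, `k = 1`,
`N = p q - D = (p - α) q - v`.  `ρ_e = (- e α) mod p`.
First family: `e = 0` is the position `1`, value `-1`.  `e ≥ 1`: row `ρ_e - 1`, residue `q + 1 - e v`, value
`[p ≤ ρ_e + α]`; it is `≤ N` iff `ρ_e - 1 < p - α - 1` (row `p - α - 1` means `ρ_e = p - α`, `e = 1`, residue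
`q + 1 - v > q - v`), and then the value is `0`.  Second family (`k - e D - q D`, row of `ρ_e - 1`): `e = 0`: row
`p - 1`, not counted.  `e ≥ 1`: `ρ_e = 1` gives row `p - 1`, not counted; `ρ_e ≥ 2`: row `ρ_e - 2`, residue
`q + 1 - e v`, value `[p + 1 ≤ ρ_e + α]`, counted iff `ρ_e - 2 < p - α - 1`, or `ρ_e - 2 = p - α - 1` and
`e ≥ 2`.  `ρ_e = p - α + 1` happens for `e = (1 - q) mod p ≥ 2`.  So the first family gives `-1`, the second
`1`.  (Checked numerically.) -/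
def stDivOne : Prop := ∀ (p q α v : ℕ) [Fact p.Prime], 0 < q → 1 ≤ v → p ∣ v → (p - 1) * v < q → α < p →
  ((α * q : ℕ) : ZMod p) = 1 → (q : ZMod p) ≠ 1 →
  Pool.Agent.Helper55.FT.G p q ((α * q + v : ℕ) : ℤ) ((p * q : ℕ) - (α * q + v : ℕ) : ℤ) 1 = -2

/-- MODULE DIVMINUS.  `p ∣ v`, `α q = -1`, `q ≠ -1` in `ZMod p`, `2 ≤ α < p`, `Q = q mod p` (`1 ≤ Q ≤ p - 2`),
`D = α q + v`, `k = (α - 2) q + Q v + 1`, `N = (α - 1) q + 1`.  `ρ_e = (α - 2 - e α) mod p`.
First family: `e ≤ Q`: row `ρ_e`, residue `(Q - e) v + 1`, value `[α ≤ ρ_e] - 1`; `e > Q`: row `ρ_e - 1` (row `p - 1`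
if `ρ_e = 0`), residue `q - (e - Q) v + 1`, value `[α ≤ ρ_e]`.  `ρ_Q = α - 1`.  So the total of the first family is
`- #{e ≤ Q : ρ_e ≤ α - 2} - 1` (the `-1` for `e = Q`).  Second family: the same with `ρ_e` replaced by
`ρ'_e = (ρ_e + 1) mod p` (`ρ'_Q = α` is not counted): the total is `- #{e ≤ Q : ρ'_e ≤ α - 2}`.  The difference is
`-1 - #{e ≤ Q : ρ_e = α - 2} + #{e ≤ Q : ρ_e = p - 1}`; `ρ_e = α - 2` iff `e = 0`, and `ρ_e = p - 1` iff
`e = Q + 1`.  So it is `-2`.  (Checked numerically.) -/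
def stDivMinus : Prop := ∀ (p q α v : ℕ) [Fact p.Prime], 0 < q → 1 ≤ v → p ∣ v → (p - 1) * v < q →
  α < p → 2 ≤ α → ((α * q : ℕ) : ZMod p) = -1 → (q : ZMod p) ≠ -1 →
  Pool.Agent.Helper55.FT.G p q ((α * q + v : ℕ) : ℤ) (((α - 1) * q + 1 : ℕ) : ℤ) (((α - 2) * q + (q % p) * v + 1 : ℕ) : ℤ) = -2

end Pool.Agent.Helper10.W1
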